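import Pool.Agent.Lib.MP_7b7e48_nt.MG.Basic

/-!
# B01: size of Bohr sets, basic properties

`bohr_card`: pigeonhole.  Let `k = |Γ|`, `h = ρ / 2`.  Map `t ∈ G` to the function
`ψ ↦ (⌊(ψ t).re / h⌋, ⌊(ψ t).im / h⌋)` on `Γ` (`‖ψ t‖ = 1`, so both integers lie in
`[-⌈1/h⌉, ⌊1/h⌋]`, at most `2 / h + 2 ≤ 6 / ρ` values).  Some fibre `T` has at least
`|G| / (36 / ρ ^ 2) ^ k` elements; fix `t₀ ∈ T`; for `t ∈ T`, `‖ψ (t - t₀) - 1‖ = ‖ψ t - ψ t₀‖ ≤
√2 * h ≤ ρ`, so `t ↦ t - t₀` maps `T` into `Bohr Γ ρ`.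
-/

open Finset

namespace Pool.Agent.Lib.MG

variable {G : Type} [AddCommGroup G] [Fintype G] [DecidableEq G]

theorem mem_bohr {Γ : Finset (AddChar G ℂ)} {ρ : ℝ} {t : G} :
    t ∈ Bohr Γ ρ ↔ ∀ ψ ∈ Γ, ‖ψ t - 1‖ ≤ ρ := by
  unfold Bohr
  simp

theorem zero_mem_bohr (Γ : Finset (AddChar G ℂ)) {ρ : ℝ} (hρ : 0 ≤ ρ) : (0 : G) ∈ Bohr Γ ρ := by
  rw [mem_bohr]
  intro ψ _
  rw [AddChar.map_zero_eq_one, sub_self, norm_zero]
  exact hρ

theorem norm_char_add (ψ : AddChar G ℂ) (s t : G) : ‖ψ (s + t) - 1‖ ≤ ‖ψ s - 1‖ + ‖ψ t - 1‖ := by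
  rw [AddChar.map_add_eq_mul]
  have h1 : ψ s * ψ t - 1 = ψ s * (ψ t - 1) + (ψ s - 1) := by ring
  rw [h1]
  refine (norm_add_le _ _).trans ?_
  rw [norm_mul, AddChar.norm_apply ψ s, one_mul]
  linarith

theorem norm_char_neg (ψ : AddChar G ℂ) (t : G) : ‖ψ (-t) - 1‖ = ‖ψ t - 1‖ := by
  rw [AddChar.map_neg_eq_conj]
  have : (starRingEnd ℂ) (ψ t) - 1 = (starRingEnd ℂ) (ψ t - 1) := by simp
  rw [this, RCLike.norm_conj]

theorem neg_mem_bohr {Γ : Finset (AddChar G ℂ)} {ρ : ℝ} {t : G} (h : t ∈ Bohr Γ ρ) :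
    -t ∈ Bohr Γ ρ := by
  rw [mem_bohr] at h ⊢
  intro ψ hψ
  rw [norm_char_neg]
  exact h ψ hψ

theorem add_mem_bohr {Γ : Finset (AddChar G ℂ)} {ρ ρ' : ℝ} {s t : G} (hs : s ∈ Bohr Γ ρ)
    (ht : t ∈ Bohr Γ ρ') : s + t ∈ Bohr Γ (ρ + ρ') := by
  rw [mem_bohr] at hs ht ⊢
  intro ψ hψ
  exact (norm_char_add ψ s t).trans (add_le_add (hs ψ hψ) (ht ψ hψ))

theorem bohr_mono {Γ Γ' : Finset (AddChar G ℂ)} {ρ ρ' : ℝ} (hΓ : Γ ⊆ Γ') (hρ : ρ' ≤ ρ) :
    Bohr (G := G) Γ' ρ' ⊆ Bohr Γ ρ := by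
  intro t ht
  rw [mem_bohr] at ht ⊢
  intro ψ hψ
  exact (ht ψ (hΓ hψ)).trans hρ

theorem bohr_card (Γ : Finset (AddChar G ℂ)) {ρ : ℝ} (hρ : 0 < ρ) (hρ1 : ρ ≤ 1) :
    (ρ / 6) ^ (2 * Γ.card) * (Fintype.card G : ℝ) ≤ ((Bohr (G := G) Γ ρ).card : ℝ) := by
  classical
  set h : ℝ := ρ / 2 with hh
  have hh0 : 0 < h := by positivity
  let I : Finset ℤ := Finset.Icc (-⌈1 / h⌉) ⌊1 / h⌋
  let F : G → (Γ → ℤ × ℤ) := fun t ψ => (⌊((ψ : AddChar G ℂ) t).re / h⌋, ⌊((ψ : AddChar G ℂ) t).im / h⌋)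
  let T : Finset (Γ → ℤ × ℤ) := Fintype.piFinset (fun _ => I ×ˢ I)
  have hI : ∀ x : ℝ, |x| ≤ 1 → ⌊x / h⌋ ∈ I := by
    intro x hx
    rw [Finset.mem_Icc]
    have h1 := abs_le.1 hx
    constructor
    · rw [Int.le_floor, Int.cast_neg]
      have h2 : (1 / h : ℝ) ≤ (⌈1 / h⌉ : ℤ) := Int.le_ceil _
      have h3 : -(1 / h) ≤ x / h := by
        rw [← neg_div]
        exact div_le_div_of_nonneg_right h1.1 hh0.le
      linarith
    · exact Int.floor_le_floor (div_le_div_of_nonneg_right h1.2 hh0.le)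
  have hmaps : ∀ t ∈ (univ : Finset G), F t ∈ T := by
    intro t _
    rw [Fintype.mem_piFinset]
    intro ψ
    rw [Finset.mem_product]
    have hn : ‖(ψ : AddChar G ℂ) t‖ = 1 := AddChar.norm_apply _ _
    constructor
    · exact hI _ (by rw [← hn]; exact Complex.abs_re_le_norm _)
    · exact hI _ (by rw [← hn]; exact Complex.abs_im_le_norm _)
  have hIne : (0 : ℤ) ∈ I := by
    have := hI 0 (by simp)
    simpa using this
  have hTne : T.Nonempty := by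
    refine ⟨fun _ => (0, 0), ?_⟩
    rw [Fintype.mem_piFinset]
    intro ψ
    rw [Finset.mem_product]
    exact ⟨hIne, hIne⟩
  have hIcard : (I.card : ℝ) ≤ 6 / ρ := by
    have h1 : (I.card : ℤ) = ⌊1 / h⌋ + 1 - (-⌈1 / h⌉) := by
      have h0 : (0 : ℤ) ≤ ⌊1 / h⌋ := Int.floor_nonneg.2 (by positivity)
      have h0' : (0 : ℤ) ≤ ⌈1 / h⌉ := Int.ceil_nonneg (by positivity)
      rw [Int.card_Icc, Int.toNat_of_nonneg (by omega)]
    have h2 : (I.card : ℝ) = (⌊1 / h⌋ : ℝ) + 1 + (⌈1 / h⌉ : ℝ) := by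
      have := congrArg (fun z : ℤ => (z : ℝ)) h1
      push_cast at this
      linarith
    have h3 : (⌊1 / h⌋ : ℝ) ≤ 1 / h := Int.floor_le _
    have h4 : (⌈1 / h⌉ : ℝ) < 1 / h + 1 := Int.ceil_lt_add_one _
    have h5 : 1 / h = 2 / ρ := by rw [hh]; field_simp
    have h6 : 1 ≤ 1 / ρ := by rw [le_div_iff₀ hρ]; linarith
    have h7 : 6 / ρ = 2 / ρ + 2 / ρ + 2 * (1 / ρ) := by ring
    have h3' : (⌊1 / h⌋ : ℝ) ≤ 2 / ρ := h3.trans_eq h5
    have h4' : (⌈1 / h⌉ : ℝ) < 2 / ρ + 1 := h4.trans_eq (by rw [h5])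
    rw [h2, h7]
    linarith
  set b : ℝ := (ρ / 6) ^ (2 * Γ.card) * (Fintype.card G : ℝ) with hb
  have hTcard : (T.card : ℝ) = (I.card : ℝ) ^ (2 * Γ.card) := by
    have : T.card = (I.card * I.card) ^ Γ.card := by
      rw [Fintype.card_piFinset]
      simp only [Finset.card_product, Finset.prod_const, Finset.card_univ, Fintype.card_coe]
    rw [this, pow_mul]
    push_cast
    rw [← sq]
  have hle : T.card • b ≤ ((univ : Finset G).card : ℝ) := by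
    rw [nsmul_eq_mul, hTcard, hb, Finset.card_univ, ← mul_assoc, ← mul_pow]
    have h1 : (I.card : ℝ) * (ρ / 6) ≤ 1 := by
      calc (I.card : ℝ) * (ρ / 6) ≤ 6 / ρ * (ρ / 6) :=
            mul_le_mul_of_nonneg_right hIcard (by positivity)
        _ = 1 := by field_simp
    have h2 : ((I.card : ℝ) * (ρ / 6)) ^ (2 * Γ.card) ≤ 1 := pow_le_one₀ (by positivity) h1
    calc ((I.card : ℝ) * (ρ / 6)) ^ (2 * Γ.card) * (Fintype.card G : ℝ)
        ≤ 1 * (Fintype.card G : ℝ) := mul_le_mul_of_nonneg_right h2 (by positivity)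
      _ = _ := one_mul _
  obtain ⟨y, _, hy⟩ := Finset.exists_le_card_fiber_of_nsmul_le_card_of_maps_to hmaps hTne hle
  have hbpos : 0 < b := mul_pos (by positivity) card_pos'
  have hne : (univ.filter (fun t => F t = y)).Nonempty := by
    rw [← Finset.card_pos]
    exact_mod_cast hbpos.trans_le hy
  obtain ⟨t₀, ht₀⟩ := hne
  refine hy.trans ?_
  have hinj : (univ.filter (fun t => F t = y)).card ≤ (Bohr Γ ρ).card := by
    refine Finset.card_le_card_of_injOn (fun t => t - t₀) ?_ ?_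
    · intro t ht
      rw [Finset.mem_coe, Finset.mem_filter] at ht
      rw [Finset.mem_filter] at ht₀
      show t - t₀ ∈ (↑(Bohr Γ ρ) : Set G)
      rw [Finset.mem_coe, mem_bohr]
      intro ψ hψ
      have e1 : F t = F t₀ := ht.2.trans ht₀.2.symm
      have e2 := congrFun e1 ⟨ψ, hψ⟩
      have e3 : ⌊(ψ t).re / h⌋ = ⌊(ψ t₀).re / h⌋ := congrArg Prod.fst e2
      have e4 : ⌊(ψ t).im / h⌋ = ⌊(ψ t₀).im / h⌋ := congrArg Prod.snd e2
      have key : ∀ u v : ℝ, ⌊u / h⌋ = ⌊v / h⌋ → |u - v| ≤ h := by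
        intro u v huv
        have := Int.abs_sub_lt_one_of_floor_eq_floor huv
        rw [← sub_div, abs_div, abs_of_pos hh0, div_lt_one hh0] at this
        exact this.le
      have k1 := key _ _ e3
      have k2 := key _ _ e4
      have k3 : ‖ψ t - ψ t₀‖ ≤ ρ := by
        refine (Complex.norm_le_abs_re_add_abs_im _).trans ?_
        rw [Complex.sub_re, Complex.sub_im]
        rw [hh] at k1 k2
        linarith
      have k4 : ψ t = ψ (t - t₀) * ψ t₀ := by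
        rw [← AddChar.map_add_eq_mul, sub_add_cancel]
      have k5 : ‖ψ (t - t₀) - 1‖ = ‖ψ t - ψ t₀‖ := by
        have k6 : ψ t - ψ t₀ = (ψ (t - t₀) - 1) * ψ t₀ := by rw [k4]; ring
        rw [k6, norm_mul, AddChar.norm_apply, mul_one]
      rw [k5]
      exact k3
    · intro a _ b _ hab
      exact sub_left_injective hab
  exact_mod_cast hinj

theorem unif_prob {B : Finset G} (hB : B.Nonempty) : Prob (unif B) := by
  constructor
  · intro x
    unfold unif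
    split_ifs
    · positivity
    · exact le_rfl
  · unfold unif
    rw [Finset.sum_ite_mem, Finset.univ_inter, Finset.sum_const, nsmul_eq_mul, mul_inv_cancel₀]
    exact_mod_cast (Finset.card_pos.mpr hB).ne'

theorem unif_ne_zero {B : Finset G} {x : G} (h : unif B x ≠ 0) : x ∈ B := by
  unfold unif at h
  by_contra hx
  rw [if_neg hx] at h
  exact h rfl

end Pool.Agent.Lib.MG
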