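import Pool.Agent.Lib.MP_7b7e48_nt.MG.B01

/-!
# B02: regular Bohr cells

Let `B r = Bohr Γ r`, `J = ⌈2 K / ε'⌉₊` with `ε' = ε / 2`, radii `r j = ρ0 / 2 + j * ρ0 / (2 J)`,
`0 ≤ j ≤ J`.
(1) `|B (r (j + 1))| ≤ (1 + ε') |B (r j)|` for some `j < J`: otherwise
`|B ρ0| > (1 + ε') ^ J |B (ρ0 / 2)|`, but `|B ρ0| ≤ |G| ≤ exp K * |B (ρ0 / 2)|` (`bohr_card`, `hK`)
and `(1 + ε') ^ J ≥ exp (J ε' / 2) ≥ exp K` (`1 + x ≥ exp (x / 2)` on `[0, 1]`).
(2) Take `ρ = (r j + r (j+1)) / 2` and `τ = ρ0 * ε / (64 K)`; then `2 τ ≤ ρ0 / (4 J)` (as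
`J ≤ 4 K / ε' = 8 K / ε`, since `K / ε' ≥ 1`), so `r j ≤ ρ - 2 τ`, `ρ + 2 τ ≤ r (j+1)`.
(3) `A = B (ρ + 2 τ) \ B (ρ - 2 τ)`, `|A| ≤ ε' |B (ρ - 2 τ)| ≤ ε' |B ρ|`.  For `u ∈ B τ`,
if exactly one of `x + u`, `x` is in `B ρ` then `x ∈ B (ρ + τ) \ B (ρ - τ)` and `x - t ∈ A` for
every `t ∈ B τ`.  So `|unif (x + u) - unif x| ≤ |B ρ|⁻¹ * Ex (unif (B τ)) (fun t => 1_A (x - t))`.
(4) `D' = (1_A / |B ρ| + ε' * unif (B ρ)) / (|A| / |B ρ| + ε')` is a probability weight with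
`1_A / |B ρ| ≤ 2 ε' D' = ε D'`, and `D' x * |G| ≤ (2 / ε') * |G| / |B ρ| ≤ exp K` by `hK`; `E' =
unif (B τ)`, `|G| / |B τ| ≤ (6 / τ) ^ (2 |Γ|) = (384 K / (ρ0 ε)) ^ (2 |Γ|) ≤ exp K`.
-/

open Finset

namespace Pool.Agent.Lib.MG

variable {G : Type} [AddCommGroup G] [Fintype G] [DecidableEq G]

lemma b02_exp {x : ℝ} (h0 : 0 ≤ x) (h1 : x ≤ 1) : Real.exp (x / 2) ≤ 1 + x := by
  have h2 := Real.add_one_le_exp (-(x / 2))
  have h3 : Real.exp (-(x / 2)) * Real.exp (x / 2) = 1 := by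
    rw [← Real.exp_add, neg_add_cancel, Real.exp_zero]
  have h4 : 0 < Real.exp (x / 2) := Real.exp_pos _
  have h5 : (1 - x / 2) * Real.exp (x / 2) ≤ 1 := by
    rw [← h3]
    exact mul_le_mul_of_nonneg_right (by linarith) h4.le
  have h6 : 1 ≤ (1 + x) * (1 - x / 2) := by nlinarith
  have h7 : 0 < 1 - x / 2 := by linarith
  have h8 : (1 - x / 2) * Real.exp (x / 2) ≤ (1 - x / 2) * (1 + x) := by
    calc (1 - x / 2) * Real.exp (x / 2) ≤ 1 := h5
      _ ≤ (1 + x) * (1 - x / 2) := h6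
      _ = _ := mul_comm _ _
  exact le_of_mul_le_mul_left h8 h7

/-- one step with small growth -/
lemma b02_step (f : ℕ → ℝ) (J : ℕ) (q : ℝ) (hq : 0 ≤ q) (h : f J < q ^ J * f 0) :
    ∃ j < J, f (j + 1) ≤ q * f j := by
  by_contra hc
  push Not at hc
  have key : ∀ j ≤ J, q ^ j * f 0 ≤ f j := by
    intro j
    induction j with
    | zero => intro _; simp
    | succ j ih =>
      intro hj
      have h1 := ih (by omega)
      have h2 := hc j (by omega)
      calc q ^ (j + 1) * f 0 = q * (q ^ j * f 0) := by ring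
        _ ≤ q * f j := mul_le_mul_of_nonneg_left h1 hq
        _ ≤ f (j + 1) := h2.le
  exact absurd (key J le_rfl) (not_le.2 h)

/-- the uniform weight on a large set -/
lemma b02_pw {B : Finset G} (hB : B.Nonempty) {K : ℝ}
    (h : (Fintype.card G : ℝ) ≤ Real.exp K * (B.card : ℝ)) : PW K (unif B) := by
  refine ⟨unif_prob hB, fun x => ?_⟩
  have hc : (0 : ℝ) < (B.card : ℝ) := by exact_mod_cast Finset.card_pos.2 hB
  unfold unif
  split_ifs
  · rw [inv_mul_le_iff₀ hc, mul_comm]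
    exact h
  · rw [zero_mul]
    exact (Real.exp_pos _).le

/-- the smoothing step for an arbitrary pair of sets -/
lemma b02_smooth {K ε : ℝ} (hε : 0 < ε) (hε1 : ε ≤ 1) {B T A : Finset G} (hT : T.Nonempty)
    (hB : B.Nonempty) (hTpw : (Fintype.card G : ℝ) ≤ Real.exp K * (T.card : ℝ))
    (hBpw : 4 / ε * (Fintype.card G : ℝ) ≤ Real.exp K * (B.card : ℝ))
    (hA : (A.card : ℝ) ≤ ε / 2 * (B.card : ℝ))
    (hsub : ∀ u ∈ T, ∀ t ∈ T, ∀ x, ¬(x + u ∈ B ↔ x ∈ B) → x - t ∈ A) :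
    Smooth K ε (↑T : Set G) (unif B) := by
  have hb : (0 : ℝ) < (B.card : ℝ) := by exact_mod_cast Finset.card_pos.2 hB
  have ha : (0 : ℝ) ≤ (A.card : ℝ) := Nat.cast_nonneg _
  have hG : (0 : ℝ) < (Fintype.card G : ℝ) := card_pos'
  have h4 : 1 ≤ 4 / ε := by rw [le_div_iff₀ hε]; linarith
  set q : ℝ := (A.card : ℝ) / (B.card : ℝ) + ε / 2 with hq
  have hq0 : ε / 2 ≤ q := by
    rw [hq]
    have : 0 ≤ (A.card : ℝ) / (B.card : ℝ) := by positivity
    linarith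
  have hqpos : 0 < q := by linarith
  have hq1 : q ≤ ε := by
    rw [hq]
    have : (A.card : ℝ) / (B.card : ℝ) ≤ ε / 2 := by
      rw [div_le_iff₀ hb]
      exact hA
    linarith
  have hBpw' : (Fintype.card G : ℝ) ≤ Real.exp K * (B.card : ℝ) := by
    refine le_trans ?_ hBpw
    nlinarith
  let D' : G → ℝ := fun x => ((if x ∈ A then ((B.card : ℝ))⁻¹ else 0) + ε / 2 * unif B x) / q
  have hD'nn : ∀ x, 0 ≤ D' x := by
    intro x
    have h1 : 0 ≤ unif B x := (unif_prob hB).nonneg x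
    have h2 : (0 : ℝ) ≤ (if x ∈ A then ((B.card : ℝ))⁻¹ else 0) := by
      split_ifs
      · positivity
      · exact le_rfl
    show 0 ≤ ((if x ∈ A then ((B.card : ℝ))⁻¹ else 0) + ε / 2 * unif B x) / q
    positivity
  refine ⟨b02_pw hB hBpw', D', unif T, ⟨⟨hD'nn, ?_⟩, ?_⟩, b02_pw hT hTpw, ?_⟩
  · show ∑ x, ((if x ∈ A then ((B.card : ℝ))⁻¹ else 0) + ε / 2 * unif B x) / q = 1
    rw [← Finset.sum_div, Finset.sum_add_distrib, ← Finset.mul_sum, (unif_prob hB).sum_one,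
      Finset.sum_ite_mem, Finset.univ_inter, Finset.sum_const, nsmul_eq_mul, mul_one,
      ← div_eq_mul_inv, ← hq, div_self hqpos.ne']
  · intro x
    have h1 : (if x ∈ A then ((B.card : ℝ))⁻¹ else 0) ≤ ((B.card : ℝ))⁻¹ := by
      split_ifs
      · exact le_rfl
      · positivity
    have h2 : unif B x ≤ ((B.card : ℝ))⁻¹ := by
      unfold unif
      split_ifs
      · exact le_rfl
      · positivity
    have h3 : D' x ≤ (4 / ε) * ((B.card : ℝ))⁻¹ := by
      show ((if x ∈ A then ((B.card : ℝ))⁻¹ else 0) + ε / 2 * unif B x) / q ≤ _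
      have hbi : 0 < ((B.card : ℝ))⁻¹ := by positivity
      calc ((if x ∈ A then ((B.card : ℝ))⁻¹ else 0) + ε / 2 * unif B x) / q
          ≤ (2 * ((B.card : ℝ))⁻¹) / q := by
            refine div_le_div_of_nonneg_right ?_ hqpos.le
            nlinarith
        _ ≤ (2 * ((B.card : ℝ))⁻¹) / (ε / 2) :=
            div_le_div_of_nonneg_left (by positivity) (by positivity) hq0
        _ = _ := by field_simp; norm_num
    calc D' x * (Fintype.card G : ℝ) ≤ (4 / ε) * ((B.card : ℝ))⁻¹ * (Fintype.card G : ℝ) :=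
          mul_le_mul_of_nonneg_right h3 hG.le
      _ = (4 / ε * (Fintype.card G : ℝ)) * ((B.card : ℝ))⁻¹ := by ring
      _ ≤ (Real.exp K * (B.card : ℝ)) * ((B.card : ℝ))⁻¹ :=
          mul_le_mul_of_nonneg_right hBpw (by positivity)
      _ = Real.exp K := by rw [mul_assoc, mul_inv_cancel₀ hb.ne', mul_one]
  · intro u hu x
    rw [Finset.mem_coe] at hu
    by_cases hx : (x + u ∈ B ↔ x ∈ B)
    · have h1 : unif B (x + u) = unif B x := by
        unfold unif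
        by_cases h2 : x ∈ B
        · rw [if_pos h2, if_pos (hx.2 h2)]
        · rw [if_neg h2, if_neg (fun h3 => h2 (hx.1 h3))]
      rw [h1, sub_self, abs_zero]
      exact mul_nonneg hε.le (Ex_nonneg (unif_prob hT) fun t => hD'nn _)
    · have h1 : |unif B (x + u) - unif B x| ≤ ((B.card : ℝ))⁻¹ := by
        have hbi : 0 ≤ ((B.card : ℝ))⁻¹ := by positivity
        unfold unif
        split_ifs <;> simp [hbi]
      refine h1.trans ?_
      have h2 : ((B.card : ℝ))⁻¹ / ε ≤ Ex (unif T) (fun t => D' (x - t)) := by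
        have h3 : Ex (unif T) (fun _ => ((B.card : ℝ))⁻¹ / ε) = ((B.card : ℝ))⁻¹ / ε :=
          Ex_const (unif_prob hT) _
        rw [← h3]
        refine Ex_le_supp (unif_prob hT) fun t ht => ?_
        have h4 := hsub u hu t (unif_ne_zero ht) x hx
        have h5 : 0 ≤ unif B (x - t) := (unif_prob hB).nonneg _
        show _ ≤ ((if x - t ∈ A then ((B.card : ℝ))⁻¹ else 0) + ε / 2 * unif B (x - t)) / q
        rw [if_pos h4]
        calc ((B.card : ℝ))⁻¹ / ε ≤ ((B.card : ℝ))⁻¹ / q :=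
              div_le_div_of_nonneg_left (by positivity) hqpos hq1
          _ ≤ _ := by
              refine div_le_div_of_nonneg_right ?_ hqpos.le
              have : 0 ≤ ε / 2 * unif B (x - t) := by positivity
              linarith
      rw [div_le_iff₀ hε, mul_comm] at h2
      exact h2

theorem exists_cell (Γ : Finset (AddChar G ℂ)) {ρ0 ε K : ℝ} (hρ : 0 < ρ0) (hρ1 : ρ0 ≤ 1)
    (hε : 0 < ε) (hε1 : ε ≤ 1) (hK1 : 1 ≤ K)
    (hK : Real.log (4 / ε) + 2 * (Γ.card : ℝ) * Real.log (384 * K / (ρ0 * ε)) ≤ K) :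
    ∃ ρ : ℝ, ρ0 / 2 ≤ ρ ∧ ρ ≤ ρ0 ∧ Good K ε Γ ρ (ρ0 * ε / (64 * K)) := by
  have hK0 : 0 < K := by linarith
  have hG : (0 : ℝ) < (Fintype.card G : ℝ) := card_pos'
  have hρε : 0 < ρ0 * ε := mul_pos hρ hε
  set W : ℝ := 384 * K / (ρ0 * ε) with hW
  have hWpos : 0 < W := by positivity
  set τ : ℝ := ρ0 * ε / (64 * K) with hτ
  have hτpos : 0 < τ := by positivity
  have hWτ : 6 / τ = W := by
    rw [hW, hτ]
    field_simp
    norm_num
  have hρε1 : ρ0 * ε ≤ 1 := by nlinarith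
  have hτ1 : τ ≤ 1 := by
    rw [hτ, div_le_iff₀ (by positivity)]
    linarith
  -- the main size bound
  have hmain : 4 / ε * W ^ (2 * Γ.card) ≤ Real.exp K := by
    have h1 : (0 : ℝ) < 4 / ε := by positivity
    have h2 : Real.exp (Real.log (4 / ε) + 2 * (Γ.card : ℝ) * Real.log W) =
        4 / ε * W ^ (2 * Γ.card) := by
      rw [Real.exp_add, Real.exp_log h1]
      congr 1
      have h3 : 2 * (Γ.card : ℝ) * Real.log W = ((2 * Γ.card : ℕ) : ℝ) * Real.log W := by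
        push_cast
        ring
      rw [h3, Real.exp_nat_mul, Real.exp_log hWpos]
    rw [← h2]
    exact Real.exp_le_exp.2 hK
  have hcard : ∀ r : ℝ, τ ≤ r → r ≤ 1 →
      4 / ε * (Fintype.card G : ℝ) ≤ Real.exp K * ((Bohr (G := G) Γ r).card : ℝ) := by
    intro r hr hr1
    have hr0 : 0 < r := hτpos.trans_le hr
    have h1 := bohr_card (G := G) Γ hr0 hr1
    have h2 : 6 / r ≤ W := by
      rw [← hWτ]
      exact div_le_div_of_nonneg_left (by norm_num) hτpos hr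
    have h3 : (Fintype.card G : ℝ) ≤ (6 / r) ^ (2 * Γ.card) * ((Bohr (G := G) Γ r).card : ℝ) := by
      have h4 : (6 / r) ^ (2 * Γ.card) * ((r / 6) ^ (2 * Γ.card) * (Fintype.card G : ℝ)) =
          (Fintype.card G : ℝ) := by
        rw [← mul_assoc, ← mul_pow]
        have : 6 / r * (r / 6) = 1 := by field_simp
        rw [this, one_pow, one_mul]
      calc (Fintype.card G : ℝ) =
            (6 / r) ^ (2 * Γ.card) * ((r / 6) ^ (2 * Γ.card) * (Fintype.card G : ℝ)) := h4.symm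
        _ ≤ _ := mul_le_mul_of_nonneg_left h1 (by positivity)
    have h5 : (6 / r) ^ (2 * Γ.card) ≤ W ^ (2 * Γ.card) := pow_le_pow_left₀ (by positivity) h2 _
    calc 4 / ε * (Fintype.card G : ℝ)
        ≤ 4 / ε * ((6 / r) ^ (2 * Γ.card) * ((Bohr (G := G) Γ r).card : ℝ)) :=
          mul_le_mul_of_nonneg_left h3 (by positivity)
      _ ≤ 4 / ε * (W ^ (2 * Γ.card) * ((Bohr (G := G) Γ r).card : ℝ)) := by
          refine mul_le_mul_of_nonneg_left ?_ (by positivity)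
          exact mul_le_mul_of_nonneg_right h5 (Nat.cast_nonneg _)
      _ = 4 / ε * W ^ (2 * Γ.card) * ((Bohr (G := G) Γ r).card : ℝ) := by ring
      _ ≤ _ := mul_le_mul_of_nonneg_right hmain (Nat.cast_nonneg _)
  -- radii
  set J : ℕ := ⌈4 * K / ε⌉₊ with hJ
  have hKε : 4 ≤ 4 * K / ε := by
    rw [le_div_iff₀ hε]
    nlinarith
  have hJ1 : 4 * K / ε ≤ (J : ℝ) := Nat.le_ceil _
  have hJ2 : (J : ℝ) ≤ 8 * K / ε := by
    have h1 : (J : ℝ) < 4 * K / ε + 1 := Nat.ceil_lt_add_one (by positivity)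
    have h2 : 8 * K / ε = 4 * K / ε + 4 * K / ε := by ring
    rw [h2]
    linarith
  have hJpos : (0 : ℝ) < (J : ℝ) := by linarith
  let r : ℕ → ℝ := fun j => ρ0 / 2 + j * (ρ0 / (2 * J))
  have hr0 : r 0 = ρ0 / 2 := by simp [r]
  have hrJ : r J = ρ0 := by
    show ρ0 / 2 + J * (ρ0 / (2 * J)) = ρ0
    field_simp
    norm_num
  have hrs : ∀ j, r (j + 1) = r j + ρ0 / (2 * J) := by
    intro j
    show ρ0 / 2 + ((j + 1 : ℕ) : ℝ) * (ρ0 / (2 * J)) = ρ0 / 2 + j * (ρ0 / (2 * J)) + ρ0 / (2 * J)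
    push_cast
    ring
  have hgap : 4 * τ ≤ ρ0 / (2 * J) := by
    rw [le_div_iff₀ (by positivity)]
    have h1 : τ * (64 * K) = ρ0 * ε := by
      rw [hτ]
      field_simp
    have h2 : (J : ℝ) * ε ≤ 8 * K := by
      rw [le_div_iff₀ hε] at hJ2
      exact hJ2
    have h3 : τ * ε * J ≤ τ * (8 * K) := by nlinarith
    have h4 : (4 * τ * (2 * J)) * ε ≤ ρ0 * ε := by nlinarith
    exact le_of_mul_le_mul_right h4 hε
  have hρhalf : τ ≤ ρ0 / 2 := by
    rw [hτ, div_le_iff₀ (by positivity)]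
    nlinarith
  obtain ⟨j, hj, hjs⟩ := b02_step (fun j => ((Bohr (G := G) Γ (r j)).card : ℝ)) J (1 + ε / 2)
    (by positivity) (by
      show ((Bohr (G := G) Γ (r J)).card : ℝ) < (1 + ε / 2) ^ J * ((Bohr (G := G) Γ (r 0)).card : ℝ)
      rw [hr0]
      have h1 := hcard (ρ0 / 2) hρhalf (by linarith)
      have h2 : Real.exp K ≤ (1 + ε / 2) ^ J := by
        have h3 := b02_exp (x := ε / 2) (by positivity) (by linarith)
        have h4 : Real.exp (J * (ε / 2 / 2)) ≤ (1 + ε / 2) ^ J := by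
          rw [Real.exp_nat_mul]
          exact pow_le_pow_left₀ (Real.exp_pos _).le h3 _
        refine le_trans (Real.exp_le_exp.2 ?_) h4
        rw [div_le_iff₀ hε] at hJ1
        linarith
      have h5 : ((Bohr (G := G) Γ (r J)).card : ℝ) ≤ (Fintype.card G : ℝ) := by
        exact_mod_cast Finset.card_le_univ _
      have h6 : (Fintype.card G : ℝ) < 4 / ε * (Fintype.card G : ℝ) := by
        have : 1 < 4 / ε := by rw [lt_div_iff₀ hε]; linarith
        nlinarith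
      calc ((Bohr (G := G) Γ (r J)).card : ℝ) ≤ (Fintype.card G : ℝ) := h5
        _ < 4 / ε * (Fintype.card G : ℝ) := h6
        _ ≤ Real.exp K * ((Bohr (G := G) Γ (ρ0 / 2)).card : ℝ) := h1
        _ ≤ _ := mul_le_mul_of_nonneg_right h2 (Nat.cast_nonneg _))
  replace hjs : ((Bohr (G := G) Γ (r (j + 1))).card : ℝ) ≤
      (1 + ε / 2) * ((Bohr (G := G) Γ (r j)).card : ℝ) := hjs
  have hrj : ρ0 / 2 ≤ r j := by
    show ρ0 / 2 ≤ ρ0 / 2 + j * (ρ0 / (2 * J))
    have : 0 ≤ (j : ℝ) * (ρ0 / (2 * J)) := by positivity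
    linarith
  have hrj1 : r (j + 1) ≤ ρ0 := by
    rw [← hrJ]
    show ρ0 / 2 + ((j + 1 : ℕ) : ℝ) * (ρ0 / (2 * J)) ≤ ρ0 / 2 + J * (ρ0 / (2 * J))
    have h1 : ((j + 1 : ℕ) : ℝ) ≤ (J : ℝ) := by exact_mod_cast hj
    have h2 := mul_le_mul_of_nonneg_right h1 (by positivity : 0 ≤ ρ0 / (2 * J))
    linarith
  have hrs' := hrs j
  refine ⟨r j + ρ0 / (4 * J), ?_, ?_, ?_⟩
  · have : 0 ≤ ρ0 / (4 * J) := by positivity
    linarith
  · have h1 : ρ0 / (2 * J) = ρ0 / (4 * J) + ρ0 / (4 * J) := by field_simp; norm_num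
    have : 0 ≤ ρ0 / (4 * J) := by positivity
    linarith
  · set ρ : ℝ := r j + ρ0 / (4 * J) with hρdef
    have hhalf : ρ0 / (2 * J) = ρ0 / (4 * J) + ρ0 / (4 * J) := by field_simp; norm_num
    have h2τ : 2 * τ ≤ ρ0 / (4 * J) := by linarith
    have hlow : r j ≤ ρ - 2 * τ := by linarith
    have hhigh : ρ + 2 * τ ≤ r (j + 1) := by linarith
    have hρle : ρ ≤ 1 := by linarith
    have hτρ : τ ≤ ρ := by linarith
    have hBne : (Bohr (G := G) Γ ρ).Nonempty := ⟨0, zero_mem_bohr Γ (by linarith)⟩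
    have hTne : (Bohr (G := G) Γ τ).Nonempty := ⟨0, zero_mem_bohr Γ hτpos.le⟩
    have h4 : 1 ≤ 4 / ε := by rw [le_div_iff₀ hε]; linarith
    have hTpw : (Fintype.card G : ℝ) ≤ Real.exp K * ((Bohr (G := G) Γ τ).card : ℝ) := by
      refine le_trans ?_ (hcard τ le_rfl hτ1)
      nlinarith
    refine ⟨hτpos, hτρ, b02_pw hTne hTpw, ?_⟩
    refine b02_smooth (A := Bohr Γ (ρ + 2 * τ) \ Bohr Γ (ρ - 2 * τ)) hε hε1 hTne hBne hTpw
      (hcard ρ hτρ hρle) ?_ ?_
    · have hsub : Bohr (G := G) Γ (ρ - 2 * τ) ⊆ Bohr Γ (ρ + 2 * τ) :=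
        bohr_mono (Finset.Subset.refl _) (by linarith)
      have h1 : ((Bohr (G := G) Γ (ρ + 2 * τ) \ Bohr Γ (ρ - 2 * τ)).card : ℝ) =
          ((Bohr (G := G) Γ (ρ + 2 * τ)).card : ℝ) - ((Bohr (G := G) Γ (ρ - 2 * τ)).card : ℝ) := by
        rw [Finset.card_sdiff_of_subset hsub, Nat.cast_sub (Finset.card_le_card hsub)]
      have h2 : ((Bohr (G := G) Γ (ρ + 2 * τ)).card : ℝ) ≤ ((Bohr (G := G) Γ (r (j + 1))).card : ℝ) := by
        exact_mod_cast Finset.card_le_card (bohr_mono (Finset.Subset.refl _) hhigh)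
      have h3 : ((Bohr (G := G) Γ (r j)).card : ℝ) ≤ ((Bohr (G := G) Γ (ρ - 2 * τ)).card : ℝ) := by
        exact_mod_cast Finset.card_le_card (bohr_mono (Finset.Subset.refl _) hlow)
      have h5 : ((Bohr (G := G) Γ (r j)).card : ℝ) ≤ ((Bohr (G := G) Γ ρ).card : ℝ) := by
        exact_mod_cast Finset.card_le_card (bohr_mono (Finset.Subset.refl _) (by linarith))
      rw [h1]
      nlinarith
    · intro u hu t ht x hx
      rw [Finset.mem_sdiff]
      have hx1 : x ∈ Bohr (G := G) Γ (ρ + τ) := by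
        by_cases h6 : x ∈ Bohr (G := G) Γ ρ
        · exact bohr_mono (Finset.Subset.refl _) (by linarith) h6
        · have h7 : x + u ∈ Bohr (G := G) Γ ρ := by
            by_contra h8
            exact hx ⟨fun h9 => absurd h9 h8, fun h9 => absurd h9 h6⟩
          have h8 := add_mem_bohr h7 (neg_mem_bohr hu)
          rwa [add_neg_cancel_right] at h8
      constructor
      · have h8 := add_mem_bohr hx1 (neg_mem_bohr ht)
        rw [← sub_eq_add_neg] at h8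
        exact bohr_mono (Finset.Subset.refl _) (by linarith) h8
      · intro h9
        have h10 := add_mem_bohr h9 ht
        rw [sub_add_cancel] at h10
        have h11 : x ∈ Bohr (G := G) Γ ρ := bohr_mono (Finset.Subset.refl _) (by linarith) h10
        have h12 : x + u ∈ Bohr (G := G) Γ ρ :=
          bohr_mono (Finset.Subset.refl _) (by linarith) (add_mem_bohr h10 hu)
        exact hx ⟨fun _ => h11, fun _ => h12⟩

end Pool.Agent.Lib.MG
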