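import Mathlib

/-!
# Monochromatic Goldbach: averages, probability weights, pseudorandom weights

`G` is a finite abelian group.  `Ex D f = ∑ x, D x * f x` is the average of `f` for the weight `D`.
* `PW K D`: `D` is a probability weight on `G` with density at most `exp K`.
* `Dens K w X`: the law of `X` under `w` has density at most `exp K`.
* `PS z L A`: `L` is a pseudorandom weight (normalised indicator of the elements which are
  nonzero modulo every prime of a set of primes `> z`), `A d = ∑_{q | d} 1/q`.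
* `Smooth K ε B D`: shifting `D` by an element of `B` changes it by at most `ε` times a convolution
  of two probability weights of density at most `exp K`.
-/

open Finset

namespace Pool.Agent.Lib.MG

/-- average of `f` for the weight `D` -/
def Ex {Ω : Type} [Fintype Ω] (D f : Ω → ℝ) : ℝ := ∑ x, D x * f x

/-- probability weight on a finite type -/
structure Prob {Ω : Type} [Fintype Ω] (w : Ω → ℝ) : Prop where
  nonneg : ∀ x, 0 ≤ w x
  sum_one : ∑ x, w x = 1

section basic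

variable {Ω Ω' : Type} [Fintype Ω] [Fintype Ω'] {D : Ω → ℝ}

theorem Ex_congr {f g : Ω → ℝ} (h : ∀ x, f x = g x) : Ex D f = Ex D g := by
  unfold Ex
  exact Finset.sum_congr rfl fun x _ => by rw [h x]

theorem Ex_add (f g : Ω → ℝ) : Ex D (fun x => f x + g x) = Ex D f + Ex D g := by
  unfold Ex
  rw [← Finset.sum_add_distrib]
  exact Finset.sum_congr rfl fun x _ => by ring

theorem Ex_sub (f g : Ω → ℝ) : Ex D (fun x => f x - g x) = Ex D f - Ex D g := by
  unfold Ex
  rw [← Finset.sum_sub_distrib]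
  exact Finset.sum_congr rfl fun x _ => by ring

theorem Ex_neg (f : Ω → ℝ) : Ex D (fun x => - f x) = - Ex D f := by
  unfold Ex
  rw [← Finset.sum_neg_distrib]
  exact Finset.sum_congr rfl fun x _ => by ring

theorem Ex_mul_left (c : ℝ) (f : Ω → ℝ) : Ex D (fun x => c * f x) = c * Ex D f := by
  unfold Ex
  rw [Finset.mul_sum]
  exact Finset.sum_congr rfl fun x _ => by ring

theorem Ex_mul_right (c : ℝ) (f : Ω → ℝ) : Ex D (fun x => f x * c) = Ex D f * c := by
  unfold Ex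
  rw [Finset.sum_mul]
  exact Finset.sum_congr rfl fun x _ => by ring

theorem Ex_sum {ι : Type} (s : Finset ι) (f : ι → Ω → ℝ) :
    Ex D (fun x => ∑ i ∈ s, f i x) = ∑ i ∈ s, Ex D (f i) := by
  unfold Ex
  rw [Finset.sum_comm]
  exact Finset.sum_congr rfl fun x _ => by rw [Finset.mul_sum]

theorem Ex_comm (D : Ω → ℝ) (D' : Ω' → ℝ) (f : Ω → Ω' → ℝ) :
    Ex D (fun x => Ex D' (fun y => f x y)) = Ex D' (fun y => Ex D (fun x => f x y)) := by
  unfold Ex
  simp_rw [Finset.mul_sum]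
  rw [Finset.sum_comm]
  exact Finset.sum_congr rfl fun y _ => Finset.sum_congr rfl fun x _ => by ring

theorem Ex_zero : Ex D (fun _ => 0) = 0 := by
  unfold Ex
  simp

theorem Ex_const (hD : Prob D) (c : ℝ) : Ex D (fun _ => c) = c := by
  unfold Ex
  rw [← Finset.sum_mul, hD.sum_one, one_mul]

theorem Ex_le (hD : Prob D) {f g : Ω → ℝ} (h : ∀ x, f x ≤ g x) : Ex D f ≤ Ex D g := by
  unfold Ex
  exact Finset.sum_le_sum fun x _ => mul_le_mul_of_nonneg_left (h x) (hD.nonneg x)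

/-- monotonicity on the support -/
theorem Ex_le_supp (hD : Prob D) {f g : Ω → ℝ} (h : ∀ x, D x ≠ 0 → f x ≤ g x) :
    Ex D f ≤ Ex D g := by
  unfold Ex
  refine Finset.sum_le_sum fun x _ => ?_
  by_cases hx : D x = 0
  · rw [hx, zero_mul, zero_mul]
  · exact mul_le_mul_of_nonneg_left (h x hx) (hD.nonneg x)

theorem Ex_congr_supp {f g : Ω → ℝ} (h : ∀ x, D x ≠ 0 → f x = g x) : Ex D f = Ex D g := by
  unfold Ex
  refine Finset.sum_congr rfl fun x _ => ?_
  by_cases hx : D x = 0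
  · rw [hx, zero_mul, zero_mul]
  · rw [h x hx]

theorem Ex_nonneg (hD : Prob D) {f : Ω → ℝ} (h : ∀ x, 0 ≤ f x) : 0 ≤ Ex D f := by
  unfold Ex
  exact Finset.sum_nonneg fun x _ => mul_nonneg (hD.nonneg x) (h x)

theorem Ex_le_const (hD : Prob D) {f : Ω → ℝ} {c : ℝ} (h : ∀ x, f x ≤ c) : Ex D f ≤ c := by
  calc Ex D f ≤ Ex D (fun _ => c) := Ex_le hD h
    _ = c := Ex_const hD c

theorem Ex_le_const_supp (hD : Prob D) {f : Ω → ℝ} {c : ℝ} (h : ∀ x, D x ≠ 0 → f x ≤ c) :
    Ex D f ≤ c := by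
  calc Ex D f ≤ Ex D (fun _ => c) := Ex_le_supp hD h
    _ = c := Ex_const hD c

theorem const_le_Ex (hD : Prob D) {f : Ω → ℝ} {c : ℝ} (h : ∀ x, c ≤ f x) : c ≤ Ex D f := by
  calc c = Ex D (fun _ => c) := (Ex_const hD c).symm
    _ ≤ Ex D f := Ex_le hD h

theorem abs_Ex_le (hD : Prob D) (f : Ω → ℝ) : |Ex D f| ≤ Ex D (fun x => |f x|) := by
  unfold Ex
  refine (Finset.abs_sum_le_sum_abs _ _).trans (le_of_eq ?_)
  exact Finset.sum_congr rfl fun x _ => by rw [abs_mul, abs_of_nonneg (hD.nonneg x)]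

theorem abs_Ex_le_one (hD : Prob D) {f : Ω → ℝ} (h : ∀ x, |f x| ≤ 1) : |Ex D f| ≤ 1 :=
  (abs_Ex_le hD f).trans (Ex_le_const hD h)

/-- Cauchy-Schwarz -/
theorem Ex_mul_sq_le (hD : Prob D) (f g : Ω → ℝ) :
    (Ex D (fun x => f x * g x)) ^ 2 ≤ Ex D (fun x => f x ^ 2) * Ex D (fun x => g x ^ 2) := by
  unfold Ex
  have h := Finset.sum_mul_sq_le_sq_mul_sq (Finset.univ : Finset Ω)
    (fun x => Real.sqrt (D x) * f x) (fun x => Real.sqrt (D x) * g x)
  have h1 : ∀ x, Real.sqrt (D x) * f x * (Real.sqrt (D x) * g x) = D x * (f x * g x) := by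
    intro x
    rw [show Real.sqrt (D x) * f x * (Real.sqrt (D x) * g x) =
      (Real.sqrt (D x) * Real.sqrt (D x)) * (f x * g x) by ring, Real.mul_self_sqrt (hD.nonneg x)]
  have h2 : ∀ (k : Ω → ℝ) x, (Real.sqrt (D x) * k x) ^ 2 = D x * k x ^ 2 := by
    intro k x
    rw [mul_pow, Real.sq_sqrt (hD.nonneg x)]
  simp only [h1, h2] at h
  exact h

/-- weighted Cauchy-Schwarz with a nonnegative weight function -/
theorem Ex_wmul_sq_le (hD : Prob D) {F : Ω → ℝ} (hF : ∀ x, 0 ≤ F x) (g : Ω → ℝ) :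
    (Ex D (fun x => F x * g x)) ^ 2 ≤ Ex D F * Ex D (fun x => F x * g x ^ 2) := by
  have h := Ex_mul_sq_le hD (fun x => Real.sqrt (F x)) (fun x => Real.sqrt (F x) * g x)
  have h1 : ∀ x, Real.sqrt (F x) * (Real.sqrt (F x) * g x) = F x * g x := by
    intro x
    rw [← mul_assoc, Real.mul_self_sqrt (hF x)]
  have h2 : ∀ x, Real.sqrt (F x) ^ 2 = F x := fun x => Real.sq_sqrt (hF x)
  have h3 : ∀ x, (Real.sqrt (F x) * g x) ^ 2 = F x * g x ^ 2 := by
    intro x
    rw [mul_pow, h2]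
  simp only [h1, h2, h3] at h
  exact h

theorem sq_Ex_le (hD : Prob D) (f : Ω → ℝ) : (Ex D f) ^ 2 ≤ Ex D (fun x => f x ^ 2) := by
  have h := Ex_wmul_sq_le hD (F := fun _ => 1) (fun _ => zero_le_one) f
  simp only [one_mul] at h
  rw [Ex_const hD, one_mul] at h
  exact h

theorem exists_ge_Ex (hD : Prob D) (f : Ω → ℝ) : ∃ x, D x ≠ 0 ∧ Ex D f ≤ f x := by
  by_contra hc
  push Not at hc
  have h1 : ∃ x, D x ≠ 0 := by
    by_contra h
    push Not at h
    have := hD.sum_one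
    rw [Finset.sum_eq_zero (fun x _ => h x)] at this
    exact zero_ne_one this
  obtain ⟨x₀, hx₀⟩ := h1
  have h2 : Ex D f < Ex D (fun _ => Ex D f) := by
    unfold Ex
    refine Finset.sum_lt_sum (fun x _ => ?_) ⟨x₀, Finset.mem_univ _, ?_⟩
    · by_cases hx : D x = 0
      · rw [hx, zero_mul, zero_mul]
      · exact mul_le_mul_of_nonneg_left (hc x hx).le (hD.nonneg x)
    · exact mul_lt_mul_of_pos_left (hc x₀ hx₀) (lt_of_le_of_ne (hD.nonneg x₀) (Ne.symm hx₀))
  rw [Ex_const hD] at h2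
  exact lt_irrefl _ h2

end basic

variable {G : Type} [AddCommGroup G] [Fintype G] [DecidableEq G]

/-- a probability weight on `G` with density at most `exp K` -/
structure PW (K : ℝ) (D : G → ℝ) : Prop where
  prob : Prob D
  le : ∀ x, D x * (Fintype.card G : ℝ) ≤ Real.exp K

/-- the law of `X` under `w` has density at most `exp K` -/
def Dens {Ω : Type} [Fintype Ω] (K : ℝ) (w : Ω → ℝ) (X : Ω → G) : Prop :=
  ∀ g : G → ℝ, (∀ x, 0 ≤ g x) → Ex w (fun ω => g (X ω)) * (Fintype.card G : ℝ) ≤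
    Real.exp K * ∑ d, g d

/-- pseudorandom weight `L` with divisor function `A` -/
structure PS (z : ℝ) (L A : G → ℝ) : Prop where
  L_nonneg : ∀ x, 0 ≤ L x
  A_nonneg : ∀ x, 0 ≤ A x
  corr : ∀ (n : ℕ) (c : Fin n → G), ∑ M, ∏ i, L (M + c i) ≤
    (Fintype.card G : ℝ) * Real.exp (∑ i, ∑ j ∈ univ.erase i, A (c i - c j))
  expo : ∑ d, Real.exp (z * A d) ≤ (Fintype.card G : ℝ) * Real.exp 2

/-- `D` is a probability weight of density `≤ exp K`, almost invariant under shifts by elements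
of `B`; the error is `ε` times a convolution of two probability weights of density `≤ exp K`. -/
structure Smooth (K ε : ℝ) (B : Set G) (D : G → ℝ) : Prop where
  pw : PW K D
  maj : ∃ D' E' : G → ℝ, PW K D' ∧ PW K E' ∧
    ∀ u ∈ B, ∀ x, |D (x + u) - D x| ≤ ε * Ex E' (fun t => D' (x - t))

/-- uniform probability weight on a finite set -/
noncomputable def unif (B : Finset G) (x : G) : ℝ := if x ∈ B then (B.card : ℝ)⁻¹ else 0

/-- Bohr set -/
noncomputable def Bohr (Γ : Finset (AddChar G ℂ)) (ρ : ℝ) : Finset G :=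
  univ.filter (fun t => ∀ ψ ∈ Γ, ‖ψ t - 1‖ ≤ ρ)

/-- number of solutions `x = m + t`, `y = m - t` -/
def Cnt (Θ F : G → ℝ) : ℝ := ∑ m, ∑ t, Θ m * (F (m + t) * F (m - t))

/-- the box product of `g` -/
def Pf (g : G → ℝ) (M a a' b b' : G) : ℝ :=
  g (M + a + b) * g (M + a + b') * (g (M + a' + b) * g (M + a' + b'))

/-- the product of `L` at the four points -/
def Om (L : G → ℝ) (M a a' b b' : G) : ℝ :=
  L (M + (a + a)) * L (M + (a' + a')) * (L (M + (b + b)) * L (M + (b' + b')))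

/-- `Om` after the shift `M - u, a + u, a' + u, b, b'` -/
def OmU (L : G → ℝ) (M a a' b b' u : G) : ℝ :=
  L (M + (a + a) + u) * L (M + (a' + a') + u) * (L (M + (b + b) - u) * L (M + (b' + b') - u))

/-- average over `M ~ D0` and `a, a', b, b' ~ D1` -/
def Ex5 (D0 D1 : G → ℝ) (f : G → G → G → G → G → ℝ) : ℝ :=
  Ex D0 fun M => Ex D1 fun a => Ex D1 fun a' => Ex D1 fun b => Ex D1 fun b' => f M a a' b b'

/-- relations between the parameters of the moment estimates -/
structure Par (K δ z : ℝ) : Prop where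
  hK : 1 ≤ K
  hδ : 0 < δ
  hδ1 : δ ≤ 1 / 10
  hz : 400 * K ^ 2 / δ ^ 2 ≤ z

/-- doubling is bijective on `G` -/
def Dbl (G : Type) [AddCommGroup G] : Prop := Function.Bijective (fun x : G => x + x)

/-- a good cell: the uniform weight on `Bohr Γ ρ` is almost invariant under `Bohr Γ τ` -/
structure Good (K ε : ℝ) (Γ : Finset (AddChar G ℂ)) (ρ τ : ℝ) : Prop where
  pos : 0 < τ
  le : τ ≤ ρ
  pw : PW K (unif (Bohr Γ τ))
  smooth : Smooth K ε (↑(Bohr Γ τ) : Set G) (unif (Bohr Γ ρ))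

/-- potential of the cell `y + D` -/
noncomputable def Psi (κ : ℝ) (Θ L : G → ℝ) (y : G) (D : G → ℝ) : ℝ :=
  (Ex D fun x => Θ (y + x)) ^ 2 + κ * Ex D fun x => L (y + x)

omit [DecidableEq G] in
theorem card_pos' : (0 : ℝ) < (Fintype.card G : ℝ) := by
  exact_mod_cast Fintype.card_pos

omit [DecidableEq G] in
theorem sum_shift (f : G → ℝ) (u : G) : ∑ x, f (x + u) = ∑ x, f x :=
  Fintype.sum_equiv (Equiv.addRight u) _ _ fun _ => rfl

end Pool.Agent.Lib.MG
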