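import Pool.Agent.Lib.MP_7b7e48_nt.MG.P05

/-!
# C01: shift lemmas for smooth weights, upper bound for the mass of a cell

Proofs.  `Ex D (f (· - u)) = ∑ x, D (x + u) * f x` (`sum_shift`), so the difference with `Ex D f` is
`∑ x, (D (x + u) - D x) * f x`, bounded by
`ε * ∑ x, ∑ t, E' t * D' (x - t) * |f x| = ε * Ex D' fun y => Ex E' fun t => |f (y + t)|`
(substitute `x = y + t`).  If `|f| ≤ 1` the last average is `≤ 1`.
`mass_upper`: `L' = L (y + ·)` is again pseudorandom (`PS.translate`).  For `t` in the support of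
`E`, `-t ∈ B`:  `Ex D L' ≤ Ex D (L' (· + t)) + ε * Ex D' Ex E' L'(y + t)` (`Smooth.shift` with
`u = -t`); average over `t ~ E`; both terms are `≤ exp (2 δ)` by `mass1`.
-/

open Finset

namespace Pool.Agent.Lib.MG

variable {G : Type} [AddCommGroup G] [Fintype G]

theorem c01_shift_sum (D f : G → ℝ) (u : G) :
    Ex D (fun x => f (x - u)) - Ex D f = ∑ x, (D (x + u) - D x) * f x := by
  unfold Ex
  rw [← sum_shift (fun x => D x * f (x - u)) u, ← Finset.sum_sub_distrib]
  refine Finset.sum_congr rfl fun x _ => ?_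
  rw [add_sub_cancel_right]
  ring

theorem c01_conv (D' E' g : G → ℝ) :
    ∑ x, Ex E' (fun t => D' (x - t)) * g x = Ex D' fun y => Ex E' fun t => g (y + t) := by
  rw [Ex_comm D' E' (fun y t => g (y + t))]
  unfold Ex
  simp_rw [Finset.sum_mul, Finset.mul_sum]
  rw [Finset.sum_comm]
  refine Finset.sum_congr rfl fun t _ => ?_
  rw [← sum_shift (fun x => E' t * D' (x - t) * g x) t]
  refine Finset.sum_congr rfl fun x _ => ?_
  rw [add_sub_cancel_right]
  ring

theorem Smooth.shift {K ε : ℝ} {B : Set G} {D : G → ℝ} (h : Smooth K ε B D) :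
    ∃ D' E' : G → ℝ, PW K D' ∧ PW K E' ∧ ∀ u ∈ B, ∀ f : G → ℝ,
      |Ex D (fun x => f (x - u)) - Ex D f| ≤ ε * Ex D' fun y => Ex E' fun t => |f (y + t)| := by
  obtain ⟨D', E', hD', hE', H⟩ := h.maj
  refine ⟨D', E', hD', hE', ?_⟩
  intro u hu f
  rw [c01_shift_sum, ← c01_conv D' E' (fun x => |f x|), Finset.mul_sum]
  refine (Finset.abs_sum_le_sum_abs _ _).trans (Finset.sum_le_sum fun x _ => ?_)
  rw [abs_mul, ← mul_assoc]
  exact mul_le_mul_of_nonneg_right (H u hu x) (abs_nonneg _)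

theorem Smooth.shift_one {K ε : ℝ} (hε : 0 ≤ ε) {B : Set G} {D : G → ℝ} (h : Smooth K ε B D)
    {u : G} (hu : u ∈ B) {f : G → ℝ} (hf : ∀ x, |f x| ≤ 1) :
    |Ex D (fun x => f (x - u)) - Ex D f| ≤ ε := by
  obtain ⟨D', E', hD', hE', H⟩ := h.shift
  refine (H u hu f).trans ?_
  calc ε * Ex D' (fun y => Ex E' fun t => |f (y + t)|) ≤ ε * 1 := by
        refine mul_le_mul_of_nonneg_left ?_ hε
        exact Ex_le_const hD'.prob fun y => Ex_le_const hE'.prob fun t => hf _
    _ = ε := mul_one _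

theorem Smooth.l1 {K ε : ℝ} (hε : 0 ≤ ε) {B : Set G} {D : G → ℝ} (h : Smooth K ε B D)
    {u : G} (hu : u ∈ B) : ∑ x, |D (x + u) - D x| ≤ ε := by
  obtain ⟨D', E', hD', hE', H⟩ := h.maj
  have h1 := c01_conv D' E' (fun _ => 1)
  calc ∑ x, |D (x + u) - D x| ≤ ∑ x, ε * Ex E' (fun t => D' (x - t)) :=
        Finset.sum_le_sum fun x _ => H u hu x
    _ = ε * ∑ x, Ex E' (fun t => D' (x - t)) * 1 := by
        rw [Finset.mul_sum]
        exact Finset.sum_congr rfl fun x _ => by rw [mul_one]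
    _ = ε := by
        rw [h1, Ex_const hE'.prob, Ex_const hD'.prob, mul_one]

theorem Smooth.shift_complex {K ε : ℝ} (hε : 0 ≤ ε) {B : Set G} {D : G → ℝ} (h : Smooth K ε B D)
    {u : G} (hu : u ∈ B) {f : G → ℂ} (hf : ∀ x, ‖f x‖ ≤ 1) :
    ‖∑ x, (D x : ℂ) * f (x - u) - ∑ x, (D x : ℂ) * f x‖ ≤ ε := by
  have e : ∑ x, (D x : ℂ) * f (x - u) = ∑ x, (D (x + u) : ℂ) * f x := by
    rw [← Fintype.sum_equiv (Equiv.addRight u) (fun x => (D (x + u) : ℂ) * f x)
      (fun x => (D x : ℂ) * f (x - u))]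
    intro x
    simp only [Equiv.coe_addRight, add_sub_cancel_right]
  rw [e, ← Finset.sum_sub_distrib]
  refine (norm_sum_le _ _).trans (le_trans (Finset.sum_le_sum fun x _ => ?_) (h.l1 hε hu))
  rw [← sub_mul, norm_mul, ← Complex.ofReal_sub, Complex.norm_real, Real.norm_eq_abs]
  exact mul_le_of_le_one_right (abs_nonneg _) (hf x)

/-- a shift of a function bounded by a shift of `L` -/
theorem Smooth.shift_L {z K δ ε : ℝ} {L A : G → ℝ} (hL : PS z L A) (par : Par K δ z)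
    (hε : 0 ≤ ε) {B : Set G} {D : G → ℝ} (h : Smooth K ε B D) {u : G} (hu : u ∈ B) (s : G) :
    |Ex D (fun x => L (x - u + s)) - Ex D (fun x => L (x + s))| ≤ ε * Real.exp (2 * δ) := by
  obtain ⟨D', E', hD', hE', H⟩ := h.shift
  refine (H u hu (fun x => L (x + s))).trans ?_
  refine mul_le_mul_of_nonneg_left ?_ hε
  have e : (Ex D' fun y => Ex E' fun t => |L (y + t + s)|) =
      Ex D' fun y => Ex E' fun t => L (y + t + s) :=
    Ex_congr fun y => Ex_congr fun t => abs_of_nonneg (hL.L_nonneg _)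
  rw [e]
  exact mass1 hL par hD' hE' s

theorem mass_upper {z K δ ε : ℝ} {L A : G → ℝ} (hL : PS z L A) (par : Par K δ z)
    (hε : 0 ≤ ε) {B : Set G} {D E : G → ℝ} (h : Smooth K ε B D) (hE : PW K E)
    (hEB : ∀ t, E t ≠ 0 → -t ∈ B) (y : G) :
    Ex D (fun x => L (y + x)) ≤ (1 + ε) * Real.exp (2 * δ) := by
  have h1 : ∀ t, E t ≠ 0 → Ex D (fun x => L (y + x)) ≤
      Ex D (fun x => L (x + t + y)) + ε * Real.exp (2 * δ) := by
    intro t ht
    have h2 := h.shift_L hL par hε (hEB t ht) y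
    have e1 : Ex D (fun x => L (x - -t + y)) = Ex D (fun x => L (x + t + y)) :=
      Ex_congr fun x => by rw [sub_neg_eq_add]
    have e2 : Ex D (fun x => L (x + y)) = Ex D (fun x => L (y + x)) :=
      Ex_congr fun x => by rw [add_comm]
    rw [e1, e2] at h2
    have := (abs_le.1 h2).1
    linarith
  calc Ex D (fun x => L (y + x)) = Ex E (fun _ => Ex D (fun x => L (y + x))) :=
        (Ex_const hE.prob _).symm
    _ ≤ Ex E (fun t => Ex D (fun x => L (x + t + y)) + ε * Real.exp (2 * δ)) :=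
        Ex_le_supp hE.prob h1
    _ = Ex D (fun x => Ex E (fun t => L (x + t + y))) + ε * Real.exp (2 * δ) := by
        rw [Ex_add, Ex_const hE.prob, Ex_comm E D (fun t x => L (x + t + y))]
    _ ≤ Real.exp (2 * δ) + ε * Real.exp (2 * δ) :=
        add_le_add_left (mass1 hL par h.pw hE y) _
    _ = (1 + ε) * Real.exp (2 * δ) := by ring

end Pool.Agent.Lib.MG
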