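import Pool.Agent.Lib.MP_7b7e48_nt.MG.Basic

/-!
# C02: two weighted Cauchy-Schwarz steps

Proof.  Write `T` for the triple average.
(1) `T = Ex over (M, a) ~ D0 x D1 of F(M+2a) * U(M, a)`, `U(M, a) = Ex D1 fun b => g(M+a+b) F(M+2b)`.
Weighted Cauchy-Schwarz (`Ex_wmul_sq_le`; apply it on the product type `G × G` with the product
weight, or twice) and `F ≤ L`:
`T ^ 2 ≤ m1 * S`, `S = Ex D0 fun M => Ex D1 fun a => L(M+2a) * U(M, a) ^ 2`.
(2) `S = Ex over (M, b, b') of F(M+2b) F(M+2b') * V(M, b, b')`,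
`V = Ex D1 fun a => L(M+2a) g(M+a+b) g(M+a+b')`.  Again weighted Cauchy-Schwarz with the weight
function `F F ≤ L L`: `S ^ 2 ≤ m2 * Ex D0 Ex D1 Ex D1 (L(M+2b) L(M+2b') * V ^ 2)`, and expanding
`V ^ 2` (variables `a, a'`) and reordering the averages (`Ex_comm`) gives exactly
`Ex5 D0 D1 (Pf * Om)`.
So `T ^ 4 ≤ m1 ^ 2 * S ^ 2 ≤ m1 ^ 2 * m2 * Ex5 ...` (`m1, m2 ≥ 0`, being bounds of averages of
nonnegative functions).
-/

open Finset

namespace Pool.Agent.Lib.MG

variable {G : Type} [AddCommGroup G] [Fintype G]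

theorem c02_prob {Ω Ω' : Type} [Fintype Ω] [Fintype Ω'] {D : Ω → ℝ} {D' : Ω' → ℝ}
    (h : Prob D) (h' : Prob D') : Prob (fun p : Ω × Ω' => D p.1 * D' p.2) := by
  refine ⟨fun p => mul_nonneg (h.nonneg _) (h'.nonneg _), ?_⟩
  rw [Fintype.sum_prod_type]
  simp_rw [← Finset.mul_sum, h'.sum_one, mul_one]
  exact h.sum_one

theorem c02_prod {Ω Ω' : Type} [Fintype Ω] [Fintype Ω'] (D : Ω → ℝ) (D' : Ω' → ℝ)
    (f : Ω × Ω' → ℝ) :
    Ex (fun p : Ω × Ω' => D p.1 * D' p.2) f = Ex D (fun x => Ex D' (fun y => f (x, y))) := by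
  unfold Ex
  rw [Fintype.sum_prod_type]
  refine Finset.sum_congr rfl fun x _ => ?_
  rw [Finset.mul_sum]
  exact Finset.sum_congr rfl fun y _ => by ring

theorem c02_sq {Ω : Type} [Fintype Ω] (D f : Ω → ℝ) :
    (Ex D f) ^ 2 = Ex D (fun x => Ex D (fun y => f x * f y)) := by
  rw [sq]
  conv_rhs => rw [show (fun x => Ex D (fun y => f x * f y)) = fun x => f x * Ex D f from
    funext fun x => Ex_mul_left (f x) f]
  rw [Ex_mul_right]

theorem cs_twice {D0 D1 F L g : G → ℝ} (hD0 : Prob D0) (hD1 : Prob D1) (hF : ∀ x, 0 ≤ F x)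
    (hFL : ∀ x, F x ≤ L x) (hg : ∀ x, |g x| ≤ 1) {m1 m2 : ℝ}
    (hm1 : Ex D0 (fun M => Ex D1 fun a => L (M + (a + a))) ≤ m1)
    (hm2 : Ex D0 (fun M => Ex D1 fun b => Ex D1 fun b' => L (M + (b + b)) * L (M + (b' + b'))) ≤
      m2) :
    (Ex D0 fun M => Ex D1 fun a => Ex D1 fun b =>
      g (M + a + b) * (F (M + (a + a)) * F (M + (b + b)))) ^ 4 ≤
      m1 ^ 2 * m2 * Ex5 D0 D1 (fun M a a' b b' => Pf g M a a' b b' * Om L M a a' b b') := by
  have hL : ∀ x, 0 ≤ L x := fun x => (hF x).trans (hFL x)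
  have hm1' : 0 ≤ m1 := le_trans (Ex_nonneg hD0 fun M => Ex_nonneg hD1 fun a => hL _) hm1
  have hm2' : 0 ≤ m2 := le_trans (Ex_nonneg hD0 fun M => Ex_nonneg hD1 fun b =>
    Ex_nonneg hD1 fun b' => mul_nonneg (hL _) (hL _)) hm2
  set T : ℝ := Ex D0 fun M => Ex D1 fun a => Ex D1 fun b =>
      g (M + a + b) * (F (M + (a + a)) * F (M + (b + b))) with hT
  set U : G → G → ℝ := fun M a => Ex D1 fun b => g (M + a + b) * F (M + (b + b)) with hU
  set V : G → G → G → ℝ := fun M b b' => Ex D1 fun a =>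
    L (M + (a + a)) * (g (M + a + b) * g (M + a + b')) with hV
  set S : ℝ := Ex D0 fun M => Ex D1 fun a => L (M + (a + a)) * (U M a) ^ 2 with hS
  -- first step
  have hTS : T ^ 2 ≤ m1 * S := by
    have e1 : T = Ex (fun p : G × G => D0 p.1 * D1 p.2)
        (fun p => F (p.1 + (p.2 + p.2)) * U p.1 p.2) := by
      rw [c02_prod]
      refine Ex_congr fun M => Ex_congr fun a => ?_
      show _ = F (M + (a + a)) * U M a
      rw [hU]
      simp only
      rw [← Ex_mul_left]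
      exact Ex_congr fun b => by ring
    have h1 := Ex_wmul_sq_le (c02_prob hD0 hD1) (F := fun p : G × G => F (p.1 + (p.2 + p.2)))
      (fun p => hF _) (fun p => U p.1 p.2)
    rw [e1]
    refine h1.trans ?_
    have h2 : Ex (fun p : G × G => D0 p.1 * D1 p.2) (fun p => F (p.1 + (p.2 + p.2))) ≤ m1 := by
      rw [c02_prod]
      refine le_trans ?_ hm1
      exact Ex_le hD0 fun M => Ex_le hD1 fun a => hFL _
    have h3 : Ex (fun p : G × G => D0 p.1 * D1 p.2)
        (fun p => F (p.1 + (p.2 + p.2)) * U p.1 p.2 ^ 2) ≤ S := by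
      rw [c02_prod, hS]
      exact Ex_le hD0 fun M => Ex_le hD1 fun a =>
        mul_le_mul_of_nonneg_right (hFL _) (sq_nonneg _)
    have h4 : 0 ≤ Ex (fun p : G × G => D0 p.1 * D1 p.2)
        (fun p => F (p.1 + (p.2 + p.2)) * U p.1 p.2 ^ 2) :=
      Ex_nonneg (c02_prob hD0 hD1) fun p => mul_nonneg (hF _) (sq_nonneg _)
    exact mul_le_mul h2 h3 h4 hm1'
  -- second step
  have hSV : S = Ex D0 fun M => Ex D1 fun b => Ex D1 fun b' =>
      (F (M + (b + b)) * F (M + (b' + b'))) * V M b b' := by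
    rw [hS]
    refine Ex_congr fun M => ?_
    have e1 : (Ex D1 fun a => L (M + (a + a)) * (U M a) ^ 2) = Ex D1 fun a => Ex D1 fun b =>
        Ex D1 fun b' => L (M + (a + a)) * ((g (M + a + b) * F (M + (b + b))) *
          (g (M + a + b') * F (M + (b' + b')))) := by
      refine Ex_congr fun a => ?_
      rw [hU]
      simp only
      rw [c02_sq, ← Ex_mul_left]
      refine Ex_congr fun b => ?_
      rw [← Ex_mul_left]
    rw [e1, Ex_comm D1 D1]
    refine Ex_congr fun b => ?_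
    rw [Ex_comm D1 D1]
    refine Ex_congr fun b' => ?_
    rw [hV]
    simp only
    rw [← Ex_mul_left]
    exact Ex_congr fun a => by ring
  set R : ℝ := Ex D0 fun M => Ex D1 fun b => Ex D1 fun b' =>
      (L (M + (b + b)) * L (M + (b' + b'))) * V M b b' ^ 2 with hR
  obtain ⟨D11, hD11⟩ : ∃ D11 : G × G → ℝ, D11 = fun q => D1 q.1 * D1 q.2 := ⟨_, rfl⟩
  have hE11 : ∀ f : G × G → ℝ, Ex D11 f = Ex D1 (fun b => Ex D1 (fun b' => f (b, b'))) := by
    intro f
    rw [hD11, c02_prod]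
  have hP : Prob (fun p : G × (G × G) => D0 p.1 * D11 p.2) :=
    c02_prob hD0 (by rw [hD11]; exact c02_prob hD1 hD1)
  have hSR : S ^ 2 ≤ m2 * R := by
    have e1 : S = Ex (fun p : G × (G × G) => D0 p.1 * D11 p.2)
        (fun p => (F (p.1 + (p.2.1 + p.2.1)) * F (p.1 + (p.2.2 + p.2.2))) *
          V p.1 p.2.1 p.2.2) := by
      rw [hSV, c02_prod]
      refine Ex_congr fun M => ?_
      rw [hE11]
    have h1 := Ex_wmul_sq_le hP
      (F := fun p : G × (G × G) => F (p.1 + (p.2.1 + p.2.1)) * F (p.1 + (p.2.2 + p.2.2)))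
      (fun p => mul_nonneg (hF _) (hF _)) (fun p => V p.1 p.2.1 p.2.2)
    rw [e1]
    refine h1.trans ?_
    have h2 : Ex (fun p : G × (G × G) => D0 p.1 * D11 p.2)
        (fun p => F (p.1 + (p.2.1 + p.2.1)) * F (p.1 + (p.2.2 + p.2.2))) ≤ m2 := by
      rw [c02_prod]
      refine le_trans ?_ hm2
      refine Ex_le hD0 fun M => ?_
      rw [hE11]
      exact Ex_le hD1 fun b => Ex_le hD1 fun b' => mul_le_mul (hFL _) (hFL _) (hF _) (hL _)
    have h3 : Ex (fun p : G × (G × G) => D0 p.1 * D11 p.2)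
        (fun p => F (p.1 + (p.2.1 + p.2.1)) * F (p.1 + (p.2.2 + p.2.2)) *
          V p.1 p.2.1 p.2.2 ^ 2) ≤ R := by
      rw [c02_prod, hR]
      refine Ex_le hD0 fun M => ?_
      rw [hE11]
      exact Ex_le hD1 fun b => Ex_le hD1 fun b' =>
        mul_le_mul_of_nonneg_right (mul_le_mul (hFL _) (hFL _) (hF _) (hL _)) (sq_nonneg _)
    have h4 : 0 ≤ Ex (fun p : G × (G × G) => D0 p.1 * D11 p.2)
        (fun p => F (p.1 + (p.2.1 + p.2.1)) * F (p.1 + (p.2.2 + p.2.2)) *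
          V p.1 p.2.1 p.2.2 ^ 2) :=
      Ex_nonneg hP fun p => mul_nonneg (mul_nonneg (hF _) (hF _)) (sq_nonneg _)
    exact mul_le_mul h2 h3 h4 hm2'
  have hR5 : R = Ex5 D0 D1 (fun M a a' b b' => Pf g M a a' b b' * Om L M a a' b b') := by
    rw [hR]
    unfold Ex5
    refine Ex_congr fun M => ?_
    have e1 : (Ex D1 fun b => Ex D1 fun b' =>
        (L (M + (b + b)) * L (M + (b' + b'))) * V M b b' ^ 2) = Ex D1 fun b => Ex D1 fun b' =>
        Ex D1 fun a => Ex D1 fun a' => (L (M + (b + b)) * L (M + (b' + b'))) *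
          ((L (M + (a + a)) * (g (M + a + b) * g (M + a + b'))) *
          (L (M + (a' + a')) * (g (M + a' + b) * g (M + a' + b')))) := by
      refine Ex_congr fun b => Ex_congr fun b' => ?_
      rw [hV]
      simp only
      rw [c02_sq, ← Ex_mul_left]
      refine Ex_congr fun a => ?_
      rw [← Ex_mul_left]
    have e2 : ∀ h : G → G → G → G → ℝ, (Ex D1 fun b => Ex D1 fun b' => Ex D1 fun a =>
        Ex D1 fun a' => h b b' a a') = Ex D1 fun a => Ex D1 fun a' => Ex D1 fun b =>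
        Ex D1 fun b' => h b b' a a' := by
      intro h
      have i1 : (Ex D1 fun b => Ex D1 fun b' => Ex D1 fun a => Ex D1 fun a' => h b b' a a') =
          Ex D1 fun b => Ex D1 fun a => Ex D1 fun b' => Ex D1 fun a' => h b b' a a' :=
        Ex_congr fun b => Ex_comm D1 D1 _
      have i2 : (Ex D1 fun a => Ex D1 fun b => Ex D1 fun b' => Ex D1 fun a' => h b b' a a') =
          Ex D1 fun a => Ex D1 fun b => Ex D1 fun a' => Ex D1 fun b' => h b b' a a' :=
        Ex_congr fun a => Ex_congr fun b => Ex_comm D1 D1 _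
      rw [i1, Ex_comm D1 D1, i2]
      exact Ex_congr fun a => Ex_comm D1 D1 _
    rw [e1, e2]
    refine Ex_congr fun a => Ex_congr fun a' => Ex_congr fun b => Ex_congr fun b' => ?_
    unfold Pf Om
    ring
  have hS0 : 0 ≤ S := by
    rw [hS]
    exact Ex_nonneg hD0 fun M => Ex_nonneg hD1 fun a => mul_nonneg (hL _) (sq_nonneg _)
  calc T ^ 4 = (T ^ 2) ^ 2 := by ring
    _ ≤ (m1 * S) ^ 2 := pow_le_pow_left₀ (sq_nonneg _) hTS 2
    _ = m1 ^ 2 * S ^ 2 := by ring
    _ ≤ m1 ^ 2 * (m2 * R) := mul_le_mul_of_nonneg_left hSR (sq_nonneg _)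
    _ = m1 ^ 2 * m2 * Ex5 D0 D1
        (fun M a a' b b' => Pf g M a a' b b' * Om L M a a' b b') := by
      rw [hR5]
      ring

end Pool.Agent.Lib.MG
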