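import Pool.Agent.Lib.MP_7b7e48_nt.MG.C01

/-!
# C03: shift invariance of the box product

Let `H M a a' b b' = Pf g M a a' b b' * Om L M a a' b b'`, `|H| ≤ Om`.
`Pf g (M - u) (a + u) (a' + u) b b' = Pf g M a a' b b'` and
`Om L (M - u) (a + u) (a' + u) b b' = OmU L M a a' b b' u`.
Three steps, each costs at most `ε * exp (2 δ)` by `Smooth.shift` and `mass4`:
(1) replace `M` by `M - u` (`Smooth.shift` for `D0`, `u ∈ B0`, the function
    `k M = Ex D1 .. H M a a' b b'`, `|k M| ≤ Ex D1 .. Om`): the error is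
    `ε * Ex D' fun y => Ex E' fun t => |k (y + t)|`; for fixed `t` this is `mass4` with
    `D0 := D'`, all shifts `s = t`;
(2) replace `a` by `a + u = a - (-u)` (`-u ∈ B1`, `Smooth.shift` for `D1`): for fixed `t` the
    `a`-type variable is `y + t`, `y ~ D1'`, and
    `L (M - u + (y + t + (y + t))) = L (M + (y + y) + (t + t - u))`: `mass4` with `E1 := D1'`,
    shifts `t + t - u, -u, -u, -u`;
(3) replace `a'` by `a' + u`: same (shifts `u`, `t + t - u`, `-u`, `-u`).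
-/

open Finset

namespace Pool.Agent.Lib.MG

variable {G : Type} [AddCommGroup G] [Fintype G]

/-- average of a function bounded pointwise -/
theorem abs_Ex_le_Ex {Ω : Type} [Fintype Ω] {D : Ω → ℝ} (hD : Prob D) {f F : Ω → ℝ}
    (h : ∀ x, |f x| ≤ F x) : |Ex D f| ≤ Ex D F :=
  (abs_Ex_le hD f).trans (Ex_le hD h)

theorem Ex_rot3 {Ω₀ Ω₁ Ω₂ : Type} [Fintype Ω₀] [Fintype Ω₁] [Fintype Ω₂] (D0 : Ω₀ → ℝ)
    (D1 : Ω₁ → ℝ) (D2 : Ω₂ → ℝ) (Ψ : Ω₀ → Ω₁ → Ω₂ → ℝ) :
    (Ex D0 fun x => Ex D1 fun y => Ex D2 fun t => Ψ x y t) =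
      Ex D2 fun t => Ex D0 fun x => Ex D1 fun y => Ψ x y t := by
  rw [← Ex_comm D0 D2 (fun x t => Ex D1 fun y => Ψ x y t)]
  exact Ex_congr fun x => Ex_comm D1 D2 _

theorem Ex_rot4 {Ω₀ Ω₁ Ω₂ Ω₃ : Type} [Fintype Ω₀] [Fintype Ω₁] [Fintype Ω₂] [Fintype Ω₃]
    (D0 : Ω₀ → ℝ) (D1 : Ω₁ → ℝ) (D2 : Ω₂ → ℝ) (D3 : Ω₃ → ℝ) (Ψ : Ω₀ → Ω₁ → Ω₂ → Ω₃ → ℝ) :
    (Ex D0 fun x => Ex D1 fun y => Ex D2 fun s => Ex D3 fun t => Ψ x y s t) =
      Ex D3 fun t => Ex D0 fun x => Ex D1 fun y => Ex D2 fun s => Ψ x y s t := by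
  rw [← Ex_comm D0 D3 (fun x t => Ex D1 fun y => Ex D2 fun s => Ψ x y s t)]
  exact Ex_congr fun x => Ex_rot3 D1 D2 D3 _

omit [Fintype G] in
theorem abs_Pf_le {g : G → ℝ} (hg : ∀ x, |g x| ≤ 1) (M a a' b b' : G) :
    |Pf g M a a' b b'| ≤ 1 := by
  unfold Pf
  rw [abs_mul, abs_mul, abs_mul]
  have h1 := hg (M + a + b)
  have h2 := hg (M + a + b')
  have h3 := hg (M + a' + b)
  have h4 := hg (M + a' + b')
  have h5 : |g (M + a + b)| * |g (M + a + b')| ≤ 1 :=
    mul_le_one₀ h1 (abs_nonneg _) h2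
  have h6 : |g (M + a' + b)| * |g (M + a' + b')| ≤ 1 :=
    mul_le_one₀ h3 (abs_nonneg _) h4
  exact mul_le_one₀ h5 (by positivity) h6

omit [Fintype G] in
theorem Om_nonneg {L : G → ℝ} (hL : ∀ x, 0 ≤ L x) (M a a' b b' : G) :
    0 ≤ Om L M a a' b b' := by
  unfold Om
  exact mul_nonneg (mul_nonneg (hL _) (hL _)) (mul_nonneg (hL _) (hL _))

omit [Fintype G] in
theorem abs_PfOm_le {L g : G → ℝ} (hL : ∀ x, 0 ≤ L x) (hg : ∀ x, |g x| ≤ 1) (M a a' b b' : G) :
    |Pf g M a a' b b' * Om L M a a' b b'| ≤ Om L M a a' b b' := by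
  rw [abs_mul, abs_of_nonneg (Om_nonneg hL M a a' b b')]
  calc _ ≤ 1 * Om L M a a' b b' :=
        mul_le_mul_of_nonneg_right (abs_Pf_le hg M a a' b b') (Om_nonneg hL M a a' b b')
    _ = _ := one_mul _

omit [Fintype G] in
theorem PfOm_shift (L g : G → ℝ) (M a a' b b' u : G) :
    Pf g M a a' b b' * OmU L M a a' b b' u =
      Pf g (M - u) (a + u) (a' + u) b b' * Om L (M - u) (a + u) (a' + u) b b' := by
  unfold Pf OmU Om
  have e1 : M - u + (a + u) + b = M + a + b := by abel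
  have e2 : M - u + (a + u) + b' = M + a + b' := by abel
  have e3 : M - u + (a' + u) + b = M + a' + b := by abel
  have e4 : M - u + (a' + u) + b' = M + a' + b' := by abel
  have e5 : M - u + (a + u + (a + u)) = M + (a + a) + u := by abel
  have e6 : M - u + (a' + u + (a' + u)) = M + (a' + a') + u := by abel
  have e7 : M - u + (b + b) = M + (b + b) - u := by abel
  have e8 : M - u + (b' + b') = M + (b' + b') - u := by abel
  rw [e1, e2, e3, e4, e5, e6, e7, e8]

theorem box_shift {z K δ ε : ℝ} {L A : G → ℝ} (hL : PS z L A) (par : Par K δ z) (hd : Dbl G)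
    (hε : 0 ≤ ε) {B0 B1 : Set G} {D0 D1 : G → ℝ} (h0 : Smooth K ε B0 D0) (h1 : Smooth K ε B1 D1)
    {g : G → ℝ} (hg : ∀ x, |g x| ≤ 1) {u : G} (hu0 : u ∈ B0) (hu1 : -u ∈ B1) :
    |Ex5 D0 D1 (fun M a a' b b' => Pf g M a a' b b' * Om L M a a' b b') -
      Ex5 D0 D1 (fun M a a' b b' => Pf g M a a' b b' * OmU L M a a' b b' u)| ≤
      3 * ε * Real.exp (2 * δ) := by
  have hL0 := hL.L_nonneg
  have p0 := h0.pw.prob
  have p1 := h1.pw.prob
  set H : G → G → G → G → G → ℝ := fun M a a' b b' => Pf g M a a' b b' * Om L M a a' b b' with hH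
  have hHle : ∀ M a a' b b', |H M a a' b b'| ≤ Om L M a a' b b' := fun M a a' b b' =>
    abs_PfOm_le hL0 hg M a a' b b'
  have hrew : Ex5 D0 D1 (fun M a a' b b' => Pf g M a a' b b' * OmU L M a a' b b' u) =
      Ex D0 fun M => Ex D1 fun a => Ex D1 fun a' => Ex D1 fun b => Ex D1 fun b' =>
        H (M - u) (a + u) (a' + u) b b' := by
    unfold Ex5
    refine Ex_congr fun M => Ex_congr fun a => Ex_congr fun a' => Ex_congr fun b =>
      Ex_congr fun b' => ?_
    exact PfOm_shift L g M a a' b b' u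
  set T0 := Ex5 D0 D1 H with hT0
  set T1 := Ex D0 fun M => Ex D1 fun a => Ex D1 fun a' => Ex D1 fun b => Ex D1 fun b' =>
        H (M - u) a a' b b' with hT1
  set T2 := Ex D0 fun M => Ex D1 fun a => Ex D1 fun a' => Ex D1 fun b => Ex D1 fun b' =>
        H (M - u) (a + u) a' b b' with hT2
  set T3 := Ex D0 fun M => Ex D1 fun a => Ex D1 fun a' => Ex D1 fun b => Ex D1 fun b' =>
        H (M - u) (a + u) (a' + u) b b' with hT3
  -- step 1
  have s1 : |T1 - T0| ≤ ε * Real.exp (2 * δ) := by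
    obtain ⟨D', E', hD', hE', hsh⟩ := h0.shift
    have h := hsh u hu0 (fun M => Ex D1 fun a => Ex D1 fun a' => Ex D1 fun b => Ex D1 fun b' =>
      H M a a' b b')
    refine h.trans (mul_le_mul_of_nonneg_left ?_ hε)
    have h2 : (Ex D' fun y => Ex E' fun t => |Ex D1 fun a => Ex D1 fun a' => Ex D1 fun b =>
        Ex D1 fun b' => H (y + t) a a' b b'|) ≤
        Ex D' fun y => Ex E' fun t => Ex D1 fun a => Ex D1 fun a' => Ex D1 fun b =>
        Ex D1 fun b' => Om L (y + t) a a' b b' := by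
      refine Ex_le hD'.prob fun y => Ex_le hE'.prob fun t => ?_
      refine abs_Ex_le_Ex p1 fun a => abs_Ex_le_Ex p1 fun a' => abs_Ex_le_Ex p1 fun b =>
        abs_Ex_le_Ex p1 fun b' => hHle _ _ _ _ _
    refine h2.trans ?_
    rw [Ex_comm]
    refine Ex_le_const hE'.prob fun t => ?_
    refine le_trans (le_of_eq ?_) (mass4 hL par hd hD' h1.pw h1.pw h1.pw h1.pw t t t t)
    refine Ex_congr fun y => Ex_congr fun a => Ex_congr fun a' => Ex_congr fun b =>
      Ex_congr fun b' => ?_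
    unfold Om
    have e1 : ∀ c : G, y + t + (c + c) = y + (c + c) + t := fun c => by abel
    rw [e1, e1, e1, e1]
  obtain ⟨D', E', hD', hE', hsh⟩ := h1.shift
  -- step 2
  have s2 : |T2 - T1| ≤ ε * Real.exp (2 * δ) := by
    have h2 : ∀ M, |(Ex D1 fun a => Ex D1 fun a' => Ex D1 fun b => Ex D1 fun b' =>
        H (M - u) (a + u) a' b b') - Ex D1 fun a => Ex D1 fun a' => Ex D1 fun b =>
        Ex D1 fun b' => H (M - u) a a' b b'| ≤
        ε * Ex D' fun y => Ex E' fun t => Ex D1 fun a' => Ex D1 fun b => Ex D1 fun b' =>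
          Om L (M - u) (y + t) a' b b' := by
      intro M
      have h := hsh (-u) hu1 (fun a => Ex D1 fun a' => Ex D1 fun b => Ex D1 fun b' =>
        H (M - u) a a' b b')
      simp only [sub_neg_eq_add] at h
      refine h.trans (mul_le_mul_of_nonneg_left ?_ hε)
      refine Ex_le hD'.prob fun y => Ex_le hE'.prob fun t => ?_
      refine abs_Ex_le_Ex p1 fun a' => abs_Ex_le_Ex p1 fun b =>
        abs_Ex_le_Ex p1 fun b' => hHle _ _ _ _ _
    rw [hT2, hT1, ← Ex_sub]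
    refine (abs_Ex_le_Ex p0 h2).trans ?_
    rw [Ex_mul_left]
    refine mul_le_mul_of_nonneg_left ?_ hε
    have h3 : (Ex D0 fun M => Ex D' fun y => Ex E' fun t => Ex D1 fun a' => Ex D1 fun b =>
        Ex D1 fun b' => Om L (M - u) (y + t) a' b b') =
        Ex E' fun t => Ex D0 fun M => Ex D' fun y => Ex D1 fun a' => Ex D1 fun b =>
        Ex D1 fun b' => Om L (M - u) (y + t) a' b b' := Ex_rot3 _ _ _ _
    rw [h3]
    refine Ex_le_const hE'.prob fun t => ?_
    refine le_trans (le_of_eq ?_)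
      (mass4 hL par hd h0.pw hD' h1.pw h1.pw h1.pw (t + t - u) (-u) (-u) (-u))
    refine Ex_congr fun M => Ex_congr fun y => Ex_congr fun a' => Ex_congr fun b =>
      Ex_congr fun b' => ?_
    unfold Om
    have e1 : ∀ c : G, M - u + (c + c) = M + (c + c) + -u := fun c => by abel
    have e2 : M - u + (y + t + (y + t)) = M + (y + y) + (t + t - u) := by abel
    rw [e2, e1, e1, e1]
  -- step 3
  have s3 : |T3 - T2| ≤ ε * Real.exp (2 * δ) := by
    have h2 : ∀ M a, |(Ex D1 fun a' => Ex D1 fun b => Ex D1 fun b' =>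
        H (M - u) (a + u) (a' + u) b b') - Ex D1 fun a' => Ex D1 fun b =>
        Ex D1 fun b' => H (M - u) (a + u) a' b b'| ≤
        ε * Ex D' fun y => Ex E' fun t => Ex D1 fun b => Ex D1 fun b' =>
          Om L (M - u) (a + u) (y + t) b b' := by
      intro M a
      have h := hsh (-u) hu1 (fun a' => Ex D1 fun b => Ex D1 fun b' =>
        H (M - u) (a + u) a' b b')
      simp only [sub_neg_eq_add] at h
      refine h.trans (mul_le_mul_of_nonneg_left ?_ hε)
      refine Ex_le hD'.prob fun y => Ex_le hE'.prob fun t => ?_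
      refine abs_Ex_le_Ex p1 fun b =>
        abs_Ex_le_Ex p1 fun b' => hHle _ _ _ _ _
    rw [hT3, hT2, ← Ex_sub]
    have h4 : ∀ M, |(Ex D1 fun a => Ex D1 fun a' => Ex D1 fun b => Ex D1 fun b' =>
        H (M - u) (a + u) (a' + u) b b') - Ex D1 fun a => Ex D1 fun a' => Ex D1 fun b =>
        Ex D1 fun b' => H (M - u) (a + u) a' b b'| ≤
        Ex D1 fun a => ε * Ex D' fun y => Ex E' fun t => Ex D1 fun b => Ex D1 fun b' =>
          Om L (M - u) (a + u) (y + t) b b' := by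
      intro M
      rw [← Ex_sub]
      exact abs_Ex_le_Ex p1 (h2 M)
    refine (abs_Ex_le_Ex p0 h4).trans ?_
    simp only [Ex_mul_left]
    refine mul_le_mul_of_nonneg_left ?_ hε
    have h3 : (Ex D0 fun M => Ex D1 fun a => Ex D' fun y => Ex E' fun t => Ex D1 fun b =>
        Ex D1 fun b' => Om L (M - u) (a + u) (y + t) b b') =
        Ex E' fun t => Ex D0 fun M => Ex D1 fun a => Ex D' fun y => Ex D1 fun b =>
        Ex D1 fun b' => Om L (M - u) (a + u) (y + t) b b' := Ex_rot4 _ _ _ _ _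
    rw [h3]
    refine Ex_le_const hE'.prob fun t => ?_
    refine le_trans (le_of_eq ?_)
      (mass4 hL par hd h0.pw h1.pw hD' h1.pw h1.pw u (t + t - u) (-u) (-u))
    refine Ex_congr fun M => Ex_congr fun a => Ex_congr fun y => Ex_congr fun b =>
      Ex_congr fun b' => ?_
    unfold Om
    have e1 : ∀ c : G, M - u + (c + c) = M + (c + c) + -u := fun c => by abel
    have e2 : M - u + (y + t + (y + t)) = M + (y + y) + (t + t - u) := by abel
    have e3 : M - u + (a + u + (a + u)) = M + (a + a) + u := by abel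
    rw [e2, e3, e1, e1]
  rw [hrew]
  have e : T0 - T3 = -((T1 - T0) + (T2 - T1) + (T3 - T2)) := by ring
  rw [e, abs_neg]
  calc _ ≤ |T1 - T0| + |T2 - T1| + |T3 - T2| := abs_add_three _ _ _
    _ ≤ ε * Real.exp (2 * δ) + ε * Real.exp (2 * δ) + ε * Real.exp (2 * δ) :=
      add_le_add (add_le_add s1 s2) s3
    _ = _ := by ring

end Pool.Agent.Lib.MG
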