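import Pool.Agent.Lib.MP_7b7e48_nt.MG.P05

/-!
# P06: second moment of `Ex E (OmU L M a a' b b' ·)` (8 points)

Proof.  Expand the square: `(Ex E f) ^ 2 = Ex E fun u => Ex E fun v => f u * f v`.  Take
`Ω = G^6 ∋ (a, a', b, b', u, v)` with the product weight `D1 a D1 a' D1 b D1 b' E u E v`, `ι = Fin 8`
and the eight points
`a+a+u, a'+a'+u, b+b-u, b'+b'-u, a+a+v, a'+a'+v, b+b-v, b'+b'-v`.
`moment` needs: each point has a law of density `≤ exp K` (fix everything except the `a`-type
variable, bijection `a ↦ a + a + const`, `dens_of_bij`), and each difference too: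
* points with different `a`-type variables: fix everything except one of them;
* `(a+a+u) - (a+a+v) = u - v`: fix `v`, bijection `u ↦ u - v`; `(b+b-u) - (b+b-v) = v - u`.
It is convenient to prove first a general lemma: for `Ω = Fin 6 → G` with the product weight
`∏ k, E k (ω k)` and `X ω = φ (ω k) (the other coordinates)`, where `φ` is bijective in the
coordinate `k` for fixed others, `Dens K w X` holds.  (28 unordered pairs: `fin_cases`.)
-/

open Finset

namespace Pool.Agent.Lib.MG

variable {G : Type} [AddCommGroup G] [Fintype G]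

theorem p06_cons {n : ℕ} (e : Fin (n + 1) → G → ℝ) (F : (Fin (n + 1) → G) → ℝ) :
    Ex (fun ω : Fin (n + 1) → G => ∏ k, e k (ω k)) F =
      Ex (e 0) (fun x => Ex (fun p : Fin n → G => ∏ k, e k.succ (p k))
        (fun p => F (Fin.cons x p))) := by
  unfold Ex
  rw [← (Fin.consEquiv (fun _ => G)).sum_comp, Fintype.sum_prod_type]
  refine Finset.sum_congr rfl fun x _ => ?_
  rw [Finset.mul_sum]
  refine Finset.sum_congr rfl fun p _ => ?_
  have h0 : (Fin.consEquiv (fun _ : Fin (n + 1) => G)) (x, p) = Fin.cons x p := rfl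
  rw [h0]
  show (∏ k, e k ((Fin.cons x p : Fin (n + 1) → G) k)) * F (Fin.cons x p) =
    e 0 x * ((∏ k, e k.succ (p k)) * F (Fin.cons x p))
  rw [Fin.prod_univ_succ]
  simp only [Fin.cons_zero, Fin.cons_succ]
  ring

theorem p06_nil (F : (Fin 0 → G) → ℝ) (e : Fin 0 → G → ℝ) :
    Ex (fun ω : Fin 0 → G => ∏ k, e k (ω k)) F = F Fin.elim0 := by
  unfold Ex
  rw [Fintype.sum_unique]
  simp only [Finset.univ_eq_empty, Finset.prod_empty, one_mul]
  exact congrArg F (Subsingleton.elim _ _)

theorem p06_prob {n : ℕ} {e : Fin n → G → ℝ} (he : ∀ k, Prob (e k)) :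
    Prob (fun ω : Fin n → G => ∏ k, e k (ω k)) := by
  constructor
  · intro ω
    exact Finset.prod_nonneg fun k _ => (he k).nonneg _
  · have h := Finset.prod_univ_sum (fun _ : Fin n => (Finset.univ : Finset G)) (fun k x => e k x)
    rw [Fintype.piFinset_univ] at h
    rw [← h]
    exact Finset.prod_eq_one fun k _ => (he k).sum_one

theorem p06_dens {n : ℕ} {K : ℝ} {e : Fin (n + 1) → G → ℝ} (he : ∀ k, PW K (e k))
    (k : Fin (n + 1)) {X : (Fin (n + 1) → G) → G}
    (hX : ∀ ω, Function.Bijective (fun x => X (Function.update ω k x))) :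
    Dens K (fun ω : Fin (n + 1) → G => ∏ k, e k (ω k)) X := by
  intro g hg
  have h1 : Ex (fun ω : Fin (n + 1) → G => ∏ k, e k (ω k)) (fun ω => g (X ω)) =
      ∑ p : Fin n → G, (∏ j, e (k.succAbove j) (p j)) *
        Ex (e k) (fun x => g (X (k.insertNth x p))) := by
    unfold Ex
    rw [← (Fin.insertNthEquiv (fun _ => G) k).sum_comp, Fintype.sum_prod_type, Finset.sum_comm]
    refine Finset.sum_congr rfl fun p _ => ?_
    rw [Finset.mul_sum]
    refine Finset.sum_congr rfl fun x _ => ?_
    have h0 : (Fin.insertNthEquiv (fun _ : Fin (n + 1) => G) k) (x, p) = k.insertNth x p := rfl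
    rw [h0]
    show (∏ j, e j ((k.insertNth x p : Fin (n + 1) → G) j)) * g (X (k.insertNth x p)) =
      (∏ j, e (k.succAbove j) (p j)) * (e k x * g (X (k.insertNth x p)))
    rw [Fin.prod_univ_succAbove _ k]
    simp only [Fin.insertNth_apply_same, Fin.insertNth_apply_succAbove]
    ring
  rw [h1, Finset.sum_mul]
  have h2 : ∀ p : Fin n → G, (∏ j, e (k.succAbove j) (p j)) *
      Ex (e k) (fun x => g (X (k.insertNth x p))) * (Fintype.card G : ℝ) ≤
      (∏ j, e (k.succAbove j) (p j)) * (Real.exp K * ∑ d, g d) := by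
    intro p
    rw [mul_assoc]
    refine mul_le_mul_of_nonneg_left ?_ (Finset.prod_nonneg fun j _ => (he _).prob.nonneg _)
    have h3 := dens_of_bij (he k) (φ := fun x => X (k.insertNth x p)) (by
      have h4 := hX (k.insertNth 0 p)
      have h5 : (fun x => X (Function.update (k.insertNth (α := fun _ => G) 0 p) k x)) =
          fun x => X (k.insertNth x p) := by
        funext x
        rw [Fin.update_insertNth]
      rw [h5] at h4
      exact h4)
    exact h3 g hg
  refine le_trans (Finset.sum_le_sum fun p _ => h2 p) (le_of_eq ?_)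
  rw [← Finset.sum_mul]
  have h6 := (p06_prob (n := n) (e := fun j => e (k.succAbove j)) fun j => (he _).prob).sum_one
  rw [h6, one_mul]

theorem p06_bij2 (hd : Dbl G) {f : G → G} (h : ∀ x, f x - f 0 = x + x) : Function.Bijective f := by
  have h1 : f = (fun y => y + f 0) ∘ (fun x : G => x + x) := by
    funext x
    rw [Function.comp_apply, ← h x, sub_add_cancel]
  rw [h1]
  exact (Equiv.addRight (f 0)).bijective.comp hd

theorem p06_bij1 {f : G → G} (h : ∀ x, f x - f 0 = x) : Function.Bijective f := by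
  have h1 : f = (fun y => y + f 0) := by
    funext x
    have := h x
    rw [← sub_add_cancel (f x) (f 0), this]
  rw [h1]
  exact (Equiv.addRight (f 0)).bijective

/-- the eight points -/
def p06_c (ω : Fin 6 → G) : Fin 8 → G :=
  ![ω 0 + ω 0 + ω 4, ω 1 + ω 1 + ω 4, ω 2 + ω 2 - ω 4, ω 3 + ω 3 - ω 4,
    ω 0 + ω 0 + ω 5, ω 1 + ω 1 + ω 5, ω 2 + ω 2 - ω 5, ω 3 + ω 3 - ω 5]

theorem mass8 {z K δ : ℝ} {L A : G → ℝ} (h : PS z L A) (par : Par K δ z) (hd : Dbl G)
    {D0 D1 E : G → ℝ} (hD0 : PW K D0) (hD1 : PW K D1) (hE : PW K E) :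
    Ex5 D0 D1 (fun M a a' b b' => (Ex E fun u => OmU L M a a' b b' u) ^ 2) ≤
      Real.exp (2 * δ) := by
  have he : ∀ k : Fin 6, PW K ((![D1, D1, D1, D1, E, E] : Fin 6 → G → ℝ) k) := by
    intro k
    fin_cases k
    · exact hD1
    · exact hD1
    · exact hD1
    · exact hD1
    · exact hE
    · exact hE
  have hm := moment h par hD0 (p06_prob fun k => (he k).prob) (ι := Fin 8) (by simp)
    (fun ω => p06_c ω) (by
      intro i
      fin_cases i
      · exact p06_dens he 0 fun ω => p06_bij2 hd fun x => by simp [p06_c]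
      · exact p06_dens he 1 fun ω => p06_bij2 hd fun x => by simp [p06_c]
      · exact p06_dens he 2 fun ω => p06_bij2 hd fun x => by simp [p06_c]
      · exact p06_dens he 3 fun ω => p06_bij2 hd fun x => by simp [p06_c]
      · exact p06_dens he 0 fun ω => p06_bij2 hd fun x => by simp [p06_c]
      · exact p06_dens he 1 fun ω => p06_bij2 hd fun x => by simp [p06_c]
      · exact p06_dens he 2 fun ω => p06_bij2 hd fun x => by simp [p06_c]
      · exact p06_dens he 3 fun ω => p06_bij2 hd fun x => by simp [p06_c])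
    (by
      intro i j hij
      fin_cases i <;> fin_cases j <;> first
        | exact absurd rfl hij
        | (refine p06_dens he 0 (fun ω => p06_bij2 hd (fun x => ?_))
           simp [p06_c]
           done)
        | (refine p06_dens he 1 (fun ω => p06_bij2 hd (fun x => ?_))
           simp [p06_c]
           done)
        | (refine p06_dens he 2 (fun ω => p06_bij2 hd (fun x => ?_))
           simp [p06_c]
           done)
        | (refine p06_dens he 3 (fun ω => p06_bij2 hd (fun x => ?_))
           simp [p06_c]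
           done)
        | (refine p06_dens he 4 (fun ω => p06_bij1 (fun x => ?_))
           simp [p06_c]
           done)
        | (refine p06_dens he 5 (fun ω => p06_bij1 (fun x => ?_))
           simp [p06_c]
           done)
        | (refine p06_dens he 0 (fun ω => p06_bij2 hd (fun x => ?_))
           simp [p06_c]
           abel1)
        | (refine p06_dens he 1 (fun ω => p06_bij2 hd (fun x => ?_))
           simp [p06_c]
           abel1)
        | (refine p06_dens he 2 (fun ω => p06_bij2 hd (fun x => ?_))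
           simp [p06_c]
           abel1)
        | (refine p06_dens he 3 (fun ω => p06_bij2 hd (fun x => ?_))
           simp [p06_c]
           abel1))
  refine le_trans (le_of_eq ?_) hm
  unfold Ex5
  refine Ex_congr fun M => ?_
  rw [p06_cons]
  refine Ex_congr fun a => ?_
  rw [p06_cons]
  refine Ex_congr fun a' => ?_
  rw [p06_cons]
  refine Ex_congr fun b => ?_
  rw [p06_cons]
  refine Ex_congr fun b' => ?_
  rw [p06_cons]
  have h7 : ∀ f : G → ℝ, (Ex E f) ^ 2 = Ex E (fun u => Ex E (fun v => f u * f v)) := by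
    intro f
    rw [sq, ← Ex_mul_right]
    exact Ex_congr fun u => (Ex_mul_left _ _).symm
  show (Ex E fun u => OmU L M a a' b b' u) ^ 2 = _
  rw [h7]
  refine Ex_congr fun u => ?_
  rw [p06_cons]
  refine Ex_congr fun v => ?_
  rw [p06_nil, Fin.prod_univ_eight]
  have e0 : ∀ q : Fin 0 → G, p06_c (Fin.cons a (Fin.cons a' (Fin.cons b (Fin.cons b' (Fin.cons u
      (Fin.cons v q)))))) 0 = a + a + u := fun _ => rfl
  have e1 : ∀ q : Fin 0 → G, p06_c (Fin.cons a (Fin.cons a' (Fin.cons b (Fin.cons b' (Fin.cons u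
      (Fin.cons v q)))))) 1 = a' + a' + u := fun _ => rfl
  have e2 : ∀ q : Fin 0 → G, p06_c (Fin.cons a (Fin.cons a' (Fin.cons b (Fin.cons b' (Fin.cons u
      (Fin.cons v q)))))) 2 = b + b - u := fun _ => rfl
  have e3 : ∀ q : Fin 0 → G, p06_c (Fin.cons a (Fin.cons a' (Fin.cons b (Fin.cons b' (Fin.cons u
      (Fin.cons v q)))))) 3 = b' + b' - u := fun _ => rfl
  have e4 : ∀ q : Fin 0 → G, p06_c (Fin.cons a (Fin.cons a' (Fin.cons b (Fin.cons b' (Fin.cons u
      (Fin.cons v q)))))) 4 = a + a + v := fun _ => rfl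
  have e5 : ∀ q : Fin 0 → G, p06_c (Fin.cons a (Fin.cons a' (Fin.cons b (Fin.cons b' (Fin.cons u
      (Fin.cons v q)))))) 5 = a' + a' + v := fun _ => rfl
  have e6 : ∀ q : Fin 0 → G, p06_c (Fin.cons a (Fin.cons a' (Fin.cons b (Fin.cons b' (Fin.cons u
      (Fin.cons v q)))))) 6 = b + b - v := fun _ => rfl
  have e7 : ∀ q : Fin 0 → G, p06_c (Fin.cons a (Fin.cons a' (Fin.cons b (Fin.cons b' (Fin.cons u
      (Fin.cons v q)))))) 7 = b' + b' - v := fun _ => rfl
  rw [e0, e1, e2, e3, e4, e5, e6, e7]
  simp only [OmU, ← add_assoc, ← add_sub_assoc]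
  ring

end Pool.Agent.Lib.MG
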