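import Pool.Agent.Lib.MP_7b7e48_nt.MG.C03
import Pool.Agent.Lib.MP_7b7e48_nt.MG.P06

/-!
# C04: the weight `Om` can be removed from the box average

Let `W M a a' b b' = Ex E fun u => OmU L M a a' b b' u`.
(1) Averaging `box_shift` over `u ~ E` (support condition, `Ex_le_const_supp`):
`|Ex5 (Pf * Om) - Ex5 (Pf * W)| ≤ 3 ε exp (2 δ) ≤ 4 ε` (`exp (2 δ) ≤ exp (1/5) ≤ 5/4`).
(2) the same with `g = 1` (`Pf 1 = 1`): `|Ex5 Om - Ex5 W| ≤ 4 ε`.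
(3) `Ex5 Om = Ex D0 fun M => (Ex D1 fun a => L (M + (a + a))) ^ 4 ≥ (Ex D0 Ex D1 L) ^ 4 ≥
(1 - γ) ^ 4 ≥ 1 - 4 γ` (`sq_Ex_le` twice, Bernoulli).
(4) `mass8`: `Ex5 (W ^ 2) ≤ exp (2 δ) ≤ 1 + 3 δ`.
(5) `Ex5 ((W - 1) ^ 2) = Ex5 (W ^ 2) - 2 Ex5 W + 1 ≤ 3 δ + 8 γ + 8 ε`.
(6) `|Ex5 (Pf * (W - 1))| ≤ Ex5 |W - 1| ≤ sqrt (Ex5 ((W - 1) ^ 2))`.
`Ex5` is an average for the product weight: it is convenient to prove `Ex5_sub`, `Ex5_le`,
`sq_Ex5_le` etc. first, or to write `Ex5 D0 D1 f = Ex w f'` on the product type.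
-/

open Finset

namespace Pool.Agent.Lib.MG

variable {G : Type} [AddCommGroup G] [Fintype G]

theorem Ex_prod {Ω₀ Ω₁ : Type} [Fintype Ω₀] [Fintype Ω₁] (D0 : Ω₀ → ℝ) (D1 : Ω₁ → ℝ)
    (f : Ω₀ × Ω₁ → ℝ) :
    Ex (fun p : Ω₀ × Ω₁ => D0 p.1 * D1 p.2) f = Ex D0 fun x => Ex D1 fun y => f (x, y) := by
  unfold Ex
  rw [Fintype.sum_prod_type]
  refine Finset.sum_congr rfl fun x _ => ?_
  rw [Finset.mul_sum]
  exact Finset.sum_congr rfl fun y _ => by ring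

theorem Prob.prod {Ω₀ Ω₁ : Type} [Fintype Ω₀] [Fintype Ω₁] {D0 : Ω₀ → ℝ} {D1 : Ω₁ → ℝ}
    (h0 : Prob D0) (h1 : Prob D1) : Prob (fun p : Ω₀ × Ω₁ => D0 p.1 * D1 p.2) := by
  refine ⟨fun p => mul_nonneg (h0.nonneg _) (h1.nonneg _), ?_⟩
  have h := Ex_prod D0 D1 (fun _ => 1)
  have h2 : (Ex D0 fun _ => Ex D1 fun _ => (1 : ℝ)) = 1 := by
    rw [Ex_const h1, Ex_const h0]
  rw [h2] at h
  unfold Ex at h
  simpa using h

/-- the product weight of `Ex5` -/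
def w5 (D0 D1 : G → ℝ) (p : G × G × G × G × G) : ℝ :=
  D0 p.1 * (D1 p.2.1 * (D1 p.2.2.1 * (D1 p.2.2.2.1 * D1 p.2.2.2.2)))

omit [AddCommGroup G] in
theorem w5_prob {D0 D1 : G → ℝ} (h0 : Prob D0) (h1 : Prob D1) : Prob (w5 D0 D1) :=
  h0.prod (h1.prod (h1.prod (h1.prod h1)))

omit [AddCommGroup G] in
theorem Ex5_eq (D0 D1 : G → ℝ) (f : G → G → G → G → G → ℝ) :
    Ex5 D0 D1 f = Ex (w5 D0 D1) (fun p => f p.1 p.2.1 p.2.2.1 p.2.2.2.1 p.2.2.2.2) := by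
  unfold Ex5
  have h := Ex_prod D0 (fun q : G × G × G × G => D1 q.1 * (D1 q.2.1 * (D1 q.2.2.1 * D1 q.2.2.2)))
    (fun p : G × G × G × G × G => f p.1 p.2.1 p.2.2.1 p.2.2.2.1 p.2.2.2.2)
  have e : Ex (w5 D0 D1) (fun p => f p.1 p.2.1 p.2.2.1 p.2.2.2.1 p.2.2.2.2) =
      Ex (fun p : G × G × G × G × G => D0 p.1 *
        (fun q : G × G × G × G => D1 q.1 * (D1 q.2.1 * (D1 q.2.2.1 * D1 q.2.2.2))) p.2)
        (fun p => f p.1 p.2.1 p.2.2.1 p.2.2.2.1 p.2.2.2.2) := rfl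
  rw [e, h]
  refine Ex_congr fun M => ?_
  have h2 := Ex_prod D1 (fun q : G × G × G => D1 q.1 * (D1 q.2.1 * D1 q.2.2))
    (fun q : G × G × G × G => f M q.1 q.2.1 q.2.2.1 q.2.2.2)
  refine Eq.trans ?_ h2.symm
  refine Ex_congr fun a => ?_
  have h3 := Ex_prod D1 (fun q : G × G => D1 q.1 * D1 q.2)
    (fun q : G × G × G => f M a q.1 q.2.1 q.2.2)
  refine Eq.trans ?_ h3.symm
  refine Ex_congr fun a' => ?_
  have h4 := Ex_prod D1 D1 (fun q : G × G => f M a a' q.1 q.2)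
  exact h4.symm

theorem exp_two_mul_le {K δ z : ℝ} (par : Par K δ z) : Real.exp (2 * δ) ≤ 1 + 3 * δ := by
  have h1 := par.hδ
  have h2 := par.hδ1
  have h3 := Real.exp_bound_div_one_sub_of_interval (x := 2 * δ) (by linarith) (by linarith)
  refine h3.trans ?_
  rw [div_le_iff₀ (by linarith)]
  nlinarith

theorem Ex5_Om_ge {L : G → ℝ} {γ : ℝ} (hγ1 : γ ≤ 1) {D0 D1 : G → ℝ} (p0 : Prob D0)
    (hmass : 1 - γ ≤ Ex D0 (fun M => Ex D1 fun a => L (M + (a + a)))) :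
    1 - 4 * γ ≤ Ex5 D0 D1 (fun M a a' b b' => Om L M a a' b b') := by
  have h1 : Ex5 D0 D1 (fun M a a' b b' => Om L M a a' b b') =
      Ex D0 fun M => ((Ex D1 fun a => L (M + (a + a))) ^ 2) ^ 2 := by
    unfold Ex5
    refine Ex_congr fun M => ?_
    unfold Om
    simp only [Ex_mul_left, Ex_mul_right]
    ring
  rw [h1]
  set φ : G → ℝ := fun M => Ex D1 fun a => L (M + (a + a)) with hφ
  have h2 : (Ex D0 φ) ^ 2 ≤ Ex D0 fun M => φ M ^ 2 := sq_Ex_le p0 φ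
  have h3 : (Ex D0 fun M => φ M ^ 2) ^ 2 ≤ Ex D0 fun M => (φ M ^ 2) ^ 2 := sq_Ex_le p0 _
  have h4 : 0 ≤ 1 - γ := by linarith
  have h5 : (1 - γ) ^ 2 ≤ (Ex D0 φ) ^ 2 := pow_le_pow_left₀ h4 hmass 2
  have h6 : ((1 - γ) ^ 2) ^ 2 ≤ (Ex D0 fun M => φ M ^ 2) ^ 2 :=
    pow_le_pow_left₀ (sq_nonneg _) (h5.trans h2) 2
  have h7 : 1 - 4 * γ ≤ ((1 - γ) ^ 2) ^ 2 := by nlinarith [sq_nonneg γ, sq_nonneg (γ ^ 2 - 2 * γ)]
  linarith

/-- averaging the box shift over `u ~ E` -/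
theorem box_avg {z K δ ε : ℝ} {L A : G → ℝ} (hL : PS z L A) (par : Par K δ z) (hd : Dbl G)
    (hε : 0 ≤ ε) {B0 B1 : Set G} {D0 D1 E : G → ℝ}
    (h0 : Smooth K ε B0 D0) (h1 : Smooth K ε B1 D1) (hE : PW K E)
    (hEs : ∀ u, E u ≠ 0 → u ∈ B0 ∧ -u ∈ B1) {g : G → ℝ} (hg : ∀ x, |g x| ≤ 1) :
    |Ex5 D0 D1 (fun M a a' b b' => Pf g M a a' b b' * Om L M a a' b b') -
      Ex5 D0 D1 (fun M a a' b b' => Pf g M a a' b b' * Ex E fun u => OmU L M a a' b b' u)| ≤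
      4 * ε := by
  have h2 : Ex5 D0 D1 (fun M a a' b b' => Pf g M a a' b b' *
      Ex E fun u => OmU L M a a' b b' u) =
      Ex E fun u => Ex5 D0 D1 (fun M a a' b b' => Pf g M a a' b b' * OmU L M a a' b b' u) := by
    simp only [Ex5_eq]
    rw [← Ex_comm]
    refine Ex_congr fun p => ?_
    rw [Ex_mul_left]
  rw [h2]
  set T := Ex5 D0 D1 (fun M a a' b b' => Pf g M a a' b b' * Om L M a a' b b') with hT
  have h3 : T = Ex E fun _ => T := (Ex_const hE.prob T).symm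
  rw [h3, ← Ex_sub]
  refine (abs_Ex_le hE.prob _).trans (Ex_le_const_supp hE.prob fun u hu => ?_)
  have h4 := box_shift hL par hd hε h0 h1 hg (hEs u hu).1 (hEs u hu).2
  refine h4.trans ?_
  have h5 := exp_two_mul_le par
  have h6 := par.hδ1
  nlinarith

theorem omega_bar {z K δ ε γ : ℝ} {L A : G → ℝ} (hL : PS z L A) (par : Par K δ z) (hd : Dbl G)
    (hε : 0 ≤ ε) (hγ0 : 0 ≤ γ) (hγ1 : γ ≤ 1) {B0 B1 : Set G} {D0 D1 E : G → ℝ}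
    (h0 : Smooth K ε B0 D0) (h1 : Smooth K ε B1 D1) (hE : PW K E)
    (hEs : ∀ u, E u ≠ 0 → u ∈ B0 ∧ -u ∈ B1) {g : G → ℝ} (hg : ∀ x, |g x| ≤ 1)
    (hmass : 1 - γ ≤ Ex D0 (fun M => Ex D1 fun a => L (M + (a + a)))) :
    |Ex5 D0 D1 (fun M a a' b b' => Pf g M a a' b b' * Om L M a a' b b') -
      Ex5 D0 D1 (fun M a a' b b' => Pf g M a a' b b')| ≤
      4 * ε + Real.sqrt (3 * δ + 8 * γ + 8 * ε) := by
  have p0 := h0.pw.prob
  have p1 := h1.pw.prob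
  have pw := w5_prob p0 p1
  -- (1)
  have a1 := box_avg hL par hd hε h0 h1 hE hEs hg
  -- (2)
  have a2 := box_avg hL par hd hε h0 h1 hE hEs (g := fun _ => 1) (fun _ => by simp)
  have hPf1 : ∀ M a a' b b' : G, Pf (fun _ => (1 : ℝ)) M a a' b b' = 1 := by
    intro M a a' b b'
    unfold Pf
    norm_num
  simp only [hPf1, one_mul] at a2
  -- (3)
  have a3 := Ex5_Om_ge hγ1 p0 hmass
  -- (4)
  have a4 := mass8 hL par hd h0.pw h1.pw hE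
  have a5 := exp_two_mul_le par
  set W : G → G → G → G → G → ℝ := fun M a a' b b' => Ex E fun u => OmU L M a a' b b' u with hW
  have b2 : 1 - 4 * γ - 4 * ε ≤ Ex5 D0 D1 (fun M a a' b b' => W M a a' b b') := by
    have := (abs_le.mp a2).2
    linarith
  have b4 : Ex5 D0 D1 (fun M a a' b b' => W M a a' b b' ^ 2) ≤ 1 + 3 * δ := a4.trans a5
  -- (5)
  have b5 : Ex5 D0 D1 (fun M a a' b b' => (W M a a' b b' - 1) ^ 2) ≤
      3 * δ + 8 * γ + 8 * ε := by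
    have e : Ex5 D0 D1 (fun M a a' b b' => (W M a a' b b' - 1) ^ 2) =
        Ex5 D0 D1 (fun M a a' b b' => W M a a' b b' ^ 2) -
          2 * Ex5 D0 D1 (fun M a a' b b' => W M a a' b b') + 1 := by
      simp only [Ex5_eq]
      have e1 : (1 : ℝ) = Ex (w5 D0 D1) (fun _ => (1 : ℝ)) := (Ex_const pw 1).symm
      conv_rhs => rw [e1]
      rw [← Ex_mul_left, ← Ex_sub, ← Ex_add]
      refine Ex_congr fun p => ?_
      ring
    rw [e]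
    linarith
  -- (6)
  have b6 : |Ex5 D0 D1 (fun M a a' b b' => Pf g M a a' b b' * W M a a' b b') -
      Ex5 D0 D1 (fun M a a' b b' => Pf g M a a' b b')| ≤
      Real.sqrt (3 * δ + 8 * γ + 8 * ε) := by
    simp only [Ex5_eq] at b5 ⊢
    rw [← Ex_sub]
    have e1 : |Ex (w5 D0 D1) (fun p => Pf g p.1 p.2.1 p.2.2.1 p.2.2.2.1 p.2.2.2.2 *
        W p.1 p.2.1 p.2.2.1 p.2.2.2.1 p.2.2.2.2 - Pf g p.1 p.2.1 p.2.2.1 p.2.2.2.1 p.2.2.2.2)| ≤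
        Ex (w5 D0 D1) (fun p => |W p.1 p.2.1 p.2.2.1 p.2.2.2.1 p.2.2.2.2 - 1|) := by
      refine abs_Ex_le_Ex pw fun p => ?_
      rw [show Pf g p.1 p.2.1 p.2.2.1 p.2.2.2.1 p.2.2.2.2 *
        W p.1 p.2.1 p.2.2.1 p.2.2.2.1 p.2.2.2.2 - Pf g p.1 p.2.1 p.2.2.1 p.2.2.2.1 p.2.2.2.2 =
        Pf g p.1 p.2.1 p.2.2.1 p.2.2.2.1 p.2.2.2.2 *
        (W p.1 p.2.1 p.2.2.1 p.2.2.2.1 p.2.2.2.2 - 1) by ring, abs_mul]
      calc _ ≤ 1 * |W p.1 p.2.1 p.2.2.1 p.2.2.2.1 p.2.2.2.2 - 1| :=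
            mul_le_mul_of_nonneg_right (abs_Pf_le hg _ _ _ _ _) (abs_nonneg _)
        _ = _ := one_mul _
    refine e1.trans ?_
    apply Real.le_sqrt_of_sq_le
    refine (sq_Ex_le pw _).trans ?_
    refine le_trans (le_of_eq ?_) b5
    refine Ex_congr fun p => ?_
    rw [sq_abs]
  calc _ ≤ |Ex5 D0 D1 (fun M a a' b b' => Pf g M a a' b b' * Om L M a a' b b') -
        Ex5 D0 D1 (fun M a a' b b' => Pf g M a a' b b' * W M a a' b b')| +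
        |Ex5 D0 D1 (fun M a a' b b' => Pf g M a a' b b' * W M a a' b b') -
        Ex5 D0 D1 (fun M a a' b b' => Pf g M a a' b b')| := abs_sub_le _ _ _
    _ ≤ _ := add_le_add a1 b6

end Pool.Agent.Lib.MG
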