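import Pool.Agent.Lib.MP_7b7e48_nt.MG.C03

/-!
# C05: localising the `b` variables to a narrower cell

Proof.  `Ex5 D0 D1 (Pf g) = Ex D0 M, Ex D1 a, Ex D1 a', (Ex D1 b, g(M+a+b) g(M+a'+b)) ^ 2`.
For fixed `M, a, a'` put `H b = g(M+a+b) g(M+a'+b)`, `|H| ≤ 1`.  For `c` in the support of `D2`,
`|Ex D1 (fun b => H (b + c)) - Ex D1 H| ≤ ε` (`Smooth.shift_one` with `u = -c ∈ B1`), so
`|Ex D1 H - Ex D1 fun b => Ex D2 fun c => H (b + c)| ≤ ε` and, as both are `≤ 1` in absolute value,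
`(Ex D1 H) ^ 2 ≤ (Ex D1 b, Ex D2 c, H (b + c)) ^ 2 + 2 ε ≤ Ex D1 b, (Ex D2 c, H (b + c)) ^ 2 + 2 ε`.
Exchange the averages: with `N M = Ex D1 a, Ex D1 a', (Ex D2 c, g(M+a+c) g(M+a'+c)) ^ 2 ∈ [0, 1]`
the main term is `Ex D1 b, Ex D0 M, N (M + b)` (`M + a + (b + c) = (M + b) + a + c`), and
`|Ex D0 (fun M => N (M + b)) - Ex D0 N| ≤ ε` because `-b ∈ B0`.
-/

open Finset

namespace Pool.Agent.Lib.MG

variable {G : Type} [AddCommGroup G] [Fintype G]

theorem sq_le_local {K ε : ℝ} (hε : 0 ≤ ε) {B1 : Set G} {D1 D2 : G → ℝ}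
    (h1 : Smooth K ε B1 D1) (h2 : Prob D2) (h12 : ∀ b, D2 b ≠ 0 → -b ∈ B1)
    {H : G → ℝ} (hH : ∀ x, |H x| ≤ 1) :
    (Ex D1 H) ^ 2 ≤ (Ex D1 fun b => (Ex D2 fun c => H (b + c)) ^ 2) + 2 * ε := by
  have p1 := h1.pw.prob
  set R := Ex D1 fun b => Ex D2 fun c => H (b + c) with hR
  have e1 : |Ex D1 H - R| ≤ ε := by
    have e2 : Ex D1 H - R = Ex D2 fun c => Ex D1 H - Ex D1 fun b => H (b + c) := by
      rw [Ex_sub, Ex_const h2, hR, Ex_comm]
    rw [e2]
    refine (abs_Ex_le h2 _).trans (Ex_le_const_supp h2 fun c hc => ?_)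
    have h := Smooth.shift_one hε h1 (h12 c hc) hH
    simp only [sub_neg_eq_add] at h
    rw [abs_sub_comm]
    exact h
  have e3 : |Ex D1 H| ≤ 1 := abs_Ex_le_one p1 hH
  have e4 : |R| ≤ 1 := by
    rw [hR]
    exact abs_Ex_le_one p1 fun b => abs_Ex_le_one h2 fun c => hH _
  have e5 : R ^ 2 ≤ Ex D1 fun b => (Ex D2 fun c => H (b + c)) ^ 2 := sq_Ex_le p1 _
  have e6 := abs_le.mp e1
  have e7 := abs_le.mp e3
  have e8 := abs_le.mp e4
  nlinarith [e6.1, e6.2, e7.1, e7.2, e8.1, e8.2]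

theorem localise {K ε : ℝ} (hε : 0 ≤ ε) {B0 B1 : Set G} {D0 D1 D2 : G → ℝ}
    (h0 : Smooth K ε B0 D0) (h1 : Smooth K ε B1 D1) (h2 : Prob D2)
    (h01 : ∀ b, D1 b ≠ 0 → -b ∈ B0) (h12 : ∀ b, D2 b ≠ 0 → -b ∈ B1)
    {g : G → ℝ} (hg : ∀ x, |g x| ≤ 1) :
    Ex5 D0 D1 (fun M a a' b b' => Pf g M a a' b b') ≤
      Ex D0 (fun M => Ex D1 fun a => Ex D1 fun a' =>
        (Ex D2 fun b => g (M + a + b) * g (M + a' + b)) ^ 2) + 3 * ε := by
  have p0 := h0.pw.prob
  have p1 := h1.pw.prob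
  have hgg : ∀ x y, |g x * g y| ≤ 1 := by
    intro x y
    rw [abs_mul]
    exact mul_le_one₀ (hg x) (abs_nonneg _) (hg y)
  set N : G → ℝ := fun M => Ex D1 fun a => Ex D1 fun a' =>
    (Ex D2 fun b => g (M + a + b) * g (M + a' + b)) ^ 2 with hN
  have hN0 : ∀ M, 0 ≤ N M := fun M => Ex_nonneg p1 fun a => Ex_nonneg p1 fun a' => sq_nonneg _
  have hN1 : ∀ M, |N M| ≤ 1 := by
    intro M
    rw [abs_of_nonneg (hN0 M)]
    refine Ex_le_const p1 fun a => Ex_le_const p1 fun a' => ?_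
    rw [← sq_abs]
    exact pow_le_one₀ (abs_nonneg _) (abs_Ex_le_one h2 fun b => hgg _ _)
  -- the square form
  have q1 : Ex5 D0 D1 (fun M a a' b b' => Pf g M a a' b b') =
      Ex D0 fun M => Ex D1 fun a => Ex D1 fun a' =>
        (Ex D1 fun b => g (M + a + b) * g (M + a' + b)) ^ 2 := by
    unfold Ex5
    refine Ex_congr fun M => Ex_congr fun a => Ex_congr fun a' => ?_
    rw [sq, ← Ex_mul_right]
    refine Ex_congr fun b => ?_
    rw [← Ex_mul_left]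
    refine Ex_congr fun b' => ?_
    unfold Pf
    ring
  rw [q1]
  have q2 : (Ex D0 fun M => Ex D1 fun a => Ex D1 fun a' =>
        (Ex D1 fun b => g (M + a + b) * g (M + a' + b)) ^ 2) ≤
      Ex D0 fun M => Ex D1 fun a => Ex D1 fun a' =>
        ((Ex D1 fun b => (Ex D2 fun c => g (M + a + (b + c)) * g (M + a' + (b + c))) ^ 2) +
          2 * ε) := by
    refine Ex_le p0 fun M => Ex_le p1 fun a => Ex_le p1 fun a' => ?_
    exact sq_le_local hε h1 h2 h12 (H := fun b => g (M + a + b) * g (M + a' + b))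
      (fun b => hgg _ _)
  have q3 : (Ex D0 fun M => Ex D1 fun a => Ex D1 fun a' =>
        ((Ex D1 fun b => (Ex D2 fun c => g (M + a + (b + c)) * g (M + a' + (b + c))) ^ 2) +
          2 * ε)) =
      (Ex D1 fun b => Ex D0 fun M => N (M + b)) + 2 * ε := by
    have q4 : (Ex D0 fun M => Ex D1 fun a => Ex D1 fun a' =>
        ((Ex D1 fun b => (Ex D2 fun c => g (M + a + (b + c)) * g (M + a' + (b + c))) ^ 2) +
          2 * ε)) = (Ex D0 fun M => Ex D1 fun a => Ex D1 fun a' => Ex D1 fun b =>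
          (Ex D2 fun c => g (M + a + (b + c)) * g (M + a' + (b + c))) ^ 2) + 2 * ε := by
      have e : ∀ M a, (Ex D1 fun a' =>
        ((Ex D1 fun b => (Ex D2 fun c => g (M + a + (b + c)) * g (M + a' + (b + c))) ^ 2) +
          2 * ε)) = (Ex D1 fun a' => Ex D1 fun b =>
          (Ex D2 fun c => g (M + a + (b + c)) * g (M + a' + (b + c))) ^ 2) + 2 * ε := by
        intro M a
        rw [Ex_add, Ex_const p1]
      have e' : ∀ M, (Ex D1 fun a => Ex D1 fun a' =>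
        ((Ex D1 fun b => (Ex D2 fun c => g (M + a + (b + c)) * g (M + a' + (b + c))) ^ 2) +
          2 * ε)) = (Ex D1 fun a => Ex D1 fun a' => Ex D1 fun b =>
          (Ex D2 fun c => g (M + a + (b + c)) * g (M + a' + (b + c))) ^ 2) + 2 * ε := by
        intro M
        rw [Ex_congr (e M), Ex_add, Ex_const p1]
      rw [Ex_congr e', Ex_add, Ex_const p0]
    rw [q4, Ex_rot4]
    congr 1
    refine Ex_congr fun b => Ex_congr fun M => Ex_congr fun a => Ex_congr fun a' => ?_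
    congr 1
    refine Ex_congr fun c => ?_
    have e1 : M + a + (b + c) = M + b + a + c := by abel
    have e2 : M + a' + (b + c) = M + b + a' + c := by abel
    rw [e1, e2]
  have q5 : (Ex D1 fun b => Ex D0 fun M => N (M + b)) ≤ Ex D0 N + ε := by
    refine Ex_le_const_supp p1 fun b hb => ?_
    have h := Smooth.shift_one hε h0 (h01 b hb) hN1
    simp only [sub_neg_eq_add] at h
    have := (abs_le.mp h).2
    linarith
  calc _ ≤ _ := q2
    _ = _ := q3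
    _ ≤ Ex D0 N + ε + 2 * ε := by linarith
    _ = _ := by ring

end Pool.Agent.Lib.MG
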