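import Pool.Agent.Lib.MP_7b7e48_nt.MG.C01

/-!
# C06: one character

Proof.  Put `k b b' = Ex D1 fun a => g (a + b) * g (a + b')`, `|k| ≤ 1`.  Exchanging sums,
`LHS := Ex D1 a, Ex D1 a', (Ex D2 b, g(a+b) g(a'+b)) ^ 2 = Ex D2 b, Ex D2 b', (k b b') ^ 2`.
(1) `Smooth.shift_one` (shift `a ↦ a - b`, `b ∈ B1`):
    `|k b b' - Ex D1 fun a => g a * g (a + (b' - b))| ≤ ε`.
(2) Let `h x = √(D1 x) * g x` and `κ d = ∑ x, h x * h (x + d)`.  For `d ∈ B1` (here `d = b' - b`)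
    `|Ex D1 (fun a => g a * g (a + d)) - κ d| ≤ ∑ x, √(D1 x) * |√(D1 x) - √(D1 (x + d))| ≤
    √(∑ D1) * √(∑ x, |D1 x - D1 (x + d)|) ≤ √ε`, by Cauchy-Schwarz, `|√s - √t| ^ 2 ≤ |s - t|`
    and `Smooth.l1`.
(3) So `|k b b' - κ (b' - b)| ≤ ε + √ε ≤ 2 √ε` and `k ^ 2 ≤ k * κ + 2 √ε`.
(4) Fourier: `κ d = ∑ χ, c χ * χ d` (complex), `c χ = ‖∑ x, h x * χ x‖ ^ 2 / |G| ≥ 0` (possibly with
    `χ (-d)`; orthogonality `AddChar.sum_apply_eq_ite`; replace `χ` by `-χ` if necessary), and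
    `∑ χ, c χ = κ 0 = ∑ D1 x * g x ^ 2 ≤ 1`.
(5) `Ex D2 b, Ex D2 b', k b b' * κ (b' - b) = Ex D1 a, ∑ χ, c χ * (∑ b, D2 b g(a+b) χ(-b)) *
    (∑ b', D2 b' g(a+b') χ b') = ∑ χ, c χ * Ex D1 a, ‖∑ b, D2 b g(a+b) χ b‖ ^ 2
    ≤ max over χ of Ex D1 a, ‖..‖ ^ 2` (`AddChar G ℂ` is finite: take the maximiser).
-/

open Finset

namespace Pool.Agent.Lib.MG

variable {G : Type} [AddCommGroup G] [Fintype G]

/-- exchange of the averages -/
theorem one_char_exchange (D1 D2 g : G → ℝ) :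
    Ex D1 (fun a => Ex D1 fun a' => (Ex D2 fun b => g (a + b) * g (a' + b)) ^ 2) =
      Ex D2 (fun b => Ex D2 fun b' => (Ex D1 fun a => g (a + b) * g (a + b')) ^ 2) := by
  have e1 : ∀ (D : G → ℝ) (u : G → ℝ), (Ex D u) ^ 2 = Ex D fun b => Ex D fun b' => u b * u b' := by
    intro D u
    unfold Ex
    rw [sq, Finset.sum_mul]
    refine Finset.sum_congr rfl fun b _ => ?_
    rw [Finset.mul_sum, Finset.mul_sum]
    exact Finset.sum_congr rfl fun b' _ => by ring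
  simp_rw [e1]
  have e2 : ∀ a : G, (Ex D1 fun a' => Ex D2 fun b => Ex D2 fun b' =>
      g (a + b) * g (a' + b) * (g (a + b') * g (a' + b'))) =
      Ex D2 fun b => Ex D2 fun b' => Ex D1 fun a' =>
        g (a + b) * g (a' + b) * (g (a + b') * g (a' + b')) := by
    intro a
    rw [Ex_comm]
    exact Ex_congr fun b => Ex_comm _ _ _
  simp_rw [e2]
  rw [Ex_comm]
  refine Ex_congr fun b => ?_
  rw [Ex_comm]
  refine Ex_congr fun b' => Ex_congr fun a => Ex_congr fun a' => ?_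
  ring

/-- Fourier expansion of the autocorrelation of a real function -/
theorem one_char_autocor (h : G → ℝ) (d : G) :
    ((∑ x, h x * h (x + d) : ℝ) : ℂ) = ∑ χ : AddChar G ℂ,
      ((‖∑ x, (h x : ℂ) * χ x‖ ^ 2 / (Fintype.card G : ℝ) : ℝ) : ℂ) * χ d := by
  classical
  have hc : (Fintype.card G : ℂ) ≠ 0 := by
    exact_mod_cast (Fintype.card_pos (α := G)).ne'
  have e1 : ∀ χ : AddChar G ℂ,
      ((‖∑ x, (h x : ℂ) * χ x‖ ^ 2 / (Fintype.card G : ℝ) : ℝ) : ℂ) * χ d =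
      (Fintype.card G : ℂ)⁻¹ * ∑ x, ∑ y, (h x : ℂ) * (h y : ℂ) * χ (x - y + d) := by
    intro χ
    have e2 : ((‖∑ x, (h x : ℂ) * χ x‖ ^ 2 : ℝ) : ℂ) =
        (∑ x, (h x : ℂ) * χ x) * (∑ y, (h y : ℂ) * χ (-y)) := by
      have : (∑ y, (h y : ℂ) * χ (-y)) = (starRingEnd ℂ) (∑ x, (h x : ℂ) * χ x) := by
        rw [map_sum]
        refine Finset.sum_congr rfl fun y _ => ?_
        rw [map_mul, Complex.conj_ofReal, AddChar.map_neg_eq_conj]
      rw [this, Complex.mul_conj, Complex.normSq_eq_norm_sq]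
    rw [Complex.ofReal_div, e2, Complex.ofReal_natCast, div_eq_inv_mul, mul_assoc, Finset.sum_mul,
      Finset.sum_mul]
    congr 1
    refine Finset.sum_congr rfl fun x _ => ?_
    rw [Finset.mul_sum, Finset.sum_mul]
    refine Finset.sum_congr rfl fun y _ => ?_
    rw [sub_eq_add_neg, AddChar.map_add_eq_mul, AddChar.map_add_eq_mul]
    ring
  rw [Finset.sum_congr rfl fun χ _ => e1 χ, ← Finset.mul_sum, Finset.sum_comm]
  have e3 : ∀ x : G, ∑ χ : AddChar G ℂ, ∑ y, (h x : ℂ) * (h y : ℂ) * χ (x - y + d) =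
      (Fintype.card G : ℂ) * ((h x : ℂ) * (h (x + d) : ℂ)) := by
    intro x
    rw [Finset.sum_comm]
    have e4 : ∀ y : G, ∑ χ : AddChar G ℂ, (h x : ℂ) * (h y : ℂ) * χ (x - y + d) =
        if y = x + d then (h x : ℂ) * (h y : ℂ) * (Fintype.card G : ℂ) else 0 := by
      intro y
      rw [← Finset.mul_sum, AddChar.sum_apply_eq_ite]
      by_cases hy : y = x + d
      · rw [if_pos hy, if_pos]
        rw [hy]
        abel
      · rw [if_neg hy, if_neg, mul_zero]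
        intro h0
        exact hy (by
          have : x + d - y = 0 := by rw [← h0]; abel
          exact (sub_eq_zero.mp this).symm)
    rw [Finset.sum_congr rfl fun y _ => e4 y, Finset.sum_ite_eq' Finset.univ (x + d),
      if_pos (Finset.mem_univ _)]
    ring
  rw [Finset.sum_congr rfl fun x _ => e3 x, ← Finset.mul_sum, ← mul_assoc, inv_mul_cancel₀ hc,
    one_mul]
  push_cast
  rfl

/-- a correlation of a smooth weight, symmetrised -/
theorem one_char_sym {K ε : ℝ} (hε : 0 ≤ ε) {B1 : Set G} {D1 : G → ℝ}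
    (h1 : Smooth K ε B1 D1) {g : G → ℝ} (hg : ∀ x, |g x| ≤ 1) {d : G} (hd : d ∈ B1) :
    |Ex D1 (fun a => g a * g (a + d)) -
      ∑ x, (Real.sqrt (D1 x) * g x) * (Real.sqrt (D1 (x + d)) * g (x + d))| ≤ Real.sqrt ε := by
  have hp := h1.pw.prob
  have e1 : Ex D1 (fun a => g a * g (a + d)) -
      ∑ x, (Real.sqrt (D1 x) * g x) * (Real.sqrt (D1 (x + d)) * g (x + d)) =
      ∑ x, (Real.sqrt (D1 x) * (g x * g (x + d))) *
        (Real.sqrt (D1 x) - Real.sqrt (D1 (x + d))) := by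
    unfold Ex
    rw [← Finset.sum_sub_distrib]
    refine Finset.sum_congr rfl fun x _ => ?_
    have := Real.mul_self_sqrt (hp.nonneg x)
    nth_rw 1 [← this]
    ring
  rw [e1]
  apply Real.abs_le_sqrt
  have h2 := Finset.sum_mul_sq_le_sq_mul_sq (Finset.univ : Finset G)
    (fun x => Real.sqrt (D1 x) * (g x * g (x + d)))
    (fun x => Real.sqrt (D1 x) - Real.sqrt (D1 (x + d)))
  refine h2.trans ?_
  have h3 : ∑ x, (Real.sqrt (D1 x) * (g x * g (x + d))) ^ 2 ≤ 1 := by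
    rw [← hp.sum_one]
    refine Finset.sum_le_sum fun x _ => ?_
    rw [mul_pow, Real.sq_sqrt (hp.nonneg x)]
    have : (g x * g (x + d)) ^ 2 ≤ 1 := by
      rw [mul_pow]
      have a1 : g x ^ 2 ≤ 1 := by rw [sq_le_one_iff_abs_le_one]; exact hg x
      have a2 : g (x + d) ^ 2 ≤ 1 := by rw [sq_le_one_iff_abs_le_one]; exact hg _
      nlinarith [sq_nonneg (g x), sq_nonneg (g (x + d))]
    nlinarith [hp.nonneg x]
  have h4 : ∑ x, (Real.sqrt (D1 x) - Real.sqrt (D1 (x + d))) ^ 2 ≤ ε := by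
    refine le_trans (Finset.sum_le_sum fun x _ => ?_) (h1.l1 hε hd)
    have s1 := Real.sqrt_nonneg (D1 x)
    have s2 := Real.sqrt_nonneg (D1 (x + d))
    have q1 := Real.mul_self_sqrt (hp.nonneg x)
    have q2 := Real.mul_self_sqrt (hp.nonneg (x + d))
    generalize hs : Real.sqrt (D1 x) = s at *
    generalize ht : Real.sqrt (D1 (x + d)) = t at *
    rw [← q1, ← q2]
    rcases le_total s t with hst | hst
    · refine le_trans ?_ (le_abs_self _)
      nlinarith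
    · refine le_trans ?_ (neg_le_abs _)
      nlinarith
  calc (∑ x, (Real.sqrt (D1 x) * (g x * g (x + d))) ^ 2) *
        ∑ x, (Real.sqrt (D1 x) - Real.sqrt (D1 (x + d))) ^ 2 ≤
      1 * ∑ x, (Real.sqrt (D1 x) - Real.sqrt (D1 (x + d))) ^ 2 :=
        mul_le_mul_of_nonneg_right h3 (Finset.sum_nonneg fun x _ => sq_nonneg _)
    _ ≤ ε := by rw [one_mul]; exact h4

/-- the spectral side -/
theorem one_char_spec (D1 D2 g h : G → ℝ) :
    Ex D2 (fun b => Ex D2 fun b' => (Ex D1 fun a => g (a + b) * g (a + b')) *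
      ∑ x, h x * h (x + (b' - b))) =
    ∑ χ : AddChar G ℂ, (‖∑ x, (h x : ℂ) * χ x‖ ^ 2 / (Fintype.card G : ℝ)) *
      Ex D1 (fun a => ‖∑ b, (D2 b : ℂ) * (g (a + b) : ℂ) * χ b‖ ^ 2) := by
  have key : ((Ex D2 (fun b => Ex D2 fun b' => (Ex D1 fun a => g (a + b) * g (a + b')) *
      ∑ x, h x * h (x + (b' - b))) : ℝ) : ℂ) =
    ((∑ χ : AddChar G ℂ, (‖∑ x, (h x : ℂ) * χ x‖ ^ 2 / (Fintype.card G : ℝ)) *
      Ex D1 (fun a => ‖∑ b, (D2 b : ℂ) * (g (a + b) : ℂ) * χ b‖ ^ 2) : ℝ) : ℂ) := by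
    have e2 : ∀ (χ : AddChar G ℂ) (a : G),
        ((‖∑ b, (D2 b : ℂ) * (g (a + b) : ℂ) * χ b‖ ^ 2 : ℝ) : ℂ) =
        ∑ b, ∑ b', ((D2 b : ℂ) * (g (a + b) : ℂ)) * ((D2 b' : ℂ) * (g (a + b') : ℂ)) *
          χ (b' - b) := by
      intro χ a
      have h0 : ((‖∑ b, (D2 b : ℂ) * (g (a + b) : ℂ) * χ b‖ ^ 2 : ℝ) : ℂ) =
          (∑ b, (D2 b : ℂ) * (g (a + b) : ℂ) * χ (-b)) *
            (∑ b', (D2 b' : ℂ) * (g (a + b') : ℂ) * χ b') := by
        have : (∑ b, (D2 b : ℂ) * (g (a + b) : ℂ) * χ (-b)) =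
            (starRingEnd ℂ) (∑ b, (D2 b : ℂ) * (g (a + b) : ℂ) * χ b) := by
          rw [map_sum]
          refine Finset.sum_congr rfl fun y _ => ?_
          rw [map_mul, map_mul, Complex.conj_ofReal, Complex.conj_ofReal, AddChar.map_neg_eq_conj]
        rw [this, mul_comm, Complex.mul_conj, Complex.normSq_eq_norm_sq]
      rw [h0, Finset.sum_mul]
      refine Finset.sum_congr rfl fun b _ => ?_
      rw [Finset.mul_sum]
      refine Finset.sum_congr rfl fun b' _ => ?_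
      rw [sub_eq_add_neg, AddChar.map_add_eq_mul]
      ring
    unfold Ex
    push_cast
    have e3 : ∀ χ : AddChar G ℂ, (∑ a, (D1 a : ℂ) *
        ((‖∑ b, (D2 b : ℂ) * (g (a + b) : ℂ) * χ b‖ : ℝ) : ℂ) ^ 2) =
        ∑ b, ∑ b', (D2 b : ℂ) * (D2 b' : ℂ) *
          (∑ a, (D1 a : ℂ) * ((g (a + b) : ℂ) * (g (a + b') : ℂ))) * χ (b' - b) := by
      intro χ
      have e4 : ∀ a : G, (D1 a : ℂ) *
          ((‖∑ b, (D2 b : ℂ) * (g (a + b) : ℂ) * χ b‖ : ℝ) : ℂ) ^ 2 =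
          ∑ b, ∑ b', (D1 a : ℂ) * (((D2 b : ℂ) * (g (a + b) : ℂ)) *
            ((D2 b' : ℂ) * (g (a + b') : ℂ)) * χ (b' - b)) := by
        intro a
        have := e2 χ a
        rw [Complex.ofReal_pow] at this
        rw [this, Finset.mul_sum]
        exact Finset.sum_congr rfl fun b _ => by rw [Finset.mul_sum]
      rw [Finset.sum_congr rfl fun a _ => e4 a, Finset.sum_comm]
      refine Finset.sum_congr rfl fun b _ => ?_
      rw [Finset.sum_comm]
      refine Finset.sum_congr rfl fun b' _ => ?_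
      rw [Finset.mul_sum, Finset.sum_mul]
      exact Finset.sum_congr rfl fun a _ => by ring
    simp_rw [e3]
    have e5 : ∀ b b' : G, (∑ x, (h x : ℂ) * (h (x + (b' - b)) : ℂ)) =
        ∑ χ : AddChar G ℂ, ((‖∑ x, (h x : ℂ) * χ x‖ : ℝ) : ℂ) ^ 2 / (Fintype.card G : ℂ) *
          χ (b' - b) := by
      intro b b'
      have := one_char_autocor h (b' - b)
      push_cast at this
      exact this
    simp_rw [e5]
    simp_rw [Finset.mul_sum]
    rw [Finset.sum_comm' (s := (Finset.univ : Finset (AddChar G ℂ)))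
      (t := fun _ => (Finset.univ : Finset G)) (t' := (Finset.univ : Finset G))
      (s' := fun _ => (Finset.univ : Finset (AddChar G ℂ))) (by simp)]
    refine Finset.sum_congr rfl fun b _ => ?_
    rw [Finset.sum_comm]
    refine Finset.sum_congr rfl fun χ _ => Finset.sum_congr rfl fun b' _ => ?_
    rw [← Finset.mul_sum]
    ring
  exact_mod_cast key

theorem one_char {K ε : ℝ} (hε : 0 ≤ ε) (hε1 : ε ≤ 1) {B1 : Set G} {D1 D2 : G → ℝ}
    (h1 : Smooth K ε B1 D1) (h2 : Prob D2) (h12 : ∀ b, D2 b ≠ 0 → b ∈ B1)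
    (h12' : ∀ b b', D2 b ≠ 0 → D2 b' ≠ 0 → b' - b ∈ B1)
    {g : G → ℝ} (hg : ∀ x, |g x| ≤ 1) :
    ∃ χ : AddChar G ℂ, Ex D1 (fun a => Ex D1 fun a' =>
        (Ex D2 fun b => g (a + b) * g (a' + b)) ^ 2) ≤
      Ex D1 (fun a => ‖∑ b, (D2 b : ℂ) * (g (a + b) : ℂ) * χ b‖ ^ 2) + 3 * Real.sqrt ε := by
  have hp := h1.pw.prob
  have hεs : ε ≤ Real.sqrt ε := by
    rw [Real.le_sqrt hε hε]
    nlinarith
  have hs0 := Real.sqrt_nonneg ε
  set h : G → ℝ := fun x => Real.sqrt (D1 x) * g x with hh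
  set F : AddChar G ℂ → ℝ := fun χ =>
    Ex D1 (fun a => ‖∑ b, (D2 b : ℂ) * (g (a + b) : ℂ) * χ b‖ ^ 2) with hF
  obtain ⟨χ, -, hχ⟩ := Finset.exists_max_image (Finset.univ : Finset (AddChar G ℂ)) F
    ⟨0, Finset.mem_univ _⟩
  refine ⟨χ, ?_⟩
  rw [one_char_exchange]
  have gg : ∀ x y, |g x * g y| ≤ 1 := by
    intro x y
    rw [abs_mul]
    exact mul_le_one₀ (hg x) (abs_nonneg _) (hg y)
  -- comparison
  have hcmp : ∀ b b', D2 b ≠ 0 → D2 b' ≠ 0 →
      |Ex D1 (fun a => g (a + b) * g (a + b')) - ∑ x, h x * h (x + (b' - b))| ≤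
        2 * Real.sqrt ε := by
    intro b b' hb hb'
    have a1 := h1.shift_one hε (h12 b hb) (f := fun x => g (x + b) * g (x + b'))
      (fun x => gg _ _)
    have a2 := one_char_sym hε h1 hg (h12' b b' hb hb')
    have a3 : Ex D1 (fun x => g (x - b + b) * g (x - b + b')) =
        Ex D1 (fun a => g a * g (a + (b' - b))) :=
      Ex_congr fun x => by
        rw [sub_add_cancel, show x - b + b' = x + (b' - b) by abel]
    rw [a3] at a1
    have a4 := abs_le.mp a1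
    have a5 := abs_le.mp a2
    simp only [hh]
    rw [abs_le]
    constructor <;> linarith [a4.1, a4.2, a5.1, a5.2]
  have step1 : Ex D2 (fun b => Ex D2 fun b' => (Ex D1 fun a => g (a + b) * g (a + b')) ^ 2) ≤
      Ex D2 (fun b => Ex D2 fun b' => (Ex D1 fun a => g (a + b) * g (a + b')) *
        (∑ x, h x * h (x + (b' - b))) + 2 * Real.sqrt ε) := by
    refine Ex_le_supp h2 fun b hb => Ex_le_supp h2 fun b' hb' => ?_
    have c1 := hcmp b b' hb hb'
    have c2 : |Ex D1 (fun a => g (a + b) * g (a + b'))| ≤ 1 := abs_Ex_le_one hp fun a => gg _ _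
    generalize Ex D1 (fun a => g (a + b) * g (a + b')) = k at *
    generalize ∑ x, h x * h (x + (b' - b)) = κ at *
    have c3 : k * (k - κ) ≤ 2 * Real.sqrt ε := by
      calc k * (k - κ) ≤ |k * (k - κ)| := le_abs_self _
        _ = |k| * |k - κ| := abs_mul _ _
        _ ≤ 1 * (2 * Real.sqrt ε) := mul_le_mul c2 c1 (abs_nonneg _) zero_le_one
        _ = _ := one_mul _
    nlinarith
  have step2 : Ex D2 (fun b => Ex D2 fun b' => (Ex D1 fun a => g (a + b) * g (a + b')) *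
        (∑ x, h x * h (x + (b' - b))) + 2 * Real.sqrt ε) =
      Ex D2 (fun b => Ex D2 fun b' => (Ex D1 fun a => g (a + b) * g (a + b')) *
        ∑ x, h x * h (x + (b' - b))) + 2 * Real.sqrt ε := by
    simp only [Ex_add, Ex_const h2]
  rw [one_char_spec] at step2
  -- total mass of the spectral weights
  have hmass : ∑ χ : AddChar G ℂ, (‖∑ x, (h x : ℂ) * χ x‖ ^ 2 / (Fintype.card G : ℝ)) ≤ 1 := by
    have e0 := one_char_autocor h 0
    have e1 : ((∑ χ : AddChar G ℂ, (‖∑ x, (h x : ℂ) * χ x‖ ^ 2 / (Fintype.card G : ℝ)) : ℝ) : ℂ) =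
        ((∑ x, h x * h (x + 0) : ℝ) : ℂ) := by
      rw [e0, Complex.ofReal_sum]
      refine Finset.sum_congr rfl fun χ _ => ?_
      rw [AddChar.map_zero_eq_one, mul_one]
    have e2 : (∑ χ : AddChar G ℂ, (‖∑ x, (h x : ℂ) * χ x‖ ^ 2 / (Fintype.card G : ℝ)) : ℝ) =
        ∑ x, h x * h (x + 0) := by exact_mod_cast e1
    rw [e2, ← hp.sum_one]
    refine Finset.sum_le_sum fun x _ => ?_
    rw [add_zero]
    have q := Real.mul_self_sqrt (hp.nonneg x)
    have a1 : g x ^ 2 ≤ 1 := by rw [sq_le_one_iff_abs_le_one]; exact hg x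
    calc h x * h x = (Real.sqrt (D1 x) * Real.sqrt (D1 x)) * g x ^ 2 := by
          simp only [hh]; ring
      _ = D1 x * g x ^ 2 := by rw [q]
      _ ≤ D1 x * 1 := mul_le_mul_of_nonneg_left a1 (hp.nonneg x)
      _ = D1 x := mul_one _
  have hFnn : 0 ≤ F χ := Ex_nonneg hp fun a => by positivity
  have step3 : ∑ χ' : AddChar G ℂ, (‖∑ x, (h x : ℂ) * χ' x‖ ^ 2 / (Fintype.card G : ℝ)) *
      Ex D1 (fun a => ‖∑ b, (D2 b : ℂ) * (g (a + b) : ℂ) * χ' b‖ ^ 2) ≤ F χ := by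
    calc _ ≤ ∑ χ' : AddChar G ℂ, (‖∑ x, (h x : ℂ) * χ' x‖ ^ 2 / (Fintype.card G : ℝ)) * F χ :=
          Finset.sum_le_sum fun χ' _ => mul_le_mul_of_nonneg_left (hχ χ' (Finset.mem_univ _))
            (by positivity)
      _ = (∑ χ' : AddChar G ℂ, (‖∑ x, (h x : ℂ) * χ' x‖ ^ 2 / (Fintype.card G : ℝ))) * F χ := by
          rw [Finset.sum_mul]
      _ ≤ 1 * F χ := mul_le_mul_of_nonneg_right hmass hFnn
      _ = F χ := one_mul _
  calc _ ≤ _ := step1
    _ = _ := step2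
    _ ≤ F χ + 3 * Real.sqrt ε := by linarith

end Pool.Agent.Lib.MG
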