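import Pool.Agent.Lib.MP_7b7e48_nt.MG.C01

/-!
# C07: a large character sum gives a large local variance

Proof.  Fix `a`.  For `c` in the support of `D3`, `-c ∈ B2`, so by `Smooth.shift_complex` (`u = -c`)
`‖∑ b, D2 b * G (b + c) - ∑ b, D2 b * G b‖ ≤ ε` with `G b = g (a + b) * χ b`, and
`G (b + c) = g (a + b + c) * χ b * χ c` differs from `g (a + b + c) * χ b` by at most `ε`.
Average over `c ~ D3`: `‖∑ b, D2 b * g (a + b) * χ b‖ ≤ ‖∑ b, D2 b * χ b * g3 (a + b)‖ + 2 ε ≤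
x + 2 ε`, `x = Ex D2 fun b => |g3 (a + b)| ≤ 1`, `g3 y = Ex D3 fun c => g (y + c)`.
Squares: `(x + 2 ε) ^ 2 ≤ x ^ 2 + 8 ε ≤ Ex D2 (fun b => g3 (a + b) ^ 2) + 8 ε`.  Average over
`a ~ D1` and exchange: for `b` in the support of `D2`, `-b ∈ B1`, `Ex D1 (fun a => g3 (a + b) ^ 2) ≤
Ex D1 (fun a => g3 a ^ 2) + ε`.
-/

open Finset

namespace Pool.Agent.Lib.MG

variable {G : Type} [AddCommGroup G] [Fintype G]

theorem C07_step {K ε : ℝ} (hε : 0 ≤ ε) {B2 : Set G} {D2 : G → ℝ}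
    (h2 : Smooth K ε B2 D2) (χ : AddChar G ℂ) {g : G → ℝ} (hg : ∀ x, |g x| ≤ 1) (a c : G)
    (hc : -c ∈ B2) (hχ : ‖χ c - 1‖ ≤ ε) :
    ‖∑ b, (D2 b : ℂ) * (g (a + b) : ℂ) * χ b -
      ∑ b, (D2 b : ℂ) * (g (a + b + c) : ℂ) * χ b‖ ≤ 2 * ε := by
  have hχn : ∀ x, ‖χ x‖ = 1 := fun x => AddChar.norm_apply χ x
  have hgn : ∀ x, ‖(g x : ℂ)‖ ≤ 1 := fun x => by
    rw [Complex.norm_real, Real.norm_eq_abs]; exact hg x
  have hA := Smooth.shift_complex hε h2 hc (f := fun b => (g (a + b) : ℂ) * χ b)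
    (fun x => by rw [norm_mul, hχn, mul_one]; exact hgn _)
  have hB : ‖∑ x, (D2 x : ℂ) * ((g (a + (x - -c)) : ℂ) * χ (x - -c)) -
      ∑ b, (D2 b : ℂ) * (g (a + b + c) : ℂ) * χ b‖ ≤ ε := by
    rw [← Finset.sum_sub_distrib]
    have hterm : ∀ x, (D2 x : ℂ) * ((g (a + (x - -c)) : ℂ) * χ (x - -c)) -
        (D2 x : ℂ) * (g (a + x + c) : ℂ) * χ x =
        (D2 x : ℂ) * ((g (a + x + c) : ℂ) * χ x * (χ c - 1)) := by
      intro x
      rw [sub_neg_eq_add, AddChar.map_add_eq_mul, ← add_assoc]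
      ring
    rw [Finset.sum_congr rfl fun x _ => hterm x]
    refine (norm_sum_le _ _).trans ?_
    calc ∑ x, ‖(D2 x : ℂ) * ((g (a + x + c) : ℂ) * χ x * (χ c - 1))‖
        ≤ ∑ x, D2 x * ε := by
          refine Finset.sum_le_sum fun x _ => ?_
          rw [norm_mul, norm_mul, norm_mul, hχn, mul_one, Complex.norm_real, Real.norm_eq_abs,
            abs_of_nonneg (h2.pw.prob.nonneg x)]
          refine mul_le_mul_of_nonneg_left ?_ (h2.pw.prob.nonneg x)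
          calc ‖(g (a + x + c) : ℂ)‖ * ‖χ c - 1‖ ≤ 1 * ε :=
                mul_le_mul (hgn _) hχ (norm_nonneg _) zero_le_one
            _ = ε := one_mul ε
      _ = ε := by rw [← Finset.sum_mul, h2.pw.prob.sum_one, one_mul]
  have hA' : ‖∑ x, (D2 x : ℂ) * ((g (a + (x - -c)) : ℂ) * χ (x - -c)) -
      ∑ b, (D2 b : ℂ) * (g (a + b) : ℂ) * χ b‖ ≤ ε := by
    have he : ∑ b, (D2 b : ℂ) * (g (a + b) : ℂ) * χ b =
        ∑ x, (D2 x : ℂ) * ((g (a + x) : ℂ) * χ x) :=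
      Finset.sum_congr rfl fun x _ => by ring
    rw [he]
    exact hA
  calc ‖∑ b, (D2 b : ℂ) * (g (a + b) : ℂ) * χ b -
      ∑ b, (D2 b : ℂ) * (g (a + b + c) : ℂ) * χ b‖
      = ‖(∑ x, (D2 x : ℂ) * ((g (a + (x - -c)) : ℂ) * χ (x - -c)) -
          ∑ b, (D2 b : ℂ) * (g (a + b + c) : ℂ) * χ b) -
        (∑ x, (D2 x : ℂ) * ((g (a + (x - -c)) : ℂ) * χ (x - -c)) -
          ∑ b, (D2 b : ℂ) * (g (a + b) : ℂ) * χ b)‖ := by congr 1; ring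
    _ ≤ ε + ε := (norm_sub_le _ _).trans (add_le_add hB hA')
    _ = 2 * ε := by ring

theorem C07_norm {K ε : ℝ} (hε : 0 ≤ ε) {B2 : Set G} {D2 D3 : G → ℝ}
    (h2 : Smooth K ε B2 D2) (h3 : Prob D3) (χ : AddChar G ℂ)
    (h23 : ∀ c, D3 c ≠ 0 → -c ∈ B2 ∧ ‖χ c - 1‖ ≤ ε)
    {g : G → ℝ} (hg : ∀ x, |g x| ≤ 1) (a : G) :
    ‖∑ b, (D2 b : ℂ) * (g (a + b) : ℂ) * χ b‖ ≤
      Ex D2 (fun b => |Ex D3 fun c => g (a + b + c)|) + 2 * ε := by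
  have hχn : ∀ x, ‖χ x‖ = 1 := fun x => AddChar.norm_apply χ x
  set S : ℂ := ∑ b, (D2 b : ℂ) * (g (a + b) : ℂ) * χ b with hS
  have hD3 : ∑ c, (D3 c : ℂ) = 1 := by
    have := h3.sum_one
    exact_mod_cast this
  have hT : ∑ c, (D3 c : ℂ) * (∑ b, (D2 b : ℂ) * (g (a + b + c) : ℂ) * χ b) =
      ∑ b, (D2 b : ℂ) * ((Ex D3 fun c => g (a + b + c) : ℝ) : ℂ) * χ b := by
    unfold Ex
    simp only [Complex.ofReal_sum, Complex.ofReal_mul, Finset.mul_sum, Finset.sum_mul]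
    rw [Finset.sum_comm]
    exact Finset.sum_congr rfl fun b _ => Finset.sum_congr rfl fun c _ => by ring
  have hd : ‖S - ∑ c, (D3 c : ℂ) * (∑ b, (D2 b : ℂ) * (g (a + b + c) : ℂ) * χ b)‖ ≤ 2 * ε := by
    have he : S - ∑ c, (D3 c : ℂ) * (∑ b, (D2 b : ℂ) * (g (a + b + c) : ℂ) * χ b) =
        ∑ c, (D3 c : ℂ) * (S - ∑ b, (D2 b : ℂ) * (g (a + b + c) : ℂ) * χ b) := by
      simp only [mul_sub, Finset.sum_sub_distrib]
      rw [← Finset.sum_mul, hD3, one_mul]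
    rw [he]
    refine (norm_sum_le _ _).trans ?_
    calc ∑ c, ‖(D3 c : ℂ) * (S - ∑ b, (D2 b : ℂ) * (g (a + b + c) : ℂ) * χ b)‖
        ≤ ∑ c, D3 c * (2 * ε) := by
          refine Finset.sum_le_sum fun c _ => ?_
          rw [norm_mul, Complex.norm_real, Real.norm_eq_abs, abs_of_nonneg (h3.nonneg c)]
          by_cases hc : D3 c = 0
          · rw [hc, zero_mul, zero_mul]
          · exact mul_le_mul_of_nonneg_left
              (C07_step hε h2 χ hg a c (h23 c hc).1 (h23 c hc).2) (h3.nonneg c)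
      _ = 2 * ε := by rw [← Finset.sum_mul, h3.sum_one, one_mul]
  have hTn : ‖∑ c, (D3 c : ℂ) * (∑ b, (D2 b : ℂ) * (g (a + b + c) : ℂ) * χ b)‖ ≤
      Ex D2 (fun b => |Ex D3 fun c => g (a + b + c)|) := by
    rw [hT]
    refine (norm_sum_le _ _).trans (le_of_eq ?_)
    conv_rhs => unfold Ex
    refine Finset.sum_congr rfl fun b _ => ?_
    rw [norm_mul, norm_mul, hχn, mul_one, Complex.norm_real, Complex.norm_real, Real.norm_eq_abs,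
      Real.norm_eq_abs, abs_of_nonneg (h2.pw.prob.nonneg b)]
    rfl
  calc ‖S‖ = ‖(∑ c, (D3 c : ℂ) * (∑ b, (D2 b : ℂ) * (g (a + b + c) : ℂ) * χ b)) +
        (S - ∑ c, (D3 c : ℂ) * (∑ b, (D2 b : ℂ) * (g (a + b + c) : ℂ) * χ b))‖ := by
        congr 1; ring
    _ ≤ _ := (norm_add_le _ _).trans (add_le_add hTn hd)

theorem char_var {K ε : ℝ} (hε : 0 ≤ ε) (hε1 : ε ≤ 1) {B1 B2 : Set G} {D1 D2 D3 : G → ℝ}
    (h1 : Smooth K ε B1 D1) (h2 : Smooth K ε B2 D2) (h3 : Prob D3)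
    (h12 : ∀ b, D2 b ≠ 0 → -b ∈ B1) (χ : AddChar G ℂ)
    (h23 : ∀ c, D3 c ≠ 0 → -c ∈ B2 ∧ ‖χ c - 1‖ ≤ ε)
    {g : G → ℝ} (hg : ∀ x, |g x| ≤ 1) :
    Ex D1 (fun a => ‖∑ b, (D2 b : ℂ) * (g (a + b) : ℂ) * χ b‖ ^ 2) ≤
      Ex D1 (fun a => (Ex D3 fun c => g (a + c)) ^ 2) + 9 * ε := by
  set g3 : G → ℝ := fun y => Ex D3 fun c => g (y + c) with hg3
  have hg3b : ∀ y, |g3 y| ≤ 1 := fun y => abs_Ex_le_one h3 fun c => hg _
  have hsq1 : ∀ y, |g3 y ^ 2| ≤ 1 := fun y => by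
    rw [abs_pow]; exact pow_le_one₀ (abs_nonneg _) (hg3b y)
  have hpt : ∀ a, ‖∑ b, (D2 b : ℂ) * (g (a + b) : ℂ) * χ b‖ ^ 2 ≤
      Ex D2 (fun b => g3 (a + b) ^ 2) + 8 * ε := by
    intro a
    have hn := C07_norm hε h2 h3 χ h23 hg a
    set x : ℝ := Ex D2 (fun b => |Ex D3 fun c => g (a + b + c)|) with hx
    have hx0 : 0 ≤ x := Ex_nonneg h2.pw.prob fun b => abs_nonneg _
    have hx1 : x ≤ 1 := Ex_le_const h2.pw.prob fun b => hg3b (a + b)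
    have hxs : x ^ 2 ≤ Ex D2 (fun b => g3 (a + b) ^ 2) := by
      refine (sq_Ex_le h2.pw.prob _).trans (le_of_eq (Ex_congr fun b => ?_))
      rw [sq_abs]
    have h0 : 0 ≤ ‖∑ b, (D2 b : ℂ) * (g (a + b) : ℂ) * χ b‖ := norm_nonneg _
    calc ‖∑ b, (D2 b : ℂ) * (g (a + b) : ℂ) * χ b‖ ^ 2 ≤ (x + 2 * ε) ^ 2 :=
          pow_le_pow_left₀ h0 hn 2
      _ ≤ x ^ 2 + 8 * ε := by
          nlinarith [mul_nonneg hε (sub_nonneg.2 hx1), mul_nonneg hε (sub_nonneg.2 hε1)]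
      _ ≤ _ := by linarith
  calc Ex D1 (fun a => ‖∑ b, (D2 b : ℂ) * (g (a + b) : ℂ) * χ b‖ ^ 2)
      ≤ Ex D1 (fun a => Ex D2 (fun b => g3 (a + b) ^ 2) + 8 * ε) := Ex_le h1.pw.prob hpt
    _ = Ex D2 (fun b => Ex D1 (fun a => g3 (a + b) ^ 2)) + 8 * ε := by
        rw [Ex_add, Ex_const h1.pw.prob, Ex_comm]
    _ ≤ (Ex D1 (fun a => g3 a ^ 2) + ε) + 8 * ε := by
        refine add_le_add ?_ le_rfl
        refine Ex_le_const_supp h2.pw.prob fun b hb => ?_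
        have hs := Smooth.shift_one hε h1 (h12 b hb) (f := fun a => g3 a ^ 2) hsq1
        simp only [sub_neg_eq_add] at hs
        have := (abs_le.1 hs).2
        linarith
    _ = Ex D1 (fun a => (Ex D3 fun c => g (a + c)) ^ 2) + 9 * ε := by
        rw [hg3]; ring

end Pool.Agent.Lib.MG
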