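import Pool.Agent.Lib.MP_7b7e48_nt.MG.C05
import Pool.Agent.Lib.MP_7b7e48_nt.MG.C06
import Pool.Agent.Lib.MP_7b7e48_nt.MG.C07

/-!
# C08: increment of the potential

Let `θ = Ex D0 Θ ∈ [0, 1]`, `g = Θ - θ` (`|g| ≤ 1`), and let the box average of `g` be `≥ ν`.
(1) `localise`: `ν ≤ Ex D0 N + 3 ε`, `N M = Ex D1 a, Ex D1 a', (Ex D2 b, g(M+a+b) g(M+a'+b)) ^ 2`.
(2) For every `M` apply `one_char` and `char_var` to `g (M + ·)`: there is `χ M` with
`N M ≤ Ex D1 a, (Ex (D3 (χ M)) c, g (M + a + c)) ^ 2 + 3 √ε + 9 ε`.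
(3) So with `G(M, a) = Ex (D3 (χ M)) fun c => g (M + a + c) = Ex (D3 (χ M)) (Θ (M + a + ·)) - θ`:
`Ex D0 M, Ex D1 a, G ^ 2 ≥ ν - 12 ε - 3 √ε ≥ ν - 15 √ε`.
(4) `|Ex D0 M, Ex D1 a, G| ≤ 2 ε`: for `c` in the support of `D3`, `-c ∈ B1`, so
`|Ex D1 a, g (M + a + c) - Ex D1 a, g (M + a)| ≤ ε`, and `-a ∈ B0` for `a` in the support of `D1`
gives `|Ex D0 M, g (M + a) - Ex D0 g| ≤ ε`, `Ex D0 g = 0`.
(5) `Ex Ex (θ + G) ^ 2 = θ ^ 2 + 2 θ Ex Ex G + Ex Ex G ^ 2 ≥ θ ^ 2 + ν - 19 √ε`.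
(6) Mass: for fixed `M`, `c`: `Ex D1 a, L (M + a + c) ≥ Ex D1 a, L (M + a) - ε * (Ex D1' Ex E1' L)`;
by `Smooth.shift` for `D1` and `mass1` (averaged over `M ~ D0`) the total loss is
`≤ ε exp (2 δ)`; then `Ex D0 M, L (M + a) ≥ Ex D0 L - ε exp (2 δ)` (`Smooth.shift_L`).  Total loss
`2 ε exp (2 δ) ≤ 3 ε`.
(7) So the average over `(M, a)` of `Psi κ Θ L (M + a) (D3 (χ M))` is at least
`Psi κ Θ L 0 D0 + ν - 20 √ε - 3 κ ε`; `exists_ge_Ex` twice.
-/

open Finset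

namespace Pool.Agent.Lib.MG

variable {G : Type} [AddCommGroup G] [Fintype G]

theorem increment {z K δ ε κ ν : ℝ} {L A : G → ℝ} (hL : PS z L A) (par : Par K δ z)
    (hε : 0 ≤ ε) (hε1 : ε ≤ 1) (hκ : 0 ≤ κ) {B0 B1 B2 : Set G} {D0 D1 D2 : G → ℝ}
    (h0 : Smooth K ε B0 D0) (h1 : Smooth K ε B1 D1) (h2 : Smooth K ε B2 D2)
    (D3 : AddChar G ℂ → G → ℝ) (h3 : ∀ χ, Prob (D3 χ))
    (h01 : ∀ b, D1 b ≠ 0 → -b ∈ B0) (h12 : ∀ b, D2 b ≠ 0 → b ∈ B1 ∧ -b ∈ B1)
    (h12' : ∀ b b', D2 b ≠ 0 → D2 b' ≠ 0 → b' - b ∈ B1)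
    (h23 : ∀ χ c, D3 χ c ≠ 0 → -c ∈ B2 ∧ ‖χ c - 1‖ ≤ ε) (h13 : ∀ χ c, D3 χ c ≠ 0 → -c ∈ B1)
    {Θ : G → ℝ} (hΘ : ∀ x, 0 ≤ Θ x ∧ Θ x ≤ 1)
    (hν : ν ≤ Ex5 D0 D1 (fun M a a' b b' => Pf (fun x => Θ x - Ex D0 Θ) M a a' b b')) :
    ∃ (M a : G) (χ : AddChar G ℂ), D0 M ≠ 0 ∧ D1 a ≠ 0 ∧
      Psi κ Θ L 0 D0 + ν - 20 * Real.sqrt ε - 3 * κ * ε ≤ Psi κ Θ L (M + a) (D3 χ) := by
  have hp0 := h0.pw.prob
  have hp1 := h1.pw.prob
  have hp2 := h2.pw.prob
  set θ : ℝ := Ex D0 Θ with hθ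
  have hθ0 : 0 ≤ θ := Ex_nonneg hp0 fun x => (hΘ x).1
  have hθ1 : θ ≤ 1 := Ex_le_const hp0 fun x => (hΘ x).2
  set g : G → ℝ := fun x => Θ x - θ with hgdef
  have hg : ∀ x, |g x| ≤ 1 := by
    intro x
    have := hΘ x
    rw [abs_le]
    constructor
    · show -1 ≤ Θ x - θ
      linarith [this.1]
    · show Θ x - θ ≤ 1
      linarith [this.2]
  have hs0 := Real.sqrt_nonneg ε
  have hεs : ε ≤ Real.sqrt ε := by
    rw [Real.le_sqrt hε hε]
    nlinarith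
  -- step 1
  have st1 := localise hε h0 h1 hp2 h01 (fun b hb => (h12 b hb).2) hg
  -- step 2
  have st2 : ∀ M : G, ∃ χ : AddChar G ℂ, Ex D1 (fun a => Ex D1 fun a' =>
      (Ex D2 fun b => g (M + a + b) * g (M + a' + b)) ^ 2) ≤
      Ex D1 (fun a => (Ex (D3 χ) fun c => g (M + a + c)) ^ 2) + 3 * Real.sqrt ε + 9 * ε := by
    intro M
    obtain ⟨χ, hχ⟩ := one_char (g := fun x => g (M + x)) hε hε1 h1 hp2 (fun b hb => (h12 b hb).1)
      h12' (fun x => hg _)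
    have hv := char_var (g := fun x => g (M + x)) hε hε1 h1 h2 (h3 χ)
      (fun b hb => (h12 b hb).2) χ (h23 χ) (fun x => hg _)
    refine ⟨χ, ?_⟩
    simp only [← add_assoc] at hχ hv
    linarith
  choose χ hχ using st2
  -- step 3
  set Gf : G → G → ℝ := fun M a => Ex (D3 (χ M)) fun c => g (M + a + c) with hGf
  have st3 : ν - 12 * ε - 3 * Real.sqrt ε ≤ Ex D0 (fun M => Ex D1 fun a => Gf M a ^ 2) := by
    have a1 : Ex D0 (fun M => Ex D1 fun a => Ex D1 fun a' =>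
        (Ex D2 fun b => g (M + a + b) * g (M + a' + b)) ^ 2) ≤
        Ex D0 (fun M => (Ex D1 fun a => Gf M a ^ 2) + (3 * Real.sqrt ε + 9 * ε)) := by
      refine Ex_le hp0 fun M => ?_
      have := hχ M
      simp only [hGf]
      linarith
    rw [Ex_add, Ex_const hp0] at a1
    have a2 := hν.trans st1
    linarith
  -- step 4
  have st4 : |Ex D0 (fun M => Ex D1 fun a => Gf M a)| ≤ 2 * ε := by
    have b1 : ∀ M : G, |(Ex D1 fun a => Gf M a) - Ex D1 fun a => g (M + a)| ≤ ε := by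
      intro M
      have e1 : (Ex D1 fun a => Gf M a) = Ex (D3 (χ M)) fun c => Ex D1 fun a => g (M + a + c) :=
        Ex_comm _ _ _
      have e2 : (Ex D1 fun a => g (M + a)) = Ex (D3 (χ M)) fun _ => Ex D1 fun a => g (M + a) :=
        (Ex_const (h3 _) _).symm
      rw [e1, e2, ← Ex_sub]
      refine (abs_Ex_le (h3 _) _).trans (Ex_le_const_supp (h3 _) fun c hc => ?_)
      have := h1.shift_one hε (h13 _ c hc) (f := fun x => g (M + x)) (fun x => hg _)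
      simp only [sub_neg_eq_add, ← add_assoc] at this
      exact this
    have b2 : |(Ex D0 fun M => Ex D1 fun a => g (M + a)) - Ex D0 g| ≤ ε := by
      rw [Ex_comm]
      have e2 : Ex D0 g = Ex D1 fun _ => Ex D0 g := (Ex_const hp1 _).symm
      rw [e2, ← Ex_sub]
      refine (abs_Ex_le hp1 _).trans (Ex_le_const_supp hp1 fun a ha => ?_)
      have := h0.shift_one hε (h01 a ha) (f := g) hg
      simp only [sub_neg_eq_add] at this
      exact this
    have b3 : Ex D0 g = 0 := by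
      simp only [hgdef]
      rw [Ex_sub, Ex_const hp0, ← hθ, sub_self]
    rw [b3, sub_zero] at b2
    have b4 : |(Ex D0 fun M => Ex D1 fun a => Gf M a) - Ex D0 fun M => Ex D1 fun a => g (M + a)| ≤
        ε := by
      rw [← Ex_sub]
      exact (abs_Ex_le hp0 _).trans (Ex_le_const hp0 fun M => b1 M)
    have b5 := abs_le.mp b2
    have b6 := abs_le.mp b4
    rw [abs_le]
    constructor <;> linarith [b5.1, b5.2, b6.1, b6.2]
  -- step 5
  have st5 : θ ^ 2 + ν - 19 * Real.sqrt ε ≤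
      Ex D0 (fun M => Ex D1 fun a => (Ex (D3 (χ M)) fun c => Θ (M + a + c)) ^ 2) := by
    have e1 : ∀ M a : G, (Ex (D3 (χ M)) fun c => Θ (M + a + c)) = θ + Gf M a := by
      intro M a
      simp only [hGf, hgdef]
      rw [Ex_sub, Ex_const (h3 _)]
      ring
    have e2 : (Ex D0 fun M => Ex D1 fun a => (Ex (D3 (χ M)) fun c => Θ (M + a + c)) ^ 2) =
        θ ^ 2 + (2 * θ) * (Ex D0 fun M => Ex D1 fun a => Gf M a) +
          Ex D0 fun M => Ex D1 fun a => Gf M a ^ 2 := by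
      have e3 : ∀ M a : G, (Ex (D3 (χ M)) fun c => Θ (M + a + c)) ^ 2 =
          (θ ^ 2 + (2 * θ) * Gf M a) + Gf M a ^ 2 := by
        intro M a
        rw [e1]
        ring
      simp only [e3]
      simp only [Ex_add, Ex_const hp1, Ex_const hp0, Ex_mul_left]
    rw [e2]
    have b1 := abs_le.mp st4
    have b2 : -(4 * ε) ≤ (2 * θ) * (Ex D0 fun M => Ex D1 fun a => Gf M a) := by
      have c1 : |(2 * θ) * (Ex D0 fun M => Ex D1 fun a => Gf M a)| ≤ 2 * (2 * ε) := by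
        rw [abs_mul]
        refine mul_le_mul ?_ st4 (abs_nonneg _) (by norm_num)
        rw [abs_of_nonneg (by linarith)]
        linarith
      have := (abs_le.mp c1).1
      linarith
    linarith
  -- step 6
  have hexp : Real.exp (2 * δ) ≤ 3 / 2 := by
    have hd1 : 2 * δ ≤ 1 / 5 := by linarith [par.hδ1]
    have hd0 : 0 ≤ 2 * δ := by linarith [par.hδ]
    have h1' : (1 : ℝ) - 2 * δ ≤ Real.exp (-(2 * δ)) := by
      have := Real.add_one_le_exp (-(2 * δ))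
      linarith
    rw [Real.exp_neg] at h1'
    have hpos := Real.exp_pos (2 * δ)
    have h2' : (4 / 5 : ℝ) ≤ (Real.exp (2 * δ))⁻¹ := by linarith
    have h3' := (le_inv_comm₀ (by norm_num) hpos).mp h2'
    refine h3'.trans ?_
    norm_num
  have st6 : Ex D0 L - 3 * ε ≤
      Ex D0 (fun M => Ex D1 fun a => Ex (D3 (χ M)) fun c => L (M + a + c)) := by
    obtain ⟨D1', E1', hD1', hE1', hsh⟩ := h1.shift
    have b1 : ∀ M : G, (Ex D1 fun a => L (M + a)) -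
        ε * (Ex D1' fun y => Ex E1' fun t => L (M + y + t)) ≤
        Ex D1 fun a => Ex (D3 (χ M)) fun c => L (M + a + c) := by
      intro M
      rw [Ex_comm D1 (D3 (χ M))]
      rw [← Ex_const (h3 (χ M)) ((Ex D1 fun a => L (M + a)) -
        ε * (Ex D1' fun y => Ex E1' fun t => L (M + y + t)))]
      refine Ex_le_supp (h3 _) fun c hc => ?_
      have := hsh _ (h13 _ c hc) (fun x => L (M + x))
      simp only [sub_neg_eq_add, ← add_assoc, abs_of_nonneg (hL.L_nonneg _)] at this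
      have := (abs_le.mp this).1
      linarith
    have b2 : (Ex D0 fun M => Ex D1' fun y => Ex E1' fun t => L (M + y + t)) ≤
        Real.exp (2 * δ) := by
      have e1 : (Ex D0 fun M => Ex D1' fun y => Ex E1' fun t => L (M + y + t)) =
          Ex E1' fun t => Ex D0 fun M => Ex D1' fun y => L (M + y + t) := by
        have e2 : ∀ M : G, (Ex D1' fun y => Ex E1' fun t => L (M + y + t)) =
            Ex E1' fun t => Ex D1' fun y => L (M + y + t) := fun M => Ex_comm _ _ _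
        simp only [e2]
        rw [Ex_comm]
      rw [e1]
      exact Ex_le_const hE1'.prob fun t => mass1 hL par h0.pw hD1' t
    have b3 : Ex D0 L - ε * Real.exp (2 * δ) ≤ Ex D0 fun M => Ex D1 fun a => L (M + a) := by
      rw [Ex_comm]
      rw [← Ex_const hp1 (Ex D0 L - ε * Real.exp (2 * δ))]
      refine Ex_le_supp hp1 fun a ha => ?_
      have := h0.shift_L hL par hε (h01 a ha) 0
      simp only [sub_neg_eq_add, add_zero] at this
      have := (abs_le.mp this).1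
      have e3 : Ex D0 (fun x => L x) = Ex D0 L := rfl
      linarith
    have b4 : (Ex D0 fun M => Ex D1 fun a => L (M + a)) -
        ε * (Ex D0 fun M => Ex D1' fun y => Ex E1' fun t => L (M + y + t)) ≤
        Ex D0 (fun M => Ex D1 fun a => Ex (D3 (χ M)) fun c => L (M + a + c)) := by
      rw [← Ex_mul_left, ← Ex_sub]
      exact Ex_le hp0 b1
    have b5 : ε * (Ex D0 fun M => Ex D1' fun y => Ex E1' fun t => L (M + y + t)) ≤
        ε * (3 / 2) := mul_le_mul_of_nonneg_left (b2.trans hexp) hε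
    have b6 : ε * Real.exp (2 * δ) ≤ ε * (3 / 2) := mul_le_mul_of_nonneg_left hexp hε
    linarith
  -- step 7
  have st7 : Psi κ Θ L 0 D0 + ν - 20 * Real.sqrt ε - 3 * κ * ε ≤
      Ex D0 fun M => Ex D1 fun a => Psi κ Θ L (M + a) (D3 (χ M)) := by
    have e1 : Psi κ Θ L 0 D0 = θ ^ 2 + κ * Ex D0 L := by
      unfold Psi
      simp only [zero_add]
      rfl
    have e2 : (Ex D0 fun M => Ex D1 fun a => Psi κ Θ L (M + a) (D3 (χ M))) =
        (Ex D0 fun M => Ex D1 fun a => (Ex (D3 (χ M)) fun c => Θ (M + a + c)) ^ 2) +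
          κ * Ex D0 fun M => Ex D1 fun a => Ex (D3 (χ M)) fun c => L (M + a + c) := by
      unfold Psi
      simp only [Ex_add, Ex_mul_left]
    rw [e1, e2]
    have b1 := mul_le_mul_of_nonneg_left st6 hκ
    nlinarith
  obtain ⟨M, hM, hM2⟩ := exists_ge_Ex hp0 (fun M => Ex D1 fun a => Psi κ Θ L (M + a) (D3 (χ M)))
  obtain ⟨a, ha, ha2⟩ := exists_ge_Ex hp1 (fun a => Psi κ Θ L (M + a) (D3 (χ M)))
  exact ⟨M, a, χ M, hM, ha, st7.trans (hM2.trans ha2)⟩

end Pool.Agent.Lib.MG
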