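import Pool.Agent.Lib.MP_7b7e48_nt.MG.Basic

/-!
# C09: the main term, and from the local count to the global count

`count_main`: with `a_i M = Ex D1 fun a => F i (M + (a + a))` and `θ = Ex D0 Θ`,
`Ex D0 M, Ex D1 a, Ex D1 b, Θ F F = θ * Ex D0 (a_i ^ 2) + (the average with Θ - θ)`, and
`∑ i, Ex D0 (a_i ^ 2) ≥ (1/r) Ex D0 ((∑ i, a_i) ^ 2) ≥ (1/r) (Ex D0 ∑ i, a_i) ^ 2 ≥ 0.81 / r`.
Total `≥ 0.4 * 0.81 / r - r * 1 / (10 r ^ 2) ≥ 1 / (5 r)`.
`cnt_lower`: replace each weight by `exp K / |G|` (nonnegative summands), then for fixed `a`, `b`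
substitute `m = M + a + b`, and `t = a - b`: `M + (a + a) = m + t`, `M + (b + b) = m - t`; so
`∑ M, ∑ a, ∑ b, Θ(M+a+b) F(M+2a) F(M+2b) = |G| * Cnt Θ F`.
-/

open Finset

namespace Pool.Agent.Lib.MG

variable {G : Type} [AddCommGroup G] [Fintype G]

theorem count_split {D0 D1 Θ : G → ℝ} (F : G → ℝ) (θ : ℝ) :
    Ex D0 (fun M => Ex D1 fun a => Ex D1 fun b =>
      Θ (M + a + b) * (F (M + (a + a)) * F (M + (b + b)))) =
    θ * Ex D0 (fun M => (Ex D1 fun a => F (M + (a + a))) ^ 2) +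
    Ex D0 (fun M => Ex D1 fun a => Ex D1 fun b =>
      (Θ (M + a + b) - θ) * (F (M + (a + a)) * F (M + (b + b)))) := by
  rw [← Ex_mul_left, ← Ex_add]
  refine Ex_congr fun M => ?_
  have h1 : θ * (Ex D1 fun a => F (M + (a + a))) ^ 2 =
      Ex D1 (fun a => Ex D1 fun b => θ * (F (M + (a + a)) * F (M + (b + b)))) := by
    have h2 : ∀ a, (Ex D1 fun b => θ * (F (M + (a + a)) * F (M + (b + b)))) =
        F (M + (a + a)) * (θ * Ex D1 fun b => F (M + (b + b))) := by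
      intro a
      rw [← Ex_mul_left, ← Ex_mul_left]
      exact Ex_congr fun b => by ring
    rw [Ex_congr h2, Ex_mul_right]
    ring
  rw [h1, ← Ex_add]
  refine Ex_congr fun a => ?_
  rw [← Ex_add]
  exact Ex_congr fun b => by ring

theorem count_main {r : ℕ} (hr : 1 ≤ r) {D0 D1 Θ : G → ℝ} (hD0 : Prob D0) (hD1 : Prob D1)
    {F : Fin r → G → ℝ} (hθ : 2 / 5 ≤ Ex D0 Θ)
    (hmass : 9 / 10 ≤ Ex D0 (fun M => Ex D1 fun a => ∑ i, F i (M + (a + a))))
    (herr : ∀ i, |Ex D0 (fun M => Ex D1 fun a => Ex D1 fun b =>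
      (Θ (M + a + b) - Ex D0 Θ) * (F i (M + (a + a)) * F i (M + (b + b))))| ≤
        1 / (10 * (r : ℝ) ^ 2)) :
    1 / (5 * (r : ℝ)) ≤ ∑ i, Ex D0 (fun M => Ex D1 fun a => Ex D1 fun b =>
      Θ (M + a + b) * (F i (M + (a + a)) * F i (M + (b + b)))) := by
  have hr0 : (0 : ℝ) < r := by exact_mod_cast hr
  set θ := Ex D0 Θ with hθdef
  have hsum : ∑ i, Ex D0 (fun M => Ex D1 fun a => Ex D1 fun b =>
      Θ (M + a + b) * (F i (M + (a + a)) * F i (M + (b + b)))) =
      θ * ∑ i, Ex D0 (fun M => (Ex D1 fun a => F i (M + (a + a))) ^ 2) +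
      ∑ i, Ex D0 (fun M => Ex D1 fun a => Ex D1 fun b =>
      (Θ (M + a + b) - θ) * (F i (M + (a + a)) * F i (M + (b + b)))) := by
    rw [Finset.mul_sum, ← Finset.sum_add_distrib]
    exact Finset.sum_congr rfl fun i _ => count_split (F i) θ
  have hE : -(1 / (10 * (r : ℝ))) ≤ ∑ i, Ex D0 (fun M => Ex D1 fun a => Ex D1 fun b =>
      (Θ (M + a + b) - θ) * (F i (M + (a + a)) * F i (M + (b + b)))) := by
    have h1 : ∑ _i : Fin r, -(1 / (10 * (r : ℝ) ^ 2)) ≤
        ∑ i, Ex D0 (fun M => Ex D1 fun a => Ex D1 fun b =>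
        (Θ (M + a + b) - θ) * (F i (M + (a + a)) * F i (M + (b + b)))) :=
      Finset.sum_le_sum fun i _ => (abs_le.mp (herr i)).1
    rw [Finset.sum_const, Finset.card_univ, Fintype.card_fin, nsmul_eq_mul] at h1
    refine le_trans (le_of_eq ?_) h1
    field_simp
  have hS : (81 / 100 : ℝ) ≤ r * ∑ i, Ex D0 (fun M => (Ex D1 fun a => F i (M + (a + a))) ^ 2) := by
    have h1 : Ex D0 (fun M => (∑ i, Ex D1 fun a => F i (M + (a + a))) ^ 2) ≤
        r * ∑ i, Ex D0 (fun M => (Ex D1 fun a => F i (M + (a + a))) ^ 2) := by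
      rw [← Ex_sum, ← Ex_mul_left]
      refine Ex_le hD0 fun M => ?_
      have := sq_sum_le_card_mul_sum_sq (s := (Finset.univ : Finset (Fin r)))
        (f := fun i => Ex D1 fun a => F i (M + (a + a)))
      rwa [Finset.card_univ, Fintype.card_fin] at this
    have h2 := sq_Ex_le hD0 (fun M => ∑ i, Ex D1 fun a => F i (M + (a + a)))
    have h3 : Ex D0 (fun M => Ex D1 fun a => ∑ i, F i (M + (a + a))) =
        Ex D0 (fun M => ∑ i, Ex D1 fun a => F i (M + (a + a))) :=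
      Ex_congr fun M => Ex_sum _ _
    rw [h3] at hmass
    have h4 : (81 / 100 : ℝ) ≤ (Ex D0 (fun M => ∑ i, Ex D1 fun a => F i (M + (a + a)))) ^ 2 := by
      nlinarith
    linarith
  rw [hsum]
  set S := ∑ i, Ex D0 (fun M => (Ex D1 fun a => F i (M + (a + a))) ^ 2) with hSdef
  have hS1 : 81 / (100 * (r : ℝ)) ≤ S := by
    rw [div_le_iff₀ (by positivity)]
    nlinarith
  have hS0 : 0 ≤ S := le_trans (by positivity) hS1
  have h5 : 2 / 5 * (81 / (100 * (r : ℝ))) ≤ θ * S :=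
    mul_le_mul hθ hS1 (by positivity) (by linarith)
  have h6 : 1 / (5 * (r : ℝ)) ≤ 2 / 5 * (81 / (100 * (r : ℝ))) - 1 / (10 * (r : ℝ)) := by
    have h7 : 2 / 5 * (81 / (100 * (r : ℝ))) - 1 / (10 * (r : ℝ)) - 1 / (5 * (r : ℝ)) =
        (24 / 1000) / r := by
      field_simp
      norm_num
    have h8 : 0 ≤ (24 / 1000) / (r : ℝ) := by positivity
    linarith
  linarith

theorem sum_cnt (Θ F : G → ℝ) :
    ∑ M, ∑ a, ∑ b, Θ (M + a + b) * (F (M + (a + a)) * F (M + (b + b))) =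
      (Fintype.card G : ℝ) * Cnt Θ F := by
  have h1 : ∑ M, ∑ a, ∑ b, Θ (M + a + b) * (F (M + (a + a)) * F (M + (b + b))) =
      ∑ b, ∑ a, ∑ M, Θ (M + a + b) * (F (M + (a + a)) * F (M + (b + b))) := by
    rw [Finset.sum_comm]
    rw [Finset.sum_congr rfl fun a _ => Finset.sum_comm]
    rw [Finset.sum_comm]
  have h2 : ∀ a b, ∑ M, Θ (M + a + b) * (F (M + (a + a)) * F (M + (b + b))) =
      ∑ m, Θ m * (F (m + (a - b)) * F (m - (a - b))) := by
    intro a b
    rw [← sum_shift (fun m => Θ m * (F (m + (a - b)) * F (m - (a - b)))) (a + b)]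
    refine Finset.sum_congr rfl fun M _ => ?_
    have e1 : M + (a + b) = M + a + b := by abel
    have e2 : M + (a + b) + (a - b) = M + (a + a) := by abel
    have e3 : M + (a + b) - (a - b) = M + (b + b) := by abel
    rw [e2, e3, e1]
  have h3 : ∀ b : G, ∑ a, ∑ m, Θ m * (F (m + (a - b)) * F (m - (a - b))) = Cnt Θ F := by
    intro b
    have := sum_shift (fun t => ∑ m, Θ m * (F (m + t) * F (m - t))) (-b)
    have h4 : ∑ a, ∑ m, Θ m * (F (m + (a - b)) * F (m - (a - b))) =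
        ∑ t, ∑ m, Θ m * (F (m + t) * F (m - t)) := by
      rw [← this]
      exact Finset.sum_congr rfl fun a _ => by simp only [sub_eq_add_neg]
    rw [h4, Finset.sum_comm]
    rfl
  rw [h1]
  simp only [h2, h3]
  rw [Finset.sum_const, Finset.card_univ, nsmul_eq_mul]

theorem cnt_lower {K : ℝ} {D0 D1 Θ F : G → ℝ} (hD0 : PW K D0) (hD1 : PW K D1)
    (hΘ : ∀ x, 0 ≤ Θ x) (hF : ∀ x, 0 ≤ F x) :
    Ex D0 (fun M => Ex D1 fun a => Ex D1 fun b =>
      Θ (M + a + b) * (F (M + (a + a)) * F (M + (b + b)))) * (Fintype.card G : ℝ) ^ 2 ≤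
      Real.exp (3 * K) * Cnt Θ F := by
  have hN : (0 : ℝ) < (Fintype.card G : ℝ) := card_pos'
  set N : ℝ := (Fintype.card G : ℝ) with hNdef
  set E : ℝ := Real.exp K with hEdef
  have hE : 0 < E := Real.exp_pos K
  have hE3 : Real.exp (3 * K) = E ^ 3 := by
    rw [hEdef, ← Real.exp_nat_mul]
    norm_num
  have key : ∀ {D : G → ℝ}, PW K D → ∀ (f : G → ℝ), (∀ x, 0 ≤ f x) →
      Ex D f * N ≤ E * ∑ x, f x := by
    intro D hD f hf
    unfold Ex
    rw [Finset.sum_mul, Finset.mul_sum]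
    refine Finset.sum_le_sum fun x _ => ?_
    have := mul_le_mul_of_nonneg_right (hD.le x) (hf x)
    calc D x * f x * N = D x * N * f x := by ring
      _ ≤ E * f x := this
  have hh : ∀ M a b, 0 ≤ Θ (M + a + b) * (F (M + (a + a)) * F (M + (b + b))) :=
    fun M a b => mul_nonneg (hΘ _) (mul_nonneg (hF _) (hF _))
  have k1 : ∀ M a, (Ex D1 fun b => Θ (M + a + b) * (F (M + (a + a)) * F (M + (b + b)))) * N ≤
      E * ∑ b, Θ (M + a + b) * (F (M + (a + a)) * F (M + (b + b))) :=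
    fun M a => key hD1 _ (hh M a)
  have n1 : ∀ M a, 0 ≤ ∑ b, Θ (M + a + b) * (F (M + (a + a)) * F (M + (b + b))) :=
    fun M a => Finset.sum_nonneg fun b _ => hh M a b
  have k2 : ∀ M, (Ex D1 fun a => Ex D1 fun b =>
      Θ (M + a + b) * (F (M + (a + a)) * F (M + (b + b)))) * N * N ≤
      E * E * ∑ a, ∑ b, Θ (M + a + b) * (F (M + (a + a)) * F (M + (b + b))) := by
    intro M
    have e1 : (Ex D1 fun a => Ex D1 fun b =>
        Θ (M + a + b) * (F (M + (a + a)) * F (M + (b + b)))) * N ≤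
        Ex D1 fun a => E * ∑ b, Θ (M + a + b) * (F (M + (a + a)) * F (M + (b + b))) := by
      rw [← Ex_mul_right]
      exact Ex_le hD1.prob fun a => k1 M a
    have e2 := key hD1 (fun a => ∑ b, Θ (M + a + b) * (F (M + (a + a)) * F (M + (b + b)))) (n1 M)
    rw [Ex_mul_left] at e1
    calc (Ex D1 fun a => Ex D1 fun b =>
        Θ (M + a + b) * (F (M + (a + a)) * F (M + (b + b)))) * N * N
        ≤ (E * Ex D1 fun a => ∑ b, Θ (M + a + b) * (F (M + (a + a)) * F (M + (b + b)))) * N :=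
          mul_le_mul_of_nonneg_right e1 hN.le
      _ = E * ((Ex D1 fun a => ∑ b, Θ (M + a + b) * (F (M + (a + a)) * F (M + (b + b)))) * N) := by
          ring
      _ ≤ E * (E * ∑ a, ∑ b, Θ (M + a + b) * (F (M + (a + a)) * F (M + (b + b)))) :=
          mul_le_mul_of_nonneg_left e2 hE.le
      _ = E * E * ∑ a, ∑ b, Θ (M + a + b) * (F (M + (a + a)) * F (M + (b + b))) := by ring
  have n2 : ∀ M, 0 ≤ ∑ a, ∑ b, Θ (M + a + b) * (F (M + (a + a)) * F (M + (b + b))) :=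
    fun M => Finset.sum_nonneg fun a _ => n1 M a
  have k3 : Ex D0 (fun M => Ex D1 fun a => Ex D1 fun b =>
      Θ (M + a + b) * (F (M + (a + a)) * F (M + (b + b)))) * N * N * N ≤
      E * E * (E * ∑ M, ∑ a, ∑ b, Θ (M + a + b) * (F (M + (a + a)) * F (M + (b + b)))) := by
    have e1 : Ex D0 (fun M => Ex D1 fun a => Ex D1 fun b =>
        Θ (M + a + b) * (F (M + (a + a)) * F (M + (b + b)))) * N * N ≤
        Ex D0 fun M => E * E * ∑ a, ∑ b, Θ (M + a + b) * (F (M + (a + a)) * F (M + (b + b))) := by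
      rw [← Ex_mul_right, ← Ex_mul_right]
      exact Ex_le hD0.prob k2
    have e2 := key hD0 (fun M => ∑ a, ∑ b, Θ (M + a + b) * (F (M + (a + a)) * F (M + (b + b)))) n2
    rw [Ex_mul_left] at e1
    calc Ex D0 (fun M => Ex D1 fun a => Ex D1 fun b =>
        Θ (M + a + b) * (F (M + (a + a)) * F (M + (b + b)))) * N * N * N
        ≤ (E * E * Ex D0 fun M => ∑ a, ∑ b,
            Θ (M + a + b) * (F (M + (a + a)) * F (M + (b + b)))) * N :=
          mul_le_mul_of_nonneg_right e1 hN.le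
      _ = E * E * ((Ex D0 fun M => ∑ a, ∑ b,
            Θ (M + a + b) * (F (M + (a + a)) * F (M + (b + b)))) * N) := by ring
      _ ≤ E * E * (E * ∑ M, ∑ a, ∑ b, Θ (M + a + b) * (F (M + (a + a)) * F (M + (b + b)))) :=
          mul_le_mul_of_nonneg_left e2 (mul_pos hE hE).le
  rw [sum_cnt] at k3
  rw [hE3]
  have k4 : Ex D0 (fun M => Ex D1 fun a => Ex D1 fun b =>
      Θ (M + a + b) * (F (M + (a + a)) * F (M + (b + b)))) * N ^ 2 * N ≤
      E ^ 3 * Cnt Θ F * N := by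
    calc Ex D0 (fun M => Ex D1 fun a => Ex D1 fun b =>
      Θ (M + a + b) * (F (M + (a + a)) * F (M + (b + b)))) * N ^ 2 * N
        = Ex D0 (fun M => Ex D1 fun a => Ex D1 fun b =>
      Θ (M + a + b) * (F (M + (a + a)) * F (M + (b + b)))) * N * N * N := by ring
      _ ≤ E * E * (E * (N * Cnt Θ F)) := k3
      _ = E ^ 3 * Cnt Θ F * N := by ring
  exact le_of_mul_le_mul_right k4 hN

/-- translates do not change the count -/
theorem cnt_translate (Θ F : G → ℝ) (y : G) :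
    Cnt (fun x => Θ (y + x)) (fun x => F (y + x)) = Cnt Θ F := by
  unfold Cnt
  rw [← sum_shift (fun m => ∑ t, Θ m * (F (m + t) * F (m - t))) y]
  refine Finset.sum_congr rfl fun m _ => Finset.sum_congr rfl fun t _ => ?_
  have e1 : m + y = y + m := by abel
  have e2 : y + m + t = y + (m + t) := by abel
  have e3 : y + m - t = y + (m - t) := by abel
  rw [e1, e2, e3]

end Pool.Agent.Lib.MG
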