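import Pool.Agent.Lib.MP_7b7e48_nt.MG.Basic

/-!
# C10: averages of a Fourier-small function over doubly smoothed cells

Proof.  Let `D2 x` be the law of `a + a`, `a ~ D1` (i.e. `D2 (a + a) = D1 a`; a probability weight
of density `≤ exp K` because doubling is bijective).  Fourier inversion
`S x = (1/|G|) ∑ χ, Ŝ χ * χ (-x)`, `Ŝ χ = ∑ x, S x * χ x`, gives
`Ex D0 M, Ex D1 a, S (y + M + (a + a)) = (1/|G|) ∑ χ, Ŝ χ * χ (-y) * conj (D0̂ χ) * conj (D2̂ χ)`.
So its absolute value is `≤ η * ∑ χ, ‖D0̂ χ‖ ‖D2̂ χ‖ ≤ η * √(∑ ‖D0̂‖ ^ 2) √(∑ ‖D2̂‖ ^ 2)`, and by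
Parseval `∑ χ, ‖D0̂ χ‖ ^ 2 = |G| * ∑ x, D0 x ^ 2 ≤ exp K * ∑ x, D0 x = exp K`, same for `D2`.
Orthogonality: `AddChar.sum_apply_eq_ite`.
-/

open Finset

namespace Pool.Agent.Lib.MG

variable {G : Type} [AddCommGroup G] [Fintype G]

lemma c10_parseval (e : G → G) (he : Function.Injective e) (D : G → ℝ) :
    ∑ χ : AddChar G ℂ, ‖∑ a, (D a : ℂ) * χ (-e a)‖ ^ 2 =
      (Fintype.card G : ℝ) * ∑ a, D a ^ 2 := by
  classical
  have h1 : ∀ χ : AddChar G ℂ, ((‖∑ a, (D a : ℂ) * χ (-e a)‖ ^ 2 : ℝ) : ℂ) =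
      ∑ a, ∑ a', (D a : ℂ) * (D a' : ℂ) * χ (e a' - e a) := by
    intro χ
    push_cast
    rw [← Complex.mul_conj', map_sum, Finset.sum_mul_sum]
    refine Finset.sum_congr rfl fun a _ => Finset.sum_congr rfl fun a' _ => ?_
    rw [map_mul, Complex.conj_ofReal, ← AddChar.map_neg_eq_conj, neg_neg,
      show e a' - e a = -e a + e a' by abel, AddChar.map_add_eq_mul]
    ring
  have h2 : ((∑ χ : AddChar G ℂ, ‖∑ a, (D a : ℂ) * χ (-e a)‖ ^ 2 : ℝ) : ℂ) =
      (((Fintype.card G : ℝ) * ∑ a, D a ^ 2 : ℝ) : ℂ) := by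
    rw [Complex.ofReal_sum]
    rw [Finset.sum_congr rfl fun χ _ => h1 χ]
    rw [Finset.sum_comm]
    have h3 : ∀ a : G, ∑ χ : AddChar G ℂ, ∑ a', (D a : ℂ) * (D a' : ℂ) * χ (e a' - e a) =
        (Fintype.card G : ℂ) * (D a : ℂ) ^ 2 := by
      intro a
      rw [Finset.sum_comm]
      have h4 : ∀ a' : G, ∑ χ : AddChar G ℂ, (D a : ℂ) * (D a' : ℂ) * χ (e a' - e a) =
          if a' = a then (Fintype.card G : ℂ) * (D a : ℂ) ^ 2 else 0 := by
        intro a'
        rw [← Finset.mul_sum, AddChar.sum_apply_eq_ite]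
        by_cases h : a' = a
        · subst h
          rw [if_pos (sub_self _), if_pos rfl]
          ring
        · rw [if_neg (fun h5 => h (he (sub_eq_zero.1 h5))), if_neg h, mul_zero]
      rw [Finset.sum_congr rfl fun a' _ => h4 a', Finset.sum_ite_eq' univ a, if_pos (mem_univ _)]
    rw [Finset.sum_congr rfl fun a _ => h3 a, ← Finset.mul_sum]
    push_cast
    rfl
  exact_mod_cast h2

lemma c10_mass {K : ℝ} {D : G → ℝ} (hD : PW K D) :
    (Fintype.card G : ℝ) * ∑ a, D a ^ 2 ≤ Real.exp K := by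
  rw [Finset.mul_sum]
  calc ∑ a, (Fintype.card G : ℝ) * D a ^ 2 ≤ ∑ a, Real.exp K * D a := by
        refine Finset.sum_le_sum fun a _ => ?_
        have h1 := mul_le_mul_of_nonneg_right (hD.le a) (hD.prob.nonneg a)
        calc (Fintype.card G : ℝ) * D a ^ 2 = D a * (Fintype.card G : ℝ) * D a := by ring
          _ ≤ _ := h1
    _ = Real.exp K := by rw [← Finset.mul_sum, hD.prob.sum_one, mul_one]

theorem fourier_mass {K η : ℝ} (hd : Dbl G) (hη : 0 ≤ η) {D0 D1 S : G → ℝ} (hD0 : PW K D0)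
    (hD1 : PW K D1) (hS : ∀ χ : AddChar G ℂ, ‖∑ x, (S x : ℂ) * χ x‖ ≤ η * Fintype.card G) (y : G) :
    |Ex D0 (fun M => Ex D1 fun a => S (y + M + (a + a)))| ≤ η * Real.exp K := by
  classical
  have hcard : (0 : ℝ) < (Fintype.card G : ℝ) := card_pos'
  have hinv : ∀ z : G, (Fintype.card G : ℂ) * (S z : ℂ) =
      ∑ χ : AddChar G ℂ, (∑ x, (S x : ℂ) * χ x) * χ (-z) := by
    intro z
    have h1 : ∀ χ : AddChar G ℂ, (∑ x, (S x : ℂ) * χ x) * χ (-z) =
        ∑ x, (S x : ℂ) * χ (x - z) := by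
      intro χ
      rw [Finset.sum_mul]
      refine Finset.sum_congr rfl fun x _ => ?_
      rw [sub_eq_add_neg, AddChar.map_add_eq_mul]
      ring
    rw [Finset.sum_congr rfl fun χ _ => h1 χ, Finset.sum_comm]
    have h2 : ∀ x : G, ∑ χ : AddChar G ℂ, (S x : ℂ) * χ (x - z) =
        if x = z then (Fintype.card G : ℂ) * (S z : ℂ) else 0 := by
      intro x
      rw [← Finset.mul_sum, AddChar.sum_apply_eq_ite]
      by_cases h : x = z
      · subst h
        rw [if_pos (sub_self _), if_pos rfl]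
        ring
      · rw [if_neg (fun h5 => h (sub_eq_zero.1 h5)), if_neg h, mul_zero]
    rw [Finset.sum_congr rfl fun x _ => h2 x, Finset.sum_ite_eq' univ z, if_pos (mem_univ _)]
  set T : ℝ := Ex D0 (fun M => Ex D1 fun a => S (y + M + (a + a))) with hT
  have hexp : (Fintype.card G : ℂ) * (T : ℂ) = ∑ χ : AddChar G ℂ,
      (∑ x, (S x : ℂ) * χ x) * χ (-y) * ((∑ M, (D0 M : ℂ) * χ (-M)) *
        (∑ a, (D1 a : ℂ) * χ (-(a + a)))) := by
    have h1 : (Fintype.card G : ℂ) * (T : ℂ) = ∑ M, ∑ a, (D0 M : ℂ) * (D1 a : ℂ) *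
        ∑ χ : AddChar G ℂ, (∑ x, (S x : ℂ) * χ x) * χ (-(y + M + (a + a))) := by
      rw [hT]
      unfold Ex
      push_cast
      rw [Finset.mul_sum]
      refine Finset.sum_congr rfl fun M _ => ?_
      rw [Finset.mul_sum, Finset.mul_sum]
      refine Finset.sum_congr rfl fun a _ => ?_
      rw [← hinv]
      ring
    rw [h1]
    have h2 : ∀ M a : G, (D0 M : ℂ) * (D1 a : ℂ) *
        ∑ χ : AddChar G ℂ, (∑ x, (S x : ℂ) * χ x) * χ (-(y + M + (a + a))) =
        ∑ χ : AddChar G ℂ, (∑ x, (S x : ℂ) * χ x) * χ (-y) *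
          ((D0 M : ℂ) * χ (-M) * ((D1 a : ℂ) * χ (-(a + a)))) := by
      intro M a
      rw [Finset.mul_sum]
      refine Finset.sum_congr rfl fun χ _ => ?_
      rw [show -(y + M + (a + a)) = -y + (-M + -(a + a)) by abel, AddChar.map_add_eq_mul,
        AddChar.map_add_eq_mul]
      ring
    rw [Finset.sum_congr rfl fun M _ => Finset.sum_congr rfl fun a _ => h2 M a]
    have h3 : ∀ M : G, ∑ a, ∑ χ : AddChar G ℂ, (∑ x, (S x : ℂ) * χ x) * χ (-y) *
          ((D0 M : ℂ) * χ (-M) * ((D1 a : ℂ) * χ (-(a + a)))) =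
        ∑ χ : AddChar G ℂ, (∑ x, (S x : ℂ) * χ x) * χ (-y) *
          ((D0 M : ℂ) * χ (-M) * ∑ a, (D1 a : ℂ) * χ (-(a + a))) := by
      intro M
      rw [Finset.sum_comm]
      refine Finset.sum_congr rfl fun χ _ => ?_
      rw [← Finset.mul_sum, ← Finset.mul_sum]
    rw [Finset.sum_congr rfl fun M _ => h3 M, Finset.sum_comm]
    refine Finset.sum_congr rfl fun χ _ => ?_
    rw [← Finset.mul_sum, ← Finset.sum_mul]
  have hnorm : (Fintype.card G : ℝ) * |T| ≤ η * Fintype.card G * Real.exp K := by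
    have h1 : (Fintype.card G : ℝ) * |T| = ‖(Fintype.card G : ℂ) * (T : ℂ)‖ := by
      rw [norm_mul, Complex.norm_natCast, Complex.norm_real, Real.norm_eq_abs]
    rw [h1, hexp]
    refine (norm_sum_le _ _).trans ?_
    calc ∑ χ : AddChar G ℂ, ‖(∑ x, (S x : ℂ) * χ x) * χ (-y) * ((∑ M, (D0 M : ℂ) * χ (-M)) *
          (∑ a, (D1 a : ℂ) * χ (-(a + a))))‖
        ≤ ∑ χ : AddChar G ℂ, η * Fintype.card G *
          ((‖∑ M, (D0 M : ℂ) * χ (-M)‖ ^ 2 + ‖∑ a, (D1 a : ℂ) * χ (-(a + a))‖ ^ 2) / 2) := by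
          refine Finset.sum_le_sum fun χ _ => ?_
          rw [norm_mul, norm_mul, norm_mul, AddChar.norm_apply, mul_one]
          refine mul_le_mul (hS χ) ?_ (by positivity) (by positivity)
          nlinarith [sq_nonneg (‖∑ M, (D0 M : ℂ) * χ (-M)‖ - ‖∑ a, (D1 a : ℂ) * χ (-(a + a))‖)]
      _ = η * Fintype.card G *
          ((∑ χ : AddChar G ℂ, ‖∑ M, (D0 M : ℂ) * χ (-M)‖ ^ 2 +
            ∑ χ : AddChar G ℂ, ‖∑ a, (D1 a : ℂ) * χ (-(a + a))‖ ^ 2) / 2) := by
          rw [← Finset.mul_sum, ← Finset.sum_div, Finset.sum_add_distrib]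
      _ ≤ η * Fintype.card G * ((Real.exp K + Real.exp K) / 2) := by
          have p1 := c10_parseval (fun x : G => x) (fun _ _ h => h) D0
          have p2 := c10_parseval (fun x : G => x + x) hd.injective D1
          beta_reduce at p1 p2
          rw [p1, p2]
          have q1 := c10_mass hD0
          have q2 := c10_mass hD1
          refine mul_le_mul_of_nonneg_left ?_ (by positivity)
          linarith
      _ = η * Fintype.card G * Real.exp K := by ring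
  have h5 : (Fintype.card G : ℝ) * |T| ≤ (Fintype.card G : ℝ) * (η * Real.exp K) :=
    hnorm.trans_eq (by ring)
  exact le_of_mul_le_mul_left h5 hcard

end Pool.Agent.Lib.MG
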