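import Pool.Agent.Lib.MP_7b7e48_nt.MG.C02
import Pool.Agent.Lib.MP_7b7e48_nt.MG.C04
import Pool.Agent.Lib.MP_7b7e48_nt.MG.C08
import Pool.Agent.Lib.MP_7b7e48_nt.MG.C09
import Pool.Agent.Lib.MP_7b7e48_nt.MG.C10
import Pool.Agent.Lib.MP_7b7e48_nt.MG.B02

/-!
# C11: the dichotomy (one step of the increment argument)
-/

open Finset

namespace Pool.Agent.Lib.MG

/-- relations between the parameters of the increment argument -/
structure Num (r : ℕ) (K δ ε κ ν γ η z : ℝ) : Prop where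
  hr : 1 ≤ r
  par : Par K δ z
  hε : 0 < ε
  hε1 : ε ≤ 1
  hκ : 0 ≤ κ
  hν : 0 < ν
  hν1 : 2 * ν ≤ 1 / (10 ^ 4 * (r : ℝ) ^ 8)
  hγ : 0 ≤ γ
  hη : 0 ≤ η
  c2 : 4 * ε + Real.sqrt (3 * δ + 8 * (γ + 2 * ε) + 8 * ε) ≤ ν / 2
  c3 : 20 * Real.sqrt ε + 3 * κ * ε ≤ 3 * ν / 8
  c4 : η * Real.exp K ≤ 1 / 100
  c5 : γ + 2 * ε ≤ 1 / 20

/-- the condition of `exists_cell` from the condition of `step` -/
theorem cell_cond {K ε τ ρ0 s : ℝ} {k m : ℕ} (hk : k ≤ m + 1) (hρ0 : 0 < ρ0)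
    (hε : 0 < ε) (hK : 0 < K) (hle : 384 * K / (ρ0 * ε) ≤ 6 / (s * τ))
    (h6 : 0 ≤ Real.log (6 / (s * τ)))
    (hKΓ : Real.log (4 / ε) + 2 * ((m : ℝ) + 1) * Real.log (6 / (s * τ)) ≤ K) :
    Real.log (4 / ε) + 2 * (k : ℝ) * Real.log (384 * K / (ρ0 * ε)) ≤ K := by
  refine le_trans (add_le_add_right ?_ _) hKΓ
  have e1 : Real.log (384 * K / (ρ0 * ε)) ≤ Real.log (6 / (s * τ)) :=
    Real.log_le_log (by positivity) hle
  have e2 : (k : ℝ) ≤ (m : ℝ) + 1 := by exact_mod_cast hk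
  calc 2 * (k : ℝ) * Real.log (384 * K / (ρ0 * ε)) ≤ 2 * (k : ℝ) * Real.log (6 / (s * τ)) := by
        apply mul_le_mul_of_nonneg_left e1 (by positivity)
    _ ≤ 2 * ((m : ℝ) + 1) * Real.log (6 / (s * τ)) := by
        apply mul_le_mul_of_nonneg_right _ h6
        linarith

theorem exp_fifth {δ : ℝ} (h1 : δ ≤ 1 / 10) : Real.exp (2 * δ) ≤ 5 / 4 := by
  have h2 : Real.exp (2 * δ) ≤ Real.exp (1 / 5) := Real.exp_le_exp.mpr (by linarith)
  have h3 := Real.add_one_le_exp (-(1 / 5 : ℝ))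
  have h4 : Real.exp (-(1 / 5 : ℝ)) * Real.exp (1 / 5) = 1 := by rw [← Real.exp_add]; simp
  have h5 := Real.exp_pos (1 / 5 : ℝ)
  nlinarith

variable {G : Type} [AddCommGroup G] [Fintype G] [DecidableEq G]

theorem step {r : ℕ} {K δ ε κ ν γ η z : ℝ} (nm : Num r K δ ε κ ν γ η z) {L A : G → ℝ}
    (hL : PS z L A) (hd : Dbl G) {ψ0 : AddChar G ℂ} {ρ00 : ℝ} {I : Finset G} {M00 : G}
    (hI : ∀ x, ‖ψ0 (x - M00) - 1‖ ≤ 3 * ρ00 → x ∈ I) {Θ : G → ℝ}
    (hΘ : ∀ x, 0 ≤ Θ x ∧ Θ x ≤ 1) {F : Fin r → G → ℝ} (hF : ∀ i x, 0 ≤ F i x ∧ F i x ≤ L x)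
    (hS : ∀ χ : AddChar G ℂ, ‖∑ x, ((∑ i, F i x - (if x ∈ I then L x else 0) : ℝ) : ℂ) * χ x‖ ≤
      η * Fintype.card G) {M0 : G} {Γ : Finset (AddChar G ℂ)} {ρ τ : ℝ}
    (hcell : Good K ε Γ ρ τ) (hρ1 : ρ ≤ 1) (hψ : ψ0 ∈ Γ)
    (hdrift : ‖ψ0 (M0 - M00) - 1‖ ≤ 3 * ρ00 - 2 * ρ)
    (hθ : 2 / 5 ≤ Ex (unif (Bohr Γ ρ)) (fun x => Θ (M0 + x)))
    (hm : 1 - γ ≤ Ex (unif (Bohr Γ ρ)) (fun x => L (M0 + x)))
    (hKΓ : Real.log (4 / ε) + 2 * ((Γ.card : ℝ) + 1) *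
      Real.log (6 / (ε ^ 4 / (2 ^ 20 * K ^ 3) * τ)) ≤ K) :
    Real.exp (-(3 * K)) * (Fintype.card G : ℝ) ^ 2 / (5 * r) ≤ ∑ i, Cnt Θ (F i) ∨
    ∃ (M' : G) (χ : AddChar G ℂ) (ρ' : ℝ),
      Good K ε (insert χ Γ) ρ' (ε ^ 4 / (2 ^ 20 * K ^ 3) * τ) ∧ ρ' ≤ ρ / 4 ∧
      ‖ψ0 (M' - M00) - 1‖ ≤ 3 * ρ00 - 2 * ρ' ∧
      Psi κ Θ L M0 (unif (Bohr Γ ρ)) + ν / 8 ≤ Psi κ Θ L M' (unif (Bohr (insert χ Γ) ρ')) := by
  have par := nm.par
  have hε := nm.hε
  have hε1 := nm.hε1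
  have hK1 := par.hK
  have hK0 : 0 < K := by linarith
  have hτ := hcell.pos
  have hτρ := hcell.le
  have hτ1 : τ ≤ 1 := hτρ.trans hρ1
  set s := ε ^ 4 / (2 ^ 20 * K ^ 3) with hs
  have hs0 : 0 < s := by positivity
  have hs1 : s ≤ 1 := by
    rw [hs, div_le_one (by positivity)]
    have h1 : ε ^ 4 ≤ 1 := pow_le_one₀ hε.le hε1
    have h2 : (1 : ℝ) ≤ K ^ 3 := one_le_pow₀ hK1
    nlinarith
  have hlog6 : 0 ≤ Real.log (6 / (s * τ)) := by
    apply Real.log_nonneg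
    rw [le_div_iff₀ (by positivity)]
    have : s * τ ≤ 1 := mul_le_one₀ hs1 hτ.le hτ1
    linarith
  -- the narrower cells
  obtain ⟨τ1, hτ1def⟩ : ∃ τ1 : ℝ, τ1 = τ / 2 * ε / (64 * K) := ⟨_, rfl⟩
  obtain ⟨τ2, hτ2def⟩ : ∃ τ2 : ℝ, τ2 = τ1 / 2 * ε / (64 * K) := ⟨_, rfl⟩
  have hτ10 : 0 < τ1 := by rw [hτ1def]; positivity
  have hτ20 : 0 < τ2 := by rw [hτ2def]; positivity
  have hfrac : ∀ t : ℝ, 0 < t → t / 2 * ε / (64 * K) ≤ t / 128 := by
    intro t ht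
    rw [div_le_iff₀ (by positivity)]
    have h1 : t / 2 * ε ≤ t / 2 := mul_le_of_le_one_right (by positivity) hε1
    have h2 : t / 128 * 64 ≤ t / 128 * (64 * K) := by
      apply mul_le_mul_of_nonneg_left _ (by positivity)
      linarith
    linarith
  have hτ1le : τ1 ≤ τ / 128 := by rw [hτ1def]; exact hfrac τ hτ
  have hτ2le : τ2 ≤ τ1 / 128 := by rw [hτ2def]; exact hfrac τ1 hτ10
  have hKs : K * s = ε ^ 4 / (2 ^ 20 * K ^ 2) := by
    rw [hs]; field_simp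
  have hc1 : 384 * K / (τ / 2 * ε) ≤ 6 / (s * τ) := by
    rw [div_le_div_iff₀ (by positivity) (by positivity)]
    have h1 : 384 * K * (s * τ) = 384 * (K * s) * τ := by ring
    rw [h1, hKs]
    have h2 : 384 * (ε ^ 4 / (2 ^ 20 * K ^ 2)) ≤ 3 * ε := by
      rw [mul_div_assoc', div_le_iff₀ (by positivity)]
      have h3 : ε ^ 4 ≤ ε := pow_le_of_le_one hε.le hε1 (by norm_num)
      have h4 : (1 : ℝ) ≤ K ^ 2 := one_le_pow₀ hK1
      nlinarith
    nlinarith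
  have hc2 : 384 * K / (τ1 / 2 * ε) ≤ 6 / (s * τ) := by
    rw [div_le_div_iff₀ (by positivity) (by positivity)]
    have h1 : 384 * K * (s * τ) = 384 * (K * s) * τ := by ring
    rw [h1, hKs, hτ1def]
    have h2 : 6 * (τ / 2 * ε / (64 * K) / 2 * ε) = (6 * ε ^ 2 / (256 * K)) * τ := by
      field_simp; ring
    rw [h2]
    apply mul_le_mul_of_nonneg_right _ hτ.le
    rw [mul_div_assoc', div_le_div_iff₀ (by positivity) (by positivity)]
    have h3 : ε ^ 4 ≤ ε ^ 2 := pow_le_pow_of_le_one hε.le hε1 (by norm_num)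
    have h4 : K ≤ K ^ 2 := by nlinarith
    have h5 : 0 ≤ ε ^ 2 := by positivity
    calc 384 * ε ^ 4 * (256 * K) = (384 * 256) * (ε ^ 4 * K) := by ring
      _ ≤ (384 * 256) * (ε ^ 2 * K ^ 2) := by
          apply mul_le_mul_of_nonneg_left _ (by norm_num)
          exact mul_le_mul h3 h4 hK0.le h5
      _ ≤ (6 * 2 ^ 20) * (ε ^ 2 * K ^ 2) := by
          apply mul_le_mul_of_nonneg_right (by norm_num) (by positivity)
      _ = 6 * ε ^ 2 * (2 ^ 20 * K ^ 2) := by ring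
  have hc3 : 384 * K / (τ2 * ε * ε) ≤ 6 / (s * τ) := by
    apply le_of_eq
    rw [hτ2def, hτ1def, hs]
    field_simp
    ring
  obtain ⟨ρ1, hρ1a, hρ1b, g1⟩ := exists_cell Γ (show 0 < τ / 2 by positivity) (by linarith) hε hε1
    hK1 (cell_cond (m := Γ.card) (by omega) (by positivity) hε hK0 hc1 hlog6 hKΓ)
  rw [← hτ1def] at g1
  obtain ⟨ρ2, hρ2a, hρ2b, g2⟩ := exists_cell Γ (show 0 < τ1 / 2 by positivity) (by linarith) hε hε1
    hK1 (cell_cond (m := Γ.card) (by omega) (by positivity) hε hK0 hc2 hlog6 hKΓ)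
  rw [← hτ2def] at g2
  have h3c : ∀ χ : AddChar G ℂ, ∃ ρ3 : ℝ, τ2 * ε / 2 ≤ ρ3 ∧ ρ3 ≤ τ2 * ε ∧
      Good K ε (insert χ Γ) ρ3 (τ2 * ε * ε / (64 * K)) := by
    intro χ
    exact exists_cell (insert χ Γ) (show 0 < τ2 * ε by positivity)
      (mul_le_one₀ (by linarith) hε.le hε1) hε hε1 hK1
      (cell_cond (m := Γ.card) (Finset.card_insert_le χ Γ) (by positivity) hε hK0 hc3 hlog6 hKΓ)
  choose ρ3 hρ3a hρ3b g3 using h3c
  have hτ3 : τ2 * ε * ε / (64 * K) = s * τ := by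
    rw [hτ2def, hτ1def, hs]
    field_simp
    ring
  have hτ2ε : τ2 * ε ≤ τ2 := mul_le_of_le_one_right hτ20.le hε1
  have hτ2ε' : τ2 * ε ≤ ε := mul_le_of_le_one_left hε.le (by linarith)
  -- weights
  set D0 := unif (Bohr Γ ρ) with hD0
  set D1 := unif (Bohr Γ ρ1) with hD1
  set D2 := unif (Bohr Γ ρ2) with hD2
  set D3 : AddChar G ℂ → G → ℝ := fun χ => unif (Bohr (insert χ Γ) (ρ3 χ)) with hD3
  have s0 := hcell.smooth
  have s1 := g1.smooth
  have s2 := g2.smooth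
  have m1 : ∀ b, D1 b ≠ 0 → b ∈ Bohr Γ ρ1 := fun b hb => unif_ne_zero hb
  have m2 : ∀ b, D2 b ≠ 0 → b ∈ Bohr Γ ρ2 := fun b hb => unif_ne_zero hb
  have m3 : ∀ χ b, D3 χ b ≠ 0 → b ∈ Bohr (insert χ Γ) (ρ3 χ) := fun χ b hb => unif_ne_zero hb
  have h01 : ∀ b, D1 b ≠ 0 → -b ∈ (↑(Bohr Γ τ) : Set G) := fun b hb => by
    have := neg_mem_bohr (bohr_mono (le_refl Γ) (show ρ1 ≤ τ by linarith) (m1 b hb))
    exact_mod_cast this
  have h12 : ∀ b, D2 b ≠ 0 → b ∈ (↑(Bohr Γ τ1) : Set G) ∧ -b ∈ (↑(Bohr Γ τ1) : Set G) :=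
    fun b hb => by
      have h1 := bohr_mono (le_refl Γ) (show ρ2 ≤ τ1 by linarith) (m2 b hb)
      exact ⟨by exact_mod_cast h1, by exact_mod_cast neg_mem_bohr h1⟩
  have h12' : ∀ b b', D2 b ≠ 0 → D2 b' ≠ 0 → b' - b ∈ (↑(Bohr Γ τ1) : Set G) :=
    fun b b' hb hb' => by
      have h1 := add_mem_bohr (m2 b' hb') (neg_mem_bohr (m2 b hb))
      rw [← sub_eq_add_neg] at h1
      have h2 := bohr_mono (le_refl Γ) (show ρ2 + ρ2 ≤ τ1 by linarith) h1
      exact_mod_cast h2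
  have h23 : ∀ χ c, D3 χ c ≠ 0 → -c ∈ (↑(Bohr Γ τ2) : Set G) ∧ ‖χ c - 1‖ ≤ ε := fun χ c hc => by
    have h1 := m3 χ c hc
    have h2 := bohr_mono (Finset.subset_insert χ Γ) (show ρ3 χ ≤ τ2 by linarith [hρ3b χ]) h1
    refine ⟨by exact_mod_cast neg_mem_bohr h2, ?_⟩
    exact (mem_bohr.mp h1 χ (Finset.mem_insert_self χ Γ)).trans (by linarith [hρ3b χ])
  have h13 : ∀ χ c, D3 χ c ≠ 0 → -c ∈ (↑(Bohr Γ τ1) : Set G) := fun χ c hc => by
    have h2 := bohr_mono (Finset.subset_insert χ Γ) (show ρ3 χ ≤ τ1 by linarith [hρ3b χ]) (m3 χ c hc)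
    exact_mod_cast neg_mem_bohr h2
  have hL' := hL.translate M0
  have hΘ' : ∀ x, 0 ≤ Θ (M0 + x) ∧ Θ (M0 + x) ≤ 1 := fun x => hΘ _
  have p0 : Prob D0 := s0.pw.prob
  have p1 : Prob D1 := s1.pw.prob
  by_cases hbox : ν / 2 ≤ Ex5 D0 D1 (fun M a a' b b' =>
      Pf (fun x => Θ (M0 + x) - Ex D0 (fun x => Θ (M0 + x))) M a a' b b')
  · -- increment
    right
    obtain ⟨M, a, χ, hM, ha, hPsi⟩ := increment hL' par hε.le hε1 nm.hκ s0 s1 s2 D3
      (fun χ => (g3 χ).smooth.pw.prob) h01 h12 h12' h23 h13 hΘ' hbox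
    refine ⟨M0 + (M + a), χ, ρ3 χ, by rw [← hτ3]; exact g3 χ, ?_, ?_, ?_⟩
    · linarith [hρ3b χ]
    · have h1 : M0 + (M + a) - M00 = (M0 - M00) + M + a := by abel
      rw [h1]
      have h2 := norm_char_add ψ0 (M0 - M00 + M) a
      have h3 := norm_char_add ψ0 (M0 - M00) M
      have h4 := mem_bohr.mp (unif_ne_zero hM) ψ0 hψ
      have h5 := mem_bohr.mp (m1 a ha) ψ0 hψ
      linarith [hρ3b χ]
    · have e1 : Psi κ (fun x => Θ (M0 + x)) (fun x => L (M0 + x)) 0 D0 = Psi κ Θ L M0 D0 := by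
        unfold Psi
        simp only [zero_add]
      have e2 : Psi κ (fun x => Θ (M0 + x)) (fun x => L (M0 + x)) (M + a) (D3 χ) =
          Psi κ Θ L (M0 + (M + a)) (D3 χ) := by
        unfold Psi
        simp only [add_assoc]
      rw [e1, e2] at hPsi
      have := nm.c3
      linarith
  · -- count
    left
    push Not at hbox
    -- lower bound for the doubly smoothed mass
    have he := exp_fifth par.hδ1
    have hmass : 1 - (γ + 2 * ε) ≤ Ex D0 (fun M => Ex D1 fun a => L (M0 + (M + (a + a)))) := by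
      rw [Ex_comm]
      have h1 : Ex D1 (fun _ => 1 - (γ + 2 * ε)) ≤
          Ex D1 (fun a => Ex D0 fun M => L (M0 + (M + (a + a)))) := by
        apply Ex_le_supp p1
        intro a ha
        have hmem : -(a + a) ∈ (↑(Bohr Γ τ) : Set G) := by
          have h2 := add_mem_bohr (m1 a ha) (m1 a ha)
          have h3 := neg_mem_bohr (bohr_mono (le_refl Γ) (show ρ1 + ρ1 ≤ τ by linarith) h2)
          exact_mod_cast h3
        have h2 := s0.shift_L hL' par hε.le hmem 0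
        simp only [sub_neg_eq_add, add_zero] at h2
        have h3 := (abs_le.mp h2).1
        have h4 : ε * Real.exp (2 * δ) ≤ 2 * ε := by nlinarith
        linarith
      rw [Ex_const p1] at h1
      exact h1
    have hγ1 : γ + 2 * ε ≤ 1 / 20 := nm.c5
    have hom := omega_bar hL' par hd hε.le (show 0 ≤ γ + 2 * ε by linarith [nm.hγ])
      (by linarith) s0 s1 s2.pw (fun u hu => by
        have h1 := bohr_mono (le_refl Γ) (show ρ2 ≤ τ by linarith) (m2 u hu)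
        exact ⟨by exact_mod_cast h1, (h12 u hu).2⟩)
      (g := fun x => Θ (M0 + x) - Ex D0 (fun x => Θ (M0 + x))) (fun x => by
        have h1 := hΘ' x
        have h2 : 0 ≤ Ex D0 (fun x => Θ (M0 + x)) := Ex_nonneg p0 (fun x => (hΘ' x).1)
        have h3 : Ex D0 (fun x => Θ (M0 + x)) ≤ 1 := Ex_le_const p0 (fun x => (hΘ' x).2)
        rw [abs_le]
        constructor <;> linarith) hmass
    have hc2' := nm.c2
    have hPO : Ex5 D0 D1 (fun M a a' b b' =>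
        Pf (fun x => Θ (M0 + x) - Ex D0 (fun x => Θ (M0 + x))) M a a' b b' *
          Om (fun x => L (M0 + x)) M a a' b b') ≤ ν := by
      have := (abs_le.mp hom).2
      linarith
    have hg1 : ∀ x, |Θ (M0 + x) - Ex D0 (fun x => Θ (M0 + x))| ≤ 1 := fun x => by
      have h1 := hΘ' x
      have h2 : 0 ≤ Ex D0 (fun x => Θ (M0 + x)) := Ex_nonneg p0 (fun x => (hΘ' x).1)
      have h3 : Ex D0 (fun x => Θ (M0 + x)) ≤ 1 := Ex_le_const p0 (fun x => (hΘ' x).2)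
      rw [abs_le]
      constructor <;> linarith
    have hrpos : (1 : ℝ) ≤ r := by exact_mod_cast nm.hr
    have herr : ∀ i, |Ex D0 (fun M => Ex D1 fun a => Ex D1 fun b =>
        (Θ (M0 + (M + a + b)) - Ex D0 (fun x => Θ (M0 + x))) *
          (F i (M0 + (M + (a + a))) * F i (M0 + (M + (b + b)))))| ≤ 1 / (10 * (r : ℝ) ^ 2) := by
      intro i
      have h1 := cs_twice (D0 := D0) (D1 := D1) (F := fun x => F i (M0 + x))
        (L := fun x => L (M0 + x)) (g := fun x => Θ (M0 + x) - Ex D0 (fun x => Θ (M0 + x)))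
        p0 p1 (fun x => (hF i _).1) (fun x => (hF i _).2) hg1 (m1 := Real.exp (2 * δ))
        (m2 := Real.exp (2 * δ)) (by
          have := mass1d hL' par hd s0.pw s1.pw 0
          simpa only [add_zero] using this) (mass2 hL' par hd s0.pw s1.pw s1.pw)
      set T := Ex D0 (fun M => Ex D1 fun a => Ex D1 fun b =>
        (Θ (M0 + (M + a + b)) - Ex D0 (fun x => Θ (M0 + x))) *
          (F i (M0 + (M + (a + a))) * F i (M0 + (M + (b + b))))) with hT
      have hep := Real.exp_pos (2 * δ)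
      have h2 : T ^ 4 ≤ 2 * ν := by
        refine h1.trans ?_
        have h3 : Real.exp (2 * δ) ^ 2 * Real.exp (2 * δ) ≤ 2 := by
          have : Real.exp (2 * δ) ^ 3 ≤ (5 / 4) ^ 3 := pow_le_pow_left₀ hep.le he 3
          calc Real.exp (2 * δ) ^ 2 * Real.exp (2 * δ) = Real.exp (2 * δ) ^ 3 := by ring
            _ ≤ (5 / 4) ^ 3 := this
            _ ≤ 2 := by norm_num
        calc _ ≤ Real.exp (2 * δ) ^ 2 * Real.exp (2 * δ) * ν :=
              mul_le_mul_of_nonneg_left hPO (by positivity)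
          _ ≤ 2 * ν := mul_le_mul_of_nonneg_right h3 nm.hν.le
      have h3 : |T| ^ 4 ≤ (1 / (10 * (r : ℝ) ^ 2)) ^ 4 := by
        have h4 : |T| ^ 4 = T ^ 4 := by
          rw [show (4 : ℕ) = 2 * 2 by norm_num, pow_mul, pow_mul, sq_abs]
        rw [h4]
        refine (h2.trans nm.hν1).trans (le_of_eq ?_)
        field_simp
      exact (pow_le_pow_iff_left₀ (abs_nonneg _) (by positivity) (by norm_num)).mp h3
    -- the mass of the `F i`
    have hFm : 9 / 10 ≤ Ex D0 (fun M => Ex D1 fun a => ∑ i, F i (M0 + (M + (a + a)))) := by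
      have h1 := fourier_mass hd nm.hη s0.pw s1.pw hS M0
      have h2 : Ex D0 (fun M => Ex D1 fun a =>
          (∑ i, F i (M0 + M + (a + a)) - (if M0 + M + (a + a) ∈ I then L (M0 + M + (a + a))
            else 0))) = Ex D0 (fun M => Ex D1 fun a =>
          (∑ i, F i (M0 + (M + (a + a))) - L (M0 + (M + (a + a))))) := by
        apply Ex_congr_supp
        intro M hM
        apply Ex_congr_supp
        intro a ha
        have hmem : M0 + M + (a + a) ∈ I := by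
          apply hI
          have e1 : M0 + M + (a + a) - M00 = (M0 - M00) + M + (a + a) := by abel
          rw [e1]
          have h2 := norm_char_add ψ0 (M0 - M00 + M) (a + a)
          have h3 := norm_char_add ψ0 (M0 - M00) M
          have h3' := norm_char_add ψ0 a a
          have h4 := mem_bohr.mp (unif_ne_zero hM) ψ0 hψ
          have h5 := mem_bohr.mp (m1 a ha) ψ0 hψ
          linarith
        rw [if_pos hmem, add_assoc]
      rw [h2] at h1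
      have h3 : Ex D0 (fun M => Ex D1 fun a =>
          (∑ i, F i (M0 + (M + (a + a))) - L (M0 + (M + (a + a))))) =
          Ex D0 (fun M => Ex D1 fun a => ∑ i, F i (M0 + (M + (a + a)))) -
          Ex D0 (fun M => Ex D1 fun a => L (M0 + (M + (a + a)))) := by
        rw [← Ex_sub]
        exact Ex_congr fun M => Ex_sub _ _
      rw [h3] at h1
      have h4 := (abs_le.mp h1).1
      have := nm.c4
      linarith
    have hcm := count_main nm.hr p0 p1 (Θ := fun x => Θ (M0 + x))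
      (F := fun i x => F i (M0 + x)) hθ hFm herr
    have hG := card_pos' (G := G)
    have hcl : ∀ i, Ex D0 (fun M => Ex D1 fun a => Ex D1 fun b =>
        Θ (M0 + (M + a + b)) * (F i (M0 + (M + (a + a))) * F i (M0 + (M + (b + b))))) *
          (Fintype.card G : ℝ) ^ 2 ≤ Real.exp (3 * K) * Cnt Θ (F i) := by
      intro i
      have h1 := cnt_lower (D0 := D0) (D1 := D1) (Θ := fun x => Θ (M0 + x))
        (F := fun x => F i (M0 + x)) s0.pw s1.pw (fun x => (hΘ' x).1) (fun x => (hF i _).1)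
      rw [cnt_translate] at h1
      exact h1
    have hsum : (∑ i, Ex D0 (fun M => Ex D1 fun a => Ex D1 fun b =>
        Θ (M0 + (M + a + b)) * (F i (M0 + (M + (a + a))) * F i (M0 + (M + (b + b)))))) *
          (Fintype.card G : ℝ) ^ 2 ≤ Real.exp (3 * K) * ∑ i, Cnt Θ (F i) := by
      rw [Finset.sum_mul, Finset.mul_sum]
      exact Finset.sum_le_sum fun i _ => hcl i
    have hfin : 1 / (5 * (r : ℝ)) * (Fintype.card G : ℝ) ^ 2 ≤
        Real.exp (3 * K) * ∑ i, Cnt Θ (F i) :=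
      (mul_le_mul_of_nonneg_right hcm (by positivity)).trans hsum
    have hexp : Real.exp (-(3 * K)) * Real.exp (3 * K) = 1 := by rw [← Real.exp_add]; simp
    calc Real.exp (-(3 * K)) * (Fintype.card G : ℝ) ^ 2 / (5 * r) =
          Real.exp (-(3 * K)) * (1 / (5 * (r : ℝ)) * (Fintype.card G : ℝ) ^ 2) := by ring
      _ ≤ Real.exp (-(3 * K)) * (Real.exp (3 * K) * ∑ i, Cnt Θ (F i)) :=
          mul_le_mul_of_nonneg_left hfin (Real.exp_pos _).le
      _ = ∑ i, Cnt Θ (F i) := by rw [← mul_assoc, hexp, one_mul]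

end Pool.Agent.Lib.MG
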