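import Pool.Agent.Lib.MP_7b7e48_nt.MG.C11

/-!
# C12: the increment argument
-/

open Finset

namespace Pool.Agent.Lib.MG

theorem exp_two_delta {δ : ℝ} (h0 : 0 ≤ δ) (h1 : δ ≤ 1 / 10) : Real.exp (2 * δ) ≤ 1 + 3 * δ := by
  have h2 : 0 ≤ 1 - 2 * δ := by linarith
  have h3 := Real.add_one_le_exp (-(2 * δ))
  have h4 : Real.exp (-(2 * δ)) * Real.exp (2 * δ) = 1 := by rw [← Real.exp_add]; simp
  have h5 := Real.exp_pos (2 * δ)
  have h6 : (1 - 2 * δ) * Real.exp (2 * δ) ≤ 1 := by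
    calc (1 - 2 * δ) * Real.exp (2 * δ) ≤ Real.exp (-(2 * δ)) * Real.exp (2 * δ) :=
          mul_le_mul_of_nonneg_right (by linarith) h5.le
      _ = 1 := h4
  have h7 : Real.exp (2 * δ) ≤ 1 / (1 - 2 * δ) := by
    rw [le_div_iff₀ (by linarith)]
    linarith
  refine h7.trans ?_
  rw [div_le_iff₀ (by linarith)]
  nlinarith

variable {G : Type} [AddCommGroup G] [Fintype G] [DecidableEq G]

theorem cell_bounds {K δ ε κ z : ℝ} (par : Par K δ z) (hε : 0 < ε) (hεδ : ε ≤ δ) (hκ0 : 0 < κ)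
    (hκδ : κ * (5 * δ) ≤ 1 / 50) {L A : G → ℝ} (hL : PS z L A) {Θ : G → ℝ}
    (hΘ : ∀ x, 0 ≤ Θ x ∧ Θ x ≤ 1) {Γ : Finset (AddChar G ℂ)} {ρ τ : ℝ} (hcell : Good K ε Γ ρ τ)
    (M0 : G) (hΨ : κ + 9 / 50 ≤ Psi κ Θ L M0 (unif (Bohr Γ ρ))) :
    2 / 5 ≤ Ex (unif (Bohr Γ ρ)) (fun x => Θ (M0 + x)) ∧
    1 - 1 / κ ≤ Ex (unif (Bohr Γ ρ)) (fun x => L (M0 + x)) ∧
    Psi κ Θ L M0 (unif (Bohr Γ ρ)) ≤ 1 + κ + 1 / 50 := by
  have hδ := par.hδ
  have hδ1 := par.hδ1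
  have hm := mass_upper hL par hε.le hcell.smooth hcell.pw
    (fun t ht => by
      have := neg_mem_bohr (unif_ne_zero ht)
      exact_mod_cast this) M0
  set μ := Ex (unif (Bohr Γ ρ)) (fun x => L (M0 + x)) with hμ
  set θ := Ex (unif (Bohr Γ ρ)) (fun x => Θ (M0 + x)) with hθ
  have hpr : Prob (unif (Bohr Γ ρ)) := hcell.smooth.pw.prob
  have hθ0 : 0 ≤ θ := Ex_nonneg hpr (fun x => (hΘ _).1)
  have hθ1 : θ ≤ 1 := Ex_le_const hpr (fun x => (hΘ _).2)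
  have he := exp_two_delta hδ.le hδ1
  have hm2 : μ ≤ 1 + 5 * δ := by
    refine hm.trans ?_
    calc (1 + ε) * Real.exp (2 * δ) ≤ (1 + δ) * (1 + 3 * δ) :=
          mul_le_mul (by linarith) he (Real.exp_pos _).le (by linarith)
      _ ≤ 1 + 5 * δ := by nlinarith
  have hκμ : κ * μ ≤ κ + 1 / 50 := by
    calc κ * μ ≤ κ * (1 + 5 * δ) := mul_le_mul_of_nonneg_left hm2 hκ0.le
      _ = κ + κ * (5 * δ) := by ring
      _ ≤ κ + 1 / 50 := by linarith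
  have hPsi : Psi κ Θ L M0 (unif (Bohr Γ ρ)) = θ ^ 2 + κ * μ := rfl
  rw [hPsi] at hΨ ⊢
  refine ⟨?_, ?_, ?_⟩
  · by_contra hc
    push Not at hc
    have : θ ^ 2 < (2 / 5) ^ 2 := by nlinarith
    linarith
  · have h1 : κ - 1 ≤ κ * μ := by nlinarith
    have h2 : κ * (1 - 1 / κ) = κ - 1 := by field_simp
    by_contra hc
    push Not at hc
    have := mul_lt_mul_of_pos_left hc hκ0
    linarith
  · nlinarith

theorem iterate {r : ℕ} {K δ ε κ ν γ η z : ℝ} (nm : Num r K δ ε κ ν γ η z) (hεδ : ε ≤ δ)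
    (hκ0 : 0 < κ) (hγκ : 1 / κ ≤ γ) (hκδ : κ * (5 * δ) ≤ 1 / 50)
    {L A : G → ℝ}
    (hL : PS z L A) (hd : Dbl G) {ψ0 : AddChar G ℂ} {ρ00 : ℝ} {I : Finset G} {M00 : G}
    (hI : ∀ x, ‖ψ0 (x - M00) - 1‖ ≤ 3 * ρ00 → x ∈ I) {Θ : G → ℝ}
    (hΘ : ∀ x, 0 ≤ Θ x ∧ Θ x ≤ 1) {F : Fin r → G → ℝ} (hF : ∀ i x, 0 ≤ F i x ∧ F i x ≤ L x)
    (hS : ∀ χ : AddChar G ℂ, ‖∑ x, ((∑ i, F i x - (if x ∈ I then L x else 0) : ℝ) : ℂ) * χ x‖ ≤
      η * Fintype.card G) {ρ τ0 : ℝ}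
    (hcell : Good K ε {ψ0} ρ τ0) (hρ : ρ ≤ ρ00) (hρ1 : ρ ≤ 1)
    (hΨ : κ + 9 / 50 ≤ Psi κ Θ L M00 (unif (Bohr {ψ0} ρ))) {nmax : ℕ}
    (hn : 1 ≤ nmax * (ν / 8))
    (hK : Real.log (4 / ε) + 2 * ((nmax : ℝ) + 2) *
      Real.log (6 / ((ε ^ 4 / (2 ^ 20 * K ^ 3)) ^ (nmax + 1) * τ0)) ≤ K) :
    Real.exp (-(3 * K)) * (Fintype.card G : ℝ) ^ 2 / (5 * r) ≤ ∑ i, Cnt Θ (F i) := by
  by_contra hgoal
  have hε := nm.hε
  have hε1 := nm.hε1
  have hK1 := nm.par.hK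
  have hν := nm.hν
  set s := ε ^ 4 / (2 ^ 20 * K ^ 3) with hs
  have hs0 : 0 < s := by positivity
  have hs1 : s ≤ 1 := by
    rw [hs, div_le_one (by positivity)]
    have h1 : ε ^ 4 ≤ 1 := pow_le_one₀ hε.le hε1
    have h2 : (1 : ℝ) ≤ K ^ 3 := one_le_pow₀ hK1
    nlinarith
  have hτ0 : 0 < τ0 := hcell.pos
  have key : ∀ n : ℕ, n ≤ nmax → ∃ (M0 : G) (Γ : Finset (AddChar G ℂ)) (ρ' τ : ℝ),
      Good K ε Γ ρ' τ ∧ ρ' ≤ 1 ∧ ψ0 ∈ Γ ∧ Γ.card ≤ n + 1 ∧ s ^ n * τ0 ≤ τ ∧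
      ‖ψ0 (M0 - M00) - 1‖ ≤ 3 * ρ00 - 2 * ρ' ∧
      κ + 9 / 50 + n * (ν / 8) ≤ Psi κ Θ L M0 (unif (Bohr Γ ρ')) := by
    intro n
    induction n with
    | zero =>
      intro _
      refine ⟨M00, {ψ0}, ρ, τ0, hcell, hρ1, Finset.mem_singleton_self _, by simp, by simp, ?_, ?_⟩
      · rw [sub_self, AddChar.map_zero_eq_one, sub_self, norm_zero]
        have := hcell.le
        linarith
      · simpa using hΨ
    | succ n ih =>
      intro hn'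
      obtain ⟨M0, Γ, ρ', τ, hc, hρ', hψ, hcard, hτ, hdrift, hP⟩ := ih (by omega)
      have hP0 : κ + 9 / 50 ≤ Psi κ Θ L M0 (unif (Bohr Γ ρ')) := by
        have : 0 ≤ (n : ℝ) * (ν / 8) := by positivity
        linarith
      obtain ⟨hθ, hm, _⟩ := cell_bounds nm.par hε hεδ hκ0 hκδ hL hΘ hc M0 hP0
      have hτpos := hc.pos
      have hKΓ : Real.log (4 / ε) + 2 * ((Γ.card : ℝ) + 1) * Real.log (6 / (s * τ)) ≤ K := by
        refine le_trans (add_le_add_right ?_ _) hK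
        have hτ1 : τ ≤ 1 := hc.le.trans hρ'
        have e1 : s ^ (nmax + 1) * τ0 ≤ s * τ := by
          calc s ^ (nmax + 1) * τ0 = s * (s ^ nmax * τ0) := by ring
            _ ≤ s * (s ^ n * τ0) := by
                apply mul_le_mul_of_nonneg_left _ hs0.le
                apply mul_le_mul_of_nonneg_right _ hτ0.le
                exact pow_le_pow_of_le_one hs0.le hs1 (by omega)
            _ ≤ s * τ := mul_le_mul_of_nonneg_left hτ hs0.le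
        have e2 : Real.log (6 / (s * τ)) ≤ Real.log (6 / (s ^ (nmax + 1) * τ0)) := by
          apply Real.log_le_log (by positivity)
          apply div_le_div_of_nonneg_left (by norm_num) (by positivity) e1
        have e3 : 0 ≤ Real.log (6 / (s * τ)) := by
          apply Real.log_nonneg
          rw [le_div_iff₀ (by positivity)]
          have : s * τ ≤ 1 := mul_le_one₀ hs1 hτpos.le hτ1
          linarith
        have e4 : (Γ.card : ℝ) + 1 ≤ (nmax : ℝ) + 2 := by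
          have : Γ.card + 1 ≤ nmax + 2 := by omega
          exact_mod_cast this
        calc 2 * ((Γ.card : ℝ) + 1) * Real.log (6 / (s * τ))
            ≤ 2 * ((nmax : ℝ) + 2) * Real.log (6 / (s * τ)) := by
              apply mul_le_mul_of_nonneg_right _ e3
              linarith
          _ ≤ 2 * ((nmax : ℝ) + 2) * Real.log (6 / (s ^ (nmax + 1) * τ0)) := by
              apply mul_le_mul_of_nonneg_left e2 (by positivity)
      rcases step nm hL hd hI hΘ hF hS hc hρ' hψ hdrift hθ (by linarith) hKΓ with h | h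
      · exact absurd h hgoal
      · obtain ⟨M', χ, ρ'', hc', hρ'', hdrift', hP'⟩ := h
        have hρ0 : 0 ≤ ρ' := hτpos.le.trans hc.le
        refine ⟨M', insert χ Γ, ρ'', s * τ, hc', by linarith, Finset.mem_insert_of_mem hψ, ?_, ?_,
          hdrift', ?_⟩
        · have := Finset.card_insert_le χ Γ
          omega
        · calc s ^ (n + 1) * τ0 = s * (s ^ n * τ0) := by ring
            _ ≤ s * τ := mul_le_mul_of_nonneg_left hτ hs0.le
        · push_cast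
          linarith
  obtain ⟨M0, Γ, ρ', τ, hc, hρ', hψ, hcard, hτ, hdrift, hP⟩ := key nmax le_rfl
  have hP0 : κ + 9 / 50 ≤ Psi κ Θ L M0 (unif (Bohr Γ ρ')) := by
    have : 0 ≤ (nmax : ℝ) * (ν / 8) := by positivity
    linarith
  obtain ⟨_, _, h3⟩ := cell_bounds nm.par hε hεδ hκ0 hκδ hL hΘ hc M0 hP0
  linarith

end Pool.Agent.Lib.MG
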