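import Pool.Agent.Lib.MP_7b7e48_nt.MG.C12

/-!
# C13: the theorem in the model group

Parameters: `R = 20000 r ^ 8`, `ν = 1 / R`, `κ = 1000 R ^ 2`, `γ = 1 / κ`, `δ = 1 / (250000 R ^ 2)`,
`ε = 1 / (10 ^ 5 R ^ 3)`, `K = R ^ 3`, `nmax = 8 R`.
-/

open Finset

namespace Pool.Agent.Lib.MG

/-- `log R` is small compared with `R` -/
theorem log_le_small {R : ℝ} (hR : 5 * 10 ^ 6 ≤ R) : 8000 * Real.log R ≤ R := by
  have hR0 : 0 < R := by linarith
  -- log R = 4 log (R^(1/4)) ≤ 4 R^(1/4)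
  have h1 : Real.log R = 4 * Real.log (Real.sqrt (Real.sqrt R)) := by
    rw [Real.log_sqrt (Real.sqrt_nonneg _), Real.log_sqrt hR0.le]
    ring
  set t := Real.sqrt (Real.sqrt R) with ht
  have ht4 : t ^ 4 = R := by
    have h2 : t ^ 2 = Real.sqrt R := Real.sq_sqrt (Real.sqrt_nonneg _)
    calc t ^ 4 = (t ^ 2) ^ 2 := by ring
      _ = Real.sqrt R ^ 2 := by rw [h2]
      _ = R := Real.sq_sqrt hR0.le
  have ht0 : 0 ≤ t := Real.sqrt_nonneg _
  have ht40 : 40 ≤ t := by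
    by_contra hc
    push Not at hc
    have : t ^ 4 < 40 ^ 4 := by gcongr
    rw [ht4] at this
    norm_num at this
    linarith
  have ht00 : 0 < t := by linarith
  have h3 : Real.log t ≤ t / 2 := by
    have h4 : Real.log t = 2 * Real.log (Real.sqrt t) := by
      rw [Real.log_sqrt ht0]; ring
    have h5 : Real.log (Real.sqrt t) ≤ Real.sqrt t - 1 :=
      Real.log_le_sub_one_of_pos (Real.sqrt_pos.mpr ht00)
    have h6 : Real.sqrt t ≤ t / 4 := by
      rw [Real.sqrt_le_left (by linarith)]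
      nlinarith
    linarith
  rw [h1, ← ht4]
  have h7 : (64000 : ℝ) ≤ t ^ 3 := by
    calc (64000 : ℝ) = 40 ^ 3 := by norm_num
      _ ≤ t ^ 3 := by gcongr
  calc 8000 * (4 * Real.log t) ≤ 8000 * (4 * (t / 2)) := by gcongr
    _ = 16000 * t := by ring
    _ ≤ t ^ 3 * t := by
        apply mul_le_mul_of_nonneg_right _ ht0
        linarith
    _ = t ^ 4 := by ring

theorem lworld (r : ℕ) (hr : 2 ≤ r) (z : ℝ) (hz : (20000 * (r : ℝ) ^ 8) ^ 13 ≤ z) :
    ∃ c η ζ : ℝ, 0 < c ∧ 0 < η ∧ 0 < ζ ∧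
    ∀ (G : Type) [AddCommGroup G] [Fintype G] [DecidableEq G] (L A : G → ℝ), PS z L A → Dbl G →
    ∀ (ψ0 : AddChar G ℂ) (I : Finset G) (Θ : G → ℝ), (∀ x, 0 ≤ Θ x ∧ Θ x ≤ 1) →
    ∀ (F : Fin r → G → ℝ), (∀ i x, 0 ≤ F i x ∧ F i x ≤ L x) →
    (∀ χ : AddChar G ℂ, ‖∑ x, ((∑ i, F i x - (if x ∈ I then L x else 0) : ℝ) : ℂ) * χ x‖ ≤
      η * Fintype.card G) →
    (∀ ρ : ℝ, 1 / 2000 ≤ ρ → ρ ≤ 1 / 1000 → ∃ M00 : G,
      (∀ x, ‖ψ0 (x - M00) - 1‖ ≤ 3 / 1000 → x ∈ I) ∧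
      9 / 20 ≤ Ex (unif (Bohr {ψ0} ρ)) (fun x => Θ (M00 + x)) ∧
      1 - ζ ≤ Ex (unif (Bohr {ψ0} ρ)) (fun x => L (M00 + x))) →
    c * (Fintype.card G : ℝ) ^ 2 ≤ ∑ i, Cnt Θ (F i) := by
  have hr' : (2 : ℝ) ≤ r := by exact_mod_cast hr
  obtain ⟨R, hRdef⟩ : ∃ R : ℝ, R = 20000 * (r : ℝ) ^ 8 := ⟨_, rfl⟩
  rw [← hRdef] at hz
  have hR : 5 * 10 ^ 6 ≤ R := by
    rw [hRdef]
    have : (2 : ℝ) ^ 8 ≤ (r : ℝ) ^ 8 := pow_le_pow_left₀ (by norm_num) hr' 8
    norm_num at this ⊢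
    linarith
  have hR0 : 0 < R := by linarith
  have hR1 : 1 ≤ R := by linarith
  obtain ⟨ν, hν⟩ : ∃ ν : ℝ, ν = 1 / R := ⟨_, rfl⟩
  obtain ⟨κ, hκ⟩ : ∃ κ : ℝ, κ = 1000 * R ^ 2 := ⟨_, rfl⟩
  obtain ⟨δ, hδ⟩ : ∃ δ : ℝ, δ = 1 / (250000 * R ^ 2) := ⟨_, rfl⟩
  obtain ⟨ε, hε⟩ : ∃ ε : ℝ, ε = 1 / (10 ^ 5 * R ^ 3) := ⟨_, rfl⟩
  obtain ⟨K, hK⟩ : ∃ K : ℝ, K = R ^ 3 := ⟨_, rfl⟩
  obtain ⟨η, hη⟩ : ∃ η : ℝ, η = Real.exp (-K) / 100 := ⟨_, rfl⟩
  have hν0 : 0 < ν := by rw [hν]; positivity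
  have hκ0 : 0 < κ := by rw [hκ]; positivity
  have hδ0 : 0 < δ := by rw [hδ]; positivity
  have hε0 : 0 < ε := by rw [hε]; positivity
  have hη0 : 0 < η := by rw [hη]; positivity
  have hK1 : 1 ≤ K := by rw [hK]; exact one_le_pow₀ hR1
  -- everything in terms of `ν`
  have hνR : ν * R = 1 := by rw [hν]; field_simp
  have hν1 : ν ≤ 1 / (5 * 10 ^ 6) := by
    rw [hν]
    exact one_div_le_one_div_of_le (by norm_num) hR
  have hδν : δ = ν ^ 2 / 250000 := by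
    rw [hδ, hν]; field_simp
  have hγν : 1 / κ = ν ^ 2 / 1000 := by
    rw [hκ, hν]; field_simp
  have hεν : ε = ν ^ 3 / 10 ^ 5 := by
    rw [hε, hν]; field_simp
  have hεδ : ε ≤ δ := by
    rw [hεν, hδν]
    have : ν ^ 3 = ν ^ 2 * ν := by ring
    have h2 : 0 ≤ ν ^ 2 := sq_nonneg _
    nlinarith
  have hε1 : ε ≤ 1 / 1000 := by
    rw [hε]
    apply one_div_le_one_div_of_le (by norm_num)
    have : (1 : ℝ) ≤ R ^ 3 := one_le_pow₀ hR1
    linarith
  have hsqrtε : Real.sqrt ε ≤ ν / 100 := by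
    rw [Real.sqrt_le_left (by positivity), hεν]
    have : ν ^ 3 = ν ^ 2 * ν := by ring
    have h2 : 0 ≤ ν ^ 2 := sq_nonneg _
    nlinarith
  have hκε : κ * ε = ν / 100 := by
    rw [hκ, hε, hν]; field_simp; ring
  have par : Par K δ z := by
    refine ⟨hK1, hδ0, ?_, ?_⟩
    · rw [hδν]
      have : ν ^ 2 ≤ 1 := pow_le_one₀ hν0.le (by linarith)
      linarith
    · refine le_trans ?_ hz
      rw [hK, hδ]
      have e1 : 400 * (R ^ 3) ^ 2 / (1 / (250000 * R ^ 2)) ^ 2 = (400 * 250000 ^ 2) * R ^ 10 := by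
        field_simp
      rw [e1]
      have e2 : (400 * 250000 ^ 2 : ℝ) ≤ R ^ 3 := by
        calc (400 * 250000 ^ 2 : ℝ) ≤ (5 * 10 ^ 6) ^ 3 := by norm_num
          _ ≤ R ^ 3 := by gcongr
      calc (400 * 250000 ^ 2) * R ^ 10 ≤ R ^ 3 * R ^ 10 :=
            mul_le_mul_of_nonneg_right e2 (by positivity)
        _ = R ^ 13 := by ring
  have nm : Num r K δ ε κ ν (1 / κ) η z := by
    refine ⟨by omega, par, hε0, by linarith, hκ0.le, hν0, ?_, by positivity, hη0.le, ?_, ?_, ?_, ?_⟩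
    · apply le_of_eq
      rw [hν, hRdef]
      field_simp
      norm_num
    · have h1 : 3 * δ + 8 * (1 / κ + 2 * ε) + 8 * ε ≤ (ν / 4) ^ 2 := by
        rw [hγν, hδν, hεν]
        have : ν ^ 3 = ν ^ 2 * ν := by ring
        have h2 : 0 ≤ ν ^ 2 := sq_nonneg _
        nlinarith
      have h2 : Real.sqrt (3 * δ + 8 * (1 / κ + 2 * ε) + 8 * ε) ≤ ν / 4 :=
        (Real.sqrt_le_left (by positivity)).mpr h1
      have h3 : 4 * ε ≤ ν / 4 := by
        rw [hεν]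
        have : ν ^ 3 = ν ^ 2 * ν := by ring
        have h2 : ν ^ 2 ≤ 1 := pow_le_one₀ hν0.le (by linarith)
        nlinarith
      linarith
    · have h1 : 3 * κ * ε = 3 * (κ * ε) := by ring
      rw [h1, hκε]
      linarith
    · rw [hη]
      have : Real.exp (-K) * Real.exp K = 1 := by rw [← Real.exp_add]; simp
      apply le_of_eq
      linear_combination this / 100
    · rw [hγν, hεν]
      have h1 : ν ^ 2 ≤ 1 := pow_le_one₀ hν0.le (by linarith)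
      have h2 : ν ^ 3 ≤ 1 := pow_le_one₀ hν0.le (by linarith)
      linarith
  -- the logarithms
  have hlogR0 : 0 ≤ Real.log R := Real.log_nonneg hR1
  have hlog := log_le_small hR
  have hKpos : 0 < K := by linarith
  set s := ε ^ 4 / (2 ^ 20 * K ^ 3) with hs
  have hs0 : 0 < s := by positivity
  have hsinv : Real.log (1 / s) ≤ 26 * Real.log R := by
    have e1 : 1 / s = (2 ^ 20 * 10 ^ 20) * R ^ 21 := by
      rw [hs, hε, hK]; field_simp
    have e2 : (2 ^ 20 * 10 ^ 20 : ℝ) ≤ R ^ 5 := by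
      calc (2 ^ 20 * 10 ^ 20 : ℝ) ≤ (5 * 10 ^ 6) ^ 5 := by norm_num
        _ ≤ R ^ 5 := by gcongr
    rw [e1]
    calc Real.log ((2 ^ 20 * 10 ^ 20) * R ^ 21) ≤ Real.log (R ^ 5 * R ^ 21) := by
          apply Real.log_le_log (by positivity)
          exact mul_le_mul_of_nonneg_right e2 (by positivity)
      _ = 26 * Real.log R := by
          rw [← pow_add, Real.log_pow]; norm_num
  obtain ⟨τ0, hτ0⟩ : ∃ τ0 : ℝ, τ0 = 1 / 1000 * ε / (64 * K) := ⟨_, rfl⟩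
  have hτ00 : 0 < τ0 := by rw [hτ0]; positivity
  have hτinv : Real.log (6 / τ0) ≤ 8 * Real.log R := by
    have e1 : 6 / τ0 = (6 * 64000 * 10 ^ 5) * R ^ 6 := by
      rw [hτ0, hε, hK]; field_simp; ring
    have e2 : (6 * 64000 * 10 ^ 5 : ℝ) ≤ R ^ 2 := by
      calc (6 * 64000 * 10 ^ 5 : ℝ) ≤ (5 * 10 ^ 6) ^ 2 := by norm_num
        _ ≤ R ^ 2 := by gcongr
    rw [e1]
    calc Real.log ((6 * 64000 * 10 ^ 5) * R ^ 6) ≤ Real.log (R ^ 2 * R ^ 6) := by
          apply Real.log_le_log (by positivity)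
          exact mul_le_mul_of_nonneg_right e2 (by positivity)
      _ = 8 * Real.log R := by
          rw [← pow_add, Real.log_pow]; norm_num
  have hεinv : Real.log (4 / ε) ≤ 4 * Real.log R := by
    have e1 : 4 / ε = (4 * 10 ^ 5) * R ^ 3 := by
      rw [hε]; field_simp
    rw [e1]
    calc Real.log ((4 * 10 ^ 5) * R ^ 3) ≤ Real.log (R * R ^ 3) := by
          apply Real.log_le_log (by positivity)
          exact mul_le_mul_of_nonneg_right (by linarith) (by positivity)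
      _ = 4 * Real.log R := by
          rw [← pow_succ', Real.log_pow]; norm_num
  obtain ⟨nmax, hnmax⟩ : ∃ n : ℕ, n = 8 * (20000 * r ^ 8) := ⟨_, rfl⟩
  have hnmaxR : (nmax : ℝ) = 8 * R := by
    rw [hnmax, hRdef]; push_cast; ring
  have hKcond : Real.log (4 / ε) + 2 * ((nmax : ℝ) + 2) *
      Real.log (6 / (s ^ (nmax + 1) * τ0)) ≤ K := by
    have e1 : Real.log (6 / (s ^ (nmax + 1) * τ0)) =
        ((nmax : ℝ) + 1) * Real.log (1 / s) + Real.log (6 / τ0) := by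
      rw [show 6 / (s ^ (nmax + 1) * τ0) = (1 / s) ^ (nmax + 1) * (6 / τ0) by
        rw [one_div, inv_pow]; field_simp]
      rw [Real.log_mul (by positivity) (by positivity), Real.log_pow]
      push_cast
      ring
    rw [e1, hnmaxR]
    have e2 : (8 * R + 1) * Real.log (1 / s) + Real.log (6 / τ0) ≤ 220 * R * Real.log R := by
      have e3 : (8 * R + 1) * Real.log (1 / s) ≤ (8 * R + 1) * (26 * Real.log R) :=
        mul_le_mul_of_nonneg_left hsinv (by linarith)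
      nlinarith
    have e4 : 2 * (8 * R + 2) * ((8 * R + 1) * Real.log (1 / s) + Real.log (6 / τ0)) ≤
        2 * (8 * R + 2) * (220 * R * Real.log R) :=
      mul_le_mul_of_nonneg_left e2 (by linarith)
    have e5 : 2 * (8 * R + 2) * (220 * R * Real.log R) ≤ 3600 * R ^ 2 * Real.log R := by
      nlinarith [mul_nonneg hR0.le hlogR0, mul_nonneg (mul_nonneg hR0.le hR0.le) hlogR0]
    have e6 : 3600 * R ^ 2 * Real.log R + 4 * Real.log R ≤ R ^ 2 * (8000 * Real.log R) := by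
      nlinarith [mul_nonneg (mul_nonneg hR0.le hR0.le) hlogR0, one_le_pow₀ (n := 2) hR1]
    have e7 : R ^ 2 * (8000 * Real.log R) ≤ R ^ 2 * R := mul_le_mul_of_nonneg_left hlog (by positivity)
    rw [hK]
    nlinarith
  refine ⟨Real.exp (-(3 * K)) / (5 * r), η, 1 / (50 * κ), by positivity, hη0, by positivity, ?_⟩
  intro G _ _ _ L A hL hd ψ0 I Θ hΘ F hF hS hinit
  -- the initial cell
  have hKc : Real.log (4 / ε) + 2 * ((({ψ0} : Finset (AddChar G ℂ)).card : ℕ) : ℝ) *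
      Real.log (384 * K / (1 / 1000 * ε)) ≤ K := by
    rw [Finset.card_singleton]
    have e1 : Real.log (384 * K / (1 / 1000 * ε)) ≤ 8 * Real.log R := by
      refine le_trans ?_ hτinv
      apply Real.log_le_log (by positivity)
      rw [hτ0]
      apply le_of_eq
      field_simp
      norm_num
    have e2 : 20 * Real.log R ≤ R ^ 3 := by
      have h1 : R ≤ R ^ 3 := by
        calc R = R ^ 1 := (pow_one R).symm
          _ ≤ R ^ 3 := pow_le_pow_right₀ hR1 (by norm_num)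
      linarith
    rw [hK]
    rw [hK] at e1
    push_cast
    linarith
  obtain ⟨ρ, hρ0, hρ1, hgood⟩ := exists_cell {ψ0} (by norm_num : (0 : ℝ) < 1 / 1000)
    (by norm_num) hε0 (by linarith) hK1 hKc
  rw [← hτ0] at hgood
  obtain ⟨M00, hI, hθ, hm⟩ := hinit ρ (by linarith) hρ1
  have hres := iterate nm hεδ hκ0 le_rfl (by
      rw [hκ, hδ]
      apply le_of_eq
      field_simp
      norm_num) hL hd (ρ00 := 1 / 1000) (I := I) (M00 := M00) (fun x hx => hI x (by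
        norm_num at hx ⊢; exact hx)) hΘ hF hS hgood hρ1 (by linarith) (by
      unfold Psi
      have h1 : (9 / 20 : ℝ) ^ 2 ≤ (Ex (unif (Bohr {ψ0} ρ)) fun x => Θ (M00 + x)) ^ 2 :=
        pow_le_pow_left₀ (by norm_num) hθ 2
      have h2 : κ * (1 - 1 / (50 * κ)) ≤ κ * Ex (unif (Bohr {ψ0} ρ)) fun x => L (M00 + x) :=
        mul_le_mul_of_nonneg_left hm hκ0.le
      have h3 : κ * (1 - 1 / (50 * κ)) = κ - 1 / 50 := by field_simp
      linarith) (nmax := nmax) (by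
      rw [hnmaxR]
      have : 8 * R * (ν / 8) = ν * R := by ring
      rw [this, hνR]) hKcond
  calc Real.exp (-(3 * K)) / (5 * r) * (Fintype.card G : ℝ) ^ 2 =
        Real.exp (-(3 * K)) * (Fintype.card G : ℝ) ^ 2 / (5 * r) := by ring
    _ ≤ _ := hres

end Pool.Agent.Lib.MG
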