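import Pool.Agent.Lib.MP_7b7e48_nt.MG.Basic

/-!
# D01: abstract dense model theorem

`S` is a set of test functions (bounded by 1, closed under negation, contains the constant 1, and
products of members are convex combinations of members).  If `ν` is close to `μ` for the tests, then
every `0 ≤ f ≤ ν` is close to some `0 ≤ F ≤ μ`.

Proof.  `η0`: let `p` be a real polynomial with `|p(t) - max t 0| ≤ η / 16` on `[-1, 1]`
(Weierstrass: `exists_polynomial_near_of_continuousOn`), `B = ∑ |coeff|`, `η0 = η / (8 (B + 1))`.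
Let `C = closure (convexHull ℝ S)`; `C` is convex, closed, symmetric, contains 1, every `c ∈ C`
satisfies `|c| ≤ 1` and `∑ c (ν - μ) ≤ η0 T`, and `C` is closed
under products (bilinearity, continuity), so `c ^ k ∈ C` for all `k`.
If the compact convex set `[0, μ]` does not meet the closed convex set of the good `F`, separate them
by a linear form `φ`; by the bipolar theorem (second separation) `φ` is a positive multiple of an
element `c` of `C`, and the test `F = μ` on `{c > 0}` gives `η T < ∑ c⁺ (ν - μ)`.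
But `∑ c⁺ (ν - μ) ≤ ∑ p(c) (ν - μ) + (η/16) (∑ ν + ∑ μ) ≤ B η0 T + (η / 16) (6 T) < η T`.
-/

open Finset

namespace Pool.Agent.Lib.MG

section D01

variable {Ω : Type} [Fintype Ω]

/-- a linear form on `Ω → ℝ` is a sum -/
theorem d01_form (g : (Ω → ℝ) →L[ℝ] ℝ) : ∃ c : Ω → ℝ, ∀ h : Ω → ℝ, g h = ∑ x, c x * h x := by
  classical
  refine ⟨fun x => g (fun j => if x = j then 1 else 0), fun h => ?_⟩
  have := LinearMap.pi_apply_eq_sum_univ (g : (Ω → ℝ) →ₗ[ℝ] ℝ) h
  simp only [ContinuousLinearMap.coe_coe, smul_eq_mul] at this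
  rw [this]
  exact Finset.sum_congr rfl fun x _ => by ring

/-- the closed convex hull -/
def d01C (S : Set (Ω → ℝ)) : Set (Ω → ℝ) := closure (convexHull ℝ S)

theorem d01_min {S K : Set (Ω → ℝ)} (h : S ⊆ K) (hc : Convex ℝ K) (hcl : IsClosed K) :
    d01C S ⊆ K :=
  closure_minimal (convexHull_min h hc) hcl

theorem d01_convex (S : Set (Ω → ℝ)) : Convex ℝ (d01C S) := (convex_convexHull ℝ S).closure

theorem d01_closed (S : Set (Ω → ℝ)) : IsClosed (d01C S) := isClosed_closure

theorem d01_sub (S : Set (Ω → ℝ)) : S ⊆ d01C S :=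
  (subset_convexHull ℝ S).trans subset_closure

theorem d01_neg {S : Set (Ω → ℝ)} (hS : ∀ a ∈ S, -a ∈ S) {c : Ω → ℝ} (hc : c ∈ d01C S) :
    -c ∈ d01C S := by
  have h : d01C S ⊆ {c | -c ∈ d01C S} := by
    refine d01_min (fun a ha => d01_sub S (hS a ha)) ?_ ?_
    · exact (d01_convex S).linear_preimage (-LinearMap.id : (Ω → ℝ) →ₗ[ℝ] (Ω → ℝ))
    · exact (d01_closed S).preimage continuous_neg
  exact h hc

theorem d01_mul {S : Set (Ω → ℝ)}
    (hS : ∀ a ∈ S, ∀ b ∈ S, (fun x => a x * b x) ∈ convexHull ℝ S) {a b : Ω → ℝ}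
    (ha : a ∈ d01C S) (hb : b ∈ d01C S) : a * b ∈ d01C S := by
  have h1 : ∀ a ∈ S, d01C S ⊆ {b | a * b ∈ d01C S} := by
    intro a ha
    refine d01_min (fun b hb => subset_closure (hS a ha b hb)) ?_ ?_
    · exact (d01_convex S).linear_preimage (LinearMap.mulLeft ℝ a)
    · exact (d01_closed S).preimage (continuous_const.mul continuous_id)
  have h2 : d01C S ⊆ {a | a * b ∈ d01C S} := by
    refine d01_min (fun a ha => h1 a ha hb) ?_ ?_
    · exact (d01_convex S).linear_preimage (LinearMap.mulRight ℝ b)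
    · exact (d01_closed S).preimage (continuous_id.mul continuous_const)
  exact h2 ha

theorem d01_pow {S : Set (Ω → ℝ)} (h1 : (fun _ => 1) ∈ S)
    (hS : ∀ a ∈ S, ∀ b ∈ S, (fun x => a x * b x) ∈ convexHull ℝ S) {c : Ω → ℝ}
    (hc : c ∈ d01C S) (k : ℕ) : c ^ k ∈ d01C S := by
  induction k with
  | zero =>
    rw [pow_zero]
    exact d01_sub S h1
  | succ k ih =>
    rw [pow_succ]
    exact d01_mul hS ih hc

theorem d01_zero {S : Set (Ω → ℝ)} (h1 : (fun _ => 1) ∈ S) (hS : ∀ a ∈ S, -a ∈ S) :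
    (0 : Ω → ℝ) ∈ d01C S := by
  have a := d01_sub S h1
  have b := d01_neg hS a
  have h := d01_convex S a b (a := 1 / 2) (b := 1 / 2) (by norm_num) (by norm_num) (by norm_num)
  have e : (1 / 2 : ℝ) • (fun _ => 1 : Ω → ℝ) + (1 / 2 : ℝ) • (-(fun _ => 1) : Ω → ℝ) = 0 := by
    ext x
    simp
  rwa [e] at h

theorem d01_abs {S : Set (Ω → ℝ)} (hS : ∀ a ∈ S, ∀ x, |a x| ≤ 1) {c : Ω → ℝ}
    (hc : c ∈ d01C S) (x : Ω) : |c x| ≤ 1 := by
  have h : d01C S ⊆ {c | -1 ≤ c x ∧ c x ≤ 1} := by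
    refine d01_min (fun a ha => abs_le.1 (hS a ha x)) ?_ ?_
    · intro F hF G hG s t hs ht hst
      simp only [Set.mem_setOf_eq, Pi.add_apply, Pi.smul_apply, smul_eq_mul] at *
      constructor <;> nlinarith [hF.1, hF.2, hG.1, hG.2]
    · exact (isClosed_le continuous_const (continuous_apply x)).inter
        (isClosed_le (continuous_apply x) continuous_const)
  exact abs_le.2 (h hc)

theorem d01_test {S : Set (Ω → ℝ)} (h : Ω → ℝ) (E : ℝ) (hS : ∀ a ∈ S, ∑ x, a x * h x ≤ E)
    {c : Ω → ℝ} (hc : c ∈ d01C S) : ∑ x, c x * h x ≤ E := by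
  have h : d01C S ⊆ {c | ∑ x, c x * h x ≤ E} := by
    refine d01_min hS ?_ ?_
    · intro F hF G hG s t hs ht hst
      simp only [Set.mem_setOf_eq, Pi.add_apply, Pi.smul_apply, smul_eq_mul] at *
      have e : ∑ x, (s * F x + t * G x) * h x = s * ∑ x, F x * h x + t * ∑ x, G x * h x := by
        rw [Finset.mul_sum, Finset.mul_sum, ← Finset.sum_add_distrib]
        exact Finset.sum_congr rfl fun x _ => by ring
      rw [e]
      have e1 := mul_le_mul_of_nonneg_left hF hs
      have e2 := mul_le_mul_of_nonneg_left hG ht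
      have e3 : s * E + t * E = E := by rw [← add_mul, hst, one_mul]
      linarith
    · exact isClosed_le (by fun_prop) continuous_const
  exact h hc

/-- bipolar theorem: a form which is `< u` on the polar of `S` is a multiple of an element of `C` -/
theorem d01_bipolar {S : Set (Ω → ℝ)} (h1 : (fun _ => 1) ∈ S) (hS : ∀ a ∈ S, -a ∈ S)
    {E : ℝ} (hE : 0 < E) {φ : Ω → ℝ} {u : ℝ}
    (hφ : ∀ h : Ω → ℝ, (∀ a ∈ S, ∑ x, a x * h x ≤ E) → ∑ x, φ x * h x < u) :
    0 < u ∧ (E / u) • φ ∈ d01C S := by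
  have hu : 0 < u := by
    have := hφ 0 (fun a _ => by simpa using hE.le)
    simpa using this
  refine ⟨hu, ?_⟩
  by_contra hcon
  obtain ⟨g, w, hg1, hg2⟩ := geometric_hahn_banach_closed_point (d01_convex S) (d01_closed S) hcon
  obtain ⟨h, hh⟩ := d01_form g
  have hw : 0 < w := by
    have := hg1 0 (d01_zero h1 hS)
    rwa [map_zero] at this
  have h3 := hφ ((E / w) • h) (fun a ha => by
    have := hg1 a (d01_sub S ha)
    rw [hh] at this
    have e : ∑ x, a x * ((E / w) • h) x = (E / w) * ∑ x, h x * a x := by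
      rw [Finset.mul_sum]
      exact Finset.sum_congr rfl fun x _ => by simp only [Pi.smul_apply, smul_eq_mul]; ring
    rw [e]
    calc (E / w) * ∑ x, h x * a x ≤ (E / w) * w :=
          mul_le_mul_of_nonneg_left this.le (by positivity)
      _ = E := by field_simp)
  rw [hh] at hg2
  have e1 : ∑ x, φ x * ((E / w) • h) x = (u / w) * ∑ x, h x * ((E / u) • φ) x := by
    rw [Finset.mul_sum]
    refine Finset.sum_congr rfl fun x _ => ?_
    simp only [Pi.smul_apply, smul_eq_mul]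
    field_simp
  rw [e1] at h3
  have h4 : (u / w) * w < (u / w) * ∑ x, h x * ((E / u) • φ) x :=
    mul_lt_mul_of_pos_left hg2 (by positivity)
  have e2 : (u / w) * w = u := by field_simp
  linarith

theorem d01_poly (η : ℝ) (hη : 0 < η) : ∃ p : Polynomial ℝ,
    ∀ t ∈ Set.Icc (-1 : ℝ) 1, |p.eval t - max t 0| < η := by
  obtain ⟨p, hp⟩ := exists_polynomial_near_of_continuousOn (-1) 1 (fun t => max t 0)
    (by fun_prop) η hη
  exact ⟨p, hp⟩

theorem d01_pos_part {S : Set (Ω → ℝ)} (hb : ∀ a ∈ S, ∀ x, |a x| ≤ 1) (hS : ∀ a ∈ S, -a ∈ S)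
    (h1 : (fun _ => 1) ∈ S)
    (hm : ∀ a ∈ S, ∀ b ∈ S, (fun x => a x * b x) ∈ convexHull ℝ S)
    (p : Polynomial ℝ) (κ : ℝ) (hp : ∀ t ∈ Set.Icc (-1 : ℝ) 1, |p.eval t - max t 0| < κ)
    {ν μ : Ω → ℝ} (hν : ∀ x, 0 ≤ ν x) (hμ : ∀ x, 0 ≤ μ x) {E : ℝ}
    (hE : ∀ a ∈ S, ∑ x, a x * (ν x - μ x) ≤ E) {c : Ω → ℝ} (hc : c ∈ d01C S) :
    ∑ x, max (c x) 0 * (ν x - μ x) ≤
      (∑ k ∈ p.support, |p.coeff k|) * E + κ * (∑ x, ν x + ∑ x, μ x) := by
  have h2 : ∑ x, p.eval (c x) * (ν x - μ x) ≤ (∑ k ∈ p.support, |p.coeff k|) * E := by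
    have e : ∑ x, p.eval (c x) * (ν x - μ x) =
        ∑ k ∈ p.support, p.coeff k * ∑ x, (c ^ k) x * (ν x - μ x) := by
      simp_rw [Polynomial.eval_eq_sum, Polynomial.sum, Finset.sum_mul, Finset.mul_sum]
      rw [Finset.sum_comm]
      refine Finset.sum_congr rfl fun k _ => Finset.sum_congr rfl fun x _ => ?_
      simp only [Pi.pow_apply]
      ring
    rw [e, Finset.sum_mul]
    refine Finset.sum_le_sum fun k _ => ?_
    have hk := d01_pow h1 hm hc k
    have a := d01_test (fun x => ν x - μ x) E hE hk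
    have b := d01_test (fun x => ν x - μ x) E hE (d01_neg hS hk)
    have b' : -∑ x, (c ^ k) x * (ν x - μ x) ≤ E := by
      have e3 : ∑ x, (-(c ^ k)) x * (ν x - μ x) = -∑ x, (c ^ k) x * (ν x - μ x) := by
        rw [← Finset.sum_neg_distrib]
        exact Finset.sum_congr rfl fun x _ => by simp only [Pi.neg_apply]; ring
      rw [← e3]
      exact b
    have hab : |∑ x, (c ^ k) x * (ν x - μ x)| ≤ E := abs_le.2 ⟨by linarith, a⟩
    calc p.coeff k * ∑ x, (c ^ k) x * (ν x - μ x)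
        ≤ |p.coeff k * ∑ x, (c ^ k) x * (ν x - μ x)| := le_abs_self _
      _ = |p.coeff k| * |∑ x, (c ^ k) x * (ν x - μ x)| := abs_mul _ _
      _ ≤ |p.coeff k| * E := mul_le_mul_of_nonneg_left hab (abs_nonneg _)
  have h3 : ∑ x, (max (c x) 0 - p.eval (c x)) * (ν x - μ x) ≤ κ * (∑ x, ν x + ∑ x, μ x) := by
    rw [← Finset.sum_add_distrib, Finset.mul_sum]
    refine Finset.sum_le_sum fun x _ => ?_
    have hx := abs_le.1 (hp (c x) (abs_le.1 (d01_abs hb hc x))).le
    nlinarith [hν x, hμ x, hx.1, hx.2, mul_nonneg (sub_nonneg.2 hx.2) (hν x),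
      mul_nonneg (sub_nonneg.2 hx.2) (hμ x),
      mul_nonneg (by linarith [hx.1] : 0 ≤ κ + (Polynomial.eval (c x) p - max (c x) 0)) (hν x),
      mul_nonneg (by linarith [hx.1] : 0 ≤ κ + (Polynomial.eval (c x) p - max (c x) 0)) (hμ x)]
  have e : ∑ x, max (c x) 0 * (ν x - μ x) = ∑ x, (max (c x) 0 - p.eval (c x)) * (ν x - μ x) +
      ∑ x, p.eval (c x) * (ν x - μ x) := by
    rw [← Finset.sum_add_distrib]
    exact Finset.sum_congr rfl fun x _ => by ring
  rw [e]
  linarith

end D01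

theorem dense_model_abs : ∀ η : ℝ, 0 < η → ∃ η0 : ℝ, 0 < η0 ∧ ∀ (Ω : Type) [Fintype Ω]
    (S : Set (Ω → ℝ)), (∀ a ∈ S, ∀ x, |a x| ≤ 1) → (∀ a ∈ S, -a ∈ S) → (fun _ => 1) ∈ S →
    (∀ a ∈ S, ∀ b ∈ S, (fun x => a x * b x) ∈ convexHull ℝ S) →
    ∀ (T : ℝ), 0 < T → ∀ ν μ f : Ω → ℝ, (∀ x, 0 ≤ f x ∧ f x ≤ ν x) → (∀ x, 0 ≤ μ x) →
    ∑ x, ν x ≤ 3 * T → ∑ x, μ x ≤ 3 * T → (∀ a ∈ S, ∑ x, a x * (ν x - μ x) ≤ η0 * T) →
    ∃ F : Ω → ℝ, (∀ x, 0 ≤ F x ∧ F x ≤ μ x) ∧ ∀ a ∈ S, ∑ x, a x * (f x - F x) ≤ η * T := by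
  intro η hη
  obtain ⟨p, hp⟩ := d01_poly (η / 16) (by positivity)
  set B : ℝ := ∑ k ∈ p.support, |p.coeff k| with hB
  have hB0 : 0 ≤ B := Finset.sum_nonneg fun k _ => abs_nonneg _
  refine ⟨η / (8 * (B + 1)), by positivity, ?_⟩
  intro Ω _ S hb hS h1 hm T hT ν μ f hf hμ hν3 hμ3 hE
  have hν : ∀ x, 0 ≤ ν x := fun x => (hf x).1.trans (hf x).2
  by_contra hcon
  set K : Set (Ω → ℝ) := {F | ∀ a ∈ S, ∑ x, a x * (f x - F x) ≤ η * T} with hK
  have hKc : Convex ℝ K := by
    intro F hF G hG s t hs ht hst a ha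
    have e : ∑ x, a x * (f x - (s • F + t • G) x) = s * ∑ x, a x * (f x - F x) +
        t * ∑ x, a x * (f x - G x) := by
      rw [Finset.mul_sum, Finset.mul_sum, ← Finset.sum_add_distrib]
      refine Finset.sum_congr rfl fun x _ => ?_
      simp only [Pi.add_apply, Pi.smul_apply, smul_eq_mul]
      have : f x = (s + t) * f x := by rw [hst, one_mul]
      linear_combination a x * this
    rw [e]
    have := mul_le_mul_of_nonneg_left (hF a ha) hs
    have := mul_le_mul_of_nonneg_left (hG a ha) ht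
    have e2 : s * (η * T) + t * (η * T) = η * T := by rw [← add_mul, hst, one_mul]
    linarith
  have hKcl : IsClosed K := by
    rw [hK]
    simp only [Set.setOf_forall]
    exact isClosed_iInter fun a => isClosed_iInter fun _ =>
      isClosed_le (by fun_prop) continuous_const
  have hdisj : Disjoint K (Set.Icc 0 μ) := by
    rw [Set.disjoint_left]
    intro F hF hF2
    exact hcon ⟨F, fun x => ⟨hF2.1 x, hF2.2 x⟩, hF⟩
  obtain ⟨g, u, v, hg1, huv, hg2⟩ := geometric_hahn_banach_closed_compact hKc hKcl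
    (convex_Icc (0 : Ω → ℝ) μ) isCompact_Icc hdisj
  obtain ⟨c0, hc0⟩ := d01_form g
  have hpol := d01_bipolar h1 hS (E := η * T) (by positivity) (φ := -c0) (u := u - g f)
    (fun h hh => by
      have hm : f - h ∈ K := by
        intro a ha
        have := hh a ha
        simpa using this
      have := hg1 _ hm
      rw [map_sub] at this
      have e : ∑ x, (-c0) x * h x = -g h := by
        rw [hc0, ← Finset.sum_neg_distrib]
        exact Finset.sum_congr rfl fun x _ => by simp only [Pi.neg_apply]; ring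
      rw [e]
      linarith)
  obtain ⟨hu, hcC⟩ := hpol
  set u' : ℝ := u - g f with hu'
  set c : Ω → ℝ := (η * T / u') • (-c0) with hc
  have hkey := d01_pos_part hb hS h1 hm p (η / 16) hp hν hμ hE hcC
  rw [← hB] at hkey
  -- the test function
  have hF := hg2 (fun x => if 0 < c x then μ x else 0) ⟨fun x => by
      show (0 : ℝ) ≤ if 0 < c x then μ x else 0
      split_ifs
      · exact hμ x
      · exact le_rfl, fun x => by
      show (if 0 < c x then μ x else 0) ≤ μ x
      split_ifs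
      · exact le_rfl
      · exact hμ x⟩
  have h5 : u' < ∑ x, (-c0) x * (f x - if 0 < c x then μ x else 0) := by
    have e : ∑ x, (-c0) x * (f x - if 0 < c x then μ x else 0) =
        g (fun x => if 0 < c x then μ x else 0) - g f := by
      rw [hc0, hc0, ← Finset.sum_sub_distrib]
      exact Finset.sum_congr rfl fun x _ => by simp only [Pi.neg_apply]; ring
    rw [e, hu']
    linarith
  have h6 : η * T < ∑ x, c x * (f x - if 0 < c x then μ x else 0) := by
    have e : ∑ x, c x * (f x - if 0 < c x then μ x else 0) =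
        (η * T / u') * ∑ x, (-c0) x * (f x - if 0 < c x then μ x else 0) := by
      rw [Finset.mul_sum]
      refine Finset.sum_congr rfl fun x _ => ?_
      rw [hc]
      simp only [Pi.smul_apply, smul_eq_mul]
      ring
    rw [e]
    calc η * T = (η * T / u') * u' := by field_simp
      _ < _ := mul_lt_mul_of_pos_left h5 (by positivity)
  have h7 : ∑ x, c x * (f x - if 0 < c x then μ x else 0) ≤ ∑ x, max (c x) 0 * (ν x - μ x) := by
    refine Finset.sum_le_sum fun x _ => ?_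
    split_ifs with hx
    · rw [max_eq_left hx.le]
      exact mul_le_mul_of_nonneg_left (by linarith [(hf x).2]) hx.le
    · rw [max_eq_right (not_lt.1 hx), zero_mul, sub_zero]
      exact mul_nonpos_of_nonpos_of_nonneg (not_lt.1 hx) (hf x).1
  have h8 : B * (η / (8 * (B + 1)) * T) ≤ η * T / 8 := by
    have e : B * (η / (8 * (B + 1)) * T) = (η * T / 8) * (B / (B + 1)) := by
      field_simp
    rw [e]
    have : B / (B + 1) ≤ 1 := by
      rw [div_le_one (by positivity)]
      linarith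
    calc (η * T / 8) * (B / (B + 1)) ≤ (η * T / 8) * 1 :=
          mul_le_mul_of_nonneg_left this (by positivity)
      _ = _ := mul_one _
  have h9 : η / 16 * (∑ x, ν x + ∑ x, μ x) ≤ η / 16 * (6 * T) :=
    mul_le_mul_of_nonneg_left (by linarith) (by positivity)
  have h10 : 0 < η * T := by positivity
  linarith

end Pool.Agent.Lib.MG
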