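import Pool.Agent.Lib.MP_7b7e48_nt.MG.D01
import Pool.Agent.Lib.MP_7b7e48_nt.GT.Defs

/-!
# D02: dense model theorem for exponential sums

Proof.  `Ω = Fin X` (`n = i + 1`) or the subtype of `Icc 1 X`,
`S = {x ↦ (c * e (α n)).re : ‖c‖ = 1, α : ℝ}`.  `|Re| ≤ 1`; `-` is `c ↦ -c`; constant 1: `c = 1, α = 0`;
product: `Re u * Re v = (Re (u v) + Re (u conj v)) / 2`, and `u conj v = c conj d e((α - β) n)`.
`‖∑ h e(α n)‖ ≤ E` iff `Re (c ∑ h e(α n)) ≤ E` for all `‖c‖ = 1` (take `c = conj (sum)/‖sum‖`, or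
`c = 1` if the sum is 0).  Extend `F` by `0` outside `Icc 1 X`.
-/

open Finset

namespace Pool.Agent.Lib.MG

open Pool.Agent.Lib.GT

theorem d02_conj_e (x : ℝ) : (starRingEnd ℂ) (e x) = e (-x) := by
  unfold e
  rw [← Complex.exp_conj]
  congr 1
  simp only [map_mul, Complex.conj_I, Complex.conj_ofReal, map_ofNat]
  push_cast
  ring

/-- the test functions -/
def d02S (X : ℕ) : Set ((Finset.Icc 1 X) → ℝ) :=
  {a | ∃ (c : ℂ) (α : ℝ), ‖c‖ = 1 ∧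
    a = fun x : (Finset.Icc 1 X) => (c * e (α * ((x : ℕ) : ℝ))).re}

theorem d02_abs (X : ℕ) : ∀ a ∈ d02S X, ∀ x, |a x| ≤ 1 := by
  rintro a ⟨c, α, hc, rfl⟩ x
  refine (Complex.abs_re_le_norm _).trans (le_of_eq ?_)
  rw [norm_mul, hc, norm_e, one_mul]

theorem d02_neg (X : ℕ) : ∀ a ∈ d02S X, -a ∈ d02S X := by
  rintro a ⟨c, α, hc, rfl⟩
  refine ⟨-c, α, by rw [norm_neg, hc], ?_⟩
  ext x
  simp only [Pi.neg_apply, neg_mul, Complex.neg_re]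

theorem d02_one (X : ℕ) : (fun _ => 1) ∈ d02S X := by
  refine ⟨1, 0, norm_one, ?_⟩
  ext x
  rw [zero_mul, e_zero, one_mul, Complex.one_re]

theorem d02_re_mul (u v : ℂ) :
    u.re * v.re = (1 / 2) * (u * v).re + (1 / 2) * (u * (starRingEnd ℂ) v).re := by
  simp only [Complex.mul_re, Complex.conj_re, Complex.conj_im]
  ring

theorem d02_mul (X : ℕ) :
    ∀ a ∈ d02S X, ∀ b ∈ d02S X, (fun x => a x * b x) ∈ convexHull ℝ (d02S X) := by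
  rintro a ⟨c, α, hc, rfl⟩ b ⟨d, β, hd, rfl⟩
  have m1 : (fun x : (Finset.Icc 1 X) => ((c * d) * e ((α + β) * ((x : ℕ) : ℝ))).re) ∈ d02S X :=
    ⟨c * d, α + β, by rw [norm_mul, hc, hd, one_mul], rfl⟩
  have m2 : (fun x : (Finset.Icc 1 X) =>
      ((c * (starRingEnd ℂ) d) * e ((α - β) * ((x : ℕ) : ℝ))).re) ∈ d02S X :=
    ⟨c * (starRingEnd ℂ) d, α - β, by rw [norm_mul, RCLike.norm_conj, hc, hd, one_mul], rfl⟩
  have h := (convex_convexHull ℝ (d02S X)) (subset_convexHull ℝ _ m1) (subset_convexHull ℝ _ m2)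
    (a := 1 / 2) (b := 1 / 2) (by norm_num) (by norm_num) (by norm_num)
  convert h using 1
  ext x
  simp only [Pi.add_apply, Pi.smul_apply, smul_eq_mul]
  rw [d02_re_mul]
  have e1 : c * e (α * ((x : ℕ) : ℝ)) * (d * e (β * ((x : ℕ) : ℝ))) =
      c * d * e ((α + β) * ((x : ℕ) : ℝ)) := by
    rw [add_mul, e_add]
    ring
  have e2 : c * e (α * ((x : ℕ) : ℝ)) * (starRingEnd ℂ) (d * e (β * ((x : ℕ) : ℝ))) =
      c * (starRingEnd ℂ) d * e ((α - β) * ((x : ℕ) : ℝ)) := by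
    rw [map_mul, d02_conj_e, sub_mul, sub_eq_add_neg, e_add]
    ring
  rw [e1, e2]

theorem d02_sum (X : ℕ) (h : ℕ → ℝ) (c : ℂ) (α : ℝ) :
    ∑ x : (Finset.Icc 1 X), (c * e (α * ((x : ℕ) : ℝ))).re * h x =
      (c * ∑ n ∈ Finset.Icc 1 X, ((h n : ℝ) : ℂ) * e (α * n)).re := by
  rw [Finset.sum_coe_sort (Finset.Icc 1 X) (fun n : ℕ => (c * e (α * (n : ℝ))).re * h n),
    Finset.mul_sum, Complex.re_sum]
  refine Finset.sum_congr rfl fun n _ => ?_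
  rw [show c * (((h n : ℝ) : ℂ) * e (α * n)) = (c * e (α * n)) * ((h n : ℝ) : ℂ) by ring,
    Complex.re_mul_ofReal]

theorem dense_model : ∀ η : ℝ, 0 < η → ∃ η0 : ℝ, 0 < η0 ∧ ∀ X : ℕ, 1 ≤ X → ∀ ν μ f : ℕ → ℝ,
    (∀ n, 0 ≤ f n ∧ f n ≤ ν n) → (∀ n, 0 ≤ μ n) → ∑ n ∈ Finset.Icc 1 X, ν n ≤ 3 * X →
    ∑ n ∈ Finset.Icc 1 X, μ n ≤ 3 * X →
    (∀ α : ℝ, ‖∑ n ∈ Finset.Icc 1 X, ((ν n - μ n : ℝ) : ℂ) * e (α * n)‖ ≤ η0 * X) →
    ∃ F : ℕ → ℝ, (∀ n, 0 ≤ F n ∧ F n ≤ μ n) ∧ (∀ n, n ∉ Finset.Icc 1 X → F n = 0) ∧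
      ∀ α : ℝ, ‖∑ n ∈ Finset.Icc 1 X, ((f n - F n : ℝ) : ℂ) * e (α * n)‖ ≤ η * X := by
  intro η hη
  obtain ⟨η0, hη0, H⟩ := dense_model_abs η hη
  refine ⟨η0, hη0, ?_⟩
  intro X hX ν μ f hf hμ hν3 hμ3 hE
  have hX' : (0 : ℝ) < X := by exact_mod_cast (by omega : 0 < X)
  obtain ⟨F, hF, hFt⟩ := H (Finset.Icc 1 X) (d02S X) (d02_abs X) (d02_neg X) (d02_one X)
    (d02_mul X) X hX' (fun x => ν x) (fun x => μ x) (fun x => f x) (fun x => hf x)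
    (fun x => hμ x)
    (by rw [Finset.sum_coe_sort (Finset.Icc 1 X) ν]; exact hν3)
    (by rw [Finset.sum_coe_sort (Finset.Icc 1 X) μ]; exact hμ3)
    (by
      rintro a ⟨c, α, hc, rfl⟩
      rw [d02_sum X (fun n => ν n - μ n) c α]
      refine (Complex.re_le_norm _).trans ?_
      rw [norm_mul, hc, one_mul]
      exact hE α)
  refine ⟨fun n => if h : n ∈ Finset.Icc 1 X then F ⟨n, h⟩ else 0, ?_, ?_, ?_⟩
  · intro n
    by_cases h : n ∈ Finset.Icc 1 X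
    · simp only [dif_pos h]
      exact hF ⟨n, h⟩
    · simp only [dif_neg h]
      exact ⟨le_rfl, hμ n⟩
  · intro n h
    simp only [dif_neg h]
  · intro α
    set F' : ℕ → ℝ := fun n => if h : n ∈ Finset.Icc 1 X then F ⟨n, h⟩ else 0 with hF'
    have hFF : ∀ x : (Finset.Icc 1 X), F x = F' x := by
      intro x
      rw [hF']
      simp only [x.2, dif_pos, Subtype.coe_eta]
    set s : ℂ := ∑ n ∈ Finset.Icc 1 X, ((f n - F' n : ℝ) : ℂ) * e (α * n) with hs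
    by_cases h0 : s = 0
    · rw [h0, norm_zero]
      positivity
    · have hn : 0 < ‖s‖ := norm_pos_iff.2 h0
      have hn' : (‖s‖ : ℂ) ≠ 0 := by exact_mod_cast hn.ne'
      have hc : ‖(starRingEnd ℂ) s / (‖s‖ : ℂ)‖ = 1 := by
        rw [norm_div, RCLike.norm_conj, Complex.norm_real, norm_norm, div_self hn.ne']
      have key := hFt _ ⟨(starRingEnd ℂ) s / (‖s‖ : ℂ), α, hc, rfl⟩
      have e1 : ∑ x : (Finset.Icc 1 X),
          ((starRingEnd ℂ) s / (‖s‖ : ℂ) * e (α * ((x : ℕ) : ℝ))).re * (f x - F x) =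
          ∑ x : (Finset.Icc 1 X),
          ((starRingEnd ℂ) s / (‖s‖ : ℂ) * e (α * ((x : ℕ) : ℝ))).re *
            ((fun n => f n - F' n) (x : ℕ)) :=
        Finset.sum_congr rfl fun x _ => by rw [hFF x]
      rw [e1, d02_sum X (fun n => f n - F' n) _ α, ← hs] at key
      have e2 : (starRingEnd ℂ) s / (‖s‖ : ℂ) * s = (‖s‖ : ℂ) := by
        rw [div_mul_eq_mul_div, mul_comm ((starRingEnd ℂ) s) s, Complex.mul_conj']
        field_simp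
      rw [e2, Complex.ofReal_re] at key
      exact key

end Pool.Agent.Lib.MG
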