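import Pool.Agent.Lib.MP_7b7e48_nt.MG.D02
import Pool.Agent.Lib.MP_7b7e48_nt.GT.Window

/-!
# D03: primes and rough numbers in a residue class; models of sets of primes in a class

`class_close`: `uniform` (constant `C`) with `κ` small and `w` large, `class_uniform` with
`om n = if n % W = a then 1 else 0` (period `W`, `B = 1`), `s = 0`, `t = X`: the sum is
`≤ 2 W (C w^(-1/3) + κ) X` (`tendsto_rpow_third`).
`colour_model`: `dense_model` for `ν n = if n % W = a then lam n else 0`,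
`μ n = if n % W = a then Lw w n else 0`; `∑ ν ≤ 2 X` (`Transfer.sum_lam_le`), `∑ μ ≤ ∑ ν + η0 X ≤ 3 X`
(`α = 0` in `class_close`, `η0 ≤ 1` w.l.o.g.).
-/

open Finset

namespace Pool.Agent.Lib.MG

open Pool.Agent.Lib.GT

theorem class_close (W : ℕ) (hW : 1 ≤ W) : ∀ η : ℝ, 0 < η → ∃ w₀ : ℕ, ∀ w : ℕ, w₀ ≤ w →
    ∃ X₀ : ℕ, ∀ X : ℕ, X₀ ≤ X → ∀ (a : ℕ) (α : ℝ),
      ‖∑ n ∈ Finset.Icc 1 X, (((if n % W = a then lam n - Lw w n else 0 : ℝ)) : ℂ) * e (α * n)‖ ≤
        η * X := by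
  intro η hη
  obtain ⟨C, hC, hun⟩ := uniform
  have hWr : (1 : ℝ) ≤ W := by exact_mod_cast hW
  have hlim : ∀ᶠ w : ℕ in Filter.atTop, (w : ℝ) ^ (-(1 / 3) : ℝ) < η / (4 * W * C) :=
    tendsto_rpow_third.eventually (gt_mem_nhds (by positivity))
  obtain ⟨w₁, hw₁⟩ := hlim.exists_forall_of_atTop
  refine ⟨max w₁ 2, ?_⟩
  intro w hw
  have hl := hw₁ w (le_trans (le_max_left _ _) hw)
  obtain ⟨X₀, hX₀⟩ := hun w (le_trans (le_max_right _ _) hw) (η / (4 * W)) (by positivity)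
  refine ⟨X₀, ?_⟩
  intro X hX a α
  set E : ℝ := (C * (w : ℝ) ^ (-(1 / 3) : ℝ) + η / (4 * W)) * X with hE
  have h := class_uniform (W := W) (X := X) (B := 1) (E := E) (g := fun n => lam n - Lw w n)
    (by omega) (fun Y hY α => hX₀ X hX Y hY α) (om := fun n => if n % W = a then 1 else 0)
    (fun n => by simp only [Nat.add_mod_right])
    (fun n => by
      show |(if n % W = a then (1 : ℝ) else 0)| ≤ 1
      split_ifs <;> simp) (s := 0) (t := X)
    (Nat.zero_le _) le_rfl α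
  have e1 : Finset.Ioc 0 X = Finset.Icc 1 X := by
    ext n
    simp only [Finset.mem_Ioc, Finset.mem_Icc]
    omega
  rw [e1] at h
  have e2 : ∑ n ∈ Finset.Icc 1 X,
      (((if n % W = a then lam n - Lw w n else 0 : ℝ)) : ℂ) * e (α * n) =
      ∑ n ∈ Finset.Icc 1 X, ((((if n % W = a then (1 : ℝ) else 0) * (lam n - Lw w n) : ℝ)) : ℂ) *
        e (α * n) := by
    refine Finset.sum_congr rfl fun n _ => ?_
    congr 2
    split_ifs
    · rw [one_mul]
    · rw [zero_mul]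
  rw [e2]
  refine h.trans ?_
  have h1 : C * (w : ℝ) ^ (-(1 / 3) : ℝ) ≤ η / (4 * W) := by
    calc C * (w : ℝ) ^ (-(1 / 3) : ℝ) ≤ C * (η / (4 * W * C)) :=
          mul_le_mul_of_nonneg_left hl.le hC.le
      _ = η / (4 * W) := by field_simp
  have h2 : E ≤ (η / (2 * W)) * X := by
    rw [hE]
    apply mul_le_mul_of_nonneg_right _ (Nat.cast_nonneg X)
    have e3 : η / (2 * (W : ℝ)) = η / (4 * W) + η / (4 * W) := by
      field_simp
      ring
    rw [e3]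
    linarith
  calc 2 * 1 * (W : ℝ) * E ≤ 2 * 1 * W * ((η / (2 * W)) * X) :=
        mul_le_mul_of_nonneg_left h2 (by positivity)
    _ = η * X := by field_simp

theorem d03_sum_lam_le (X : ℕ) : ∑ n ∈ Finset.Icc 1 X, lam n ≤ 2 * X := by
  have h1 : ∑ n ∈ Finset.Icc 1 X, lam n = Chebyshev.theta (X : ℝ) := by
    unfold Chebyshev.theta lam
    rw [← Finset.sum_filter, Nat.floor_natCast]
    apply Finset.sum_congr _ (fun _ _ => rfl)
    ext n
    simp only [Finset.mem_filter, Finset.mem_Icc, Finset.mem_Ioc]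
    constructor
    · rintro ⟨⟨h2, h4⟩, h3⟩
      exact ⟨⟨h3.pos, h4⟩, h3⟩
    · rintro ⟨⟨h2, h4⟩, h3⟩
      exact ⟨⟨h2, h4⟩, h3⟩
  rw [h1]
  refine (Chebyshev.theta_le_log4_mul_x (Nat.cast_nonneg X)).trans ?_
  apply mul_le_mul_of_nonneg_right _ (Nat.cast_nonneg X)
  have h2 : Real.log 4 = 2 * Real.log 2 := by
    rw [show (4 : ℝ) = 2 ^ 2 by norm_num, Real.log_pow]; norm_num
  rw [h2]
  have := Real.log_two_lt_d9
  linarith

theorem colour_model (W : ℕ) (hW : 1 ≤ W) : ∀ η : ℝ, 0 < η → ∃ w₀ : ℕ, ∀ w : ℕ, w₀ ≤ w →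
    ∃ X₀ : ℕ, ∀ X : ℕ, X₀ ≤ X → ∀ (a : ℕ) (f : ℕ → ℝ),
      (∀ n, 0 ≤ f n ∧ f n ≤ if n % W = a then lam n else 0) →
      ∃ F : ℕ → ℝ, (∀ n, 0 ≤ F n ∧ F n ≤ if n % W = a then Lw w n else 0) ∧
        (∀ n, n ∉ Finset.Icc 1 X → F n = 0) ∧
        ∀ α : ℝ, ‖∑ n ∈ Finset.Icc 1 X, ((f n - F n : ℝ) : ℂ) * e (α * n)‖ ≤ η * X := by
  intro η hη
  obtain ⟨η0, hη0, hdm⟩ := dense_model η hη
  obtain ⟨w₀, hw₀⟩ := class_close W hW (min η0 1) (by positivity)
  refine ⟨w₀, ?_⟩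
  intro w hw
  obtain ⟨X₀, hX₀⟩ := hw₀ w hw
  refine ⟨max X₀ 1, ?_⟩
  intro X hX a f hf
  have hX1 : 1 ≤ X := le_trans (le_max_right _ _) hX
  have hXr : (0 : ℝ) ≤ X := Nat.cast_nonneg X
  have hcl := hX₀ X (le_trans (le_max_left _ _) hX) a
  set ν : ℕ → ℝ := fun n => if n % W = a then lam n else 0 with hν
  set μ : ℕ → ℝ := fun n => if n % W = a then Lw w n else 0 with hμ
  have hd : ∀ n, ν n - μ n = if n % W = a then lam n - Lw w n else 0 := by
    intro n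
    rw [hν, hμ]
    simp only
    split_ifs
    · rfl
    · rw [sub_zero]
  have hsn : ∑ n ∈ Finset.Icc 1 X, ν n ≤ 2 * X := by
    refine le_trans (Finset.sum_le_sum fun n _ => ?_) (d03_sum_lam_le X)
    rw [hν]
    simp only
    split_ifs
    · exact le_rfl
    · exact lam_nonneg n
  have hdiff : |∑ n ∈ Finset.Icc 1 X, (ν n - μ n)| ≤ X := by
    have h := hcl 0
    have e1 : ∑ n ∈ Finset.Icc 1 X,
        (((if n % W = a then lam n - Lw w n else 0 : ℝ)) : ℂ) * e (0 * n) =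
        ((∑ n ∈ Finset.Icc 1 X, (ν n - μ n) : ℝ) : ℂ) := by
      rw [Complex.ofReal_sum]
      refine Finset.sum_congr rfl fun n _ => ?_
      rw [hd n, zero_mul, e_zero, mul_one]
    rw [e1, Complex.norm_real, Real.norm_eq_abs] at h
    refine h.trans ?_
    calc min η0 1 * (X : ℝ) ≤ 1 * X := mul_le_mul_of_nonneg_right (min_le_right _ _) hXr
      _ = X := one_mul _
  have hsm : ∑ n ∈ Finset.Icc 1 X, μ n ≤ 3 * X := by
    rw [Finset.sum_sub_distrib] at hdiff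
    have := (abs_le.1 hdiff).1
    linarith
  exact hdm X hX1 ν μ f hf
    (fun n => by
      rw [hμ]
      simp only
      split_ifs
      · exact Lw_nonneg w n
      · exact le_rfl)
    (by linarith) hsm
    (fun α => by
      have e1 : ∑ n ∈ Finset.Icc 1 X, ((ν n - μ n : ℝ) : ℂ) * e (α * n) =
          ∑ n ∈ Finset.Icc 1 X,
            (((if n % W = a then lam n - Lw w n else 0 : ℝ)) : ℂ) * e (α * n) :=
        Finset.sum_congr rfl fun n _ => by rw [hd n]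
      rw [e1]
      exact (hcl α).trans (mul_le_mul_of_nonneg_right (min_le_left _ _) hXr))

end Pool.Agent.Lib.MG
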