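import Pool.Agent.Lib.MP_7b7e48_nt.MG.Basic
import Pool.Agent.Lib.MP_7b7e48_nt.GT.Defs
import Pool.Agent.Lib.MP_7b7e48_nt.GT.ConvL2

/-!
# F01: exponential sums over integers and over `ZMod N`

Proof.  Every character of `ZMod N` is `x ↦ stdAddChar (ξ * x)` for some `ξ : ZMod N`
(`AddChar.zmodAddEquiv` or `AddChar.exists_mulShift`-type lemma; injectivity
`ZMod.isPrimitive_stdAddChar` and `AddChar.card_eq`), and `stdAddChar (ξ * (m : ZMod N)) =
e (ξ.val / N * m)` (`Transfer.std_eq`).  The sum over `x : ZMod N` with `x.val ≤ 2 Y < N` is the sum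
over `m ∈ range (2 Y + 1)` (`Transfer.sum_val`) of `v * g (a + W m) * e (ξ.val / N * m)`.  Put
`n = a + W m`, `1 ≤ n ≤ X1`, `m = (n - a) / W`, `e (β m) = e (-β a / W) * e (β / W * n)`; the `n` in
`Icc 1 X1` which are not `≡ a` contribute `0` by `hg` (and `n ≡ a [W]`, `n ≥ 1`, `a < W` gives
`n = a + W m`).
-/

open Finset

namespace Pool.Agent.Lib.MG

open Pool.Agent.Lib.GT

theorem exists_std {N : ℕ} [NeZero N] (χ : AddChar (ZMod N) ℂ) :
    ∃ ξ : ZMod N, ∀ x, χ x = ZMod.stdAddChar (ξ * x) := by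
  classical
  have hinj : Function.Injective (ZMod.stdAddChar (N := N)).mulShift :=
    AddChar.to_mulShift_inj_of_isPrimitive (ZMod.isPrimitive_stdAddChar N)
  have hbij : Function.Bijective (ZMod.stdAddChar (N := N)).mulShift := by
    rw [Nat.bijective_iff_injective_and_card]
    refine ⟨hinj, ?_⟩
    rw [Nat.card_eq_fintype_card, Nat.card_eq_fintype_card, AddChar.card_eq]
  obtain ⟨ξ, hξ⟩ := hbij.2 χ
  exact ⟨ξ, fun x => by rw [← hξ, AddChar.mulShift_apply]⟩

theorem fourier_transport {N Y W a X1 : ℕ} [NeZero N] (hN : 4 * Y < N) (hW : 0 < W)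
    (ha1 : 1 ≤ a) (ha : a < W) (hX1 : X1 = a + W * (2 * Y)) {v : ℝ} (hv0 : 0 ≤ v) {g : ℕ → ℝ}
    (hg : ∀ n, n % W ≠ a → g n = 0) {E : ℝ}
    (hE : ∀ α : ℝ, ‖∑ n ∈ Finset.Icc 1 X1, (g n : ℂ) * e (α * n)‖ ≤ E)
    (χ : AddChar (ZMod N) ℂ) :
    ‖∑ x : ZMod N, (((if x.val ≤ 2 * Y then v * g (a + W * x.val) else 0 : ℝ)) : ℂ) * χ x‖ ≤
      v * E := by
  classical
  obtain ⟨ξ, hξ⟩ := exists_std χ
  obtain ⟨u, hu⟩ : ∃ u : ℕ → ℝ, u = fun m => if m ≤ 2 * Y then v * g (a + W * m) else 0 := ⟨_, rfl⟩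
  have hu0 : ∀ n, 2 * Y < n → u n = 0 := fun n hn => by rw [hu]; exact if_neg (by omega)
  have h1 : ∑ x : ZMod N, (((if x.val ≤ 2 * Y then v * g (a + W * x.val) else 0 : ℝ)) : ℂ) * χ x =
      Transfer.ft (Transfer.lift u) ξ := by
    unfold Transfer.ft Transfer.lift
    refine Finset.sum_congr rfl fun x _ => ?_
    rw [hξ x, hu]
  rw [h1, Transfer.ft_lift' (X := 2 * Y) (by omega) hu0 ξ]
  have hWr : (W : ℝ) ≠ 0 := by exact_mod_cast hW.ne'
  obtain ⟨α, hα⟩ : ∃ α : ℝ, α = ((ξ.val : ℝ) / N) / W := ⟨_, rfl⟩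
  have hαW : α * W = (ξ.val : ℝ) / N := by rw [hα]; field_simp
  have h2 : ∑ n ∈ Finset.Icc 1 X1, (g n : ℂ) * e (α * n) =
      ∑ m ∈ range (2 * Y + 1), (g (a + W * m) : ℂ) * e (α * ((a + W * m : ℕ) : ℝ)) := by
    symm
    rw [← Finset.sum_image (s := range (2 * Y + 1)) (g := fun m => a + W * m)
      (f := fun n : ℕ => (g n : ℂ) * e (α * (n : ℝ)))]
    · apply Finset.sum_subset
      · intro n hn
        obtain ⟨m, hm, rfl⟩ := Finset.mem_image.mp hn
        rw [Finset.mem_range] at hm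
        rw [Finset.mem_Icc, hX1]
        have : W * m ≤ W * (2 * Y) := Nat.mul_le_mul_left _ (by omega)
        exact ⟨by omega, by omega⟩
      · intro n hn hn'
        by_cases hna : n % W = a
        · exfalso
          apply hn'
          rw [Finset.mem_Icc] at hn
          have h3 := Nat.mod_add_div n W
          rw [hna] at h3
          refine Finset.mem_image.mpr ⟨n / W, ?_, h3⟩
          rw [Finset.mem_range]
          have h4 : W * (n / W) ≤ W * (2 * Y) := by omega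
          have := Nat.le_of_mul_le_mul_left h4 hW
          omega
        · rw [hg n hna]; simp
    · intro x _ y _ hxy
      have h3 : W * x = W * y := by
        have : a + W * x = a + W * y := hxy
        omega
      exact Nat.eq_of_mul_eq_mul_left hW h3
  have h5 : ∑ n ∈ range (2 * Y + 1), (u n : ℂ) * e (((ξ.val : ℝ) / N) * n) =
      ((v : ℝ) : ℂ) * e (-(α * a)) * ∑ n ∈ Finset.Icc 1 X1, (g n : ℂ) * e (α * n) := by
    rw [h2, Finset.mul_sum]
    refine Finset.sum_congr rfl fun m hm => ?_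
    rw [Finset.mem_range] at hm
    have h6 : u m = v * g (a + W * m) := by rw [hu]; exact if_pos (by omega)
    have h7 : e (((ξ.val : ℝ) / N) * m) = e (-(α * a)) * e (α * ((a + W * m : ℕ) : ℝ)) := by
      rw [← e_add]
      congr 1
      push_cast
      rw [← hαW]
      ring
    rw [h6, h7]
    push_cast
    ring
  rw [h5, norm_mul, norm_mul, norm_e, mul_one, Complex.norm_real, Real.norm_of_nonneg hv0]
  exact mul_le_mul_of_nonneg_left (hE α) hv0

end Pool.Agent.Lib.MG
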