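import Pool.Agent.Lib.MP_7b7e48_nt.MG.Basic
import Pool.Agent.Lib.MP_7b7e48_nt.SP.Pair

/-!
# F02: counts in `ZMod N` and convolutions of integer functions

`cnt_le_conv`.  For fixed `m : ZMod N` with `m.val ≤ Y`, `bad (a + W m.val)`, and `n = a + W m.val`:
if `x = (m + t).val ≤ 2 Y` and `y = (m - t).val ≤ 2 Y` then `x + y ≡ 2 m.val (mod N)` and both
are `≤ 4 Y < N`, so `x + y = 2 m.val`, `(a + W x) + (a + W y) = 2 n`.  The map
`t ↦ a + W (m + t).val` is injective into `range (2 n + 1)`, so
`∑ t, F (m + t) F (m - t) ≤ v ^ 2 * cv Fn Fn (2 n) ≤ cv Fn Fn (2 n)`; and `m ↦ a + W m.val` is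
injective into the set of `n`.
`conv_compare`: `f * f - F * F = f * h + F * h`, `h = f - F` (`cv` is bilinear and commutative:
`SP.cv_comm`, a one-line expansion of the sums).
-/

open Finset

namespace Pool.Agent.Lib.MG

open Pool.Agent.Lib.GT Pool.Agent.Lib.MP_7b7e48_nt.SP

theorem val_add_eq_two_mul {N Y : ℕ} [NeZero N] (hN : 4 * Y < N) {m x : ZMod N}
    (hm : m.val ≤ Y) (hx : x.val ≤ 2 * Y) (hy : (m + m - x).val ≤ 2 * Y) :
    x.val + (m + m - x).val = 2 * m.val := by
  have h1 : (x + (m + m - x)).val = (x.val + (m + m - x).val) % N := ZMod.val_add _ _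
  have h2 : (m + m).val = (m.val + m.val) % N := ZMod.val_add _ _
  have h3 : x + (m + m - x) = m + m := by ring
  rw [h3, h2, Nat.mod_eq_of_lt (by omega), Nat.mod_eq_of_lt (by omega)] at h1
  omega

open Classical in
theorem cnt_le_conv {N Y W a : ℕ} [NeZero N] (hN : 4 * Y < N) (hW : 0 < W) (ha1 : 1 ≤ a) {v : ℝ}
    (hv0 : 0 ≤ v) (hv1 : v ≤ 1) {Fn : ℕ → ℝ} (hF0 : ∀ n, 0 ≤ Fn n) (bad : ℕ → Prop) :
    Cnt (fun x : ZMod N => if x.val ≤ Y ∧ bad (a + W * x.val) then 1 else 0)
      (fun x : ZMod N => if x.val ≤ 2 * Y then v * Fn (a + W * x.val) else 0) ≤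
      ∑ n ∈ (Finset.Icc 1 (a + W * Y)).filter bad, cv Fn Fn (2 * n) := by
  set F : ZMod N → ℝ := fun x : ZMod N => if x.val ≤ 2 * Y then v * Fn (a + W * x.val) else 0
    with hF
  have hFnn : ∀ x, 0 ≤ F x := by
    intro x
    rw [hF]
    dsimp only
    split_ifs
    · exact mul_nonneg hv0 (hF0 _)
    · exact le_rfl
  have hv2 : v * v ≤ 1 := by nlinarith
  have hcv0 : ∀ n, 0 ≤ cv Fn Fn n := by
    intro n
    unfold cv
    exact Finset.sum_nonneg (fun x _ => mul_nonneg (hF0 _) (hF0 _))
  have hinjW : ∀ x y : ZMod N, a + W * x.val = a + W * y.val → x = y := by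
    intro x y hxy
    have h1 : W * x.val = W * y.val := by omega
    have h2 : x.val = y.val := Nat.eq_of_mul_eq_mul_left hW h1
    exact ZMod.val_injective N h2
  have hinner : ∀ m : ZMod N, m.val ≤ Y →
      ∑ t, F (m + t) * F (m - t) ≤ cv Fn Fn (2 * (a + W * m.val)) := by
    intro m hm
    have h1 : ∑ t, F (m + t) * F (m - t) = ∑ x, F x * F (m + m - x) := by
      refine Fintype.sum_equiv (Equiv.addLeft m) _ _ ?_
      intro t
      have h2 : m + m - (m + t) = m - t := by ring
      show F (m + t) * F (m - t) = F (m + t) * F (m + m - (m + t))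
      rw [h2]
    rw [h1]
    set S : Finset (ZMod N) := Finset.univ.filter
      (fun x => x.val ≤ 2 * Y ∧ (m + m - x).val ≤ 2 * Y) with hS
    set g : ℕ → ℝ := fun p => Fn p * Fn (2 * (a + W * m.val) - p) with hg
    have h3 : ∑ x, F x * F (m + m - x) ≤ ∑ x ∈ S, g (a + W * x.val) := by
      rw [hS, Finset.sum_filter]
      apply Finset.sum_le_sum
      intro x _
      by_cases hx : x.val ≤ 2 * Y ∧ (m + m - x).val ≤ 2 * Y
      · rw [if_pos hx]
        have h4 := val_add_eq_two_mul hN hm hx.1 hx.2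
        have h5 : 2 * (a + W * m.val) - (a + W * x.val) = a + W * (m + m - x).val := by
          have h6 : W * x.val + W * (m + m - x).val = 2 * (W * m.val) := by
            rw [← Nat.mul_add, h4]
            ring
          omega
        have h7 : F x = v * Fn (a + W * x.val) := by
          rw [hF]
          dsimp only
          rw [if_pos hx.1]
        have h8 : F (m + m - x) = v * Fn (a + W * (m + m - x).val) := by
          rw [hF]
          dsimp only
          rw [if_pos hx.2]
        rw [h7, h8, hg]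
        dsimp only
        rw [h5]
        have h9 : 0 ≤ Fn (a + W * x.val) * Fn (a + W * (m + m - x).val) :=
          mul_nonneg (hF0 _) (hF0 _)
        calc v * Fn (a + W * x.val) * (v * Fn (a + W * (m + m - x).val)) =
              (v * v) * (Fn (a + W * x.val) * Fn (a + W * (m + m - x).val)) := by ring
          _ ≤ 1 * (Fn (a + W * x.val) * Fn (a + W * (m + m - x).val)) :=
              mul_le_mul_of_nonneg_right hv2 h9
          _ = _ := one_mul _
      · rw [if_neg hx]
        have h10 : F x * F (m + m - x) = 0 := by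
          by_cases h11 : x.val ≤ 2 * Y
          · have h12 : ¬ (m + m - x).val ≤ 2 * Y := fun h => hx ⟨h11, h⟩
            have h13 : F (m + m - x) = 0 := by
              rw [hF]
              dsimp only
              rw [if_neg h12]
            rw [h13, mul_zero]
          · have h13 : F x = 0 := by
              rw [hF]
              dsimp only
              rw [if_neg h11]
            rw [h13, zero_mul]
        rw [h10]
    have h14 : ∑ x ∈ S, g (a + W * x.val) = ∑ p ∈ S.image (fun x => a + W * x.val), g p := by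
      rw [Finset.sum_image]
      intro x _ y _ hxy
      exact hinjW x y hxy
    have h15 : S.image (fun x => a + W * x.val) ⊆ range (2 * (a + W * m.val) + 1) := by
      intro p hp
      rw [Finset.mem_image] at hp
      obtain ⟨x, hx, rfl⟩ := hp
      rw [hS, Finset.mem_filter] at hx
      have h4 := val_add_eq_two_mul hN hm hx.2.1 hx.2.2
      rw [Finset.mem_range]
      have h6 : W * x.val + W * (m + m - x).val = 2 * (W * m.val) := by
        rw [← Nat.mul_add, h4]
        ring
      omega
    calc ∑ x, F x * F (m + m - x) ≤ ∑ x ∈ S, g (a + W * x.val) := h3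
      _ = ∑ p ∈ S.image (fun x => a + W * x.val), g p := h14
      _ ≤ ∑ p ∈ range (2 * (a + W * m.val) + 1), g p :=
          Finset.sum_le_sum_of_subset_of_nonneg h15
            (fun p _ _ => mul_nonneg (hF0 _) (hF0 _))
      _ = cv Fn Fn (2 * (a + W * m.val)) := by
          unfold cv
          rfl
  unfold Cnt
  set S2 : Finset (ZMod N) := Finset.univ.filter
    (fun x : ZMod N => x.val ≤ Y ∧ bad (a + W * x.val)) with hS2
  have h20 : ∑ m : ZMod N, ∑ t, (if m.val ≤ Y ∧ bad (a + W * m.val) then (1 : ℝ) else 0) *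
      (F (m + t) * F (m - t)) ≤ ∑ m ∈ S2, cv Fn Fn (2 * (a + W * m.val)) := by
    rw [hS2, Finset.sum_filter]
    apply Finset.sum_le_sum
    intro m _
    rw [← Finset.mul_sum]
    by_cases hm : m.val ≤ Y ∧ bad (a + W * m.val)
    · rw [if_pos hm, if_pos hm, one_mul]
      exact hinner m hm.1
    · rw [if_neg hm, if_neg hm, zero_mul]
  refine le_trans h20 ?_
  have h21 : ∑ m ∈ S2, cv Fn Fn (2 * (a + W * m.val)) =
      ∑ n ∈ S2.image (fun x => a + W * x.val), cv Fn Fn (2 * n) := by
    rw [Finset.sum_image]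
    intro x _ y _ hxy
    exact hinjW x y hxy
  rw [h21]
  apply Finset.sum_le_sum_of_subset_of_nonneg
  · intro n hn
    rw [Finset.mem_image] at hn
    obtain ⟨x, hx, rfl⟩ := hn
    rw [hS2, Finset.mem_filter] at hx
    rw [Finset.mem_filter, Finset.mem_Icc]
    refine ⟨⟨by omega, ?_⟩, hx.2.2⟩
    have : W * x.val ≤ W * Y := Nat.mul_le_mul_left _ hx.2.1
    omega
  · intro n _ _
    exact hcv0 _

theorem conv_compare {X : ℕ} {ε : ℝ} {f F : ℕ → ℝ}
    (h1 : ∑ n ∈ range (2 * X + 1), |∑ x ∈ range (n + 1), f x * (f (n - x) - F (n - x))| ≤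
      ε * X ^ 2)
    (h2 : ∑ n ∈ range (2 * X + 1), |∑ x ∈ range (n + 1), F x * (f (n - x) - F (n - x))| ≤
      ε * X ^ 2) :
    ∑ n ∈ range (2 * X + 1), |cv f f n - cv F F n| ≤ 2 * (ε * X ^ 2) := by
  have h3 : ∀ n, |cv f f n - cv F F n| ≤
      |∑ x ∈ range (n + 1), f x * (f (n - x) - F (n - x))| +
        |∑ x ∈ range (n + 1), F x * (f (n - x) - F (n - x))| := by
    intro n
    have h4 : cv f f n - cv F F n =
        (∑ x ∈ range (n + 1), f x * (f (n - x) - F (n - x))) +
          (∑ x ∈ range (n + 1), F x * (f (n - x) - F (n - x))) := by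
      have h5 : ∑ x ∈ range (n + 1), f x * (f (n - x) - F (n - x)) = cv f f n - cv f F n := by
        unfold cv
        rw [← Finset.sum_sub_distrib]
        exact Finset.sum_congr rfl (fun x _ => by ring)
      have h6 : ∑ x ∈ range (n + 1), F x * (f (n - x) - F (n - x)) = cv F f n - cv F F n := by
        unfold cv
        rw [← Finset.sum_sub_distrib]
        exact Finset.sum_congr rfl (fun x _ => by ring)
      rw [h5, h6, cv_comm F f n]
      ring
    rw [h4]
    exact abs_add_le _ _
  calc ∑ n ∈ range (2 * X + 1), |cv f f n - cv F F n| ≤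
        ∑ n ∈ range (2 * X + 1), (|∑ x ∈ range (n + 1), f x * (f (n - x) - F (n - x))| +
        |∑ x ∈ range (n + 1), F x * (f (n - x) - F (n - x))|) :=
        Finset.sum_le_sum (fun n _ => h3 n)
    _ = _ := Finset.sum_add_distrib
    _ ≤ ε * X ^ 2 + ε * X ^ 2 := add_le_add h1 h2
    _ = 2 * (ε * X ^ 2) := by ring

end Pool.Agent.Lib.MG
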