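import Pool.Agent.Lib.MP_7b7e48_nt.MG.F02
import Pool.Agent.Lib.MP_7b7e48_nt.GT.Defs

/-!
# F03: representations in one colour

`cw κ W a i n = log n` if `n` is a prime of colour `i` with `n % W = a`, else `0`.
`sum_cv_le`: `∑ i, cv (f i) (f i) (2 n) ≤ (log X1)^2 * (number of ordered monochromatic pairs of
distinct primes with sum 2 n + 1)`, if `f i ≤ cw κ W a i` vanishes beyond `X1`.
Proof.  `∑ i, ∑ p ∈ range (2 n + 1), f i p * f i (2 n - p)`; a nonzero term has `p`, `2 n - p` primes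
`≤ X1` of colour `i`, it is `≤ (log X1) ^ 2`; for each `p` at most one `i` (the colour of `p`).  The
`p` with `p ≠ 2 n - p` inject into the set of pairs (finite, since both are `≤ 2 n`), `p = n` is one
more.
-/

open Finset

namespace Pool.Agent.Lib.MG

open Pool.Agent.Lib.GT Pool.Agent.Lib.MP_7b7e48_nt.SP

open Classical in
/-- the primes of colour `i` in the class `a` modulo `W`, weighted by the logarithm -/
noncomputable def cw {r : ℕ} (κ : Nat.Primes → Fin r) (W a : ℕ) (i : Fin r) (n : ℕ) : ℝ :=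
  if h : n.Prime then (if κ ⟨n, h⟩ = i ∧ n % W = a then Real.log n else 0) else 0

/-- the number of ordered pairs of distinct primes of the same colour with sum `2 n` -/
noncomputable def mono {r : ℕ} (κ : Nat.Primes → Fin r) (n : ℕ) : ℕ :=
  {a : Nat.Primes × Nat.Primes | a.1 ≠ a.2 ∧ (a.1 : ℕ) + a.2 = 2 * n ∧ κ a.1 = κ a.2}.ncard

theorem f03_finite {r : ℕ} (κ : Nat.Primes → Fin r) (n : ℕ) :
    {a : Nat.Primes × Nat.Primes | a.1 ≠ a.2 ∧ (a.1 : ℕ) + a.2 = 2 * n ∧ κ a.1 = κ a.2}.Finite := by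
  have hinj : Function.Injective (fun a : Nat.Primes × Nat.Primes => ((a.1 : ℕ), (a.2 : ℕ))) := by
    rintro ⟨a, b⟩ ⟨c, d⟩ h
    simp only [Prod.mk.injEq] at h ⊢
    exact ⟨Subtype.ext h.1, Subtype.ext h.2⟩
  refine Set.Finite.subset (Set.Finite.preimage hinj.injOn
    ((Set.finite_Iic (2 * n)).prod (Set.finite_Iic (2 * n)))) ?_
  rintro ⟨a, b⟩ ⟨-, h, -⟩
  simp only at h
  rw [Set.mem_preimage, Set.mem_prod, Set.mem_Iic, Set.mem_Iic]
  constructor
  · show (a : ℕ) ≤ 2 * n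
    omega
  · show (b : ℕ) ≤ 2 * n
    omega

open Classical in
/-- the first primes of the monochromatic pairs -/
noncomputable def f03P {r : ℕ} (κ : Nat.Primes → Fin r) (n : ℕ) : Finset ℕ :=
  (range (2 * n + 1)).filter
    (fun p => ∃ (h : p.Prime) (h' : (2 * n - p).Prime), κ ⟨p, h⟩ = κ ⟨2 * n - p, h'⟩)

theorem f03_card {r : ℕ} (κ : Nat.Primes → Fin r) (n : ℕ) : (f03P κ n).card ≤ mono κ n + 1 := by
  have h1 : (((f03P κ n).erase n : Finset ℕ) : Set ℕ).ncard ≤
      ((fun a : Nat.Primes × Nat.Primes => (a.1 : ℕ)) ''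
        {a : Nat.Primes × Nat.Primes | a.1 ≠ a.2 ∧ (a.1 : ℕ) + a.2 = 2 * n ∧ κ a.1 = κ a.2}).ncard := by
    apply Set.ncard_le_ncard _ ((f03_finite κ n).image _)
    intro p hp
    rw [mem_coe, mem_erase] at hp
    obtain ⟨hpn, hp⟩ := hp
    unfold f03P at hp
    rw [mem_filter, mem_range] at hp
    obtain ⟨hp1, h, h', hk⟩ := hp
    refine ⟨(⟨p, h⟩, ⟨2 * n - p, h'⟩), ⟨?_, ?_, hk⟩, rfl⟩
    · intro heq
      have h2 : p = 2 * n - p := congrArg Subtype.val heq
      omega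
    · show p + (2 * n - p) = 2 * n
      omega
  have h2 := Set.ncard_image_le (f := fun a : Nat.Primes × Nat.Primes => (a.1 : ℕ)) (f03_finite κ n)
  rw [Set.ncard_coe_finset] at h1
  have h3 : (f03P κ n).card ≤ ((f03P κ n).erase n).card + 1 := by
    have := pred_card_le_card_erase (s := f03P κ n) (a := n)
    omega
  have h4 : mono κ n = {a : Nat.Primes × Nat.Primes | a.1 ≠ a.2 ∧ (a.1 : ℕ) + a.2 = 2 * n ∧
      κ a.1 = κ a.2}.ncard := rfl
  omega

theorem f03_le_log {r : ℕ} {κ : Nat.Primes → Fin r} {W a X1 : ℕ} (hX1 : 1 ≤ X1)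
    {f : Fin r → ℕ → ℝ} (hf : ∀ i n, 0 ≤ f i n ∧ f i n ≤ cw κ W a i n)
    (hfX : ∀ i n, X1 < n → f i n = 0) (i : Fin r) (p : ℕ) : f i p ≤ Real.log X1 := by
  have hl : 0 ≤ Real.log X1 := Real.log_nonneg (by exact_mod_cast hX1)
  rcases Nat.lt_or_ge X1 p with h | h
  · rw [hfX i p h]
    exact hl
  · refine (hf i p).2.trans ?_
    unfold cw
    split_ifs with h1 h2
    · exact Real.log_le_log (by exact_mod_cast h1.pos) (by exact_mod_cast h)
    · exact hl
    · exact hl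

theorem f03_ne {r : ℕ} {κ : Nat.Primes → Fin r} {W a : ℕ}
    {f : Fin r → ℕ → ℝ} (hf : ∀ i n, 0 ≤ f i n ∧ f i n ≤ cw κ W a i n) {i : Fin r} {p : ℕ}
    (h : f i p ≠ 0) : ∃ h : p.Prime, κ ⟨p, h⟩ = i := by
  have h1 : cw κ W a i p ≠ 0 := by
    intro h2
    have := hf i p
    rw [h2] at this
    exact h (le_antisymm this.2 this.1)
  unfold cw at h1
  split_ifs at h1 with h2 h3
  · exact ⟨h2, h3.1⟩
  · exact absurd rfl h1
  · exact absurd rfl h1

theorem sum_cv_le {r : ℕ} (κ : Nat.Primes → Fin r) (W a X1 : ℕ) (hX1 : 1 ≤ X1)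
    {f : Fin r → ℕ → ℝ} (hf : ∀ i n, 0 ≤ f i n ∧ f i n ≤ cw κ W a i n)
    (hfX : ∀ i n, X1 < n → f i n = 0) (n : ℕ) :
    ∑ i, cv (f i) (f i) (2 * n) ≤ (Real.log X1) ^ 2 * ((mono κ n : ℝ) + 1) := by
  have hl : 0 ≤ Real.log X1 := Real.log_nonneg (by exact_mod_cast hX1)
  unfold cv
  rw [sum_comm]
  have hterm : ∀ p ∈ range (2 * n + 1), ∑ i, f i p * f i (2 * n - p) ≤
      if p ∈ f03P κ n then (Real.log X1) ^ 2 else 0 := by
    intro p hp
    by_cases hex : ∃ i, f i p * f i (2 * n - p) ≠ 0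
    · obtain ⟨i, hi⟩ := hex
      obtain ⟨hp1, hk1⟩ := f03_ne hf (left_ne_zero_of_mul hi)
      obtain ⟨hp2, hk2⟩ := f03_ne hf (right_ne_zero_of_mul hi)
      have hmem : p ∈ f03P κ n := by
        unfold f03P
        rw [mem_filter]
        exact ⟨hp, hp1, hp2, by rw [hk1, hk2]⟩
      rw [if_pos hmem, sum_eq_single i]
      · rw [sq]
        exact mul_le_mul (f03_le_log hX1 hf hfX i p) (f03_le_log hX1 hf hfX i _) (hf i _).1 hl
      · intro j _ hj
        by_contra hne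
        obtain ⟨_, hk3⟩ := f03_ne hf (left_ne_zero_of_mul hne)
        exact hj (by rw [← hk3, hk1])
      · intro h
        exact absurd (mem_univ i) h
    · push Not at hex
      rw [sum_eq_zero (fun i _ => hex i)]
      split_ifs
      · positivity
      · exact le_rfl
  refine (sum_le_sum hterm).trans ?_
  rw [← sum_filter, sum_const, nsmul_eq_mul, mul_comm]
  apply mul_le_mul_of_nonneg_left _ (by positivity)
  have h1 : (range (2 * n + 1)).filter (fun p => p ∈ f03P κ n) ⊆ f03P κ n := by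
    intro p hp
    exact (mem_filter.1 hp).2
  have h2 := (card_le_card h1).trans (f03_card κ n)
  exact_mod_cast h2

end Pool.Agent.Lib.MG
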