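import Pool.Agent.Lib.MP_7b7e48_nt.MG.T01

/-!
# T02: transference with a fixed Fourier bound `η` (independent of `w`)

Same as `GT.transfer`, but the smallness of the Fourier transform of `h` is a constant `η(ε)`
while `w → ∞` afterwards, and `f` may also be bounded by `Lw w`.
-/

open Finset

namespace Pool.Agent.Lib.MG

open Pool.Agent.Lib.GT Pool.Agent.Lib.GT.Transfer

/-- final numerical step -/
theorem final_num2 {S2 F c W X Q RH KF c' η q r : ℝ}
    (hS : S2 ≤ F * (c * (W * ((η * X) ^ 2 * (2 * X + 1)) + (2 * X + 1) * Q) + RH))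
    (hF : F ≤ KF * X) (hF0 : 0 ≤ F) (hc : c ≤ c') (hc0 : 0 ≤ c) (hW : 1 ≤ W)
    (hQ : Q ≤ q * X ^ 2 / r) (hQ0 : 0 ≤ Q)
    (hRH : RH ≤ X ^ 3 / r) (hRH0 : 0 ≤ RH) (hX : 1 ≤ X) (hr : 1 ≤ r) :
    S2 ≤ KF * (3 * c' * W * η ^ 2 + 3 * c' * q / r + 1 / r) * X ^ 4 := by
  have hX0 : 0 ≤ X := by linarith
  have hr0 : 0 < r := by linarith
  have hW0 : 0 ≤ W := by linarith
  have hc'0 : 0 ≤ c' := hc0.trans hc
  have h1 : W * ((η * X) ^ 2 * (2 * X + 1)) ≤ 3 * W * η ^ 2 * X ^ 3 := by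
    calc W * ((η * X) ^ 2 * (2 * X + 1)) ≤ W * ((η * X) ^ 2 * (3 * X)) := by
          apply mul_le_mul_of_nonneg_left _ hW0
          apply mul_le_mul_of_nonneg_left _ (sq_nonneg _)
          linarith
      _ = _ := by ring
  have h2 : (2 * X + 1) * Q ≤ 3 * q * X ^ 3 / r := by
    calc (2 * X + 1) * Q ≤ (3 * X) * (q * X ^ 2 / r) :=
          mul_le_mul (by linarith) hQ hQ0 (by positivity)
      _ = _ := by ring
  have h0 : 0 ≤ W * ((η * X) ^ 2 * (2 * X + 1)) + (2 * X + 1) * Q := by positivity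
  have h3 : c * (W * ((η * X) ^ 2 * (2 * X + 1)) + (2 * X + 1) * Q) ≤
      c' * (3 * W * η ^ 2 * X ^ 3 + 3 * q * X ^ 3 / r) :=
    mul_le_mul hc (add_le_add h1 h2) h0 hc'0
  have h5 : F * (c * (W * ((η * X) ^ 2 * (2 * X + 1)) + (2 * X + 1) * Q) + RH) ≤
      (KF * X) * (c' * (3 * W * η ^ 2 * X ^ 3 + 3 * q * X ^ 3 / r) + X ^ 3 / r) := by
    apply mul_le_mul hF (add_le_add h3 hRH) _ (hF0.trans hF)
    have := mul_nonneg hc0 h0
    linarith
  refine (hS.trans h5).trans (le_of_eq ?_)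
  ring

/-- The bound for the square root term. -/
theorem Q_bound2 {X w w₁ z b K : ℕ} {h : ℕ → ℝ} {C₁ CV : ℝ} (hX3 : 3 ≤ X) (hw : 2 ≤ w₁)
    (hwz : w₁ ≤ z) (hwX : w₁ ≤ X) (hCV : 0 < CV)
    (hh : ∀ n, |h n| ≤ lam n + Lw w n)
    (hcorr : ∀ d : ℕ, 1 ≤ d → d ≤ X →
      |∑ x ∈ Finset.Icc 1 (X - d), (Lw z x - Lw w₁ x) * (Lw z (x + d) - Lw w₁ (x + d))| ≤
      X * Tw 0 d * (K * (1 / 2) ^ b * Tw w₁ d + (Tw w₁ d - 1) + 2 / w₁) + (z : ℝ) ^ (K * b))
    (hpow : ((1 : ℝ) / 2) ^ b ≤ 1 / w₁) (hz1 : (z : ℝ) ^ (K * b) ≤ Real.sqrt X)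
    (hVz : (V z)⁻¹ ≤ CV * Real.log X)
    (hah : ∀ D : ℕ, 1 ≤ D → D ≤ X → |acor X h D| ≤ C₁ * Tw 0 D * X)
    (hE1 : 8 * (1 + (V w)⁻¹) ^ 4 * (CV + (V w₁)⁻¹) ^ 2 * Real.sqrt w₁ * (Real.log X) ^ 6 ≤ X) :
    Real.sqrt ((acor X h 0) ^ 2 * |acor X (fun n => if n ≤ X then Lw z n - Lw w₁ n else 0) 0| +
      2 * ∑ D ∈ Icc 1 X, (acor X h D) ^ 2 *
        |acor X (fun n => if n ≤ X then Lw z n - Lw w₁ n else 0) D|) ≤
      Real.sqrt (1 + 2 * C₁ ^ 2 * Real.exp 256 * (K + 7)) * X ^ 2 /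
        Real.sqrt (Real.sqrt w₁) := by
  set W := (V w₁)⁻¹ with hW
  set Wo := (V w)⁻¹ with hWo
  have hW1 : 1 ≤ W := one_le_V_inv w₁
  have hW0 : 0 ≤ W := by linarith
  have hWo1 : 1 ≤ Wo := one_le_V_inv w
  have hWo0 : 0 ≤ Wo := by linarith
  have hz : 2 ≤ z := hw.trans hwz
  have hXr : (3 : ℝ) ≤ X := by exact_mod_cast hX3
  have hX0 : (0 : ℝ) < X := by linarith
  have hwr : (2 : ℝ) ≤ w₁ := by exact_mod_cast hw
  have hlog1 : 1 ≤ Real.log X := by
    rw [Real.le_log_iff_exp_le hX0]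
    exact Real.exp_one_lt_three.le.trans hXr
  have hlog0 : 0 ≤ Real.log X := by linarith
  have hsX : Real.sqrt X * Real.sqrt X = X := Real.mul_self_sqrt hX0.le
  have hsX0 : 0 ≤ Real.sqrt X := Real.sqrt_nonneg _
  set r := Real.sqrt (Real.sqrt w₁) with hr
  have hsw1 : 1 ≤ Real.sqrt w₁ := by rw [Real.one_le_sqrt]; linarith
  have hr1 : 1 ≤ r := by rw [hr, Real.one_le_sqrt]; exact hsw1
  have hr0 : 0 < r := by linarith
  have hr2 : r ^ 2 = Real.sqrt w₁ := Real.sq_sqrt (Real.sqrt_nonneg _)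
  set ν : ℕ → ℝ := fun n => if n ≤ X then Lw z n - Lw w₁ n else 0 with hν
  have hlamX : ∀ n, n ≤ X → lam n ≤ Real.log X := by
    intro n hn
    unfold lam
    split_ifs with hp
    · exact Real.log_le_log (by exact_mod_cast hp.pos) (by exact_mod_cast hn)
    · exact hlog0
  have hVz0 := V_pos z
  rw [Real.sqrt_le_iff]
  refine ⟨by positivity, ?_⟩
  have hC2 : 0 ≤ 1 + 2 * C₁ ^ 2 * Real.exp 256 * (K + 7) := by
    have := Real.exp_pos 256
    positivity
  have hy : (Real.sqrt (1 + 2 * C₁ ^ 2 * Real.exp 256 * (K + 7)) * X ^ 2 / r) ^ 2 =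
      (1 + 2 * C₁ ^ 2 * Real.exp 256 * (K + 7)) * X ^ 4 / Real.sqrt w₁ := by
    rw [div_pow, hr2, mul_pow, Real.sq_sqrt hC2]
    ring
  rw [hy]
  have t1 : (acor X h 0) ^ 2 * |acor X ν 0| ≤ X ^ 4 / Real.sqrt w₁ := by
    have a1 : |acor X h 0| ≤ (X + 1) * ((1 + Wo) * Real.log X) ^ 2 := by
      apply acor_zero_le
      intro n hn
      have h1 := hlamX n hn
      have h2 : |h n| ≤ lam n + Wo := (hh n).trans (by linarith [Lw_le w n])
      have e2 : Wo ≤ Wo * Real.log X := le_mul_of_one_le_right hWo0 hlog1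
      linarith
    have a2 : |acor X ν 0| ≤ (X + 1) * ((CV + W) * Real.log X) ^ 2 := by
      apply acor_zero_le
      intro n hn
      simp only [hν]
      rw [if_pos hn]
      have h1 := Lw_nonneg z n
      have h2 := Lw_nonneg w₁ n
      have h3 := Lw_le z n
      have h4 := Lw_le w₁ n
      have e2 : W ≤ W * Real.log X := le_mul_of_one_le_right hW0 hlog1
      have h5 : (V z)⁻¹ + W ≤ (CV + W) * Real.log X := by linarith
      have h6 : |Lw z n - Lw w₁ n| ≤ (V z)⁻¹ + W := by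
        rw [abs_le]
        constructor <;> linarith [inv_pos.mpr hVz0]
      exact h6.trans h5
    rw [le_div_iff₀ (by linarith)]
    calc (acor X h 0) ^ 2 * |acor X ν 0| * Real.sqrt w₁
        ≤ ((X + 1) * ((1 + Wo) * Real.log X) ^ 2) ^ 2 *
          ((X + 1) * ((CV + W) * Real.log X) ^ 2) * Real.sqrt w₁ := by
          apply mul_le_mul_of_nonneg_right _ (Real.sqrt_nonneg _)
          apply mul_le_mul _ a2 (abs_nonneg _) (by positivity)
          rw [← sq_abs (acor X h 0)]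
          exact pow_le_pow_left₀ (abs_nonneg _) a1 2
      _ = (X + 1) ^ 3 * ((1 + Wo) ^ 4 * (CV + W) ^ 2 * Real.sqrt w₁ * (Real.log X) ^ 6) := by ring
      _ ≤ (2 * X) ^ 3 * ((1 + Wo) ^ 4 * (CV + W) ^ 2 * Real.sqrt w₁ * (Real.log X) ^ 6) := by
          apply mul_le_mul_of_nonneg_right _ (by positivity)
          apply pow_le_pow_left₀ (by positivity)
          linarith
      _ = X ^ 3 * (8 * (1 + Wo) ^ 4 * (CV + W) ^ 2 * Real.sqrt w₁ * (Real.log X) ^ 6) := by ring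
      _ ≤ X ^ 3 * X := mul_le_mul_of_nonneg_left hE1 (by positivity)
      _ = X ^ 4 := by ring
  have t2 : ∑ D ∈ Icc 1 X, (acor X h D) ^ 2 * |acor X ν D| ≤
      C₁ ^ 2 * Real.exp 256 * X ^ 4 * (K + 7) / Real.sqrt w₁ := by
    have hsum := sum_corr_le (X := X) (w := w₁) (h := h) (ν := ν) (C₁ := C₁) (W := 1)
      (A := K / w₁) (B := 2 / w₁) (by omega) (by positivity) (by positivity)
      (fun D hD => by
        rw [Finset.mem_Icc] at hD
        rw [one_pow, mul_one]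
        exact hah D hD.1 hD.2)
      (fun D hD => by
        rw [Finset.mem_Icc] at hD
        rw [hν, acor_nu_eq hw hz hD.1 hD.2]
        refine (hcorr D hD.1 hD.2).trans (add_le_add ?_ hz1)
        apply mul_le_mul_of_nonneg_left
        · have h1 := Corr.one_le_Tw w₁ D
          have h2 : (K : ℝ) * (1 / 2) ^ b ≤ K / w₁ := by
            calc (K : ℝ) * (1 / 2) ^ b ≤ K * (1 / w₁) :=
                  mul_le_mul_of_nonneg_left hpow (Nat.cast_nonneg K)
              _ = K / w₁ := by ring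
          have h3 : (K : ℝ) * (1 / 2) ^ b * Tw w₁ D ≤ K / w₁ * Tw w₁ D :=
            mul_le_mul_of_nonneg_right h2 (by linarith)
          linarith
        · have := Corr.one_le_Tw 0 D
          positivity)
    refine hsum.trans ?_
    have hsw0 : 0 < Real.sqrt w₁ := by linarith
    have hww : Real.sqrt w₁ * Real.sqrt w₁ = w₁ := Real.mul_self_sqrt (by linarith)
    have h1 : 1 / (w₁ : ℝ) ≤ 1 / Real.sqrt w₁ := by
      apply one_div_le_one_div_of_le hsw0
      nlinarith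
    have h2 : (K : ℝ) / w₁ + 2 / w₁ + 4 / Real.sqrt w₁ ≤ (K + 6) / Real.sqrt w₁ := by
      calc (K : ℝ) / w₁ + 2 / w₁ + 4 / Real.sqrt w₁
          = (K + 2) * (1 / w₁) + 4 / Real.sqrt w₁ := by ring
        _ ≤ (K + 2) * (1 / Real.sqrt w₁) + 4 / Real.sqrt w₁ :=
            add_le_add (mul_le_mul_of_nonneg_left h1 (by positivity)) le_rfl
        _ = (K + 6) / Real.sqrt w₁ := by ring
    have h3 : Real.sqrt X ≤ X / Real.sqrt w₁ := by
      rw [le_div_iff₀ hsw0]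
      calc Real.sqrt X * Real.sqrt w₁ ≤ Real.sqrt X * Real.sqrt X := by
            apply mul_le_mul_of_nonneg_left _ hsX0
            apply Real.sqrt_le_sqrt
            exact_mod_cast hwX
        _ = X := hsX
    have h4 : (X : ℝ) * ((K : ℝ) / w₁ + 2 / w₁ + 4 / Real.sqrt w₁) + Real.sqrt X ≤
        X * ((K + 7) / Real.sqrt w₁) := by
      calc (X : ℝ) * ((K : ℝ) / w₁ + 2 / w₁ + 4 / Real.sqrt w₁) + Real.sqrt X
          ≤ X * ((K + 6) / Real.sqrt w₁) + X / Real.sqrt w₁ :=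
            add_le_add (mul_le_mul_of_nonneg_left h2 hX0.le) h3
        _ = _ := by ring
    have h5 : 0 ≤ C₁ ^ 2 * 1 ^ 4 * Real.exp 256 * (X : ℝ) ^ 3 := by
      have := Real.exp_pos 256
      positivity
    refine (mul_le_mul_of_nonneg_left h4 h5).trans (le_of_eq ?_)
    ring
  calc (acor X h 0) ^ 2 * |acor X ν 0| +
        2 * ∑ D ∈ Icc 1 X, (acor X h D) ^ 2 * |acor X ν D|
      ≤ X ^ 4 / Real.sqrt w₁ +
        2 * (C₁ ^ 2 * Real.exp 256 * X ^ 4 * (K + 7) / Real.sqrt w₁) := by linarith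
    _ = _ := by ring

/-- The transference inequality for fixed parameters. -/
theorem core2 {X w w₁ z b K : ℕ} {f h ρ : ℕ → ℝ} {C₁ CV KF c c' η : ℝ} (hX3 : 3 ≤ X)
    (hw : 2 ≤ w) (hw₁ : 2 ≤ w₁) (hwz : w₁ ≤ z) (hwX : w₁ ≤ X) (hCV : 0 < CV)
    (hF : ∑ n ∈ range (X + 1), |f n| ≤ KF * X) (hh : ∀ n, |h n| ≤ lam n + Lw w n)
    (hsupp : ∀ n, X < n → f n = 0 ∧ h n = 0)
    (hexp : ∀ α : ℝ, ‖∑ n ∈ Finset.Icc 1 X, (h n : ℂ) * e (α * n)‖ ≤ η * X)
    (hcorr : ∀ d : ℕ, 1 ≤ d → d ≤ X →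
      |∑ x ∈ Finset.Icc 1 (X - d), (Lw z x - Lw w₁ x) * (Lw z (x + d) - Lw w₁ (x + d))| ≤
      X * Tw 0 d * (K * (1 / 2) ^ b * Tw w₁ d + (Tw w₁ d - 1) + 2 / w₁) + (z : ℝ) ^ (K * b))
    (hpow : ((1 : ℝ) / 2) ^ b ≤ 1 / w₁) (hz1 : (z : ℝ) ^ (K * b) ≤ Real.sqrt X)
    (hVz : (V z)⁻¹ ≤ CV * Real.log X)
    (hah : ∀ D : ℕ, 1 ≤ D → D ≤ X → |acor X h D| ≤ C₁ * Tw 0 D * X)
    (hE1 : 8 * (1 + (V w)⁻¹) ^ 4 * (CV + (V w₁)⁻¹) ^ 2 * Real.sqrt w₁ * (Real.log X) ^ 6 ≤ X)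
    (hc0 : 0 ≤ c) (hcc : c ≤ c') (hρ0 : ∀ n, 0 ≤ ρ n)
    (hmaj : ∀ n, n ≤ X → |f n| ≤
      c * (Lw w₁ n + (if n ≤ X then Lw z n - Lw w₁ n else 0)) + ρ n)
    (hRH : (∑ n ∈ range (X + 1), ρ n) * (∑ n ∈ range (X + 1), |h n|) ^ 2 ≤
      X ^ 3 / Real.sqrt (Real.sqrt w₁)) :
    (∑ n ∈ Finset.range (2 * X + 1), |∑ x ∈ Finset.range (n + 1), f x * h (n - x)|) ^ 2 ≤
      KF * (3 * c' * (V w₁)⁻¹ * η ^ 2 +
        3 * c' * Real.sqrt (1 + 2 * C₁ ^ 2 * Real.exp 256 * (K + 7)) / Real.sqrt (Real.sqrt w₁) +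
        1 / Real.sqrt (Real.sqrt w₁)) * X ^ 4 := by
  have hXr : (3 : ℝ) ≤ X := by exact_mod_cast hX3
  have hwr : (2 : ℝ) ≤ w₁ := by exact_mod_cast hw₁
  have hsw1 : 1 ≤ Real.sqrt w₁ := by rw [Real.one_le_sqrt]; linarith
  have hr1 : 1 ≤ Real.sqrt (Real.sqrt w₁) := by rw [Real.one_le_sqrt]; exact hsw1
  have hh0 : h 0 = 0 := by
    have h1 := hh 0
    have h2 : lam 0 = 0 := by unfold lam; rw [if_neg Nat.not_prime_zero]
    rw [Lw_even hw (by simp), h2, add_zero] at h1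
    exact abs_nonpos_iff.mp h1
  have hmain := main_ineq (X := X) (f := f) (h := h)
    (ν₁ := fun n => if n ≤ X then Lw z n - Lw w₁ n else 0) (μ := Lw w₁) (ρ := ρ) (c := c)
    (W := (V w₁)⁻¹) (B := η * X) hc0 (fun n hn => (hsupp n hn).1)
    (fun n hn => (hsupp n hn).2) hh0
    (fun n hn => if_neg (by omega)) (Lw_nonneg w₁) (Lw_le w₁)
    hρ0 hmaj hexp
  refine final_num2 (RH := (∑ n ∈ range (X + 1), ρ n) * (∑ n ∈ range (X + 1), |h n|) ^ 2)
    (F := ∑ n ∈ range (X + 1), |f n|) hmain hF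
    (Finset.sum_nonneg fun _ _ => abs_nonneg _) hcc hc0 (one_le_V_inv w₁)
    (Q_bound2 hX3 hw₁ hwz hwX hCV hh hcorr hpow hz1 hVz hah hE1) (Real.sqrt_nonneg _) hRH
    (mul_nonneg (Finset.sum_nonneg fun n _ => hρ0 n) (sq_nonneg _)) (by linarith) hr1

/-- sum of `Lw` -/
theorem sum_Lw_le : ∃ K : ℕ, 1 ≤ K ∧ ∀ w : ℕ, 2 ≤ w → ∀ X : ℕ, w ^ (K + 1) ≤ X →
    ∑ n ∈ range (X + 1), Lw w n ≤ K * X := by
  obtain ⟨K, hK, hS⟩ := sum_Lw_Lw_le
  refine ⟨K + 1, by omega, fun w hw X hX => ?_⟩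
  have h1 := hS w 0 w hw le_rfl (by omega) X 1 le_rfl
  have hV0 : V 0 = 1 := by
    have hp : pr 0 = ∅ := by decide
    unfold V
    rw [hp]
    simp
  have hL0 : ∀ n, Lw 0 n = 1 := by
    intro n
    unfold Lw
    rw [if_pos, hV0, inv_one]
    intro p hp _
    exact hp.pos
  have hT : Tw 0 1 = 1 := by
    unfold Tw
    simp
  rw [hT, hV0, inv_one, mul_one, mul_one] at h1
  simp only [hL0, mul_one] at h1
  have h2 : (w : ℝ) ^ K * (V w)⁻¹ ≤ X := by
    have h3 : (V w)⁻¹ ≤ w := Corr.V_inv_le (by omega)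
    calc (w : ℝ) ^ K * (V w)⁻¹ ≤ (w : ℝ) ^ K * w :=
          mul_le_mul_of_nonneg_left h3 (by positivity)
      _ = (w : ℝ) ^ (K + 1) := by ring
      _ ≤ (w : ℝ) ^ (K + 1 + 1) :=
          pow_le_pow_right₀ (by exact_mod_cast (by omega : 1 ≤ w)) (by omega)
      _ ≤ X := by exact_mod_cast hX
  have h4 : ∑ n ∈ range (X + 1), Lw w n = ∑ x ∈ Finset.Icc 1 X, Lw w x := by
    rw [Finset.range_eq_Ico, Finset.sum_eq_sum_Ico_succ_bot (by omega), Lw_even hw (by simp),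
      zero_add]
    apply Finset.sum_congr _ (fun _ _ => rfl)
    ext n
    simp only [Finset.mem_Ico, Finset.mem_Icc]
    omega
  rw [h4]
  push_cast
  linarith

theorem transfer2 : ∀ ε : ℝ, 0 < ε → ∃ η : ℝ, 0 < η ∧ ∃ w₀ : ℕ, ∀ w : ℕ, w₀ ≤ w → ∃ X₀ : ℕ,
    ∀ X : ℕ, X₀ ≤ X → ∀ f h : ℕ → ℝ, ((∀ n, |f n| ≤ lam n) ∨ (∀ n, |f n| ≤ Lw w n)) →
    (∀ n, |h n| ≤ lam n + Lw w n) → (∀ n, X < n → f n = 0 ∧ h n = 0) →
    (∀ α : ℝ, ‖∑ n ∈ Finset.Icc 1 X, (h n : ℂ) * e (α * n)‖ ≤ η * X) →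
    ∑ n ∈ Finset.range (2 * X + 1), |∑ x ∈ Finset.range (n + 1), f x * h (n - x)| ≤
      ε * X ^ 2 := by
  intro ε hε
  obtain ⟨K, hK, hcorr⟩ := corr
  obtain ⟨C₁, hC₁, hah⟩ := acor2
  obtain ⟨CV, hCV, hV⟩ := Pool.Agent.Lib.GT.V_inv_le
  obtain ⟨K', hK', hsum⟩ := sum_Lw_le
  have hE := Real.exp_pos 256
  have hKr : (1 : ℝ) ≤ K := by exact_mod_cast hK
  set q : ℝ := Real.sqrt (1 + 2 * C₁ ^ 2 * Real.exp 256 * (K + 7)) with hq
  have hq0 : 0 ≤ q := Real.sqrt_nonneg _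
  set KF : ℝ := K' + 2 with hKF
  have hKF1 : 1 ≤ KF := by
    have : (0 : ℝ) ≤ K' := Nat.cast_nonneg K'
    linarith
  obtain ⟨w₂, hw₂⟩ := Filter.eventually_atTop.mp
    (ev_w (KF * (36 * K * q + 1)) (by positivity) (ε ^ 2 / 2) (by positivity))
  set w₁ := max w₂ 3 with hw₁def
  have hw3 : 3 ≤ w₁ := le_max_right _ _
  have hw₁2 : 2 ≤ w₁ := by omega
  have hwmain := hw₂ w₁ (le_max_left _ _)
  have hwr : (3 : ℝ) ≤ w₁ := by exact_mod_cast hw3
  have hlw1 : (1 : ℝ) ≤ Real.log w₁ := by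
    rw [Real.le_log_iff_exp_le (by linarith)]
    exact Real.exp_one_lt_three.le.trans hwr
  set W := (V w₁)⁻¹ with hW
  have hW1 : 1 ≤ W := one_le_V_inv w₁
  set r := Real.sqrt (Real.sqrt w₁) with hr
  have hsw1 : 1 ≤ Real.sqrt w₁ := by rw [Real.one_le_sqrt]; linarith
  have hr1 : 1 ≤ r := by rw [hr, Real.one_le_sqrt]; exact hsw1
  have hr0 : 0 < r := by linarith
  set b := Nat.log 2 w₁ + 1 with hb
  have hb1 : 1 ≤ b := by omega
  have hbr1 : (1 : ℝ) ≤ b := by exact_mod_cast hb1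
  have hpow : ((1 : ℝ) / 2) ^ b ≤ 1 / w₁ := by
    have h1 : w₁ < 2 ^ b := Nat.lt_pow_succ_log_self (by norm_num) w₁
    have h2 : (w₁ : ℝ) ≤ 2 ^ b := by exact_mod_cast h1.le
    rw [div_pow, one_pow]
    exact one_div_le_one_div_of_le (by linarith) h2
  have hb3 : (b : ℝ) ≤ 3 * Real.log w₁ := by
    have h1 : 2 ^ (Nat.log 2 w₁) ≤ w₁ := Nat.pow_log_le_self 2 (by omega)
    have h2 : (Nat.log 2 w₁ : ℝ) * Real.log 2 ≤ Real.log w₁ := by
      rw [← Real.log_pow]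
      apply Real.log_le_log (by positivity)
      exact_mod_cast h1
    have h3 := Real.log_two_gt_d9
    rw [hb]
    push_cast
    nlinarith [Nat.cast_nonneg (α := ℝ) (Nat.log 2 w₁)]
  set c' : ℝ := 4 * K * b with hc'
  have hc'1 : 1 ≤ c' := by nlinarith
  set M : ℝ := KF * (6 * c' * W) with hM
  have hM1 : 1 ≤ M := by
    have h1 : 1 ≤ 6 * c' * W := by nlinarith
    exact one_le_mul_of_one_le_of_one_le hKF1 h1
  refine ⟨ε / M, by positivity, w₁, fun w hw => ?_⟩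
  have hw2 : 2 ≤ w := by omega
  set Wo := (V w)⁻¹ with hWo
  have hWo1 : 1 ≤ Wo := one_le_V_inv w
  have hwR : (2 : ℝ) ≤ w := by exact_mod_cast hw2
  obtain ⟨XA, hXA⟩ := hah w hw2
  -- the conditions on `X`
  have hη₁ : 0 < 1 / (8 * (1 + Wo) ^ 4 * (CV + W) ^ 2 * Real.sqrt w₁) := by
    have : 0 < Real.sqrt w₁ := by linarith
    positivity
  have hη₂ : 0 < 1 / (32 * Wo ^ 2 * r) ^ 2 := by positivity
  obtain ⟨X₁, hX₁⟩ := Filter.eventually_atTop.mp
    ((ev_log_pow 6 _ hη₁).and (ev_log_pow 2 _ hη₂))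
  refine ⟨max (max X₁ XA) (max 3 (max (w ^ (2 * K * b)) (w ^ (K' + 1)))),
    fun X hX f h hf hh hsupp hexp => ?_⟩
  have hXl := (le_max_left _ _).trans hX
  have hXrr := (le_max_right _ _).trans hX
  have hX3 : 3 ≤ X := (le_max_left _ _).trans hXrr
  have hX4 := (le_max_right _ _).trans hXrr
  have hXw : w ^ (2 * K * b) ≤ X := (le_max_left _ _).trans hX4
  have hXw' : w ^ (K' + 1) ≤ X := (le_max_right _ _).trans hX4
  obtain ⟨hXa, hXb⟩ := hX₁ X ((le_max_left _ _).trans hXl)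
  have hXc := hXA X ((le_max_right _ _).trans hXl)
  have hwX : w ≤ X := by
    refine le_trans ?_ hXw
    calc w = w ^ 1 := (pow_one w).symm
      _ ≤ w ^ (2 * K * b) := Nat.pow_le_pow_right (by omega) (by
          have : 1 ≤ K * b := Nat.mul_pos hK hb1
          nlinarith)
  have hXw₁ : w₁ ^ (2 * K * b) ≤ X := (Nat.pow_le_pow_left hw _).trans hXw
  have hXr : (3 : ℝ) ≤ X := by exact_mod_cast hX3
  have hX0 : (0 : ℝ) < X := by linarith
  have hlX0 : 0 ≤ Real.log X := Real.log_natCast_nonneg X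
  have hsX : Real.sqrt X * Real.sqrt X = X := Real.mul_self_sqrt hX0.le
  have hsX0 : 0 ≤ Real.sqrt X := Real.sqrt_nonneg _
  have hs1 : 1 ≤ Real.sqrt X := by rw [Real.one_le_sqrt]; linarith
  have hE1 : 8 * (1 + Wo) ^ 4 * (CV + W) ^ 2 * Real.sqrt w₁ * (Real.log X) ^ 6 ≤ X := by
    have hM : 0 < 8 * (1 + Wo) ^ 4 * (CV + W) ^ 2 * Real.sqrt w₁ := by
      have : 0 < Real.sqrt w₁ := by linarith
      positivity
    have h1 := mul_le_mul_of_nonneg_left hXa hM.le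
    rw [← mul_assoc, mul_one_div_cancel hM.ne', one_mul] at h1
    exact h1
  have hE2 : 32 * Wo ^ 2 * r * Real.log X ≤ Real.sqrt X := by
    apply Real.le_sqrt_of_sq_le
    rw [mul_pow]
    have hM : 0 < (32 * Wo ^ 2 * r) ^ 2 := by positivity
    have h1 := mul_le_mul_of_nonneg_left hXb hM.le
    rw [← mul_assoc, mul_one_div_cancel hM.ne', one_mul] at h1
    exact h1
  have hfin : KF * (3 * c' * W * (ε / M) ^ 2 + 3 * c' * q / r + 1 / r) * (X : ℝ) ^ 4 ≤
      (ε * X ^ 2) ^ 2 := by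
    have h1 : KF * (3 * c' * W * (ε / M) ^ 2) ≤ ε ^ 2 / 2 := by
      have e1 : KF * (3 * c' * W * (ε / M) ^ 2) = (M / 2) * (ε / M) ^ 2 := by
        rw [hM]; ring
      rw [e1]
      have e2 : (M / 2) * (ε / M) ^ 2 = (ε ^ 2 / 2) * (1 / M) := by
        have : M ≠ 0 := by positivity
        field_simp
      rw [e2]
      have e3 : 1 / M ≤ 1 := by
        rw [div_le_one (by linarith)]
        exact hM1
      have e4 : 0 ≤ ε ^ 2 / 2 := by positivity
      nlinarith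
    have h2 : KF * (3 * c' * q / r + 1 / r) ≤ ε ^ 2 / 2 := by
      have e1 : KF * (3 * c' * q / r + 1 / r) = KF * (3 * c' * q + 1) / r := by ring
      rw [e1, div_le_iff₀ hr0]
      refine le_trans ?_ hwmain
      have e2 : 3 * c' * q + 1 ≤ (36 * K * q + 1) * (Real.log w₁) ^ 3 := by
        have f1 : Real.log w₁ ≤ (Real.log w₁) ^ 3 := by
          calc Real.log w₁ = (Real.log w₁) ^ 1 := (pow_one _).symm
            _ ≤ (Real.log w₁) ^ 3 := pow_le_pow_right₀ hlw1 (by norm_num)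
        have f2 : (1 : ℝ) ≤ (Real.log w₁) ^ 3 := one_le_pow₀ hlw1
        have f3 : c' ≤ 12 * K * (Real.log w₁) ^ 3 := by
          rw [hc']
          nlinarith
        have f4 := mul_le_mul_of_nonneg_right f3 hq0
        nlinarith
      calc KF * (3 * c' * q + 1) ≤ KF * ((36 * K * q + 1) * (Real.log w₁) ^ 3) :=
            mul_le_mul_of_nonneg_left e2 (by linarith)
        _ = KF * (36 * K * q + 1) * (Real.log w₁) ^ 3 := by ring
    calc KF * (3 * c' * W * (ε / M) ^ 2 + 3 * c' * q / r + 1 / r) * (X : ℝ) ^ 4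
        = (KF * (3 * c' * W * (ε / M) ^ 2) + KF * (3 * c' * q / r + 1 / r)) * (X : ℝ) ^ 4 := by
          ring
      _ ≤ (ε ^ 2 / 2 + ε ^ 2 / 2) * (X : ℝ) ^ 4 :=
          mul_le_mul_of_nonneg_right (add_le_add h1 h2) (by positivity)
      _ = (ε * X ^ 2) ^ 2 := by ring
  have hlamX : ∀ n, n ≤ X → lam n ≤ Real.log X := by
    intro n hn
    unfold lam
    split_ifs with hp
    · exact Real.log_le_log (by exact_mod_cast hp.pos) (by exact_mod_cast hn)
    · exact hlX0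
  rcases hf with hf | hf
  · obtain ⟨z, hwz, hz1, hz2, hzc⟩ := exists_z hK hb1 hw₁2 hXw₁
    have hz2' : 2 ≤ z := hw₁2.trans hwz
    have hzr : (2 : ℝ) ≤ z := by exact_mod_cast hz2'
    have hzX : (z : ℝ) ≤ X := by nlinarith
    have hVz0 := V_pos z
    have hVz : (V z)⁻¹ ≤ CV * Real.log X :=
      (hV z hz2').trans (mul_le_mul_of_nonneg_left (Real.log_le_log (by linarith) hzX) hCV.le)
    have hc0 : 0 ≤ Real.log X * V z := mul_nonneg hlX0 hVz0.le
    have hF : ∑ n ∈ range (X + 1), |f n| ≤ KF * X := by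
      refine ((Finset.sum_le_sum fun n _ => hf n).trans (sum_lam_le X)).trans ?_
      apply mul_le_mul_of_nonneg_right _ hX0.le
      have : (0 : ℝ) ≤ K' := Nat.cast_nonneg K'
      linarith
    have hρ0 : ∀ n, 0 ≤ (if n ≤ z then Real.log (X : ℝ) else 0) := fun n => by
      split_ifs
      · exact hlX0
      · exact le_rfl
    have hmaj : ∀ n, n ≤ X → |f n| ≤
        Real.log X * V z * (Lw w₁ n + (if n ≤ X then Lw z n - Lw w₁ n else 0)) +
          (if n ≤ z then Real.log (X : ℝ) else 0) := by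
      intro n hn
      rw [if_pos hn]
      have h1 : Lw w₁ n + (Lw z n - Lw w₁ n) = Lw z n := by ring
      rw [h1]
      refine (hf n).trans ?_
      have hLz := Lw_nonneg z n
      by_cases hnz : n ≤ z
      · rw [if_pos hnz]
        have := mul_nonneg hc0 hLz
        linarith [hlamX n hn]
      · rw [if_neg hnz, add_zero]
        by_cases hp : n.Prime
        · have h3 : Lw z n = (V z)⁻¹ := by
            unfold Lw
            rw [if_pos]
            intro p hp' hd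
            rw [(Nat.prime_dvd_prime_iff_eq hp' hp).mp hd]
            omega
          rw [h3, mul_assoc, mul_inv_cancel₀ hVz0.ne', mul_one]
          exact hlamX n hn
        · have h3 : lam n = 0 := by unfold lam; rw [if_neg hp]
          rw [h3]
          exact mul_nonneg hc0 hLz
    have hH : ∑ n ∈ range (X + 1), |h n| ≤ 4 * Wo * X := by
      have h1 : ∑ n ∈ range (X + 1), |h n| ≤ ∑ n ∈ range (X + 1), (lam n + Wo) :=
        Finset.sum_le_sum fun n _ => (hh n).trans (by linarith [Lw_le w n])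
      rw [Finset.sum_add_distrib, Finset.sum_const, Finset.card_range, nsmul_eq_mul] at h1
      have h2 := sum_lam_le X
      push_cast at h1
      nlinarith
    have hH0 : 0 ≤ ∑ n ∈ range (X + 1), |h n| := Finset.sum_nonneg fun _ _ => abs_nonneg _
    have hR : ∑ n ∈ range (X + 1), (if n ≤ z then Real.log (X : ℝ) else 0) ≤
        (z + 1) * Real.log X := by
      rw [← Finset.sum_filter, Finset.sum_const, nsmul_eq_mul]
      apply mul_le_mul_of_nonneg_right _ hlX0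
      have h1 : ((range (X + 1)).filter (fun n => n ≤ z)).card ≤ z + 1 := by
        calc ((range (X + 1)).filter (fun n => n ≤ z)).card ≤ (range (z + 1)).card := by
              apply Finset.card_le_card
              intro n hn
              rw [Finset.mem_filter] at hn
              rw [Finset.mem_range]
              omega
          _ = z + 1 := Finset.card_range _
      exact_mod_cast h1
    have hRH : (∑ n ∈ range (X + 1), (if n ≤ z then Real.log (X : ℝ) else 0)) *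
        (∑ n ∈ range (X + 1), |h n|) ^ 2 ≤ X ^ 3 / r := by
      rw [le_div_iff₀ hr0]
      have h1 : (z : ℝ) + 1 ≤ 2 * Real.sqrt X := by linarith
      calc (∑ n ∈ range (X + 1), (if n ≤ z then Real.log (X : ℝ) else 0)) *
            (∑ n ∈ range (X + 1), |h n|) ^ 2 * r
          ≤ ((2 * Real.sqrt X) * Real.log X) * (4 * Wo * X) ^ 2 * r := by
            apply mul_le_mul_of_nonneg_right _ hr0.le
            apply mul_le_mul _ (pow_le_pow_left₀ hH0 hH 2) (by positivity) (by positivity)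
            exact hR.trans (mul_le_mul_of_nonneg_right h1 hlX0)
        _ = (Real.sqrt X * X ^ 2) * (32 * Wo ^ 2 * r * Real.log X) := by ring
        _ ≤ (Real.sqrt X * X ^ 2) * Real.sqrt X := by
            apply mul_le_mul_of_nonneg_left hE2 (by positivity)
        _ = X ^ 3 := by
            rw [show Real.sqrt X * (X : ℝ) ^ 2 * Real.sqrt X =
              (Real.sqrt X * Real.sqrt X) * X ^ 2 by ring, hsX]
            ring
    have hcore := core2 (X := X) (w := w) (w₁ := w₁) (z := z) (b := b) (K := K) (f := f) (h := h)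
      (ρ := fun n => if n ≤ z then Real.log (X : ℝ) else 0)
      (C₁ := C₁) (CV := CV) (KF := KF) (c := Real.log X * V z) (c' := c') (η := ε / M)
      hX3 hw2 hw₁2 hwz (hw.trans hwX) hCV hF hh hsupp hexp
      (fun d hd hdX => hcorr b hb1 w₁ z hw₁2 hwz X d hd hdX) hpow hz1 hVz
      (fun D hD hDX => hXc D hD hDX h hh) hE1 hc0 hzc hρ0 hmaj hRH
    exact (abs_le_of_sq_le_sq' (hcore.trans hfin) (by positivity)).2
  · have hF : ∑ n ∈ range (X + 1), |f n| ≤ KF * X := by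
      refine ((Finset.sum_le_sum fun n _ => hf n).trans (hsum w hw2 X hXw')).trans ?_
      apply mul_le_mul_of_nonneg_right _ hX0.le
      linarith
    have hwXr : (w : ℝ) ≤ X := by exact_mod_cast hwX
    have hVz : (V w)⁻¹ ≤ CV * Real.log X :=
      (hV w hw2).trans (mul_le_mul_of_nonneg_left (Real.log_le_log (by linarith) hwXr) hCV.le)
    have hz1 : (w : ℝ) ^ (K * b) ≤ Real.sqrt X := by
      apply Real.le_sqrt_of_sq_le
      rw [← pow_mul]
      have : K * b * 2 = 2 * K * b := by ring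
      rw [this]
      exact_mod_cast hXw
    have hmaj : ∀ n, n ≤ X → |f n| ≤
        1 * (Lw w₁ n + (if n ≤ X then Lw w n - Lw w₁ n else 0)) + (fun _ => (0 : ℝ)) n := by
      intro n hn
      rw [if_pos hn]
      have h1 := hf n
      simp only
      linarith
    have hRH : (∑ n ∈ range (X + 1), (fun _ => (0 : ℝ)) n) *
        (∑ n ∈ range (X + 1), |h n|) ^ 2 ≤ X ^ 3 / r := by
      simp only [Finset.sum_const_zero, zero_mul]
      positivity
    have hcore := core2 (X := X) (w := w) (w₁ := w₁) (z := w) (b := b) (K := K) (f := f) (h := h)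
      (ρ := fun _ => 0)
      (C₁ := C₁) (CV := CV) (KF := KF) (c := 1) (c' := c') (η := ε / M)
      hX3 hw2 hw₁2 hw (hw.trans hwX) hCV hF hh hsupp hexp
      (fun d hd hdX => hcorr b hb1 w₁ w hw₁2 hw X d hd hdX) hpow hz1 hVz
      (fun D hD hDX => hXc D hD hDX h hh) hE1 zero_le_one hc'1 (fun _ => le_rfl) hmaj hRH
    exact (abs_le_of_sq_le_sq' (hcore.trans hfin) (by positivity)).2

end Pool.Agent.Lib.MG
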