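import Pool.Agent.Lib.MP_7b7e48_nt.MG.F04b
import Pool.Agent.Lib.MP_7b7e48_nt.MG.D03
import Pool.Agent.Lib.MP_7b7e48_nt.MG.T02
import Pool.Agent.Lib.MP_7b7e48_nt.MG.F03

/-!
# F04: at least one quarter of every class `a` modulo `Wp z`, `(a, Wp z) = 1`, is good
-/

open Finset

namespace Pool.Agent.Lib.MG

open Pool.Agent.Lib.GT Pool.Agent.Lib.GT.LA Pool.Agent.Lib.MP_7b7e48_nt.SP

theorem core_upper {r : ℕ} (κ : Nat.Primes → Fin r) {W a X X1 : ℕ} (hX1 : 1 ≤ X1)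
    {f F : Fin r → ℕ → ℝ} (hf : ∀ i n, 0 ≤ f i n ∧ f i n ≤ cw κ W a i n)
    (hfX : ∀ i n, X1 < n → f i n = 0) {B D : ℝ} (hD : 0 ≤ D)
    (hcmp : ∀ i, ∑ n ∈ range (2 * X1 + 1), |cv (f i) (f i) n - cv (F i) (F i) n| ≤ B)
    {S : Finset ℕ} (hS : ∀ n ∈ S, n ≤ X1 ∧ (mono κ n : ℝ) ≤ D) (hScard : S.card ≤ X) :
    ∑ i, ∑ n ∈ S, cv (F i) (F i) (2 * n) ≤ X * (Real.log X1 ^ 2 * (D + 1)) + r * B := by
  have h1 : ∀ i, ∑ n ∈ S, cv (F i) (F i) (2 * n) ≤ ∑ n ∈ S, cv (f i) (f i) (2 * n) + B := by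
    intro i
    have h2 : ∑ n ∈ S, |cv (f i) (f i) (2 * n) - cv (F i) (F i) (2 * n)| ≤ B := by
      refine le_trans ?_ (hcmp i)
      rw [← Finset.sum_image (s := S) (g := fun n => 2 * n)
        (f := fun m => |cv (f i) (f i) m - cv (F i) (F i) m|)
        (fun x _ y _ hxy => by
          have : 2 * x = 2 * y := hxy
          omega)]
      refine Finset.sum_le_sum_of_subset_of_nonneg ?_ (fun _ _ _ => abs_nonneg _)
      intro m hm
      obtain ⟨n, hn, rfl⟩ := Finset.mem_image.1 hm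
      have := (hS n hn).1
      rw [Finset.mem_range]
      omega
    have h3 : ∑ n ∈ S, cv (F i) (F i) (2 * n) - ∑ n ∈ S, cv (f i) (f i) (2 * n) ≤
        ∑ n ∈ S, |cv (f i) (f i) (2 * n) - cv (F i) (F i) (2 * n)| := by
      rw [← Finset.sum_sub_distrib]
      refine Finset.sum_le_sum fun n _ => ?_
      rw [abs_sub_comm]
      exact le_abs_self _
    linarith
  have h4 : ∑ i, ∑ n ∈ S, cv (F i) (F i) (2 * n) ≤
      ∑ i, (∑ n ∈ S, cv (f i) (f i) (2 * n) + B) := Finset.sum_le_sum fun i _ => h1 i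
  refine h4.trans ?_
  rw [Finset.sum_add_distrib, Finset.sum_const, Finset.card_univ, Fintype.card_fin, nsmul_eq_mul,
    Finset.sum_comm]
  refine add_le_add_left ?_ _
  have h5 : ∀ n ∈ S, ∑ i, cv (f i) (f i) (2 * n) ≤ Real.log X1 ^ 2 * (D + 1) := by
    intro n hn
    refine (sum_cv_le κ W a X1 hX1 hf hfX n).trans ?_
    refine mul_le_mul_of_nonneg_left ?_ (sq_nonneg _)
    have := (hS n hn).2
    linarith
  calc ∑ n ∈ S, ∑ i, cv (f i) (f i) (2 * n) ≤ ∑ n ∈ S, Real.log X1 ^ 2 * (D + 1) :=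
        Finset.sum_le_sum h5
    _ = S.card * (Real.log X1 ^ 2 * (D + 1)) := by rw [Finset.sum_const, nsmul_eq_mul]
    _ ≤ X * (Real.log X1 ^ 2 * (D + 1)) := by
        refine mul_le_mul_of_nonneg_right (by exact_mod_cast hScard) ?_
        positivity

open Classical in
theorem class_lower (r : ℕ) (hr : 2 ≤ r) (z : ℕ) (hz : (20000 * r ^ 8) ^ 13 ≤ z) :
    ∃ δ : ℝ, 0 < δ ∧ ∃ X₀ : ℕ, ∀ X : ℕ, X₀ ≤ X → ∀ κ : Nat.Primes → Fin r, ∀ a < Wp z,
      Nat.Coprime a (Wp z) → (X : ℝ) / (4 * Wp z) ≤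
        (((Finset.Icc 1 X).filter fun n : ℕ => n % Wp z = a ∧
          δ * X / Real.log X ^ 2 < (mono κ n : ℝ)).card : ℝ) := by
  have hzr : (20000 * (r : ℝ) ^ 8) ^ 13 ≤ (z : ℝ) := by exact_mod_cast hz
  have hz2 : 2 ≤ z := by
    have hr1 : 1 ≤ r ^ 8 := Nat.one_le_pow _ _ (by omega)
    have h1 : 2 ≤ 20000 * r ^ 8 := by omega
    calc 2 ≤ 20000 * r ^ 8 := h1
      _ ≤ (20000 * r ^ 8) ^ 13 := Nat.le_self_pow (by norm_num) _
      _ ≤ z := hz
  obtain ⟨c, η, ζ, hc, hη, hζ, LW⟩ := lworld r hr (z : ℝ) hzr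
  have hWpos := Wp_pos z
  have hW0 : (0 : ℝ) < Wp z := by exact_mod_cast hWpos
  have hW1 : (1 : ℝ) ≤ Wp z := by exact_mod_cast hWpos
  have h2W : 2 ∣ Wp z := dvd_Wp (Finset.mem_filter.2 ⟨Finset.mem_range.2 (by omega), Nat.prime_two⟩)
  have hW2 : 2 ≤ Wp z := Nat.le_of_dvd hWpos h2W
  have hr0 : (0 : ℝ) < r := by
    have : (2 : ℝ) ≤ r := by exact_mod_cast hr
    linarith
  obtain ⟨W, hWdef⟩ : ∃ W, W = Wp z := ⟨_, rfl⟩
  rw [← hWdef] at hWpos hW0 hW1 hW2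
  obtain ⟨ε', hε'⟩ : ∃ ε' : ℝ, ε' = c / (2 * r * (W : ℝ) ^ 2) := ⟨_, rfl⟩
  have hε'0 : 0 < ε' := by rw [hε']; positivity
  obtain ⟨η2, hη2, w2, hT⟩ := transfer2 ε' hε'0
  obtain ⟨η3, hη3⟩ : ∃ η3 : ℝ, η3 = min η2 (η / (((r : ℝ) + 1) * W)) := ⟨_, rfl⟩
  have hη30 : 0 < η3 := by
    rw [hη3]
    exact lt_min hη2 (by positivity)
  obtain ⟨w3, hCM⟩ := colour_model W hWpos η3 hη30
  obtain ⟨w4, hCC⟩ := class_close W hWpos η3 hη30
  obtain ⟨w, hw⟩ : ∃ w, w = max z (max w2 (max w3 w4)) := ⟨_, rfl⟩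
  have hzw : z ≤ w := by rw [hw]; exact le_max_left _ _
  obtain ⟨X2, hT⟩ := hT w (by rw [hw]; exact (le_max_left _ _).trans (le_max_right _ _))
  obtain ⟨X3, hCM⟩ := hCM w (by
    rw [hw]; exact (le_max_left _ _).trans ((le_max_right _ _).trans (le_max_right _ _)))
  obtain ⟨X4, hCC⟩ := hCC w (by
    rw [hw]; exact (le_max_right _ _).trans ((le_max_right _ _).trans (le_max_right _ _)))
  obtain ⟨P, hP⟩ : ∃ P, P = ∏ q ∈ pr w \ pr z, q := ⟨_, rfl⟩
  obtain ⟨δ, hδ⟩ : ∃ δ : ℝ, δ = c / (W : ℝ) ^ 2 := ⟨_, rfl⟩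
  have hδ0 : 0 < δ := by rw [hδ]; positivity
  -- the logarithm
  have hlog : ∀ᶠ x : ℝ in Filter.atTop, Real.log x ^ 2 ≤ (c / (W : ℝ) ^ 2) * x := by
    have h1 := (Real.isLittleO_pow_log_id_atTop (n := 2)).bound
      (show (0 : ℝ) < c / (W : ℝ) ^ 2 by positivity)
    filter_upwards [h1, Filter.eventually_ge_atTop (0 : ℝ)] with x hx hx0
    rw [Real.norm_eq_abs, abs_of_nonneg (sq_nonneg _), id, Real.norm_eq_abs,
      abs_of_nonneg hx0] at hx
    exact hx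
  obtain ⟨X5, hX5⟩ := Filter.eventually_atTop.1 hlog
  obtain ⟨Y0, hY0⟩ := exists_nat_ge (2000 * (P : ℝ) / ζ)
  obtain ⟨X₀, hX₀⟩ : ∃ X₀, X₀ = max (max (max X2 X3) (max X4 ⌈X5⌉₊))
    (2 * W * (Y0 + 10 ^ 6 + 2 * P + 2)) := ⟨_, rfl⟩
  refine ⟨δ, hδ0, X₀, ?_⟩
  intro X hX κ a haW ha
  rw [← hWdef] at haW ha ⊢
  have hXX2 : X2 ≤ X := ((le_max_left _ _).trans ((le_max_left _ _).trans
    (le_max_left _ _))).trans (hX₀ ▸ hX)
  have hXX3 : X3 ≤ X := ((le_max_right _ _).trans ((le_max_left _ _).trans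
    (le_max_left _ _))).trans (hX₀ ▸ hX)
  have hXX4 : X4 ≤ X := ((le_max_left _ _).trans ((le_max_right _ _).trans
    (le_max_left _ _))).trans (hX₀ ▸ hX)
  have hXX5 : ⌈X5⌉₊ ≤ X := ((le_max_right _ _).trans ((le_max_right _ _).trans
    (le_max_left _ _))).trans (hX₀ ▸ hX)
  have hXX6 : 2 * W * (Y0 + 10 ^ 6 + 2 * P + 2) ≤ X := (le_max_right _ _).trans (hX₀ ▸ hX)
  have hlogX : Real.log X ^ 2 ≤ (c / (W : ℝ) ^ 2) * X :=
    hX5 X ((Nat.le_ceil X5).trans (by exact_mod_cast hXX5))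
  by_contra hcon
  push Not at hcon
  have ha1 : 1 ≤ a := by
    rcases Nat.eq_zero_or_pos a with h | h
    · rw [h, Nat.coprime_zero_left] at ha
      omega
    · exact h
  obtain ⟨Y, hY⟩ : ∃ Y, Y = (X - a) / W := ⟨_, rfl⟩
  have hYa : W * Y ≤ X - a := by rw [hY]; exact Nat.mul_div_le _ _
  have hYb : X - a < W * Y + W := by rw [hY]; exact Nat.lt_mul_div_succ _ (by omega)
  have h4W : 4 * W ≤ X := by
    refine le_trans ?_ hXX6
    have : 2 * W * 2 ≤ 2 * W * (Y0 + 10 ^ 6 + 2 * P + 2) := Nat.mul_le_mul_left _ (by omega)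
    omega
  have hXY1 : a + W * Y ≤ X := by omega
  have hXY2 : X < a + W * (Y + 1) := by
    rw [mul_add, mul_one]
    omega
  -- `Y ≥ X / (2 W)`
  have hYlow : X ≤ 2 * W * Y := by
    have : 2 * W * Y = 2 * (W * Y) := by ring
    omega
  have hYbig : Y0 + 10 ^ 6 + 2 * P + 2 ≤ Y := by
    have h1 : 2 * W * (Y0 + 10 ^ 6 + 2 * P + 2) ≤ 2 * W * Y := hXX6.trans hYlow
    exact Nat.le_of_mul_le_mul_left h1 (by omega)
  obtain ⟨X1, hX1⟩ : ∃ X1, X1 = a + W * (2 * Y) := ⟨_, rfl⟩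
  have hWY2 : W * (2 * Y) = 2 * (W * Y) := by ring
  have hXX1 : X ≤ X1 := by omega
  have hX1X : X1 ≤ 2 * X := by omega
  have hX1pos : 1 ≤ X1 := by omega
  have hXr : (0 : ℝ) < X := by
    have : 0 < X := by omega
    exact_mod_cast this
  have hX1r : (0 : ℝ) < X1 := by exact_mod_cast hX1pos
  have hX1Xr : (X1 : ℝ) ≤ 2 * X := by exact_mod_cast hX1X
  -- the weights of the colours
  obtain ⟨f, hfdef⟩ : ∃ f : Fin r → ℕ → ℝ, f = fun i n => if n ≤ X1 then cw κ W a i n else 0 :=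
    ⟨_, rfl⟩
  have hfcw : ∀ i n, 0 ≤ f i n ∧ f i n ≤ cw κ W a i n := by
    intro i n
    rw [hfdef]
    dsimp only
    have h := (cw_le κ W a i n).1
    split_ifs
    · exact ⟨h, le_rfl⟩
    · exact ⟨le_rfl, h⟩
  have hfX : ∀ i n, X1 < n → f i n = 0 := by
    intro i n hn
    rw [hfdef]
    exact if_neg (by omega)
  have hf : ∀ i n, 0 ≤ f i n ∧ f i n ≤ if n % W = a then lam n else 0 := fun i n =>
    ⟨(hfcw i n).1, (hfcw i n).2.trans (cw_le κ W a i n).2⟩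
  have hcl : ∀ n, (if n % W = a then lam n else 0) ≤ lam n := by
    intro n
    split_ifs
    · exact le_rfl
    · exact lam_nonneg n
  have hcw' : ∀ n, (if n % W = a then Lw w n else 0) ≤ Lw w n := by
    intro n
    split_ifs
    · exact le_rfl
    · exact Lw_nonneg w n
  choose Fn hFn hFnX hFnE using fun i => hCM X1 (hXX3.trans hXX1) a (f i) (hf i)
  -- the Fourier transform
  have hfour : ∀ α : ℝ, ‖∑ n ∈ Finset.Icc 1 X1,
      ((∑ i, Fn i n - (if n % Wp z = a then Lw w n else 0) : ℝ) : ℂ) * e (α * n)‖ ≤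
        ((r : ℝ) + 1) * (η3 * X1) := by
    intro α
    rw [← hWdef]
    have h1 : ∑ n ∈ Finset.Icc 1 X1,
        ((∑ i, Fn i n - (if n % W = a then Lw w n else 0) : ℝ) : ℂ) * e (α * n) =
        -(∑ i, ∑ n ∈ Finset.Icc 1 X1, ((f i n - Fn i n : ℝ) : ℂ) * e (α * n)) +
          ∑ n ∈ Finset.Icc 1 X1, (((if n % W = a then lam n - Lw w n else 0 : ℝ)) : ℂ) *
            e (α * n) := by
      rw [Finset.sum_comm, ← Finset.sum_neg_distrib, ← Finset.sum_add_distrib]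
      refine Finset.sum_congr rfl fun n hn => ?_
      rw [← Finset.sum_mul, ← neg_mul, ← add_mul]
      congr 1
      have h2 : ∑ i, f i n = if n % W = a then lam n else 0 := by
        rw [← sum_cw κ W a n]
        refine Finset.sum_congr rfl fun i _ => ?_
        rw [hfdef]
        exact if_pos (Finset.mem_Icc.1 hn).2
      have h3 : (∑ i, Fn i n - (if n % W = a then Lw w n else 0) : ℝ) =
          -(∑ i, (f i n - Fn i n)) + (if n % W = a then lam n - Lw w n else 0) := by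
        rw [Finset.sum_sub_distrib, h2]
        split_ifs <;> ring
      rw [h3]
      push_cast
      rfl
    rw [h1]
    refine (norm_add_le _ _).trans ?_
    rw [norm_neg]
    have h4 : ‖∑ i, ∑ n ∈ Finset.Icc 1 X1, ((f i n - Fn i n : ℝ) : ℂ) * e (α * n)‖ ≤
        r * (η3 * X1) := by
      refine (norm_sum_le _ _).trans ?_
      refine (Finset.sum_le_sum fun i _ => hFnE i α).trans ?_
      rw [Finset.sum_const, Finset.card_univ, Fintype.card_fin, nsmul_eq_mul]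
    have h5 := hCC X1 (hXX4.trans hXX1) a α
    rw [add_mul, one_mul]
    exact add_le_add h4 h5
  have hE : ((r : ℝ) + 1) * (η3 * X1) ≤ η * (8 * Y) := by
    have h1 : η3 ≤ η / (((r : ℝ) + 1) * W) := by rw [hη3]; exact min_le_right _ _
    have h2 : (X1 : ℝ) ≤ W * (8 * Y) := by
      have h3 : X1 ≤ W * (8 * Y) := by
        have h4 : W * (8 * Y) = 8 * (W * Y) := by ring
        have h5 : 2 * W * Y = 2 * (W * Y) := by ring
        omega
      exact_mod_cast h3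
    calc ((r : ℝ) + 1) * (η3 * X1) ≤ ((r : ℝ) + 1) * (η / (((r : ℝ) + 1) * W) * (W * (8 * Y))) := by
          refine mul_le_mul_of_nonneg_left ?_ (by positivity)
          exact mul_le_mul h1 h2 hX1r.le (by positivity)
      _ = η * (8 * Y) := by field_simp
  have hPY1 : 2000 * ((∏ q ∈ pr w \ pr z, q : ℕ) : ℝ) / ζ ≤ Y := by
    rw [← hP]
    refine hY0.trans ?_
    have : Y0 ≤ Y := by omega
    exact_mod_cast this
  have hcore := class_core hz2 hzw hc hη hζ LW (X1 := X1) (Y := Y) (a := a) (X := X)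
    (by rw [← hWdef]; exact ha) (by rw [← hWdef]; exact haW) (by rw [← hWdef]; exact hX1)
    (by rw [← hWdef]; exact hXY1) (by rw [← hWdef]; exact hXY2) hPY1 (by omega)
    (by rw [← hP]; omega) (Fn := Fn)
    (by rw [← hWdef]; exact hFn) hfour hE (fun n => δ * X / Real.log X ^ 2 < (mono κ n : ℝ))
    (fun n => (mono κ n : ℝ) ≤ δ * X / Real.log X ^ 2) (fun n => not_lt.symm)
    (by rw [← hWdef]; exact hcon)
  rw [← hWdef] at hcore
  -- comparison of the convolutions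
  have hcmp : ∀ i, ∑ n ∈ range (2 * X1 + 1), |cv (f i) (f i) n - cv (Fn i) (Fn i) n| ≤
      2 * (ε' * X1 ^ 2) := by
    intro i
    have hh : ∀ n, |f i n - Fn i n| ≤ lam n + Lw w n := by
      intro n
      have h1 := hf i n
      have h2 := hFn i n
      have h3 := hcl n
      have h4 := hcw' n
      have h5 := lam_nonneg n
      have h6 := Lw_nonneg w n
      rw [abs_le]
      constructor <;> linarith [h1.1, h1.2, h2.1, h2.2]
    have hFn0 : ∀ n, X1 < n → Fn i n = 0 := fun n hn =>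
      hFnX i n (by rw [Finset.mem_Icc]; omega)
    have hEE : ∀ α : ℝ, ‖∑ n ∈ Finset.Icc 1 X1, ((f i n - Fn i n : ℝ) : ℂ) * e (α * n)‖ ≤
        η2 * X1 := fun α => (hFnE i α).trans
      (mul_le_mul_of_nonneg_right (by rw [hη3]; exact min_le_left _ _) hX1r.le)
    refine conv_compare (hT X1 (hXX2.trans hXX1) (f i) (fun n => f i n - Fn i n) (Or.inl ?_) hh ?_
      hEE) (hT X1 (hXX2.trans hXX1) (Fn i) (fun n => f i n - Fn i n) (Or.inr ?_) hh ?_ hEE)
    · intro n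
      rw [abs_of_nonneg (hf i n).1]
      exact (hf i n).2.trans (hcl n)
    · intro n hn
      exact ⟨hfX i n hn, by rw [hfX i n hn, hFn0 n hn, sub_zero]⟩
    · intro n
      rw [abs_of_nonneg (hFn i n).1]
      exact (hFn i n).2.trans (hcw' n)
    · intro n hn
      exact ⟨hFn0 n hn, by rw [hfX i n hn, hFn0 n hn, sub_zero]⟩
  have hup := core_upper κ (W := W) (a := a) (X := X) hX1pos hfcw hfX
    (D := δ * X / Real.log X ^ 2) (by positivity) hcmp
    (S := (Finset.Icc 1 (a + W * Y)).filter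
      (fun n => (mono κ n : ℝ) ≤ δ * X / Real.log X ^ 2))
    (fun n hn => by
      rw [Finset.mem_filter, Finset.mem_Icc] at hn
      exact ⟨by omega, hn.2⟩)
    (by
      refine (Finset.card_filter_le _ _).trans ?_
      rw [Nat.card_Icc]
      omega)
  have hfin := hcore.trans hup
  -- numerics
  have hX2 : 2 ≤ X := by omega
  have hX2r : (2 : ℝ) ≤ X := by exact_mod_cast hX2
  have hlogpos : 0 < Real.log X := Real.log_pos (by linarith)
  have hlogX1 : Real.log X1 ≤ 2 * Real.log X := by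
    have h1 : Real.log X1 ≤ Real.log (X * X) := by
      refine Real.log_le_log hX1r (hX1Xr.trans ?_)
      exact mul_le_mul_of_nonneg_right hX2r hXr.le
    rw [Real.log_mul hXr.ne' hXr.ne'] at h1
    linarith
  have hlogX10 : 0 ≤ Real.log X1 := Real.log_natCast_nonneg X1
  have hsq : Real.log X1 ^ 2 ≤ 4 * Real.log X ^ 2 := by
    have := pow_le_pow_left₀ hlogX10 hlogX1 2
    linarith [this, mul_pow 2 (Real.log X) 2]
  have hlow : c * (16 * X ^ 2 / (W : ℝ) ^ 2) ≤ c * (8 * (Y : ℝ)) ^ 2 := by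
    refine mul_le_mul_of_nonneg_left ?_ hc.le
    have h1 : (X : ℝ) ≤ 2 * W * Y := by exact_mod_cast hYlow
    rw [div_le_iff₀ (by positivity)]
    have h2 := pow_le_pow_left₀ hXr.le h1 2
    nlinarith
  have h1 : (X : ℝ) * (Real.log X1 ^ 2 * (δ * X / Real.log X ^ 2 + 1)) ≤
      4 * δ * X ^ 2 + 4 * (c / (W : ℝ) ^ 2) * X ^ 2 := by
    have h2 : Real.log X1 ^ 2 * (δ * X / Real.log X ^ 2 + 1) ≤
        4 * Real.log X ^ 2 * (δ * X / Real.log X ^ 2 + 1) :=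
      mul_le_mul_of_nonneg_right hsq (by positivity)
    have h3 : 4 * Real.log X ^ 2 * (δ * X / Real.log X ^ 2 + 1) =
        4 * δ * X + 4 * Real.log X ^ 2 := by field_simp
    have h4 : (X : ℝ) * (Real.log X1 ^ 2 * (δ * X / Real.log X ^ 2 + 1)) ≤
        X * (4 * δ * X + 4 * ((c / (W : ℝ) ^ 2) * X)) := by
      refine mul_le_mul_of_nonneg_left ?_ hXr.le
      rw [h3] at h2
      linarith
    calc _ ≤ X * (4 * δ * X + 4 * ((c / (W : ℝ) ^ 2) * X)) := h4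
      _ = 4 * δ * X ^ 2 + 4 * (c / (W : ℝ) ^ 2) * X ^ 2 := by ring
  have h2 : (r : ℝ) * (2 * (ε' * X1 ^ 2)) ≤ 4 * (c / (W : ℝ) ^ 2) * X ^ 2 := by
    have h3 : (X1 : ℝ) ^ 2 ≤ 4 * X ^ 2 := by
      have := pow_le_pow_left₀ hX1r.le hX1Xr 2
      linarith [this, mul_pow 2 (X : ℝ) 2]
    calc (r : ℝ) * (2 * (ε' * X1 ^ 2)) ≤ r * (2 * (ε' * (4 * X ^ 2))) := by
          refine mul_le_mul_of_nonneg_left ?_ hr0.le
          refine mul_le_mul_of_nonneg_left ?_ (by norm_num)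
          exact mul_le_mul_of_nonneg_left h3 hε'0.le
      _ = 4 * (c / (W : ℝ) ^ 2) * X ^ 2 := by
          rw [hε']
          field_simp
  have h3 : c * (16 * X ^ 2 / (W : ℝ) ^ 2) ≤ 12 * (c / (W : ℝ) ^ 2) * X ^ 2 := by
    rw [hδ] at h1 hfin
    linarith
  have h4 : 12 * (c / (W : ℝ) ^ 2) * X ^ 2 < c * (16 * X ^ 2 / (W : ℝ) ^ 2) := by
    have h5 : 0 < c / (W : ℝ) ^ 2 * X ^ 2 := by positivity
    have h6 : c * (16 * X ^ 2 / (W : ℝ) ^ 2) = 16 * (c / (W : ℝ) ^ 2 * X ^ 2) := by ring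
    rw [h6]
    linarith
  linarith

end Pool.Agent.Lib.MG
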