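import Pool.Agent.Lib.MP_7b7e48_nt.MG.Z03
import Pool.Agent.Lib.MP_7b7e48_nt.MG.F03
import Pool.Agent.Lib.MP_7b7e48_nt.GT.Corr

/-!
# F04a: preparations for the final assembly
-/

open Finset

namespace Pool.Agent.Lib.MG

open Pool.Agent.Lib.GT Pool.Agent.Lib.GT.LA

theorem dbl_odd {N : ℕ} [NeZero N] (h : Odd N) : Dbl (ZMod N) := by
  have h2 : IsUnit ((2 : ℕ) : ZMod N) := (ZMod.isUnit_iff_coprime 2 N).2 (Nat.coprime_two_left.2 h)
  have hinj : Function.Injective (fun x : ZMod N => x + x) := by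
    intro x y hxy
    have h3 : ((2 : ℕ) : ZMod N) * x = ((2 : ℕ) : ZMod N) * y := by
      have h4 : x + x = y + y := hxy
      push_cast
      rw [two_mul, two_mul, h4]
    exact h2.mul_left_cancel h3
  exact (Finite.injective_iff_bijective).1 hinj

theorem exists_modulus {P Y : ℕ} (hP : Odd P) (h : 3 * P ≤ 2 * Y) :
    ∃ N, 8 * Y ≤ N ∧ N ≤ 10 * Y ∧ P ∣ N ∧ Odd N := by
  have hP0 : 0 < P := hP.pos
  obtain ⟨j, hj⟩ : ∃ j, j = 8 * Y / (2 * P) + 1 := ⟨_, rfl⟩
  have h1 : 2 * P * (8 * Y / (2 * P)) ≤ 8 * Y := Nat.mul_div_le _ _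
  have h2 : 8 * Y < 2 * P * (8 * Y / (2 * P)) + 2 * P := Nat.lt_mul_div_succ _ (by omega)
  have h3 : P * (2 * j + 1) = 2 * P * (8 * Y / (2 * P)) + 3 * P := by
    rw [hj]; ring
  refine ⟨P * (2 * j + 1), by omega, by omega, Dvd.intro _ rfl, ?_⟩
  exact hP.mul ⟨j, rfl⟩

/-- the normalised indicator of the rough numbers and the model weight -/
theorem Lz_eq {z w a : ℕ} (hzw : z ≤ w) (ha : Nat.Coprime a (Wp z)) {N : ℕ} (x : ZMod N) :
    Lz ((pr w) \ (pr z)) a (Wp z) x = V z * Lw w (a + Wp z * x.val) := by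
  have hsub : pr z ⊆ pr w := by
    intro p hp
    unfold pr at hp ⊢
    rw [Finset.mem_filter, Finset.mem_range] at hp ⊢
    exact ⟨by omega, hp.2⟩
  set n := a + Wp z * x.val with hn
  unfold Lz
  rw [← hn]
  have hsmall : ∀ p ∈ pr z, ¬ p ∣ n := by
    intro p hp hd
    have h1 : p ∣ Wp z := dvd_Wp hp
    have h2 : p ∣ a := by
      rw [hn] at hd
      exact (Nat.dvd_add_left (h1.mul_right _)).1 hd
    have h3 : p ∣ 1 := by
      rw [← Nat.Coprime.gcd_eq_one ha]
      exact Nat.dvd_gcd h2 h1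
    exact (Finset.mem_filter.1 hp).2.one_lt.ne' (Nat.dvd_one.1 h3)
  by_cases hr : ∀ q ∈ (pr w) \ (pr z), ¬ q ∣ n
  · have hR : Rough w n := by
      rw [rough_iff]
      intro p hp
      by_cases h : p ∈ pr z
      · exact hsmall p h
      · exact hr p (Finset.mem_sdiff.2 ⟨hp, h⟩)
    unfold Lw
    rw [if_pos hR]
    have h1 : ∏ q ∈ (pr w) \ (pr z), (if q ∣ n then (0 : ℝ) else (1 - 1 / (q : ℝ))⁻¹) =
        ∏ q ∈ (pr w) \ (pr z), (1 - 1 / (q : ℝ))⁻¹ :=
      Finset.prod_congr rfl fun q hq => by rw [if_neg (hr q hq)]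
    rw [h1, Finset.prod_inv_distrib]
    have h2 : V w = (∏ q ∈ (pr w) \ (pr z), (1 - 1 / (q : ℝ))) * V z := by
      unfold V
      exact (Finset.prod_sdiff hsub).symm
    rw [h2, mul_inv]
    have := (V_pos z).ne'
    field_simp
  · push Not at hr
    obtain ⟨q, hq, hqn⟩ := hr
    have hR : ¬ Rough w n := by
      rw [rough_iff]
      intro h
      exact h q (Finset.mem_sdiff.1 hq).1 hqn
    unfold Lw
    rw [if_neg hR, mul_zero]
    exact Finset.prod_eq_zero hq (by rw [if_pos hqn])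

open Classical in
theorem cw_le {r : ℕ} (κ : Nat.Primes → Fin r) (W a : ℕ) (i : Fin r) (n : ℕ) :
    0 ≤ cw κ W a i n ∧ cw κ W a i n ≤ if n % W = a then lam n else 0 := by
  unfold cw lam
  have := Real.log_natCast_nonneg n
  by_cases h : n.Prime
  · rw [dif_pos h, if_pos h]
    by_cases h2 : n % W = a
    · by_cases h3 : κ ⟨n, h⟩ = i
      · rw [if_pos ⟨h3, h2⟩, if_pos h2]
        exact ⟨this, le_rfl⟩
      · rw [if_neg (fun h4 => h3 h4.1), if_pos h2]
        exact ⟨le_rfl, this⟩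
    · rw [if_neg (fun h4 => h2 h4.2), if_neg h2]
      exact ⟨le_rfl, le_rfl⟩
  · rw [dif_neg h, if_neg h, ite_self]
    exact ⟨le_rfl, le_rfl⟩

open Classical in
theorem sum_cw {r : ℕ} (κ : Nat.Primes → Fin r) (W a : ℕ) (n : ℕ) :
    ∑ i, cw κ W a i n = if n % W = a then lam n else 0 := by
  unfold cw lam
  by_cases h : n.Prime
  · simp only [dif_pos h, if_pos h]
    by_cases h2 : n % W = a
    · rw [if_pos h2]
      have h3 : ∀ i, (if κ ⟨n, h⟩ = i ∧ n % W = a then Real.log n else 0) =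
          if κ ⟨n, h⟩ = i then Real.log n else 0 := by
        intro i
        by_cases h4 : κ ⟨n, h⟩ = i
        · rw [if_pos ⟨h4, h2⟩, if_pos h4]
        · rw [if_neg (fun h5 => h4 h5.1), if_neg h4]
      rw [Finset.sum_congr rfl fun i _ => h3 i, Finset.sum_ite_eq, if_pos (Finset.mem_univ _)]
    · rw [if_neg h2]
      exact Finset.sum_eq_zero fun i _ => if_neg fun h4 => h2 h4.2
  · simp only [dif_neg h, if_neg h, ite_self, Finset.sum_const_zero]

open Classical in
/-- if less than one quarter of the class is good, the bad part has mass at least `Y / 2` -/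
theorem bad_mass {X W a Y N : ℕ} [NeZero N] (hW : 1 ≤ W) (ha1 : 1 ≤ a) (haW : a < W)
    (hY1 : a + W * Y ≤ X) (hY2 : X < a + W * (Y + 1)) (hN : Y < N) (good bad : ℕ → Prop)
    (hgb : ∀ n, bad n ↔ ¬ good n)
    (h : (((Finset.Icc 1 X).filter fun n : ℕ => n % W = a ∧ good n).card : ℝ) < X / (4 * W)) :
    (Y : ℝ) / 2 ≤ ∑ m ∈ range (Y + 1),
      (fun x : ZMod N => if x.val ≤ Y ∧ bad (a + W * x.val) then (1 : ℝ) else 0)
        (m : ZMod N) := by
  have hval : ∀ m ∈ range (Y + 1), ((m : ZMod N)).val = m := by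
    intro m hm
    rw [Finset.mem_range] at hm
    exact ZMod.val_cast_of_lt (by omega)
  have h1 : ∀ m ∈ range (Y + 1),
      (fun x : ZMod N => if x.val ≤ Y ∧ bad (a + W * x.val) then (1 : ℝ) else 0) (m : ZMod N) =
        1 - if good (a + W * m) then 1 else 0 := by
    intro m hm
    dsimp only
    rw [hval m hm]
    have hm' : m ≤ Y := by
      rw [Finset.mem_range] at hm
      omega
    by_cases hg : good (a + W * m)
    · rw [if_neg (fun h => (hgb _).1 h.2 hg), if_pos hg, sub_self]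
    · rw [if_pos ⟨hm', (hgb _).2 hg⟩, if_neg hg, sub_zero]
  rw [Finset.sum_congr rfl h1, Finset.sum_sub_distrib, Finset.sum_const, Finset.card_range,
    nsmul_eq_mul, mul_one, Finset.sum_boole]
  have h2 : ((range (Y + 1)).filter fun m => good (a + W * m)).card ≤
      ((Finset.Icc 1 X).filter fun n : ℕ => n % W = a ∧ good n).card := by
    refine Finset.card_le_card_of_injOn (fun m => a + W * m) ?_ ?_
    · intro m hm
      rw [Finset.mem_coe, Finset.mem_filter, Finset.mem_range] at hm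
      rw [Finset.mem_coe, Finset.mem_filter, Finset.mem_Icc]
      have h3 : W * m ≤ W * Y := Nat.mul_le_mul_left W (by omega)
      have h4 : 1 ≤ a + W * m := by omega
      have h5 : a + W * m ≤ X := by omega
      have h6 : (a + W * m) % W = a := by
        rw [Nat.add_mul_mod_self_left]
        exact Nat.mod_eq_of_lt haW
      exact ⟨⟨h4, h5⟩, h6, hm.2⟩
    · intro m _ m' _ hmm
      have h3 : a + W * m = a + W * m' := hmm
      exact Nat.eq_of_mul_eq_mul_left (by omega) (Nat.add_left_cancel h3)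
  have h3 : (((range (Y + 1)).filter fun m => good (a + W * m)).card : ℝ) ≤
      (((Finset.Icc 1 X).filter fun n : ℕ => n % W = a ∧ good n).card : ℝ) := by exact_mod_cast h2
  have hWr : (1 : ℝ) ≤ W := by exact_mod_cast hW
  have h4 : (X : ℝ) / (4 * W) ≤ ((Y : ℝ) + 2) / 4 := by
    rw [div_le_div_iff₀ (by linarith) (by norm_num)]
    have h5 : (X : ℝ) ≤ W * (Y + 2) := by
      have h6 : X ≤ W * (Y + 2) := by nlinarith
      exact_mod_cast h6
    nlinarith
  push_cast
  linarith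

end Pool.Agent.Lib.MG
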