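import Pool.Agent.Lib.MP_7b7e48_nt.MG.Z00
import Pool.Agent.Lib.MP_7b7e48_nt.GT.LocalAvg

/-!
# Z05: the mass of the model weight on an interval of integers

Proof.  `ell x = ∏ q ∈ Q, (if q ∣ a + W x then 0 else (1-1/q)⁻¹)` is periodic modulo `P = ∏ q ∈ Q, q`
and its sum over a period is `P` (`Pool.Agent.Lib.GT.LA.sum_prod_period`; for one prime
`(q - 1) * (1 - 1/q)⁻¹ = q`, since `W` is invertible mod `q`).  The interval `[s, s + n)` contains
`⌊n / P⌋` disjoint full periods, so its sum is `≥ ⌊n / P⌋ * P ≥ n - P`.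
-/

open Finset

namespace Pool.Agent.Lib.MG

theorem card_root {q : ℕ} (hq : q.Prime) {W : ℕ} (hW : ¬ q ∣ W) (a : ℕ) :
    ((range q).filter (fun r => q ∣ a + W * r)).card = 1 := by
  classical
  have := Fact.mk hq
  have hW0 : (W : ZMod q) ≠ 0 := by
    rw [Ne, ZMod.natCast_eq_zero_iff]; exact hW
  rw [Finset.card_eq_one]
  refine ⟨(-(a : ZMod q) * (W : ZMod q)⁻¹).val, ?_⟩
  ext r
  rw [Finset.mem_filter, Finset.mem_range, Finset.mem_singleton]
  constructor
  · rintro ⟨hr, hd⟩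
    rw [← ZMod.natCast_eq_zero_iff] at hd
    push_cast at hd
    have h1 : (r : ZMod q) = -(a : ZMod q) * (W : ZMod q)⁻¹ := by
      rw [eq_mul_inv_iff_mul_eq₀ hW0, mul_comm]
      exact eq_neg_of_add_eq_zero_right hd
    rw [← h1, ZMod.val_cast_of_lt hr]
  · rintro rfl
    refine ⟨ZMod.val_lt _, ?_⟩
    rw [← ZMod.natCast_eq_zero_iff]
    push_cast
    rw [ZMod.natCast_zmod_val, mul_comm (W : ZMod q), mul_assoc, inv_mul_cancel₀ hW0]
    ring

theorem sum_local {q : ℕ} (hq : q.Prime) {W : ℕ} (hW : ¬ q ∣ W) (a : ℕ) :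
    ∑ r ∈ range q, (if q ∣ a + W * r then (0 : ℝ) else (1 - 1 / (q : ℝ))⁻¹) = q := by
  classical
  have hq1 : (1 : ℝ) < q := by exact_mod_cast hq.one_lt
  rw [Finset.sum_ite, Finset.sum_const_zero, zero_add, Finset.sum_const, nsmul_eq_mul]
  have h1 := Finset.card_filter_add_card_filter_not (s := range q) (fun r => q ∣ a + W * r)
  rw [card_root hq hW a, Finset.card_range] at h1
  have h2 : (((range q).filter (fun r => ¬ q ∣ a + W * r)).card : ℝ) = (q : ℝ) - 1 := by
    have : (1 : ℝ) + (((range q).filter (fun r => ¬ q ∣ a + W * r)).card : ℝ) = q := by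
      exact_mod_cast h1
    linarith
  rw [h2]
  have h3 : (q : ℝ) - 1 ≠ 0 := by linarith
  have h4 : (q : ℝ) ≠ 0 := by linarith
  rw [show (1 : ℝ) - 1 / q = (q - 1) / q by field_simp, inv_div]
  field_simp

theorem mass_interval {Q : Finset ℕ} {W : ℕ} (hQ : ∀ q ∈ Q, q.Prime ∧ ¬ q ∣ W) (a s n : ℕ) :
    (n : ℝ) - ((∏ q ∈ Q, q : ℕ) : ℝ) ≤ ∑ x ∈ Finset.Ico s (s + n),
      ∏ q ∈ Q, (if q ∣ a + W * x then (0 : ℝ) else (1 - 1 / (q : ℝ))⁻¹) := by
  classical
  obtain ⟨P, hP⟩ : ∃ P : ℕ, P = ∏ q ∈ Q, q := ⟨_, rfl⟩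
  obtain ⟨f, hf⟩ : ∃ f : ℕ → ℝ, f = fun x =>
    ∏ q ∈ Q, (if q ∣ a + W * x then (0 : ℝ) else (1 - 1 / (q : ℝ))⁻¹) := ⟨_, rfl⟩
  have hfx : ∀ x, ∏ q ∈ Q, (if q ∣ a + W * x then (0 : ℝ) else (1 - 1 / (q : ℝ))⁻¹) = f x :=
    fun x => by rw [hf]
  simp only [hfx]
  rw [← hP]
  have hP0 : 0 < P := by rw [hP]; exact Finset.prod_pos fun q hq => (hQ q hq).1.pos
  have hf0 : ∀ x, 0 ≤ f x := by
    intro x
    rw [← hfx x]
    refine Finset.prod_nonneg fun q hq => ?_
    split_ifs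
    · exact le_rfl
    · have hq1 : (1 : ℝ) < q := by exact_mod_cast (hQ q hq).1.one_lt
      have : 1 / (q : ℝ) ≤ 1 := by rw [div_le_one (by linarith)]; exact hq1.le
      exact inv_nonneg.mpr (by linarith)
  have hper : ∀ x, f (x + P) = f x := by
    intro x
    rw [← hfx x, ← hfx (x + P)]
    refine Finset.prod_congr rfl fun q hq => ?_
    have hd : q ∣ W * P := Dvd.dvd.mul_left (by rw [hP]; exact Finset.dvd_prod_of_mem _ hq) W
    have : (q ∣ a + W * (x + P)) ↔ (q ∣ a + W * x) := by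
      rw [show a + W * (x + P) = (a + W * x) + W * P by ring]
      exact (Nat.dvd_add_iff_left hd).symm
    simp only [this]
  have hsum : ∑ x ∈ range P, f x = P := by
    have h1 : ∀ x ∈ range P, f x = ∏ q ∈ Q,
        (fun q r => if q ∣ a + W * r then (0 : ℝ) else (1 - 1 / (q : ℝ))⁻¹) q (x % q) := by
      intro x _
      rw [← hfx x]
      refine Finset.prod_congr rfl fun q hq => ?_
      have : (q ∣ a + W * x) ↔ (q ∣ a + W * (x % q)) := by
        conv_lhs => rw [← Nat.mod_add_div x q]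
        rw [show a + W * (x % q + q * (x / q)) = (a + W * (x % q)) + q * (W * (x / q)) by ring]
        exact (Nat.dvd_add_iff_left (dvd_mul_right _ _)).symm
      simp only [this]
    rw [Finset.sum_congr rfl h1, hP]
    refine (Pool.Agent.Lib.GT.LA.sum_prod_period Q (fun q hq => (hQ q hq).1)
      (fun q r => if q ∣ a + W * r then (0 : ℝ) else (1 - 1 / (q : ℝ))⁻¹)).trans ?_
    push_cast
    exact Finset.prod_congr rfl fun q hq => sum_local (hQ q hq).1 (hQ q hq).2 a
  have hblock : ∀ A, ∑ x ∈ Finset.Ico A (A + P), f x = P := fun A => by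
    rw [Pool.Agent.Lib.GT.LA.sum_block f hper A, hsum]
  induction n using Nat.strong_induction_on generalizing s with
  | _ n ih =>
    by_cases hn : n < P
    · have h1 : (n : ℝ) < P := by exact_mod_cast hn
      have h2 : 0 ≤ ∑ x ∈ Finset.Ico s (s + n), f x := Finset.sum_nonneg fun x _ => hf0 x
      linarith
    · rw [not_lt] at hn
      have h1 := ih (n - P) (by omega) (s + P)
      rw [show s + P + (n - P) = s + n by omega] at h1
      have h2 := Finset.sum_Ico_consecutive f (by omega : s ≤ s + P) (by omega : s + P ≤ s + n)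
      rw [← h2, hblock s]
      have h3 : ((n - P : ℕ) : ℝ) = (n : ℝ) - P := by push_cast [hn]; ring
      rw [h3] at h1
      linarith

end Pool.Agent.Lib.MG
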