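import Pool.Agent.Lib.MP_7b7e48_nt.MG.Z04
import Pool.Agent.Lib.MP_7b7e48_nt.MG.Z05

/-!
# Z06: the initial cell

Proof.  Let `1/2000 ≤ ρ ≤ 1/1000` and `H` from `bohr_interval` for `ρ`, so
`Y/2000 - 1 ≤ ρ N / 8 - 1 ≤ H ≤ ρ N / 4 ≤ Y / 400`.  Let `u = ⌈Y/50⌉`, `v = Y - u`.
(1) For `m ∈ [u, v]`, `M00 = (m : ZMod N)`: if `‖stdAddChar (x - M00) - 1‖ ≤ 3/1000` then
`x = (m + k : ZMod N)` with `|k| ≤ 3/1000 * N / 4 ≤ 3 Y / 400 < u`, so `x.val = m + k ≤ Y`.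
(2) Sum over `m ∈ [u, v]` of the averages of `Θ (M00 + ·)` (`ex_interval`):
`(1/(2H+1)) ∑_{|k| ≤ H} ∑_{m=u}^{v} Θ (m + k) ≥ ∑_{m'=u+H}^{v-H} Θ m' ≥ Y/2 - (u + H) - (Y - v + H) - 1
≥ Y/2 - 2u - 2H - 2`, and there are `v - u + 1 ≤ Y - 2u + 1` values `m`, so some `m` has
average `≥ (Y/2 - 2Y/50 - Y/200 - 10) / (Y - Y/25 + 1) ≥ 9/20` (here `Y ≥ 10^6`; the real value is
about `0.473`).
(3) mass: `(M00 + k).val = m + k`, so the average of `Lz` is
`(1/(2H+1)) ∑_{x = m-H}^{m+H} ∏ .. ≥ 1 - P/(2H+1) ≥ 1 - ζ` by `mass_interval`, because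
`2 H + 1 ≥ Y/1000 - 1 ≥ Y/2000 ≥ P / ζ`.
-/

open Finset

namespace Pool.Agent.Lib.MG

theorem phys_init {N Y : ℕ} [NeZero N] (hN1 : 8 * Y ≤ N) (hN2 : N ≤ 10 * Y) {Q : Finset ℕ}
    {a W : ℕ} (hQ : ∀ q ∈ Q, q.Prime ∧ ¬ q ∣ W) {ζ : ℝ} (hζ : 0 < ζ)
    (hY1 : 2000 * ((∏ q ∈ Q, q : ℕ) : ℝ) / ζ ≤ Y) (hY2 : 10 ^ 6 ≤ Y) {Θ : ZMod N → ℝ}
    (hΘ : ∀ x, 0 ≤ Θ x ∧ Θ x ≤ 1) (hdens : (Y : ℝ) / 2 ≤ ∑ m ∈ range (Y + 1), Θ (m : ZMod N))
    {ρ : ℝ} (hρ0 : 1 / 2000 ≤ ρ) (hρ1 : ρ ≤ 1 / 1000) :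
    ∃ M00 : ZMod N,
      (∀ x : ZMod N, ‖(ZMod.stdAddChar (x - M00) : ℂ) - 1‖ ≤ 3 / 1000 → x.val ≤ 2 * Y) ∧
      9 / 20 ≤ Ex (unif (Bohr {(ZMod.stdAddChar : AddChar (ZMod N) ℂ)} ρ))
        (fun x => Θ (M00 + x)) ∧
      1 - ζ ≤ Ex (unif (Bohr {(ZMod.stdAddChar : AddChar (ZMod N) ℂ)} ρ))
        (fun x => Lz Q a W (M00 + x)) := by
  obtain ⟨H, hH1, hH2, hH3, hH4⟩ := bohr_interval (N := N) (ρ := ρ) (by linarith) (by linarith)
  obtain ⟨H', _, hH2', _, hH4'⟩ := bohr_interval (N := N) (ρ := 3 / 1000) (by norm_num) (by norm_num)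
  have hYr : (10 : ℝ) ^ 6 ≤ Y := by exact_mod_cast hY2
  have hN1r : 8 * (Y : ℝ) ≤ N := by exact_mod_cast hN1
  have hN2r : (N : ℝ) ≤ 10 * Y := by exact_mod_cast hN2
  have hNpos : (0 : ℝ) < N := by linarith
  -- sizes of H, H'
  have hHup : (H : ℝ) ≤ Y / 400 := by
    have h1 : ρ * N ≤ 1 / 1000 * (10 * Y) := mul_le_mul hρ1 hN2r hNpos.le (by norm_num)
    linarith
  have hHlo : (Y : ℝ) / 2000 - 1 ≤ H := by
    have h1 : 1 / 2000 * (8 * (Y : ℝ)) ≤ ρ * N := mul_le_mul hρ0 hN1r (by positivity) (by linarith)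
    linarith
  have hH'up : (H' : ℝ) ≤ 3 * Y / 400 := by
    have h1 : 3 / 1000 * (N : ℝ) ≤ 3 / 1000 * (10 * Y) := by linarith
    linarith
  have hHn : 400 * H ≤ Y := by
    have h1 : 400 * (H : ℝ) ≤ Y := by linarith
    exact_mod_cast h1
  have hH'n : 400 * H' ≤ 3 * Y := by
    have h1 : 400 * (H' : ℝ) ≤ 3 * Y := by linarith
    exact_mod_cast h1
  obtain ⟨u, hu⟩ : ∃ u : ℕ, u = Y / 50 + 1 := ⟨_, rfl⟩
  have hu1 : 50 * u ≤ Y + 50 := by omega
  have hu2 : Y < 50 * u := by omega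
  obtain ⟨v, hv⟩ : ∃ v : ℕ, v + u = Y := ⟨Y - u, by omega⟩
  have hu1r : 50 * (u : ℝ) ≤ Y + 50 := by exact_mod_cast hu1
  have hu2r : (Y : ℝ) < 50 * u := by exact_mod_cast hu2
  have hvr : (v : ℝ) + u = Y := by exact_mod_cast hv
  have huv : u + H ≤ v - H := by omega
  have hHv : H ≤ v := by omega
  set θ : ℤ → ℝ := fun n => Θ (n : ZMod N) with hθ
  have hθ0 : ∀ n, 0 ≤ θ n := fun n => (hΘ _).1
  set T : Finset ℤ := Finset.Icc (u : ℤ) (v : ℤ) with hT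
  have hTcard : (T.card : ℝ) = (Y : ℝ) - 2 * u + 1 := by
    rw [hT, Int.card_Icc]
    have h1 : (((v : ℤ) + 1 - (u : ℤ)).toNat : ℤ) = (v : ℤ) + 1 - u := by
      apply Int.toNat_of_nonneg
      omega
    have h2 : ((((v : ℤ) + 1 - (u : ℤ)).toNat : ℤ) : ℝ) = (((v : ℤ) + 1 - (u : ℤ) : ℤ) : ℝ) := by
      rw [h1]
    push_cast at h2
    have h3 : ((((v : ℤ) + 1 - (u : ℤ)).toNat : ℕ) : ℝ) = (v : ℝ) + 1 - u := by
      exact_mod_cast h2
    rw [h3]
    linarith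
  have hH2pos : (0 : ℝ) < 2 * H + 1 := by positivity
  have hKcard : ((Finset.Icc (-(H : ℤ)) H).card : ℝ) = 2 * H + 1 := by
    rw [Int.card_Icc]
    have h1 : ((H : ℤ) + 1 - -(H : ℤ)).toNat = 2 * H + 1 := by omega
    rw [h1]
    push_cast
    ring
  -- the sum over the middle
  set S : ℝ := ∑ n ∈ Finset.Icc (u + H) (v - H), Θ ((n : ℕ) : ZMod N) with hS
  have hSlow : (Y : ℝ) / 2 - 2 * u - 2 * H ≤ S := by
    have hsub : Finset.Icc (u + H) (v - H) ⊆ range (Y + 1) := by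
      intro n hn
      rw [Finset.mem_Icc] at hn
      rw [Finset.mem_range]
      omega
    have h1 := Finset.sum_sdiff (f := fun n : ℕ => Θ ((n : ℕ) : ZMod N)) hsub
    have h2 : ∑ n ∈ range (Y + 1) \ Finset.Icc (u + H) (v - H), Θ ((n : ℕ) : ZMod N) ≤
        2 * u + 2 * H := by
      calc ∑ n ∈ range (Y + 1) \ Finset.Icc (u + H) (v - H), Θ ((n : ℕ) : ZMod N)
          ≤ ∑ _n ∈ range (Y + 1) \ Finset.Icc (u + H) (v - H), (1 : ℝ) :=
            Finset.sum_le_sum (fun n _ => (hΘ _).2)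
        _ = ((range (Y + 1) \ Finset.Icc (u + H) (v - H)).card : ℝ) := by
            rw [Finset.sum_const, nsmul_eq_mul, mul_one]
        _ = 2 * u + 2 * H := by
            rw [Finset.card_sdiff_of_subset hsub, Finset.card_range, Nat.card_Icc]
            have h3 : Y + 1 - (v - H + 1 - (u + H)) = 2 * u + 2 * H := by omega
            rw [h3]
            push_cast
            ring
    linarith
  have hSθ : ∑ n ∈ Finset.Icc ((u : ℤ) + H) ((v : ℤ) - H), θ n = S := by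
    symm
    rw [hS]
    apply Finset.sum_bij (fun (n : ℕ) _ => (n : ℤ))
    · intro n hn
      rw [Finset.mem_Icc] at hn
      rw [Finset.mem_Icc]
      constructor <;> omega
    · intro x _ y _ hxy
      have h2 : (x : ℤ) = (y : ℤ) := hxy
      omega
    · intro b hb
      rw [Finset.mem_Icc] at hb
      refine ⟨b.toNat, ?_, ?_⟩
      · rw [Finset.mem_Icc]
        constructor <;> omega
      · exact Int.toNat_of_nonneg (by omega)
    · intro n _
      rw [hθ]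
      dsimp only
      rw [Int.cast_natCast]
  have hshift : ∀ k ∈ Finset.Icc (-(H : ℤ)) H, S ≤ ∑ m ∈ T, θ (m + k) := by
    intro k hk
    rw [Finset.mem_Icc] at hk
    rw [← hSθ]
    calc ∑ n ∈ Finset.Icc ((u : ℤ) + H) ((v : ℤ) - H), θ n
        ≤ ∑ n ∈ T.image (fun m => m + k), θ n := by
          apply Finset.sum_le_sum_of_subset_of_nonneg
          · intro n hn
            rw [Finset.mem_Icc] at hn
            rw [Finset.mem_image]
            refine ⟨n - k, ?_, by ring⟩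
            rw [hT, Finset.mem_Icc]
            constructor <;> omega
          · intro n _ _
            exact hθ0 n
      _ = ∑ m ∈ T, θ (m + k) := by
          rw [Finset.sum_image]
          intro x _ y _ hxy
          exact add_right_cancel hxy
  have hex : ∃ m ∈ T, 9 / 20 ≤ (∑ k ∈ Finset.Icc (-(H : ℤ)) H, θ (m + k)) / (2 * H + 1) := by
    by_contra hcon
    push Not at hcon
    have h1 : ∑ m ∈ T, ∑ k ∈ Finset.Icc (-(H : ℤ)) H, θ (m + k) ≤
        (T.card : ℝ) * (9 / 20 * (2 * H + 1)) := by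
      calc ∑ m ∈ T, ∑ k ∈ Finset.Icc (-(H : ℤ)) H, θ (m + k)
          ≤ ∑ _m ∈ T, (9 / 20 * (2 * (H : ℝ) + 1)) := by
            apply Finset.sum_le_sum
            intro m hm
            have h2 := hcon m hm
            rw [div_lt_iff₀ hH2pos] at h2
            exact h2.le
        _ = (T.card : ℝ) * (9 / 20 * (2 * H + 1)) := by rw [Finset.sum_const, nsmul_eq_mul]
    have h2 : (2 * (H : ℝ) + 1) * S ≤ ∑ m ∈ T, ∑ k ∈ Finset.Icc (-(H : ℤ)) H, θ (m + k) := by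
      rw [Finset.sum_comm]
      calc (2 * (H : ℝ) + 1) * S = ∑ _k ∈ Finset.Icc (-(H : ℤ)) H, S := by
            rw [Finset.sum_const, nsmul_eq_mul, hKcard]
        _ ≤ _ := Finset.sum_le_sum hshift
    have h3 : (2 * (H : ℝ) + 1) * S ≤ (2 * (H : ℝ) + 1) * ((T.card : ℝ) * (9 / 20)) := by
      calc (2 * (H : ℝ) + 1) * S ≤ _ := h2
        _ ≤ _ := h1
        _ = (2 * (H : ℝ) + 1) * ((T.card : ℝ) * (9 / 20)) := by ring
    have h4 : S ≤ (T.card : ℝ) * (9 / 20) := le_of_mul_le_mul_left h3 hH2pos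
    rw [hTcard] at h4
    linarith
  obtain ⟨m, hmT, hm⟩ := hex
  rw [hT, Finset.mem_Icc] at hmT
  obtain ⟨mn, hmn⟩ : ∃ mn : ℕ, (mn : ℤ) = m := ⟨m.toNat, Int.toNat_of_nonneg (by omega)⟩
  refine ⟨(m : ZMod N), ?_, ?_, ?_⟩
  · intro x hx
    obtain ⟨k, hk1, hk2⟩ := (hH4' (x - (m : ZMod N))).mp hx
    have hk3 := abs_le.mp hk1
    obtain ⟨n, hn⟩ : ∃ n : ℕ, (n : ℤ) = m + k := ⟨(m + k).toNat, Int.toNat_of_nonneg (by omega)⟩
    have h1 : x = ((n : ℕ) : ZMod N) := by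
      have h2 : x = (m : ZMod N) + (k : ZMod N) := by
        rw [← hk2]
        ring
      have h3 : (((n : ℕ) : ℤ) : ZMod N) = ((m + k : ℤ) : ZMod N) := by rw [hn]
      rw [Int.cast_natCast] at h3
      rw [h3, h2]
      push_cast
      ring
    rw [h1, ZMod.val_natCast_of_lt (by omega)]
    omega
  · rw [ex_interval hH1 hH4]
    refine le_trans hm (le_of_eq ?_)
    congr 1
    apply Finset.sum_congr rfl
    intro k _
    rw [hθ]
    dsimp only
    push_cast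
    rfl
  · rw [ex_interval hH1 hH4]
    have hmass := mass_interval hQ a (mn - H) (2 * H + 1)
    have h1 : ∑ x ∈ Finset.Ico (mn - H) (mn - H + (2 * H + 1)),
        ∏ q ∈ Q, (if q ∣ a + W * x then (0 : ℝ) else (1 - 1 / (q : ℝ))⁻¹) =
        ∑ k ∈ Finset.Icc (-(H : ℤ)) H, Lz Q a W ((m : ZMod N) + (k : ZMod N)) := by
      apply Finset.sum_bij (fun (x : ℕ) _ => (x : ℤ) - m)
      · intro x hx
        rw [Finset.mem_Ico] at hx
        rw [Finset.mem_Icc]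
        constructor <;> omega
      · intro x _ y _ hxy
        have h2 : (x : ℤ) - m = (y : ℤ) - m := hxy
        omega
      · intro k hk
        rw [Finset.mem_Icc] at hk
        refine ⟨(m + k).toNat, ?_, ?_⟩
        · rw [Finset.mem_Ico]
          constructor <;> omega
        · rw [Int.toNat_of_nonneg (by omega)]
          ring
      · intro x hx
        rw [Finset.mem_Ico] at hx
        have h2 : (m : ZMod N) + (((x : ℤ) - m : ℤ) : ZMod N) = ((x : ℕ) : ZMod N) := by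
          push_cast
          ring
        rw [h2]
        unfold Lz
        rw [ZMod.val_natCast_of_lt (by omega)]
    rw [← h1, le_div_iff₀ hH2pos]
    refine le_trans ?_ hmass
    push_cast
    have hP : ((∏ q ∈ Q, q : ℕ) : ℝ) ≤ ζ * (2 * H + 1) := by
      rw [div_le_iff₀ hζ] at hY1
      have h5 : (Y : ℝ) / 2000 ≤ 2 * H + 1 := by linarith
      have h6 : (Y : ℝ) * ζ ≤ 2000 * (2 * H + 1) * ζ := by
        apply mul_le_mul_of_nonneg_right _ hζ.le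
        linarith
      linarith
    push_cast at hP
    linarith

end Pool.Agent.Lib.MG
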