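import Pool.Agent.Lib.MP_7b7e48_nt.MG.F04a
import Pool.Agent.Lib.MP_7b7e48_nt.MG.C13
import Pool.Agent.Lib.MP_7b7e48_nt.MG.Z06
import Pool.Agent.Lib.MP_7b7e48_nt.MG.F01

/-!
# F04b: from the local world to the integers, at a fixed scale
-/

open Finset

namespace Pool.Agent.Lib.MG

open Pool.Agent.Lib.GT Pool.Agent.Lib.GT.LA Pool.Agent.Lib.MP_7b7e48_nt.SP

open Classical in
theorem class_core {r : ℕ} {z w : ℕ} (hz2 : 2 ≤ z) (hzw : z ≤ w) {c η ζ : ℝ}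
    (hc : 0 < c) (hη : 0 < η) (hζ : 0 < ζ)
    (LW : ∀ (G : Type) [AddCommGroup G] [Fintype G] [DecidableEq G] (L A : G → ℝ),
      PS (z : ℝ) L A → Dbl G →
      ∀ (ψ0 : AddChar G ℂ) (I : Finset G) (Θ : G → ℝ), (∀ x, 0 ≤ Θ x ∧ Θ x ≤ 1) →
      ∀ (F : Fin r → G → ℝ), (∀ i x, 0 ≤ F i x ∧ F i x ≤ L x) →
      (∀ χ : AddChar G ℂ, ‖∑ x, ((∑ i, F i x - (if x ∈ I then L x else 0) : ℝ) : ℂ) * χ x‖ ≤
        η * Fintype.card G) →
      (∀ ρ : ℝ, 1 / 2000 ≤ ρ → ρ ≤ 1 / 1000 → ∃ M00 : G,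
        (∀ x, ‖ψ0 (x - M00) - 1‖ ≤ 3 / 1000 → x ∈ I) ∧
        9 / 20 ≤ Ex (unif (Bohr {ψ0} ρ)) (fun x => Θ (M00 + x)) ∧
        1 - ζ ≤ Ex (unif (Bohr {ψ0} ρ)) (fun x => L (M00 + x))) →
      c * (Fintype.card G : ℝ) ^ 2 ≤ ∑ i, Cnt Θ (F i))
    {X1 Y a X : ℕ} (ha : Nat.Coprime a (Wp z)) (haW : a < Wp z)
    (hX1 : X1 = a + Wp z * (2 * Y)) (hXY1 : a + Wp z * Y ≤ X) (hXY2 : X < a + Wp z * (Y + 1))
    (hY1 : 2000 * ((∏ q ∈ pr w \ pr z, q : ℕ) : ℝ) / ζ ≤ Y) (hY2 : 10 ^ 6 ≤ Y)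
    (hY3 : 3 * (∏ q ∈ pr w \ pr z, q) ≤ 2 * Y)
    {Fn : Fin r → ℕ → ℝ}
    (hFn : ∀ i n, 0 ≤ Fn i n ∧ Fn i n ≤ if n % Wp z = a then Lw w n else 0) {E : ℝ}
    (hfour : ∀ α : ℝ, ‖∑ n ∈ Finset.Icc 1 X1,
      ((∑ i, Fn i n - (if n % Wp z = a then Lw w n else 0) : ℝ) : ℂ) * e (α * n)‖ ≤ E)
    (hE : E ≤ η * (8 * Y)) (good bad : ℕ → Prop) (hgb : ∀ n, bad n ↔ ¬ good n)
    (hgood : (((Finset.Icc 1 X).filter fun n : ℕ => n % Wp z = a ∧ good n).card : ℝ) <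
      X / (4 * Wp z)) :
    c * (8 * (Y : ℝ)) ^ 2 ≤ ∑ i, ∑ n ∈ (Finset.Icc 1 (a + Wp z * Y)).filter bad,
      cv (Fn i) (Fn i) (2 * n) := by
  have hWpos := Wp_pos z
  have h2W : 2 ∣ Wp z := dvd_Wp (Finset.mem_filter.2 ⟨Finset.mem_range.2 (by omega), Nat.prime_two⟩)
  have hW2 : 2 ≤ Wp z := Nat.le_of_dvd hWpos h2W
  have ha1 : 1 ≤ a := by
    rcases Nat.eq_zero_or_pos a with h | h
    · rw [h, Nat.coprime_zero_left] at ha
      omega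
    · exact h
  obtain ⟨Q, hQdef⟩ : ∃ Q, Q = pr w \ pr z := ⟨_, rfl⟩
  rw [← hQdef] at hY1 hY3
  have hQ : ∀ q ∈ Q, q.Prime ∧ z < q := by
    intro q hq
    rw [hQdef, Finset.mem_sdiff] at hq
    have h1 := Finset.mem_filter.1 hq.1
    refine ⟨h1.2, ?_⟩
    by_contra h
    exact hq.2 (Finset.mem_filter.2 ⟨Finset.mem_range.2 (by omega), h1.2⟩)
  have hQW : ∀ q ∈ Q, ¬ q ∣ Wp z := by
    intro q hq hd
    obtain ⟨h1, h2⟩ := hQ q hq
    unfold Wp at hd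
    rw [Prime.dvd_finsetProd_iff h1.prime] at hd
    obtain ⟨p, hp, hqp⟩ := hd
    have h3 := Finset.mem_filter.1 hp
    rw [Nat.prime_dvd_prime_iff_eq h1 h3.2] at hqp
    have h4 := Finset.mem_range.1 h3.1
    omega
  have hPodd : Odd (∏ q ∈ Q, q) := by
    rw [Nat.odd_iff, ← Nat.two_dvd_ne_zero, Prime.dvd_finsetProd_iff Nat.prime_two.prime]
    rintro ⟨q, hq, h2q⟩
    obtain ⟨h1, h2⟩ := hQ q hq
    rw [Nat.prime_dvd_prime_iff_eq Nat.prime_two h1] at h2q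
    omega
  obtain ⟨N, hN1, hN2, hPN, hNodd⟩ := exists_modulus hPodd hY3
  have hYpos : 0 < Y := by omega
  haveI : NeZero N := ⟨by omega⟩
  have hps : PS (z : ℝ) (Lz Q a (Wp z) (N := N)) (Az Q) :=
    ps_zmod (by omega) (fun q hq => ⟨(hQ q hq).1, (hQ q hq).2,
      (Finset.dvd_prod_of_mem _ hq).trans hPN⟩) hQW
  have hcard : (Fintype.card (ZMod N) : ℝ) = N := by rw [ZMod.card]
  have hV0 := V_pos z
  have hV1 : V z ≤ 1 := V_le_one z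
  have hmod : ∀ m : ℕ, (a + Wp z * m) % Wp z = a := fun m => by
    rw [Nat.add_mul_mod_self_left]
    exact Nat.mod_eq_of_lt haW
  have hLz : ∀ x : ZMod N, Lz Q a (Wp z) x = V z * Lw w (a + Wp z * x.val) := fun x => by
    rw [hQdef]
    exact Lz_eq hzw ha x
  set I : Finset (ZMod N) := Finset.univ.filter (fun x => x.val ≤ 2 * Y) with hI
  set Θ : ZMod N → ℝ := fun x => if x.val ≤ Y ∧ bad (a + Wp z * x.val) then 1 else 0 with hΘ
  set F : Fin r → ZMod N → ℝ :=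
    fun i x => if x.val ≤ 2 * Y then V z * Fn i (a + Wp z * x.val) else 0 with hF
  have hΘ1 : ∀ x, 0 ≤ Θ x ∧ Θ x ≤ 1 := by
    intro x
    rw [hΘ]
    dsimp only
    split_ifs
    · exact ⟨zero_le_one, le_rfl⟩
    · exact ⟨le_rfl, zero_le_one⟩
  have hF1 : ∀ i x, 0 ≤ F i x ∧ F i x ≤ Lz Q a (Wp z) x := by
    intro i x
    have h1 := hFn i (a + Wp z * x.val)
    rw [if_pos (hmod _)] at h1
    rw [hLz x, hF]
    dsimp only
    split_ifs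
    · exact ⟨mul_nonneg hV0.le h1.1, mul_le_mul_of_nonneg_left h1.2 hV0.le⟩
    · exact ⟨le_rfl, mul_nonneg hV0.le (Lw_nonneg _ _)⟩
  have hS : ∀ χ : AddChar (ZMod N) ℂ,
      ‖∑ x, ((∑ i, F i x - (if x ∈ I then Lz Q a (Wp z) x else 0) : ℝ) : ℂ) * χ x‖ ≤
        η * Fintype.card (ZMod N) := by
    intro χ
    have h1 := fourier_transport (N := N) (Y := Y) (W := Wp z) (a := a) (X1 := X1) (by omega) hWpos
      ha1 haW hX1 hV0.le (g := fun n => ∑ i, Fn i n - (if n % Wp z = a then Lw w n else 0))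
      (fun n hn => by
        rw [if_neg hn, sub_zero]
        refine Finset.sum_eq_zero fun i _ => ?_
        have h2 := hFn i n
        rw [if_neg hn] at h2
        exact le_antisymm h2.2 h2.1) hfour χ
    have h2 : ∀ x : ZMod N, (∑ i, F i x - (if x ∈ I then Lz Q a (Wp z) x else 0) : ℝ) =
        if x.val ≤ 2 * Y then V z * (∑ i, Fn i (a + Wp z * x.val) -
          (if (a + Wp z * x.val) % Wp z = a then Lw w (a + Wp z * x.val) else 0)) else 0 := by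
      intro x
      simp only [hF, hI]
      by_cases hx : x.val ≤ 2 * Y
      · simp only [if_pos hx, if_pos (hmod _), Finset.mem_filter, Finset.mem_univ, true_and]
        rw [hLz x, ← Finset.mul_sum, ← mul_sub]
      · simp only [if_neg hx, Finset.mem_filter, Finset.mem_univ, true_and,
          Finset.sum_const_zero, sub_zero]
    rw [Finset.sum_congr rfl fun x _ => by rw [h2 x]]
    refine h1.trans ?_
    rw [hcard]
    have hE0 : 0 ≤ E := (norm_nonneg _).trans (hfour 0)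
    have h3 : V z * E ≤ E := mul_le_of_le_one_left hE0 hV1
    have h4 : 8 * (Y : ℝ) ≤ N := by exact_mod_cast hN1
    calc V z * E ≤ η * (8 * Y) := h3.trans hE
      _ ≤ η * N := mul_le_mul_of_nonneg_left h4 hη.le
  have hdens : (Y : ℝ) / 2 ≤ ∑ m ∈ range (Y + 1), Θ (m : ZMod N) :=
    bad_mass (by omega) ha1 haW hXY1 hXY2 (by omega) good bad hgb hgood
  have hmain := LW (ZMod N) (Lz Q a (Wp z)) (Az Q) hps (dbl_odd hNodd)
    (ZMod.stdAddChar : AddChar (ZMod N) ℂ) I Θ hΘ1 F hF1 hS (fun ρ hρ0 hρ1 => by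
      obtain ⟨M00, h1, h2, h3⟩ := phys_init (a := a) (W := Wp z) hN1 hN2
        (fun q hq => ⟨(hQ q hq).1, hQW q hq⟩) hζ hY1 hY2 hΘ1 hdens hρ0 hρ1
      refine ⟨M00, fun x hx => ?_, h2, h3⟩
      rw [hI, Finset.mem_filter]
      exact ⟨Finset.mem_univ _, h1 x hx⟩)
  rw [hcard] at hmain
  have h8 : (8 * (Y : ℝ)) ^ 2 ≤ (N : ℝ) ^ 2 := by
    have h4 : 8 * (Y : ℝ) ≤ N := by exact_mod_cast hN1
    exact pow_le_pow_left₀ (by positivity) h4 2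
  calc c * (8 * (Y : ℝ)) ^ 2 ≤ c * (N : ℝ) ^ 2 := mul_le_mul_of_nonneg_left h8 hc.le
    _ ≤ ∑ i, Cnt Θ (F i) := hmain
    _ ≤ _ := Finset.sum_le_sum fun i _ =>
      cnt_le_conv (N := N) (Y := Y) (W := Wp z) (a := a) (by omega) hWpos ha1 hV0.le hV1
        (fun n => (hFn i n).1) bad

end Pool.Agent.Lib.MG
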