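import Pool.Agent.Lib.MP_7b7e48_nt.MG.F04
import Pool.Agent.Lib.MP_7b7e48_nt.SP.WindowMass
import Pool.Agent.Lib.MP_7b7e48_nt.GT.RoughCount

/-!
# F05: the lower bound

Proof.  `z = (20000 r^8)^13`, `log z ≤ 300 log r` (`log 20000 ≤ 15 log 2 ≤ 15 log r`).  Sum
`class_lower` over the `a < Wp z` coprime to `Wp z`: the sets are disjoint, their number is
`totient (Wp z) = V z * Wp z` (`WindowAux.totient_Wp`), so at least `V z / 4 * X` good `n`; and
`V z ≥ c₀ / log z` (`(V z)⁻¹ ≤ C * log z`, the lemma `V_inv_le` of GT/RoughCount).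
-/

open Finset

namespace Pool.Agent.Lib.MG

open Pool.Agent.Lib.GT

namespace F05Aux

theorem log_z_le (r : ℕ) (hr : 2 ≤ r) :
    Real.log (((20000 * r ^ 8) ^ 13 : ℕ) : ℝ) ≤ 299 * Real.log r := by
  have hrR : (2 : ℝ) ≤ r := by exact_mod_cast hr
  have hr0 : (0 : ℝ) < r := by linarith
  have h1 : Real.log (20000 : ℝ) ≤ 15 * Real.log r := by
    have h2 : Real.log (20000 : ℝ) ≤ Real.log ((2 : ℝ) ^ 15) :=
      Real.log_le_log (by norm_num) (by norm_num)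
    rw [Real.log_pow] at h2
    have h3 : Real.log (2 : ℝ) ≤ Real.log r := Real.log_le_log (by norm_num) hrR
    push_cast at h2
    linarith
  push_cast
  rw [Real.log_pow, Real.log_mul (by norm_num) (pow_ne_zero _ hr0.ne'), Real.log_pow]
  push_cast
  linarith

end F05Aux

open Classical in
theorem mono_lower : ∃ c : ℝ, 0 < c ∧ ∀ r : ℕ, 2 ≤ r → ∃ δ : ℝ, 0 < δ ∧ ∃ X₀ : ℕ, ∀ X : ℕ,
    X₀ ≤ X → ∀ κ : Nat.Primes → Fin r, c / Real.log r * X ≤
      (((Finset.Icc 1 X).filter fun n : ℕ =>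
        δ * X / Real.log X ^ 2 < (mono κ n : ℝ)).card : ℝ) := by
  obtain ⟨C, hC, hV⟩ := Pool.Agent.Lib.GT.V_inv_le
  refine ⟨1 / (4 * (C * 299)), by positivity, fun r hr => ?_⟩
  set z : ℕ := (20000 * r ^ 8) ^ 13 with hz
  obtain ⟨δ, hδ, X₀, h⟩ := class_lower r hr z le_rfl
  refine ⟨δ, hδ, X₀, fun X hX κ => ?_⟩
  have hrR : (2 : ℝ) ≤ r := by exact_mod_cast hr
  have hlogr : 0 < Real.log r := Real.log_pos (by linarith)
  have hr1 : 1 ≤ r ^ 8 := Nat.one_le_pow _ _ (by omega)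
  have hz2 : 2 ≤ z := by
    have h1 : 2 ≤ 20000 * r ^ 8 := by omega
    calc 2 ≤ 20000 * r ^ 8 := h1
      _ ≤ (20000 * r ^ 8) ^ 13 := Nat.le_self_pow (by norm_num) _
  set W : ℕ := Pool.Agent.Lib.GT.LA.Wp z with hW
  have hWpos : 0 < W := Pool.Agent.Lib.MP_7b7e48_nt.SP.WindowAux.Wp_pos z
  have hWR : (0 : ℝ) < W := by exact_mod_cast hWpos
  set A : Finset ℕ := (Finset.range W).filter (fun a => W.Coprime a) with hA
  set S : ℕ → Finset ℕ := fun a => (Finset.Icc 1 X).filter fun n : ℕ =>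
    n % W = a ∧ δ * X / Real.log X ^ 2 < (mono κ n : ℝ) with hS
  have h1 : ∀ a ∈ A, (X : ℝ) / (4 * W) ≤ ((S a).card : ℝ) := by
    intro a ha
    obtain ⟨ha1, ha2⟩ := Finset.mem_filter.1 ha
    refine (h X hX κ a (Finset.mem_range.1 ha1) ha2.symm).trans ?_
    have h2 := Finset.card_le_card (s := (Finset.Icc 1 X).filter fun n : ℕ =>
      n % W = a ∧ δ * X / Real.log X ^ 2 < (mono κ n : ℝ)) (t := S a) (fun n hn => hn)
    exact_mod_cast h2
  have h2 : ∑ a ∈ A, (X : ℝ) / (4 * W) ≤ ∑ a ∈ A, ((S a).card : ℝ) := Finset.sum_le_sum h1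
  have hdisj : ∀ a ∈ A, ∀ b ∈ A, a ≠ b → Disjoint (S a) (S b) := by
    intro a _ b _ hab
    rw [Finset.disjoint_left]
    intro n hn1 hn2
    have e1 := (Finset.mem_filter.1 hn1).2.1
    have e2 := (Finset.mem_filter.1 hn2).2.1
    exact hab (e1.symm.trans e2)
  have h3 : ∑ a ∈ A, ((S a).card : ℝ) = ((A.biUnion S).card : ℝ) := by
    rw [Finset.card_biUnion hdisj]
    push_cast
    rfl
  have h4 : ((A.biUnion S).card : ℝ) ≤ (((Finset.Icc 1 X).filter fun n : ℕ =>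
        δ * X / Real.log X ^ 2 < (mono κ n : ℝ)).card : ℝ) := by
    have h5 : (A.biUnion S) ⊆ (Finset.Icc 1 X).filter fun n : ℕ =>
        δ * X / Real.log X ^ 2 < (mono κ n : ℝ) := by
      intro n hn
      obtain ⟨a, _, hn2⟩ := Finset.mem_biUnion.1 hn
      obtain ⟨hn3, hn4⟩ := Finset.mem_filter.1 hn2
      exact Finset.mem_filter.2 ⟨hn3, hn4.2⟩
    exact_mod_cast Finset.card_le_card h5
  have hcardA : (A.card : ℝ) = V z * (W : ℝ) := by
    rw [← Pool.Agent.Lib.MP_7b7e48_nt.SP.WindowAux.totient_Wp z]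
    rfl
  have h5 : ∑ a ∈ A, (X : ℝ) / (4 * W) = V z / 4 * X := by
    rw [Finset.sum_const, nsmul_eq_mul, hcardA]
    field_simp
  have hVpos := V_pos z
  have h6 : 1 / (C * (299 * Real.log r)) ≤ V z := by
    have h7 : (V z)⁻¹ ≤ C * (299 * Real.log r) :=
      (hV z hz2).trans (mul_le_mul_of_nonneg_left (F05Aux.log_z_le r hr) hC.le)
    have h8 : 0 < C * (299 * Real.log r) := by positivity
    rw [div_le_iff₀ h8]
    have h9 := mul_le_mul_of_nonneg_left h7 hVpos.le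
    rwa [mul_inv_cancel₀ hVpos.ne'] at h9
  calc 1 / (4 * (C * 299)) / Real.log r * X = 1 / (C * (299 * Real.log r)) / 4 * X := by
        field_simp
    _ ≤ V z / 4 * X := by
        refine mul_le_mul_of_nonneg_right ?_ (Nat.cast_nonneg X)
        linarith
    _ = ∑ a ∈ A, (X : ℝ) / (4 * W) := h5.symm
    _ ≤ ∑ a ∈ A, ((S a).card : ℝ) := h2
    _ = ((A.biUnion S).card : ℝ) := h3
    _ ≤ _ := h4

end Pool.Agent.Lib.MG
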