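import Pool.Agent.Lib.MP_7b7e48_nt.MG.Basic

/-!
# P01: the correlation axiom for families indexed by an arbitrary finite type; translates
-/

open Finset

namespace Pool.Agent.Lib.MG

variable {G : Type} [AddCommGroup G] [Fintype G]

theorem PS.corr' {z : ℝ} {L A : G → ℝ} (h : PS z L A) {ι : Type} [Fintype ι] [DecidableEq ι]
    (c : ι → G) : ∑ M, ∏ i, L (M + c i) ≤
      (Fintype.card G : ℝ) * Real.exp (∑ i, ∑ j ∈ univ.erase i, A (c i - c j)) := by
  classical
  let eq := Fintype.equivFin ι
  have h1 := h.corr (Fintype.card ι) (fun k => c (eq.symm k))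
  have h2 : ∀ M, ∏ i, L (M + c i) = ∏ k : Fin (Fintype.card ι), L (M + c (eq.symm k)) := by
    intro M
    exact Fintype.prod_equiv eq _ _ (fun i => by simp)
  have h3 : ∑ i, ∑ j ∈ univ.erase i, A (c i - c j) =
      ∑ k : Fin (Fintype.card ι), ∑ l ∈ univ.erase k, A (c (eq.symm k) - c (eq.symm l)) := by
    refine Fintype.sum_equiv eq _ _ (fun i => ?_)
    simp only [Equiv.symm_apply_apply]
    refine Finset.sum_bij' (fun j _ => eq j) (fun l _ => eq.symm l) ?_ ?_ ?_ ?_ ?_
    · intro j hj
      rw [Finset.mem_erase] at hj ⊢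
      exact ⟨fun hh => hj.1 (eq.injective hh), Finset.mem_univ _⟩
    · intro l hl
      rw [Finset.mem_erase] at hl ⊢
      exact ⟨fun hh => hl.1 (by rw [← hh]; simp), Finset.mem_univ _⟩
    · intro j _; simp
    · intro l _; simp
    · intro j _; simp
  rw [h3, Finset.sum_congr rfl (fun M _ => h2 M)]
  exact h1

theorem PS.translate {z : ℝ} {L A : G → ℝ} (h : PS z L A) (y : G) :
    PS z (fun x => L (y + x)) A where
  L_nonneg := fun x => h.L_nonneg _
  A_nonneg := h.A_nonneg
  corr := by
    intro n c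
    have h1 := h.corr n c
    refine le_trans (le_of_eq ?_) h1
    rw [← sum_shift (fun M => ∏ i, L (M + c i)) y]
    refine Finset.sum_congr rfl fun M _ => Finset.prod_congr rfl fun i _ => ?_
    congr 1
    abel
  expo := h.expo

end Pool.Agent.Lib.MG
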