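import Pool.Agent.Lib.MP_7b7e48_nt.MG.P01

/-!
# P02: exponential moment of `A` under a law of bounded density

Proof.  `t = 0` is trivial (`Ex_const`).  For `0 < t ≤ z` use `Real.arith_mean_le_rpow_mean` (power
mean inequality) with the exponent `p = z / t ≥ 1`:
`Ex w (exp (t A(X))) ≤ (Ex w (exp (t A(X)) ^ p)) ^ (1/p) = (Ex w (exp (z A(X)))) ^ (t/z)`.
By `Dens` with `g d = exp (z * A d)` and `PS.expo`,
`Ex w (exp (z A(X))) * |G| ≤ exp K * (|G| * exp 2)`, so `Ex w (exp (z A(X))) ≤ exp (K + 2)`.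
-/

open Finset

namespace Pool.Agent.Lib.MG

variable {G : Type} [AddCommGroup G] [Fintype G]

theorem exp_moment {z K : ℝ} {L A : G → ℝ} (h : PS z L A) {Ω : Type} [Fintype Ω] {w : Ω → ℝ}
    (hw : Prob w) {X : Ω → G} (hX : Dens K w X) {t : ℝ} (ht0 : 0 ≤ t) (htz : t ≤ z) (hz : 0 < z) :
    Ex w (fun ω => Real.exp (t * A (X ω))) ≤ Real.exp ((K + 2) * t / z) := by
  rcases ht0.eq_or_lt with h0 | h0
  · rw [← h0, mul_zero, zero_div]
    have h1 : Ex w (fun ω => Real.exp (0 * A (X ω))) = 1 := by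
      have h2 : Ex w (fun ω => Real.exp (0 * A (X ω))) = Ex w (fun _ => 1) :=
        Ex_congr fun ω => by rw [zero_mul, Real.exp_zero]
      rw [h2, Ex_const hw]
    rw [h1, Real.exp_zero]
  · have hG : (0 : ℝ) < (Fintype.card G : ℝ) := card_pos'
    have h1 := Real.arith_mean_le_rpow_mean Finset.univ w (fun ω => Real.exp (t * A (X ω)))
      (fun i _ => hw.nonneg i) hw.sum_one (fun i _ => (Real.exp_pos _).le) (p := z / t)
      ((one_le_div h0).2 htz)
    have h2 : ∀ ω, Real.exp (t * A (X ω)) ^ (z / t) = Real.exp (z * A (X ω)) := by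
      intro ω
      rw [← Real.exp_mul]
      congr 1
      field_simp
    simp only [h2] at h1
    have h3 : Ex w (fun ω => Real.exp (z * A (X ω))) ≤ Real.exp (K + 2) := by
      have h4 := hX (fun d => Real.exp (z * A d)) (fun d => (Real.exp_pos _).le)
      have h5 : Real.exp K * ∑ d, Real.exp (z * A d) ≤
          Real.exp K * ((Fintype.card G : ℝ) * Real.exp 2) :=
        mul_le_mul_of_nonneg_left h.expo (Real.exp_pos _).le
      have h6 : Real.exp K * ((Fintype.card G : ℝ) * Real.exp 2) =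
          Real.exp (K + 2) * (Fintype.card G : ℝ) := by
        rw [Real.exp_add]
        ring
      exact le_of_mul_le_mul_right ((h4.trans h5).trans_eq h6) hG
    have h7 : 0 ≤ Ex w (fun ω => Real.exp (z * A (X ω))) :=
      Ex_nonneg hw fun ω => (Real.exp_pos _).le
    calc Ex w (fun ω => Real.exp (t * A (X ω)))
        ≤ (Ex w (fun ω => Real.exp (z * A (X ω)))) ^ (1 / (z / t)) := h1
      _ ≤ (Real.exp (K + 2)) ^ (1 / (z / t)) :=
          Real.rpow_le_rpow h7 h3 (by positivity)
      _ = Real.exp ((K + 2) * t / z) := by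
          rw [← Real.exp_mul]
          congr 1
          field_simp

end Pool.Agent.Lib.MG
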