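import Pool.Agent.Lib.MP_7b7e48_nt.MG.P02

/-!
# P03: expected value of a product of shifts of `L`

Proof.  Let `n = |ι|`.  If `n ≤ 1` the exponent in `PS.corr'` is an empty sum (`univ.erase i = ∅`).
Otherwise let `T = n * (n - 1) ≥ 1` be the number of ordered pairs `i ≠ j` (`T ≤ n ^ 2 ≤ z`).
By `PS.corr'`, `∑ M, ∏ i, L (M + c ω i) ≤ |G| * exp (∑_{i ≠ j} A (c ω i - c ω j))`, and by convexity
of `exp` (Jensen, `ConvexOn.map_sum_le` for `convexOn_exp`, weights `1 / T`)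
`exp (∑_{i ≠ j} a_ij) ≤ (1 / T) * ∑_{i ≠ j} exp (T * a_ij)`.
Average over `ω` and use `exp_moment` with `t = T` for every pair:
`≤ exp ((K + 2) * T / z) ≤ exp ((K + 2) * n ^ 2 / z)`.
-/

open Finset

namespace Pool.Agent.Lib.MG

variable {G : Type} [AddCommGroup G] [Fintype G]

theorem expected_prod {z K : ℝ} {L A : G → ℝ} (h : PS z L A) (hz : 0 < z) (hK : 0 ≤ K)
    {Ω : Type} [Fintype Ω] {w : Ω → ℝ} (hw : Prob w) {ι : Type} [Fintype ι] [DecidableEq ι]
    (c : Ω → ι → G) (hc : ∀ i j, i ≠ j → Dens K w (fun ω => c ω i - c ω j))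
    (hn : (Fintype.card ι : ℝ) ^ 2 ≤ z) :
    Ex w (fun ω => ∑ M, ∏ i, L (M + c ω i)) ≤
      (Fintype.card G : ℝ) * Real.exp ((K + 2) * (Fintype.card ι : ℝ) ^ 2 / z) := by
  classical
  set n : ℕ := Fintype.card ι with hn_def
  have hG : (0 : ℝ) < (Fintype.card G : ℝ) := card_pos'
  have hK2 : 0 ≤ K + 2 := by linarith
  -- the sum over ordered pairs
  set P : Finset (ι × ι) := (Finset.univ : Finset ι).offDiag with hP_def
  have hsum : ∀ ω, ∑ i, ∑ j ∈ univ.erase i, A (c ω i - c ω j) =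
      ∑ p ∈ P, A (c ω p.1 - c ω p.2) := by
    intro ω
    rw [Finset.sum_finset_product' P Finset.univ (fun i => univ.erase i)
      (f := fun i j => A (c ω i - c ω j))]
    intro p
    rw [hP_def, Finset.mem_offDiag, Finset.mem_erase]
    constructor
    · rintro ⟨-, -, h3⟩
      exact ⟨Finset.mem_univ _, Ne.symm h3, Finset.mem_univ _⟩
    · rintro ⟨-, h3, -⟩
      exact ⟨Finset.mem_univ _, Finset.mem_univ _, Ne.symm h3⟩
  have hcorr : ∀ ω, ∑ M, ∏ i, L (M + c ω i) ≤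
      (Fintype.card G : ℝ) * Real.exp (∑ p ∈ P, A (c ω p.1 - c ω p.2)) := by
    intro ω
    rw [← hsum ω]
    exact h.corr' (c ω)
  have hT : (P.card : ℝ) ≤ (n : ℝ) ^ 2 := by
    have h1 : P.card ≤ n * n := by
      rw [hP_def, Finset.offDiag_card, Finset.card_univ]
      exact Nat.sub_le _ _
    calc (P.card : ℝ) ≤ ((n * n : ℕ) : ℝ) := by exact_mod_cast h1
      _ = (n : ℝ) ^ 2 := by push_cast; ring
  rcases P.eq_empty_or_nonempty with hP | hP
  · have h1 : ∀ ω, ∑ M, ∏ i, L (M + c ω i) ≤ (Fintype.card G : ℝ) := by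
      intro ω
      have h2 := hcorr ω
      rw [hP, Finset.sum_empty, Real.exp_zero, mul_one] at h2
      exact h2
    refine (Ex_le_const hw h1).trans ?_
    have h3 : 1 ≤ Real.exp ((K + 2) * (n : ℝ) ^ 2 / z) := Real.one_le_exp (by positivity)
    nlinarith
  · have hT0 : (0 : ℝ) < (P.card : ℝ) := by exact_mod_cast Finset.card_pos.2 hP
    set T : ℝ := (P.card : ℝ) with hT_def
    have hjen : ∀ ω, Real.exp (∑ p ∈ P, A (c ω p.1 - c ω p.2)) ≤
        ∑ p ∈ P, T⁻¹ * Real.exp (T * A (c ω p.1 - c ω p.2)) := by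
      intro ω
      have h1 := convexOn_exp.map_sum_le (t := P) (w := fun _ => T⁻¹)
        (p := fun p => T * A (c ω p.1 - c ω p.2))
        (fun i _ => (inv_pos.2 hT0).le)
        (by rw [Finset.sum_const, nsmul_eq_mul, ← hT_def, mul_inv_cancel₀ hT0.ne'])
        (fun i _ => Set.mem_univ _)
      simp only [smul_eq_mul] at h1
      refine le_trans (le_of_eq ?_) h1
      congr 1
      refine Finset.sum_congr rfl fun p _ => ?_
      rw [← mul_assoc, inv_mul_cancel₀ hT0.ne', one_mul]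
    have h2 : Ex w (fun ω => ∑ M, ∏ i, L (M + c ω i)) ≤
        Ex w (fun ω => (Fintype.card G : ℝ) *
          ∑ p ∈ P, T⁻¹ * Real.exp (T * A (c ω p.1 - c ω p.2))) :=
      Ex_le hw fun ω => (hcorr ω).trans (mul_le_mul_of_nonneg_left (hjen ω) hG.le)
    refine h2.trans ?_
    rw [Ex_mul_left, Ex_sum]
    refine mul_le_mul_of_nonneg_left ?_ hG.le
    have h3 : ∀ p ∈ P, Ex w (fun ω => T⁻¹ * Real.exp (T * A (c ω p.1 - c ω p.2))) ≤
        T⁻¹ * Real.exp ((K + 2) * (n : ℝ) ^ 2 / z) := by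
      intro p hp
      rw [Ex_mul_left]
      refine mul_le_mul_of_nonneg_left ?_ (inv_pos.2 hT0).le
      have hne : p.1 ≠ p.2 := (Finset.mem_offDiag.1 hp).2.2
      refine (exp_moment h hw (hc p.1 p.2 hne) hT0.le (hT.trans hn) hz).trans ?_
      apply Real.exp_le_exp.2
      exact div_le_div_of_nonneg_right (mul_le_mul_of_nonneg_left hT hK2) hz.le
    refine (Finset.sum_le_sum h3).trans (le_of_eq ?_)
    rw [Finset.sum_const, nsmul_eq_mul, ← hT_def, ← mul_assoc, mul_inv_cancel₀ hT0.ne', one_mul]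

end Pool.Agent.Lib.MG
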