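import Pool.Agent.Lib.MP_7b7e48_nt.MG.P03

/-!
# P04: the moment lemma

Proof.  Let `n = |ι| ≤ 8`, `R M = Ex w (fun ω => ∏ i, L (M + c ω i)) ≥ 0` and `p = ⌈K / δ⌉₊`, so
`1 ≤ p`, `K / δ ≤ p ≤ 2 K / δ` (as `K / δ ≥ 1`).
(1) Jensen (`Real.pow_arith_mean_le_arith_mean_pow`): `(Ex D0 R) ^ p ≤ Ex D0 (R ^ p)`, and by
`PW.le`, `Ex D0 (R ^ p) * |G| ≤ exp K * ∑ M, R M ^ p`.
(2) `R M ^ p = ∑ ω : Fin p → Ω, (∏ k, w (ω k)) * ∏ (k, i), L (M + c (ω k) i)` (`Fintype.sum_pow`,
`Fintype.prod_prod_type`), i.e. `R M ^ p = Ex w' (fun ω => ∏ k : Fin p × ι, L (M + c' ω k))` with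
`w' ω = ∏ k, w (ω k)` (a probability weight on `Fin p → Ω`) and `c' ω (k, i) = c (ω k) i`.
(3) `Dens K w'` for the differences: for the same `k` it is `hc2` (the other coordinates sum to 1);
for `k ≠ l`, fix all coordinates except `ω k`: the law of `c (ω k) i - const` has density `≤ exp K`
by `hc1` applied to `g (· - const)` (`sum_shift`), then average over the rest.
(4) `expected_prod` for `Fin p × ι`, `|Fin p × ι| = p n`, `(p n) ^ 2 ≤ 4 * 64 * K ^ 2 / δ ^ 2 ≤ z`: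
`∑ M, R M ^ p ≤ |G| * exp ((K + 2) * (p n) ^ 2 / z)`.
(5) So `(Ex D0 R) ^ p ≤ exp (K + (K + 2) * (p n) ^ 2 / z)`, hence
`Ex D0 R ≤ exp (K / p + (K + 2) * p * n ^ 2 / z)`, and `K / p ≤ δ`,
`(K + 2) * p * 64 / z ≤ 3 K * (2 K / δ) * 64 * δ ^ 2 / (400 K ^ 2) = 384 / 400 * δ ≤ δ`.
-/

open Finset

namespace Pool.Agent.Lib.MG

variable {G : Type} [AddCommGroup G] [Fintype G]

/-- product weight -/
theorem P04_prob {Ω : Type} [Fintype Ω] {w : Ω → ℝ} (hw : Prob w) (p : ℕ) :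
    Prob (fun ω : Fin p → Ω => ∏ k, w (ω k)) where
  nonneg := fun ω => Finset.prod_nonneg fun k _ => hw.nonneg _
  sum_one := by
    classical
    have h := Finset.prod_univ_sum (fun _ : Fin p => (univ : Finset Ω)) (fun _ x => w x)
    rw [Fintype.piFinset_univ] at h
    rw [← h]
    simp [hw.sum_one]

theorem P04_pow {Ω : Type} [Fintype Ω] (w f : Ω → ℝ) (p : ℕ) :
    Ex w f ^ p = Ex (fun ω : Fin p → Ω => ∏ k, w (ω k)) (fun ω => ∏ k, f (ω k)) := by
  classical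
  have h := Finset.prod_univ_sum (fun _ : Fin p => (univ : Finset Ω)) (fun _ x => w x * f x)
  rw [Fintype.piFinset_univ] at h
  unfold Ex
  simp only [← Finset.prod_mul_distrib]
  rw [← h]
  simp

theorem P04_split {Ω : Type} [Fintype Ω] (w : Ω → ℝ) (n : ℕ) (k : Fin (n + 1))
    (H : (Fin (n + 1) → Ω) → ℝ) :
    Ex (fun ω : Fin (n + 1) → Ω => ∏ j, w (ω j)) H =
      Ex (fun ω : Fin n → Ω => ∏ j, w (ω j))
        (fun ω' => Ex w (fun x => H (k.insertNth x ω'))) := by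
  classical
  unfold Ex
  rw [← (Fin.insertNthEquiv (fun _ => Ω) k).sum_comp, Fintype.sum_prod_type, Finset.sum_comm]
  refine Finset.sum_congr rfl fun ω' _ => ?_
  rw [Finset.mul_sum]
  refine Finset.sum_congr rfl fun x _ => ?_
  have he : (Fin.insertNthEquiv (fun _ : Fin (n + 1) => Ω) k) (x, ω') =
    (k.insertNth x ω' : Fin (n + 1) → Ω) := rfl
  rw [he]
  beta_reduce
  rw [Fin.prod_univ_succAbove _ k]
  simp only [Fin.insertNth_apply_same, Fin.insertNth_apply_succAbove]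
  ring

/-- density of the differences under the product weight -/
theorem P04_dens {K : ℝ} {Ω : Type} [Fintype Ω] {w : Ω → ℝ} (hw : Prob w) {ι : Type}
    (c : Ω → ι → G) (hc1 : ∀ i, Dens K w (fun ω => c ω i))
    (hc2 : ∀ i j, i ≠ j → Dens K w (fun ω => c ω i - c ω j)) (p : ℕ)
    (a b : Fin p × ι) (hab : a ≠ b) :
    Dens K (fun ω : Fin p → Ω => ∏ k, w (ω k)) (fun ω => c (ω a.1) a.2 - c (ω b.1) b.2) := by
  classical
  obtain ⟨k, i⟩ := a
  obtain ⟨l, j⟩ := b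
  cases p with
  | zero => exact k.elim0
  | succ n =>
    intro g hg
    simp only
    rw [P04_split w n k]
    have hP := P04_prob hw n
    rw [← Ex_mul_right]
    refine Ex_le_const hP fun ω' => ?_
    by_cases hkl : l = k
    · subst hkl
      have hij : i ≠ j := fun h => hab (by rw [h])
      simp only [Fin.insertNth_apply_same]
      exact hc2 i j hij g hg
    · obtain ⟨l', rfl⟩ := Fin.exists_succAbove_eq hkl
      simp only [Fin.insertNth_apply_same, Fin.insertNth_apply_succAbove]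
      have h1 := hc1 i (fun d => g (d - c (ω' l') j)) (fun d => hg _)
      refine h1.trans (le_of_eq ?_)
      congr 1
      have h2 := sum_shift g (-(c (ω' l') j))
      rw [← h2]
      exact Finset.sum_congr rfl fun x _ => by rw [sub_eq_add_neg]

theorem moment {z K δ : ℝ} {L A : G → ℝ} (h : PS z L A) (par : Par K δ z) {D0 : G → ℝ}
    (hD0 : PW K D0) {Ω : Type} [Fintype Ω] {w : Ω → ℝ} (hw : Prob w) {ι : Type} [Fintype ι]
    [DecidableEq ι] (hn : Fintype.card ι ≤ 8) (c : Ω → ι → G)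
    (hc1 : ∀ i, Dens K w (fun ω => c ω i))
    (hc2 : ∀ i j, i ≠ j → Dens K w (fun ω => c ω i - c ω j)) :
    Ex D0 (fun M => Ex w (fun ω => ∏ i, L (M + c ω i))) ≤ Real.exp (2 * δ) := by
  classical
  obtain ⟨hK, hδ, hδ1, hz⟩ := par
  have hK0 : 0 < K := by linarith
  have hG : (0 : ℝ) < (Fintype.card G : ℝ) := card_pos'
  set R : G → ℝ := fun M => Ex w (fun ω => ∏ i, L (M + c ω i)) with hR
  have hR0 : ∀ M, 0 ≤ R M := fun M =>
    Ex_nonneg hw fun ω => Finset.prod_nonneg fun i _ => h.L_nonneg _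
  set p : ℕ := ⌈K / δ⌉₊ with hp
  have hp1 : K / δ ≤ (p : ℝ) := Nat.le_ceil _
  have hKδ : 1 ≤ K / δ := by
    rw [le_div_iff₀ hδ]
    linarith
  have hp2 : (p : ℝ) ≤ 2 * (K / δ) := by
    have := Nat.ceil_lt_add_one (R := ℝ) (a := K / δ) (by linarith)
    rw [← hp] at this
    linarith
  have hppos : (0 : ℝ) < (p : ℝ) := by linarith
  have hp0 : p ≠ 0 := by
    intro h0
    rw [h0] at hppos
    simp at hppos
  have hz0 : 0 < z := lt_of_lt_of_le (by positivity) hz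
  set n : ℝ := (Fintype.card ι : ℝ) with hndef
  have hn0 : 0 ≤ n := Nat.cast_nonneg _
  have hn8 : n ≤ 8 := by rw [hndef]; exact_mod_cast hn
  have hn64 : n ^ 2 ≤ 64 := by nlinarith
  have hzz : 400 * (K / δ) ^ 2 ≤ z := by
    refine le_trans (le_of_eq ?_) hz
    rw [div_pow]
    ring
  set x : ℝ := K / δ with hx
  have hKx : K = x * δ := by rw [hx]; field_simp
  -- (4)
  set w' : (Fin p → Ω) → ℝ := fun ω => ∏ k, w (ω k) with hw'
  have hcard : (Fintype.card (Fin p × ι) : ℝ) = (p : ℝ) * n := by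
    rw [Fintype.card_prod, Fintype.card_fin]
    push_cast
    rfl
  have hpn : ((p : ℝ) * n) ^ 2 ≤ z := by
    have h1 : (p : ℝ) ^ 2 ≤ (2 * x) ^ 2 := by
      exact pow_le_pow_left₀ hppos.le hp2 2
    calc ((p : ℝ) * n) ^ 2 = (p : ℝ) ^ 2 * n ^ 2 := by ring
      _ ≤ (2 * x) ^ 2 * 64 := mul_le_mul h1 hn64 (sq_nonneg _) (sq_nonneg _)
      _ = 256 * x ^ 2 := by ring
      _ ≤ 400 * x ^ 2 := by nlinarith [sq_nonneg x]
      _ ≤ z := hzz
  have h4 := expected_prod h hz0 hK0.le (P04_prob hw p) (ι := Fin p × ι)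
    (fun ω q => c (ω q.1) q.2) (fun a b hab => P04_dens hw c hc1 hc2 p a b hab)
    (by rw [hcard]; exact hpn)
  rw [hcard] at h4
  -- (2)
  have h2 : ∀ M, R M ^ p = Ex w' (fun ω => ∏ q : Fin p × ι, L (M + c (ω q.1) q.2)) := by
    intro M
    rw [hR]
    simp only
    rw [P04_pow]
    refine Ex_congr fun ω => ?_
    rw [Fintype.prod_prod_type]
  have h5 : ∑ M, R M ^ p ≤ (Fintype.card G : ℝ) * Real.exp ((K + 2) * ((p : ℝ) * n) ^ 2 / z) := by
    refine le_trans (le_of_eq ?_) h4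
    rw [Ex_sum]
    exact Finset.sum_congr rfl fun M _ => h2 M
  -- (1)
  have h1 : (Ex D0 R) ^ p ≤ Ex D0 (fun M => R M ^ p) := by
    unfold Ex
    exact Real.pow_arith_mean_le_arith_mean_pow univ D0 R (fun M _ => hD0.prob.nonneg M)
      hD0.prob.sum_one (fun M _ => hR0 M) p
  have h3 : Ex D0 (fun M => R M ^ p) * (Fintype.card G : ℝ) ≤ Real.exp K * ∑ M, R M ^ p := by
    unfold Ex
    rw [Finset.sum_mul, Finset.mul_sum]
    refine Finset.sum_le_sum fun M _ => ?_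
    calc D0 M * R M ^ p * (Fintype.card G : ℝ) = (D0 M * (Fintype.card G : ℝ)) * R M ^ p := by ring
      _ ≤ Real.exp K * R M ^ p :=
        mul_le_mul_of_nonneg_right (hD0.le M) (pow_nonneg (hR0 M) p)
  have h6 : (Ex D0 R) ^ p ≤ Real.exp (K + (K + 2) * ((p : ℝ) * n) ^ 2 / z) := by
    have h7 : Ex D0 (fun M => R M ^ p) * (Fintype.card G : ℝ) ≤
        Real.exp (K + (K + 2) * ((p : ℝ) * n) ^ 2 / z) * (Fintype.card G : ℝ) := by
      calc Ex D0 (fun M => R M ^ p) * (Fintype.card G : ℝ) ≤ Real.exp K * ∑ M, R M ^ p := h3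
        _ ≤ Real.exp K * ((Fintype.card G : ℝ) * Real.exp ((K + 2) * ((p : ℝ) * n) ^ 2 / z)) :=
          mul_le_mul_of_nonneg_left h5 (Real.exp_pos _).le
        _ = Real.exp (K + (K + 2) * ((p : ℝ) * n) ^ 2 / z) * (Fintype.card G : ℝ) := by
          rw [Real.exp_add]
          ring
    exact h1.trans (le_of_mul_le_mul_right h7 hG)
  -- (5)
  have h8 : K + (K + 2) * ((p : ℝ) * n) ^ 2 / z ≤ (p : ℝ) * (2 * δ) := by
    have h9 : K ≤ (p : ℝ) * δ := by
      rw [hKx]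
      exact mul_le_mul_of_nonneg_right hp1 hδ.le
    have h10 : (K + 2) * ((p : ℝ) * n) ^ 2 / z ≤ (p : ℝ) * δ := by
      rw [div_le_iff₀ hz0]
      have h11 : (K + 2) * ((p : ℝ) * n ^ 2) ≤ δ * z := by
        have h12 : (K + 2) * ((p : ℝ) * n ^ 2) ≤ (3 * K) * ((2 * x) * 64) := by
          refine mul_le_mul (by linarith) ?_ (by positivity) (by positivity)
          exact mul_le_mul hp2 hn64 (sq_nonneg _) (by linarith)
        refine h12.trans ?_
        calc (3 * K) * ((2 * x) * 64) = 384 * (δ * x ^ 2) := by rw [hKx]; ring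
          _ ≤ 400 * (δ * x ^ 2) := by
            have : 0 ≤ δ * x ^ 2 := by positivity
            linarith
          _ = δ * (400 * x ^ 2) := by ring
          _ ≤ δ * z := mul_le_mul_of_nonneg_left hzz hδ.le
      calc (K + 2) * ((p : ℝ) * n) ^ 2 = (p : ℝ) * ((K + 2) * ((p : ℝ) * n ^ 2)) := by ring
        _ ≤ (p : ℝ) * (δ * z) := mul_le_mul_of_nonneg_left h11 hppos.le
        _ = (p : ℝ) * δ * z := by ring
    linarith
  have h13 : (Ex D0 R) ^ p ≤ (Real.exp (2 * δ)) ^ p := by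
    rw [← Real.exp_nat_mul]
    exact h6.trans (Real.exp_le_exp.mpr h8)
  exact (pow_le_pow_iff_left₀ (Ex_nonneg hD0.prob hR0) (Real.exp_pos _).le hp0).mp h13

end Pool.Agent.Lib.MG
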