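import Pool.Agent.Lib.MP_7b7e48_nt.MG.P04

/-!
# P05: mass estimates (applications of `moment` with 1, 2 and 4 points)

Proof of `mass4`.  Take `Ω = G × G × G × G` (or `Fin 4 → G`), `w` the product weight
`E1 a * E2 a' * E3 b * E4 b'`, `ι = Fin 4`,
`c = ![a + a + s1, a' + a' + s2, b + b + s3, b' + b' + s4]`.
`Dens K w (c i)`: for a weight `E` with `PW K E` and a bijection `φ : G → G` one has
`Ex E (fun a => g (φ a)) * |G| = ∑ a, (E a * |G|) * g (φ a) ≤ exp K * ∑ a, g (φ a) = exp K * ∑ g`;
here `φ a = a + a + s` (bijective by `Dbl` and translation).  Differences: fix one variable.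
`mass1` (no doubling): `Ω = G`, `ι = Fin 1`.  `mass1d`, `mass2`: same with one and two points.
-/

open Finset

namespace Pool.Agent.Lib.MG

variable {G : Type} [AddCommGroup G] [Fintype G]

/-- the law of `φ a`, `a ~ E`, for a bijection `φ` -/
theorem dens_of_bij {K : ℝ} {E : G → ℝ} (hE : PW K E) {φ : G → G} (hφ : Function.Bijective φ) :
    Dens K E φ := by
  intro g hg
  unfold Ex
  rw [Finset.sum_mul, ← Function.Bijective.sum_comp hφ g, Finset.mul_sum]
  refine Finset.sum_le_sum fun a _ => ?_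
  calc E a * g (φ a) * (Fintype.card G : ℝ) = (E a * (Fintype.card G : ℝ)) * g (φ a) := by ring
    _ ≤ Real.exp K * g (φ a) := mul_le_mul_of_nonneg_right (hE.le a) (hg _)

theorem P05_prob {n : ℕ} {E : Fin n → G → ℝ} (hE : ∀ i, Prob (E i)) :
    Prob (fun ω : Fin n → G => ∏ i, E i (ω i)) where
  nonneg := fun ω => Finset.prod_nonneg fun k _ => (hE k).nonneg _
  sum_one := by
    classical
    have h := Finset.prod_univ_sum (fun _ : Fin n => (univ : Finset G)) (fun i x => E i x)
    rw [Fintype.piFinset_univ] at h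
    rw [← h]
    simp [(hE _).sum_one]

theorem P05_prod {n : ℕ} (E f : Fin n → G → ℝ) :
    ∏ i, Ex (E i) (f i) =
      Ex (fun ω : Fin n → G => ∏ i, E i (ω i)) (fun ω => ∏ i, f i (ω i)) := by
  classical
  have h := Finset.prod_univ_sum (fun _ : Fin n => (univ : Finset G)) (fun i x => E i x * f i x)
  rw [Fintype.piFinset_univ] at h
  unfold Ex
  simp only [← Finset.prod_mul_distrib]
  rw [← h]

theorem P05_split {n : ℕ} (E : Fin (n + 1) → G → ℝ) (k : Fin (n + 1))
    (H : (Fin (n + 1) → G) → ℝ) :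
    Ex (fun ω : Fin (n + 1) → G => ∏ j, E j (ω j)) H =
      Ex (fun ω : Fin n → G => ∏ j, E (k.succAbove j) (ω j))
        (fun ω' => Ex (E k) (fun x => H (k.insertNth x ω'))) := by
  classical
  unfold Ex
  rw [← (Fin.insertNthEquiv (fun _ => G) k).sum_comp, Fintype.sum_prod_type, Finset.sum_comm]
  refine Finset.sum_congr rfl fun ω' _ => ?_
  rw [Finset.mul_sum]
  refine Finset.sum_congr rfl fun x _ => ?_
  have he : (Fin.insertNthEquiv (fun _ : Fin (n + 1) => G) k) (x, ω') =
    (k.insertNth x ω' : Fin (n + 1) → G) := rfl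
  rw [he]
  beta_reduce
  rw [Fin.prod_univ_succAbove _ k]
  simp only [Fin.insertNth_apply_same, Fin.insertNth_apply_succAbove]
  ring

theorem P05_dens {K : ℝ} {n : ℕ} {E : Fin n → G → ℝ} (hE : ∀ i, PW K (E i)) {φ : Fin n → G → G}
    (hφ : ∀ i, Function.Bijective (φ i)) (i : Fin n) :
    Dens K (fun ω : Fin n → G => ∏ i, E i (ω i)) (fun ω => φ i (ω i)) := by
  classical
  cases n with
  | zero => exact i.elim0
  | succ n =>
    intro g hg
    rw [P05_split E i, ← Ex_mul_right]
    refine Ex_le_const (P05_prob fun j => (hE _).prob) fun ω' => ?_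
    simp only [Fin.insertNth_apply_same]
    exact dens_of_bij (hE i) (hφ i) g hg

theorem P05_dens2 {K : ℝ} {n : ℕ} {E : Fin n → G → ℝ} (hE : ∀ i, PW K (E i)) {φ : Fin n → G → G}
    (hφ : ∀ i, Function.Bijective (φ i)) (i j : Fin n) (hij : i ≠ j) :
    Dens K (fun ω : Fin n → G => ∏ i, E i (ω i)) (fun ω => φ i (ω i) - φ j (ω j)) := by
  classical
  cases n with
  | zero => exact i.elim0
  | succ n =>
    intro g hg
    obtain ⟨j', rfl⟩ := Fin.exists_succAbove_eq (Ne.symm hij)
    rw [P05_split E i, ← Ex_mul_right]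
    refine Ex_le_const (P05_prob fun j => (hE _).prob) fun ω' => ?_
    simp only [Fin.insertNth_apply_same, Fin.insertNth_apply_succAbove]
    have hb : Function.Bijective (fun x : G => φ i x - φ (i.succAbove j') (ω' j')) := by
      have h1 : Function.Bijective (fun y : G => y - φ (i.succAbove j') (ω' j')) :=
        (Equiv.subRight (φ (i.succAbove j') (ω' j'))).bijective
      exact h1.comp (hφ i)
    exact dens_of_bij (hE i) hb g hg

/-- mass of a product of at most eight independent shifts of `L` -/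
theorem P05_mass {z K δ : ℝ} {L A : G → ℝ} (h : PS z L A) (par : Par K δ z)
    {D0 : G → ℝ} (hD0 : PW K D0) {n : ℕ} (hn : n ≤ 8) {E : Fin n → G → ℝ}
    (hE : ∀ i, PW K (E i)) {φ : Fin n → G → G} (hφ : ∀ i, Function.Bijective (φ i)) :
    Ex D0 (fun M => ∏ i, Ex (E i) (fun x => L (M + φ i x))) ≤ Real.exp (2 * δ) := by
  classical
  have h1 := moment h par hD0 (P05_prob fun i => (hE i).prob) (ι := Fin n)
    (by rw [Fintype.card_fin]; exact hn) (fun ω i => φ i (ω i)) (fun i => P05_dens hE hφ i)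
    (fun i j hij => P05_dens2 hE hφ i j hij)
  refine le_trans (le_of_eq ?_) h1
  refine Ex_congr fun M => ?_
  rw [P05_prod]

theorem P05_bij (hd : Dbl G) (s : G) : Function.Bijective (fun x : G => x + x + s) := by
  have h1 : Function.Bijective (fun y : G => y + s) := (Equiv.addRight s).bijective
  exact h1.comp hd

theorem P05_bij1 (s : G) : Function.Bijective (fun x : G => x + s) :=
  (Equiv.addRight s).bijective

theorem mass4 {z K δ : ℝ} {L A : G → ℝ} (h : PS z L A) (par : Par K δ z) (hd : Dbl G)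
    {D0 E1 E2 E3 E4 : G → ℝ} (hD0 : PW K D0) (h1 : PW K E1) (h2 : PW K E2) (h3 : PW K E3)
    (h4 : PW K E4) (s1 s2 s3 s4 : G) :
    Ex D0 (fun M => Ex E1 fun a => Ex E2 fun a' => Ex E3 fun b => Ex E4 fun b' =>
      L (M + (a + a) + s1) * L (M + (a' + a') + s2) *
        (L (M + (b + b) + s3) * L (M + (b' + b') + s4))) ≤ Real.exp (2 * δ) := by
  have hφ : ∀ i : Fin 4, Function.Bijective ((fun i x => x + x + (![s1, s2, s3, s4] : Fin 4 → G) i :
      Fin 4 → G → G) i) := fun i => P05_bij hd _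
  have hE : ∀ i : Fin 4, PW K ((![E1, E2, E3, E4] : Fin 4 → G → ℝ) i) := by
    intro i
    fin_cases i
    · exact h1
    · exact h2
    · exact h3
    · exact h4
  have hm := P05_mass h par hD0 (n := 4) (by norm_num) hE hφ
  refine le_trans (le_of_eq ?_) hm
  refine Ex_congr fun M => ?_
  rw [Fin.prod_univ_four]
  simp only [Matrix.cons_val]
  simp only [Ex_mul_left, Ex_mul_right, ← add_assoc]
  ring

theorem mass1 {z K δ : ℝ} {L A : G → ℝ} (h : PS z L A) (par : Par K δ z)
    {D0 E : G → ℝ} (hD0 : PW K D0) (hE : PW K E) (s : G) :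
    Ex D0 (fun M => Ex E fun a => L (M + a + s)) ≤ Real.exp (2 * δ) := by
  have hm := P05_mass h par hD0 (n := 1) (by norm_num) (E := fun _ => E) (fun _ => hE)
    (φ := fun _ x => x + s) (fun _ => P05_bij1 s)
  refine le_trans (le_of_eq ?_) hm
  refine Ex_congr fun M => ?_
  rw [Fin.prod_univ_one]
  simp only [← add_assoc]

theorem mass1d {z K δ : ℝ} {L A : G → ℝ} (h : PS z L A) (par : Par K δ z) (hd : Dbl G)
    {D0 E : G → ℝ} (hD0 : PW K D0) (hE : PW K E) (s : G) :
    Ex D0 (fun M => Ex E fun a => L (M + (a + a) + s)) ≤ Real.exp (2 * δ) := by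
  have hm := P05_mass h par hD0 (n := 1) (by norm_num) (E := fun _ => E) (fun _ => hE)
    (φ := fun _ x => x + x + s) (fun _ => P05_bij hd s)
  refine le_trans (le_of_eq ?_) hm
  refine Ex_congr fun M => ?_
  rw [Fin.prod_univ_one]
  simp only [← add_assoc]

theorem mass2 {z K δ : ℝ} {L A : G → ℝ} (h : PS z L A) (par : Par K δ z) (hd : Dbl G)
    {D0 E1 E2 : G → ℝ} (hD0 : PW K D0) (h1 : PW K E1) (h2 : PW K E2) :
    Ex D0 (fun M => Ex E1 fun b => Ex E2 fun b' => L (M + (b + b)) * L (M + (b' + b'))) ≤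
      Real.exp (2 * δ) := by
  have hE : ∀ i : Fin 2, PW K ((![E1, E2] : Fin 2 → G → ℝ) i) := by
    intro i
    fin_cases i
    · exact h1
    · exact h2
  have hm := P05_mass h par hD0 (n := 2) (by norm_num) hE
    (φ := fun _ x => x + x) (fun _ => hd)
  refine le_trans (le_of_eq ?_) hm
  refine Ex_congr fun M => ?_
  rw [Fin.prod_univ_two]
  simp only [Matrix.cons_val]
  simp only [Ex_mul_left, Ex_mul_right]

end Pool.Agent.Lib.MG
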