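import Pool.Agent.Lib.MP_7b7e48_nt.GT.Transfer

/-!
# T01: correlations of `lam + Lw w`, uniformly in `w`

`sum_Lw_Lw_le`: correlations of two normalised rough indicators (Brun-Hooley, upper bound).
`acor2`: correlations of a function bounded by `lam + Lw w`, with a constant independent of `w`.
-/

open Finset

namespace Pool.Agent.Lib.MG

open Pool.Agent.Lib.GT Pool.Agent.Lib.GT.Transfer

theorem Lw_even {u y : ℕ} (hu : 2 ≤ u) (hy : Even y) : Lw u y = 0 := by
  unfold Lw
  rw [if_neg]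
  intro h
  have := h 2 Nat.prime_two hy.two_dvd
  omega

theorem sum_Lw_Lw_le : ∃ K : ℕ, 1 ≤ K ∧ ∀ u v z : ℕ, 2 ≤ z → u ≤ z → v ≤ z → ∀ N d : ℕ, 1 ≤ d →
    ∑ x ∈ Finset.Icc 1 N, Lw u x * Lw v (x + d) ≤
      K * N * Tw 0 d + (z : ℝ) ^ K * ((V u)⁻¹ * (V v)⁻¹) := by
  obtain ⟨K₀, hK₀, hFL⟩ := fund_lemma
  refine ⟨K₀ + 1, by omega, ?_⟩
  intro u v z hz hu hv N d hd
  have hzr : (2 : ℝ) ≤ z := by exact_mod_cast hz
  have hVu := V_pos u
  have hVv := V_pos v
  have hinv : 0 ≤ (V u)⁻¹ * (V v)⁻¹ := by positivity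
  have hT := Corr.one_le_Tw 0 d
  have hN : (0 : ℝ) ≤ N := Nat.cast_nonneg N
  by_cases hodd : ¬ Even d ∧ 2 ≤ u ∧ 2 ≤ v
  · obtain ⟨h1, h2, h3⟩ := hodd
    have h0 : ∑ x ∈ Finset.Icc 1 N, Lw u x * Lw v (x + d) = 0 := by
      apply Finset.sum_eq_zero
      intro x _
      by_cases hx : Even x
      · rw [Lw_even h2 hx, zero_mul]
      · have hxd : Even (x + d) := by
          rw [Nat.not_even_iff_odd] at hx h1
          exact hx.add_odd h1
        rw [Lw_even h3 hxd, mul_zero]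
    rw [h0]
    positivity
  · have h1 := hFL 1 le_rfl z hz (pr z) (fun r hr => Corr.mem_pr.mp hr) (Corr.Om d u v) (by
      intro r hr
      have hrp := (Corr.mem_pr.mp hr).1
      have hr2 := hrp.two_le
      have hc2 : (Corr.Om d u v r).card ≤ 2 := by
        unfold Corr.Om
        refine (Finset.card_union_le _ _).trans ?_
        split_ifs <;> simp
      refine ⟨hc2, ?_, ?_⟩
      · rcases Nat.lt_or_ge 2 r with h | h
        · omega
        · have hr' : r = 2 := by omega
          subst hr'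
          by_cases he : Even d
          · have h3 : Corr.negd d 2 = 0 := (Corr.negd_eq_zero (by norm_num)).mpr he.two_dvd
            unfold Corr.Om
            rw [h3]
            split_ifs <;> simp
          · have h4 : ¬ (2 ≤ u ∧ 2 ≤ v) := fun h => hodd ⟨he, h⟩
            unfold Corr.Om
            by_cases hu2 : 2 ≤ u
            · have hv2 : ¬ 2 ≤ v := fun h => h4 ⟨hu2, h⟩
              rw [if_pos hu2, if_neg hv2]
              simp
            · rw [if_neg hu2]
              split_ifs <;> simp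
      · intro x hx
        unfold Corr.Om at hx
        rw [Finset.mem_union] at hx
        rcases hx with hx | hx
        · split_ifs at hx
          · rw [Finset.mem_singleton] at hx
            omega
          · simp at hx
        · split_ifs at hx
          · rw [Finset.mem_singleton] at hx
            rw [hx]
            exact Corr.negd_lt (by omega)
          · simp at hx) 1 N
    rw [← Corr.count_eq hu hv, Corr.prod_Om hu hv] at h1
    rw [Corr.sum_eq]
    set c : ℝ := (((Finset.Icc 1 N).filter fun x => Rough u x ∧ Rough v (x + d)).card : ℝ) with hc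
    have hG0 : 0 ≤ Corr.G d z u v := by
      unfold Corr.G
      refine Finset.prod_nonneg fun r hr => ?_
      split_ifs
      · exact Corr.al_nonneg (Corr.mem_pr.mp hr).1.two_le
      · exact zero_le_one
    have hGT : Corr.G d z u v ≤ Tw 0 d := by
      unfold Corr.G
      rw [← Finset.prod_filter]
      apply Corr.prod_al_le (by omega)
      intro r hr
      have := (Corr.mem_pr.mp (Finset.mem_filter.mp hr).1).1
      exact ⟨this, this.pos⟩
    have h2 : c ≤ (1 + K₀ * (1 / 2) ^ 1) * (N * (Corr.G d z u v * (V u * V v))) +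
        (z : ℝ) ^ (K₀ * 1) := by
      have := (abs_le.mp h1).2
      linarith
    rw [mul_one, pow_one] at h2
    have h3 : (V u)⁻¹ * (V v)⁻¹ * c ≤ (1 + K₀ * (1 / 2)) * (N * Corr.G d z u v) +
        (z : ℝ) ^ K₀ * ((V u)⁻¹ * (V v)⁻¹) := by
      refine (mul_le_mul_of_nonneg_left h2 hinv).trans (le_of_eq ?_)
      field_simp
    have h4 : (1 + (K₀ : ℝ) * (1 / 2)) * (N * Corr.G d z u v) ≤ (K₀ + 1 : ℕ) * N * Tw 0 d := by
      have e1 : (N : ℝ) * Corr.G d z u v ≤ N * Tw 0 d := mul_le_mul_of_nonneg_left hGT hN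
      have e2 : (1 + (K₀ : ℝ) * (1 / 2)) ≤ (K₀ + 1 : ℕ) := by
        push_cast
        have : (1 : ℝ) ≤ K₀ := by exact_mod_cast hK₀
        linarith
      rw [mul_assoc ((K₀ + 1 : ℕ) : ℝ)]
      exact mul_le_mul e2 e1 (by positivity) (by positivity)
    have h5 : (z : ℝ) ^ K₀ * ((V u)⁻¹ * (V v)⁻¹) ≤ (z : ℝ) ^ (K₀ + 1) * ((V u)⁻¹ * (V v)⁻¹) := by
      apply mul_le_mul_of_nonneg_right _ hinv
      exact pow_le_pow_right₀ (by linarith) (by omega)
    exact h3.trans (add_le_add h4 h5)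

/-- the product of two bounded functions, one supported on `[0, z]` up to an error -/
theorem expand_le {X D z : ℕ} {a g ρ : ℕ → ℝ} {L M : ℝ} (ha : ∀ n, n ≤ X → 0 ≤ a n)
    (hag : ∀ n, n ≤ X → a n ≤ g n + ρ n) (hg0 : ∀ n, 0 ≤ g n)
    (hg : ∀ n, g n ≤ M) (hL : 0 ≤ L)
    (hρ : ∀ n, ρ n = if n ≤ z then L else 0) (hDX : D ≤ X) :
    ∑ y ∈ range (X + 1 - D), a y * a (y + D) ≤
      ∑ y ∈ range (X + 1 - D), g y * g (y + D) + 2 * ((z : ℝ) + 1) * L * (M + L) := by
  have hM : 0 ≤ M := (hg0 0).trans (hg 0)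
  have hρ0 : ∀ n, 0 ≤ ρ n := fun n => by
    rw [hρ]; split_ifs <;> [exact hL; exact le_rfl]
  have hρL : ∀ n, ρ n ≤ L := fun n => by
    rw [hρ]; split_ifs <;> [exact le_rfl; exact hL]
  have h1 : ∀ y ∈ range (X + 1 - D), a y * a (y + D) ≤
      g y * g (y + D) + (ρ y * (M + L) + ρ (y + D) * (M + L)) := by
    intro y hy
    rw [Finset.mem_range] at hy
    have e1 := hag y (by omega)
    have e2 := hag (y + D) (by omega)
    have e3 := ha y (by omega)
    have e4 := ha (y + D) (by omega)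
    have e5 : a y * a (y + D) ≤ (g y + ρ y) * (g (y + D) + ρ (y + D)) :=
      mul_le_mul e1 e2 e4 (e3.trans e1)
    refine e5.trans ?_
    have f1 := mul_le_mul_of_nonneg_left (hg (y + D)) (hρ0 y)
    have f2 := mul_le_mul_of_nonneg_left (hρL (y + D)) (hρ0 y)
    have f3 := mul_le_mul_of_nonneg_right (hg y) (hρ0 (y + D))
    have f4 := mul_nonneg (hρ0 (y + D)) hL
    nlinarith
  refine (Finset.sum_le_sum h1).trans ?_
  rw [Finset.sum_add_distrib, Finset.sum_add_distrib, ← Finset.sum_mul, ← Finset.sum_mul]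
  have hcard : ∀ s : Finset ℕ, (∀ φ : ℕ → ℕ, Function.Injective φ → (∀ n, n ≤ φ n) →
      ∑ y ∈ s, ρ (φ y) ≤ ((z : ℝ) + 1) * L) := by
    intro s φ _ hφ
    have e1 : ∀ y ∈ s, ρ (φ y) ≤ if y ≤ z then L else 0 := by
      intro y _
      rw [hρ]
      split_ifs with q1 q2 q2
      · exact le_rfl
      · exact absurd ((hφ y).trans q1) q2
      · exact hL
      · exact le_rfl
    refine (Finset.sum_le_sum e1).trans ?_
    rw [← Finset.sum_filter, Finset.sum_const, nsmul_eq_mul]
    apply mul_le_mul_of_nonneg_right _ hL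
    have e2 : (s.filter (fun y => y ≤ z)).card ≤ z + 1 := by
      calc (s.filter (fun y => y ≤ z)).card ≤ (range (z + 1)).card := by
            apply Finset.card_le_card
            intro n hn
            rw [Finset.mem_filter] at hn
            rw [Finset.mem_range]
            omega
        _ = z + 1 := Finset.card_range _
    exact_mod_cast e2
  have h2 := hcard (range (X + 1 - D)) id Function.injective_id (fun n => le_rfl)
  have h3 := hcard (range (X + 1 - D)) (fun y => y + D) (add_left_injective D)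
    (fun n => Nat.le_add_right n D)
  simp only [id] at h2
  have hML : 0 ≤ M + L := by linarith
  have h4 := mul_le_mul_of_nonneg_right h2 hML
  have h5 := mul_le_mul_of_nonneg_right h3 hML
  linarith

theorem acor2 : ∃ C : ℝ, 1 ≤ C ∧ ∀ w : ℕ, 2 ≤ w → ∃ X₀ : ℕ, ∀ X : ℕ, X₀ ≤ X → ∀ D : ℕ, 1 ≤ D →
    D ≤ X → ∀ h : ℕ → ℝ, (∀ n, |h n| ≤ lam n + Lw w n) → |acor X h D| ≤ C * Tw 0 D * X := by
  obtain ⟨K, hK, hS⟩ := sum_Lw_Lw_le
  obtain ⟨CV, hCV, hV⟩ := Pool.Agent.Lib.GT.V_inv_le
  refine ⟨(4 * K + 1) ^ 2 * (K + 1) + 1, ?_, ?_⟩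
  · have : (0 : ℝ) ≤ (4 * K + 1) ^ 2 * (K + 1) := by positivity
    linarith
  intro w hw
  set W := (V w)⁻¹ with hW
  have hW1 : 1 ≤ W := one_le_V_inv w
  have hη₁ : 0 < 1 / (CV + W) ^ 4 := by positivity
  have hη₂ : 0 < 1 / (4 * (3 * K + 3 + W) * 4) ^ 4 := by positivity
  obtain ⟨X₁, hX₁⟩ := Filter.eventually_atTop.mp
    ((ev_log_pow 4 _ hη₁).and (ev_log_pow 4 _ hη₂))
  refine ⟨max X₁ (max 3 (w ^ (2 * K * 1))), fun X hX D hD hDX h hh => ?_⟩
  have hX3 : 3 ≤ X := le_trans (le_trans (le_max_left _ _) (le_max_right _ _)) hX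
  have hXw : w ^ (2 * K * 1) ≤ X := le_trans (le_trans (le_max_right _ _) (le_max_right _ _)) hX
  obtain ⟨hXa, hXb⟩ := hX₁ X (le_trans (le_max_left _ _) hX)
  have hXr : (3 : ℝ) ≤ X := by exact_mod_cast hX3
  have hX0 : (0 : ℝ) < X := by linarith
  obtain ⟨z, hwz, hz1, hz2, hzc⟩ := exists_z hK le_rfl hw hXw
  have hz2' : 2 ≤ z := hw.trans hwz
  have hzr : (2 : ℝ) ≤ z := by exact_mod_cast hz2'
  have hsX : Real.sqrt X * Real.sqrt X = X := Real.mul_self_sqrt hX0.le
  have hsX0 : 0 ≤ Real.sqrt X := Real.sqrt_nonneg _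
  have hs1 : 1 ≤ Real.sqrt X := by rw [Real.one_le_sqrt]; linarith
  have hzX : (z : ℝ) ≤ X := by nlinarith
  have hVz : (V z)⁻¹ ≤ CV * Real.log X :=
    (hV z hz2').trans (mul_le_mul_of_nonneg_left (Real.log_le_log (by linarith) hzX) hCV.le)
  have hlog1 : 1 ≤ Real.log X := by
    rw [Real.le_log_iff_exp_le hX0]
    exact Real.exp_one_lt_three.le.trans hXr
  have hlog0 : 0 ≤ Real.log X := by linarith
  have hVz0 := V_pos z
  set c := Real.log X * V z with hcdef
  have hc0 : 0 ≤ c := mul_nonneg hlog0 hVz0.le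
  have hcK : c ≤ 4 * K := by
    push_cast at hzc
    linarith
  have hKr : (1 : ℝ) ≤ K := by exact_mod_cast hK
  have hlamX : ∀ n, n ≤ X → lam n ≤ Real.log X := by
    intro n hn
    unfold lam
    split_ifs with hp
    · exact Real.log_le_log (by exact_mod_cast hp.pos) (by exact_mod_cast hn)
    · exact hlog0
  have hlamz : ∀ n, n ≤ X → lam n ≤ c * Lw z n + (if n ≤ z then Real.log X else 0) := by
    intro n hn
    have hLz := Lw_nonneg z n
    by_cases hnz : n ≤ z
    · rw [if_pos hnz]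
      have := mul_nonneg hc0 hLz
      linarith [hlamX n hn]
    · rw [if_neg hnz, add_zero]
      by_cases hp : n.Prime
      · have h3 : Lw z n = (V z)⁻¹ := by
          unfold Lw
          rw [if_pos]
          intro p hp' hd
          rw [(Nat.prime_dvd_prime_iff_eq hp' hp).mp hd]
          omega
        rw [h3, hcdef, mul_assoc, mul_inv_cancel₀ hVz0.ne', mul_one]
        exact hlamX n hn
      · have h3 : lam n = 0 := by unfold lam; rw [if_neg hp]
        rw [h3]
        exact mul_nonneg hc0 hLz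
  -- the absolute value
  have h1 : |acor X h D| ≤ ∑ y ∈ range (X + 1 - D), (lam y + Lw w y) *
      (lam (y + D) + Lw w (y + D)) := by
    unfold acor
    refine (Finset.abs_sum_le_sum_abs _ _).trans (Finset.sum_le_sum fun y _ => ?_)
    rw [abs_mul]
    exact mul_le_mul (hh y) (hh (y + D)) (abs_nonneg _)
      (add_nonneg (lam_nonneg y) (Lw_nonneg w y))
  have hcV : c * (V z)⁻¹ = Real.log X := by
    rw [hcdef, mul_assoc, mul_inv_cancel₀ hVz0.ne', mul_one]
  have h2 := expand_le (X := X) (D := D) (z := z) (a := fun n => lam n + Lw w n)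
    (g := fun n => c * Lw z n + Lw w n) (ρ := fun n => if n ≤ z then Real.log X else 0)
    (L := Real.log X) (M := Real.log X + W)
    (fun n _ => add_nonneg (lam_nonneg n) (Lw_nonneg w n))
    (fun n hn => by
      have := hlamz n hn
      show lam n + Lw w n ≤ c * Lw z n + Lw w n + (if n ≤ z then Real.log X else 0)
      linarith)
    (fun n => add_nonneg (mul_nonneg hc0 (Lw_nonneg z n)) (Lw_nonneg w n))
    (fun n => by
      have e1 := mul_le_mul_of_nonneg_left (Lw_le z n) hc0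
      rw [hcV] at e1
      exact add_le_add e1 (Lw_le w n))
    hlog0 (fun n => rfl) hDX
  -- the main terms
  have hL0 : ∀ u : ℕ, 2 ≤ u → Lw u 0 = 0 := fun u hu => Lw_even hu (by simp)
  have h3 : ∑ y ∈ range (X + 1 - D), (c * Lw z y + Lw w y) * (c * Lw z (y + D) + Lw w (y + D)) =
      c ^ 2 * ∑ x ∈ Finset.Icc 1 (X - D), Lw z x * Lw z (x + D) +
      c * ∑ x ∈ Finset.Icc 1 (X - D), Lw z x * Lw w (x + D) +
      c * ∑ x ∈ Finset.Icc 1 (X - D), Lw w x * Lw z (x + D) +
      ∑ x ∈ Finset.Icc 1 (X - D), Lw w x * Lw w (x + D) := by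
    rw [Finset.mul_sum, Finset.mul_sum, Finset.mul_sum, ← Finset.sum_add_distrib,
      ← Finset.sum_add_distrib, ← Finset.sum_add_distrib,
      show X + 1 - D = (X - D) + 1 by omega, Finset.range_eq_Ico,
      Finset.sum_eq_sum_Ico_succ_bot (by omega), hL0 z hz2', hL0 w hw]
    rw [mul_zero, add_zero, zero_mul, zero_add]
    apply Finset.sum_congr
    · ext n
      simp only [Finset.mem_Ico, Finset.mem_Icc]
      omega
    · intro n _
      ring
  have hT1 : 1 ≤ Tw 0 D := Corr.one_le_Tw 0 D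
  have hM4 : (CV * Real.log X + W) ^ 2 ≤ Real.sqrt X := by
    apply Real.le_sqrt_of_sq_le
    have e1 : CV * Real.log X + W ≤ (CV + W) * Real.log X := by
      have : W ≤ W * Real.log X := le_mul_of_one_le_right (by linarith) hlog1
      linarith
    have e2 : 0 ≤ CV * Real.log X + W := by positivity
    calc ((CV * Real.log X + W) ^ 2) ^ 2 = (CV * Real.log X + W) ^ 4 := by ring
      _ ≤ ((CV + W) * Real.log X) ^ 4 := pow_le_pow_left₀ e2 e1 4
      _ = (CV + W) ^ 4 * (Real.log X) ^ 4 := by ring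
      _ ≤ (CV + W) ^ 4 * (1 / (CV + W) ^ 4 * X) :=
          mul_le_mul_of_nonneg_left hXa (by positivity)
      _ = X := by
          have : (CV + W) ^ 4 ≠ 0 := by positivity
          field_simp
  have hSle : ∀ u v : ℕ, u ≤ z → v ≤ z → (V u)⁻¹ ≤ CV * Real.log X + W →
      (V v)⁻¹ ≤ CV * Real.log X + W →
      ∑ x ∈ Finset.Icc 1 (X - D), Lw u x * Lw v (x + D) ≤ (K + 1) * Tw 0 D * X := by
    intro u v hu hv hu' hv'
    refine (hS u v z hz2' hu hv (X - D) D hD).trans ?_
    have e1 : ((X - D : ℕ) : ℝ) ≤ X := by exact_mod_cast Nat.sub_le X D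
    have e2 : (K : ℝ) * ((X - D : ℕ) : ℝ) * Tw 0 D ≤ K * X * Tw 0 D := by
      apply mul_le_mul_of_nonneg_right _ (by linarith)
      exact mul_le_mul_of_nonneg_left e1 (by linarith)
    have e3 : (z : ℝ) ^ K * ((V u)⁻¹ * (V v)⁻¹) ≤ X := by
      have f1 : (V u)⁻¹ * (V v)⁻¹ ≤ (CV * Real.log X + W) ^ 2 := by
        rw [pow_two]
        exact mul_le_mul hu' hv' (inv_nonneg.mpr (V_pos v).le) (by positivity)
      rw [mul_one] at hz1
      calc (z : ℝ) ^ K * ((V u)⁻¹ * (V v)⁻¹) ≤ Real.sqrt X * Real.sqrt X :=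
            mul_le_mul hz1 (f1.trans hM4)
              (mul_nonneg (inv_nonneg.mpr (V_pos u).le) (inv_nonneg.mpr (V_pos v).le)) hsX0
        _ = X := hsX
    have e4 : (X : ℝ) ≤ Tw 0 D * X := le_mul_of_one_le_left hX0.le hT1
    nlinarith
  have hzM : (V z)⁻¹ ≤ CV * Real.log X + W := by linarith
  have hwM : (V w)⁻¹ ≤ CV * Real.log X + W := by
    have : 0 ≤ CV * Real.log X := by positivity
    linarith
  have s1 := hSle z z le_rfl le_rfl hzM hzM
  have s2 := hSle z w le_rfl hwz hzM hwM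
  have s3 := hSle w z hwz le_rfl hwM hzM
  have s4 := hSle w w hwz hwz hwM hwM
  set S : ℝ := (K + 1) * Tw 0 D * X with hSdef
  have hS0 : 0 ≤ S := by positivity
  have h4 : c ^ 2 * ∑ x ∈ Finset.Icc 1 (X - D), Lw z x * Lw z (x + D) +
      c * ∑ x ∈ Finset.Icc 1 (X - D), Lw z x * Lw w (x + D) +
      c * ∑ x ∈ Finset.Icc 1 (X - D), Lw w x * Lw z (x + D) +
      ∑ x ∈ Finset.Icc 1 (X - D), Lw w x * Lw w (x + D) ≤ (4 * K + 1) ^ 2 * S := by
    have e1 := mul_le_mul_of_nonneg_left s1 (sq_nonneg c)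
    have e2 := mul_le_mul_of_nonneg_left s2 hc0
    have e3 := mul_le_mul_of_nonneg_left s3 hc0
    have e4 : (c + 1) ^ 2 ≤ (4 * K + 1) ^ 2 := pow_le_pow_left₀ (by linarith) (by linarith) 2
    have e5 := mul_le_mul_of_nonneg_right e4 hS0
    nlinarith
  -- the error term
  have h5 : 2 * ((z : ℝ) + 1) * Real.log X * (Real.log X + W + Real.log X) ≤ X := by
    have e1 : (z : ℝ) + 1 ≤ 2 * Real.sqrt X := by linarith
    have e2 : Real.log X + W + Real.log X ≤ (3 * K + 3 + W) * Real.log X := by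
      have : W ≤ W * Real.log X := le_mul_of_one_le_right (by linarith) hlog1
      nlinarith
    have e3 : 4 * (3 * K + 3 + W) * (Real.log X) ^ 2 ≤ Real.sqrt X := by
      apply Real.le_sqrt_of_sq_le
      have f1 : (4 * (3 * (K : ℝ) + 3 + W)) ^ 2 ≤ (4 * (3 * K + 3 + W) * 4) ^ 4 := by
        have g1 : 1 ≤ 4 * (3 * (K : ℝ) + 3 + W) := by linarith
        have g2 : 4 * (3 * (K : ℝ) + 3 + W) ≤ 4 * (3 * K + 3 + W) * 4 := by linarith
        calc (4 * (3 * (K : ℝ) + 3 + W)) ^ 2 ≤ (4 * (3 * K + 3 + W) * 4) ^ 2 :=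
              pow_le_pow_left₀ (by linarith) g2 2
          _ ≤ (4 * (3 * K + 3 + W) * 4) ^ 4 :=
              pow_le_pow_right₀ (by linarith) (by norm_num)
      calc (4 * (3 * K + 3 + W) * (Real.log X) ^ 2) ^ 2
          = (4 * (3 * K + 3 + W)) ^ 2 * (Real.log X) ^ 4 := by ring
        _ ≤ (4 * (3 * K + 3 + W) * 4) ^ 4 * (Real.log X) ^ 4 :=
            mul_le_mul_of_nonneg_right f1 (by positivity)
        _ ≤ (4 * (3 * K + 3 + W) * 4) ^ 4 * (1 / (4 * (3 * K + 3 + W) * 4) ^ 4 * X) :=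
            mul_le_mul_of_nonneg_left hXb (by positivity)
        _ = X := by
            have : (4 * (3 * (K : ℝ) + 3 + W) * 4) ^ 4 ≠ 0 := by positivity
            field_simp
    calc 2 * ((z : ℝ) + 1) * Real.log X * (Real.log X + W + Real.log X)
        ≤ 2 * (2 * Real.sqrt X) * Real.log X * ((3 * K + 3 + W) * Real.log X) := by
          apply mul_le_mul _ e2 (by positivity) (by positivity)
          apply mul_le_mul_of_nonneg_right _ hlog0
          linarith
      _ = Real.sqrt X * (4 * (3 * K + 3 + W) * (Real.log X) ^ 2) := by ring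
      _ ≤ Real.sqrt X * Real.sqrt X := mul_le_mul_of_nonneg_left e3 hsX0
      _ = X := hsX
  have h6 : (X : ℝ) ≤ Tw 0 D * X := le_mul_of_one_le_left hX0.le hT1
  rw [h3] at h2
  calc |acor X h D| ≤ (4 * K + 1) ^ 2 * S + X := by linarith
    _ ≤ (4 * K + 1) ^ 2 * S + Tw 0 D * X := by linarith
    _ = ((4 * K + 1) ^ 2 * (K + 1) + 1) * Tw 0 D * X := by rw [hSdef]; ring

end Pool.Agent.Lib.MG
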