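import Pool.Agent.Lib.MP_7b7e48_nt.MG.F03
import Pool.Agent.Lib.MP_7b7e48_nt.GT.RoughCount

/-!
# U01: a colouring with few monochromatic sums

Let `r ≥ 3`, `k = Nat.log 2 r` (so `k ≥ 1`, `2 ^ k ≤ r`) and `P = pr (k + 1)` the primes `≤ k + 1`,
`|P| ≤ k`.  Colour a prime `p` by the bits `b_q(p)`, `q ∈ P`: `b_2(p) = [p % 4 = 1]`, and for odd `q`
`b_q(p) = [0 < p % q ∧ 2 (p % q) < q]`; `(P → Bool)` has at most `2 ^ k ≤ r` elements, choose an
injection into `Fin r`.
If `p ≠ p'` are primes, both `> k + 1`, with the same colour and `p + p' = 2 n`, then `n` is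
`(k+1)`-rough: if `2 ∣ n` then `4 ∣ p + p'`, `p, p'` odd, so one is 1 and the other 3 mod 4; if an odd
`q ∈ P` divides `n` then `p + p' ≡ 0 (mod q)`, `p, p'` nonzero mod `q`, and exactly one of `x`, `q - x`
is `< q/2`.
So the `n ≤ X` with `mono κ n > 0` are `(k+1)`-rough or `2 n = q + p'` with `q ≤ k + 1` and a
prime `p' ≤ 2 X` (at most `(k + 2) * π(2 X) = o(X)` of them).  Number of rough `n ≤ X`: `rough_count`,
which also gives `π(2 X) = o(X)`.
`log (k + 1) ≥ log (log r)` for `r ≥ 3` (`2 ^ (k + 1) > r`).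
-/

open Finset

namespace Pool.Agent.Lib.MG

open Pool.Agent.Lib.GT

/-- the bit of `p` at the prime `q` -/
def bitq (q p : ℕ) : Bool :=
  if q = 2 then decide (p % 4 = 1) else decide (2 * (p % q) < q)

theorem bit_rough {k p p' n : ℕ} (hk : 1 ≤ k) (hp : p.Prime) (hp' : p'.Prime) (h1 : k + 1 < p)
    (h2 : k + 1 < p') (hn : p + p' = 2 * n) (hb : ∀ q ∈ pr (k + 1), bitq q p = bitq q p') :
    Rough (k + 1) n := by
  rw [rough_iff]
  intro q hq hqn
  have hbq := hb q hq
  have hq' := Finset.mem_filter.mp hq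
  have hqp : q.Prime := hq'.2
  have hqk : q ≤ k + 1 := by have := Finset.mem_range.mp hq'.1; omega
  unfold bitq at hbq
  by_cases h : q = 2
  · subst h
    have o1 : p % 2 = 1 := by
      rcases hp.eq_two_or_odd with h | h
      · omega
      · exact h
    have o2 : p' % 2 = 1 := by
      rcases hp'.eq_two_or_odd with h | h
      · omega
      · exact h
    rw [if_pos rfl, if_pos rfl] at hbq
    have hbq' := decide_eq_decide.mp hbq
    obtain ⟨m, rfl⟩ := hqn
    omega
  · rw [if_neg h, if_neg h] at hbq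
    have hbq' := decide_eq_decide.mp hbq
    have hqodd : q % 2 = 1 := by
      rcases hqp.eq_two_or_odd with h' | h'
      · exact absurd h' h
      · exact h'
    have hqpos : 0 < q := hqp.pos
    have n1 : p % q ≠ 0 := by
      intro h0
      have := (Nat.prime_dvd_prime_iff_eq hqp hp).mp (Nat.dvd_of_mod_eq_zero h0)
      omega
    have n2 : p' % q ≠ 0 := by
      intro h0
      have := (Nat.prime_dvd_prime_iff_eq hqp hp').mp (Nat.dvd_of_mod_eq_zero h0)
      omega
    have l1 := Nat.mod_lt p hqpos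
    have l2 := Nat.mod_lt p' hqpos
    have hd : q ∣ p % q + p' % q := by
      have : q ∣ p + p' := by rw [hn]; exact Dvd.dvd.mul_left hqn 2
      rw [Nat.dvd_iff_mod_eq_zero] at this ⊢
      rwa [← Nat.add_mod]
    have hs : p % q + p' % q = q := by
      obtain ⟨c, hc⟩ := hd
      have hc1 : c = 1 := by
        have h3 : q * c < q * 2 := by omega
        have h4 : c < 2 := Nat.lt_of_mul_lt_mul_left h3
        have h5 : c ≠ 0 := by
          rintro rfl
          omega
        omega
      rw [hc, hc1, mul_one]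
    omega

/-- few `n` with `2 n - q` prime -/
theorem card_prime_shift (q X z : ℕ) :
    ((Finset.Icc 1 X).filter fun n : ℕ => (2 * n - q).Prime).card ≤
      ((Finset.Ioc 0 (0 + 2 * X)).filter (Rough z)).card + (z + 1) := by
  classical
  have h1 : ((Finset.Icc 1 X).filter fun n : ℕ => (2 * n - q).Prime).card ≤
      ((Finset.Ioc 0 (0 + 2 * X)).filter Nat.Prime).card := by
    refine Finset.card_le_card_of_injOn (fun n => 2 * n - q) ?_ ?_
    · intro n hn
      have hn' := Finset.mem_filter.mp (Finset.mem_coe.mp hn)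
      have hn1 := Finset.mem_Icc.mp hn'.1
      refine Finset.mem_coe.mpr (Finset.mem_filter.mpr ⟨Finset.mem_Ioc.mpr ⟨hn'.2.pos, ?_⟩, hn'.2⟩)
      simp only
      omega
    · intro n hn m hm hnm
      have hn' := Finset.mem_filter.mp (Finset.mem_coe.mp hn)
      have hm' := Finset.mem_filter.mp (Finset.mem_coe.mp hm)
      have := hn'.2.pos
      have := hm'.2.pos
      simp only at hnm
      omega
  refine h1.trans ?_
  have h2 : (Finset.Ioc 0 (0 + 2 * X)).filter Nat.Prime ⊆
      (Finset.Ioc 0 (0 + 2 * X)).filter (Rough z) ∪ Finset.range (z + 1) := by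
    intro m hm
    have hm' := Finset.mem_filter.mp hm
    rw [Finset.mem_union]
    by_cases hz : m < z + 1
    · exact Or.inr (Finset.mem_range.mpr hz)
    · refine Or.inl (Finset.mem_filter.mpr ⟨hm'.1, ?_⟩)
      intro p hp hpm
      have := (Nat.prime_dvd_prime_iff_eq hp hm'.2).mp hpm
      omega
  refine (Finset.card_le_card h2).trans ((Finset.card_union_le _ _).trans ?_)
  rw [Finset.card_range]

open Classical in
theorem mono_upper : ∃ C : ℝ, 0 < C ∧ ∀ r : ℕ, 3 ≤ r → ∃ κ : Nat.Primes → Fin r, ∃ X₀ : ℕ,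
    ∀ X : ℕ, X₀ ≤ X → (((Finset.Icc 1 X).filter fun n : ℕ => 0 < mono κ n).card : ℝ) ≤
      C / Real.log (Real.log r) * X := by
  obtain ⟨C, hC, hrc⟩ := rough_count
  refine ⟨C + 1, by linarith, ?_⟩
  intro r hr
  set k : ℕ := Nat.log 2 r with hkdef
  have hk1 : 1 ≤ k := Nat.log_pos (by norm_num) (by omega)
  have hkr : 2 ^ k ≤ r := Nat.pow_log_le_self 2 (by omega)
  have hrk : r < 2 ^ (k + 1) := Nat.lt_pow_succ_log_self (by norm_num) r
  -- the colouring
  have hPcard : (pr (k + 1)).card ≤ k := by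
    have hsub : pr (k + 1) ⊆ Finset.Ioc 1 (k + 1) := by
      intro q hq
      have hq' := Finset.mem_filter.mp hq
      have := Finset.mem_range.mp hq'.1
      have := hq'.2.two_le
      exact Finset.mem_Ioc.mpr ⟨by omega, by omega⟩
    have := Finset.card_le_card hsub
    rwa [Nat.card_Ioc, Nat.add_sub_cancel] at this
  have hemb : Nonempty ((↥(pr (k + 1)) → Bool) ↪ Fin r) := by
    refine Function.Embedding.nonempty_of_card_le ?_
    rw [Fintype.card_fin, Fintype.card_fun, Fintype.card_bool, Fintype.card_coe]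
    exact (Nat.pow_le_pow_right (by norm_num) hPcard).trans hkr
  obtain ⟨ι⟩ := hemb
  set κ : Nat.Primes → Fin r := fun p => ι (fun q => bitq q.1 p.1) with hκ
  -- sizes
  have hr3 : (3 : ℝ) ≤ r := by exact_mod_cast hr
  have hlogr : 1 < Real.log r := by
    rw [Real.lt_log_iff_exp_lt (by linarith)]
    have := Real.exp_one_lt_d9
    linarith
  have hll : 0 < Real.log (Real.log r) := Real.log_pos hlogr
  have hk1r : Real.log r ≤ ((k + 1 : ℕ) : ℝ) := by
    have h1 : Real.log r ≤ Real.log ((2 : ℝ) ^ (k + 1)) := by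
      refine Real.log_le_log (by linarith) ?_
      exact_mod_cast hrk.le
    rw [Real.log_pow] at h1
    have h2 : Real.log 2 ≤ 1 := by
      have := Real.log_two_lt_d9
      linarith
    calc Real.log r ≤ ((k + 1 : ℕ) : ℝ) * Real.log 2 := h1
      _ ≤ ((k + 1 : ℕ) : ℝ) * 1 := mul_le_mul_of_nonneg_left h2 (Nat.cast_nonneg _)
      _ = _ := mul_one _
  have hlk : Real.log (Real.log r) ≤ Real.log ((k + 1 : ℕ) : ℝ) :=
    Real.log_le_log (by linarith) hk1r
  -- the auxiliary level
  obtain ⟨z, hz⟩ := exists_nat_ge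
    (Real.exp (4 * (k + 2) * C * Real.log (Real.log r)) + 2)
  have hz2 : 2 ≤ z := by
    have : (2 : ℝ) ≤ z := by
      have := Real.exp_pos (4 * (k + 2) * C * Real.log (Real.log r))
      linarith
    exact_mod_cast this
  have hz2r : (2 : ℝ) ≤ z := by exact_mod_cast hz2
  have hlz : 4 * (k + 2) * C * Real.log (Real.log r) ≤ Real.log z := by
    rw [Real.le_log_iff_exp_le (by linarith)]
    linarith
  have hlz0 : 0 < Real.log z := Real.log_pos (by linarith)
  obtain ⟨X1, hX1⟩ := exists_nat_ge (2 * (k + 2) * (z + 1) * Real.log (Real.log r))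
  refine ⟨κ, X1 + z + k + 1, ?_⟩
  intro X hX
  have hXz : z ≤ 2 * X := by omega
  have hXk : k + 1 ≤ X := by omega
  have hXr : (X1 : ℝ) ≤ X := by exact_mod_cast (by omega : X1 ≤ X)
  have hX0 : (0 : ℝ) ≤ X := Nat.cast_nonneg X
  -- inclusion
  have hincl : ((Finset.Icc 1 X).filter fun n : ℕ => 0 < mono κ n) ⊆
      ((Finset.Ioc 0 (0 + X)).filter (Rough (k + 1))) ∪
        (Finset.range (k + 2)).biUnion
          (fun q => (Finset.Icc 1 X).filter fun n : ℕ => (2 * n - q).Prime) := by
    intro n hn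
    have hn' := Finset.mem_filter.mp hn
    have hnI := Finset.mem_Icc.mp hn'.1
    obtain ⟨⟨p, p'⟩, hne, hsum, hcol⟩ := Set.nonempty_of_ncard_ne_zero hn'.2.ne'
    simp only at hne hsum hcol
    rw [Finset.mem_union]
    by_cases h1 : k + 1 < (p : ℕ)
    · by_cases h2 : k + 1 < (p' : ℕ)
      · left
        refine Finset.mem_filter.mpr ⟨Finset.mem_Ioc.mpr ⟨by omega, by omega⟩, ?_⟩
        refine bit_rough hk1 p.2 p'.2 h1 h2 hsum ?_
        intro q hq
        have := congrFun (ι.injective hcol) ⟨q, hq⟩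
        exact this
      · right
        refine Finset.mem_biUnion.mpr ⟨(p' : ℕ), Finset.mem_range.mpr (by omega), ?_⟩
        refine Finset.mem_filter.mpr ⟨hn'.1, ?_⟩
        have : 2 * n - (p' : ℕ) = p := by omega
        rw [this]
        exact p.2
    · right
      refine Finset.mem_biUnion.mpr ⟨(p : ℕ), Finset.mem_range.mpr (by omega), ?_⟩
      refine Finset.mem_filter.mpr ⟨hn'.1, ?_⟩
      have : 2 * n - (p : ℕ) = p' := by omega
      rw [this]
      exact p'.2
  have hcard : (((Finset.Icc 1 X).filter fun n : ℕ => 0 < mono κ n).card : ℝ) ≤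
      (((Finset.Ioc 0 (0 + X)).filter (Rough (k + 1))).card : ℝ) +
        (k + 2) * ((((Finset.Ioc 0 (0 + 2 * X)).filter (Rough z)).card : ℝ) + (z + 1)) := by
    have h1 := (Finset.card_le_card hincl).trans (Finset.card_union_le _ _)
    have h2 : ((Finset.range (k + 2)).biUnion
          (fun q => (Finset.Icc 1 X).filter fun n : ℕ => (2 * n - q).Prime)).card ≤
        (k + 2) * (((Finset.Ioc 0 (0 + 2 * X)).filter (Rough z)).card + (z + 1)) := by
      refine Finset.card_biUnion_le.trans ?_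
      calc ∑ q ∈ Finset.range (k + 2),
            ((Finset.Icc 1 X).filter fun n : ℕ => (2 * n - q).Prime).card
          ≤ ∑ _q ∈ Finset.range (k + 2),
            (((Finset.Ioc 0 (0 + 2 * X)).filter (Rough z)).card + (z + 1)) :=
            Finset.sum_le_sum fun q _ => card_prime_shift q X z
        _ = _ := by rw [Finset.sum_const, Finset.card_range, smul_eq_mul]
    have h3 := h1.trans (Nat.add_le_add_left h2 _)
    calc (((Finset.Icc 1 X).filter fun n : ℕ => 0 < mono κ n).card : ℝ)
        ≤ (((((Finset.Ioc 0 (0 + X)).filter (Rough (k + 1))).card) +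
          (k + 2) * (((Finset.Ioc 0 (0 + 2 * X)).filter (Rough z)).card + (z + 1)) : ℕ) : ℝ) := by
          exact_mod_cast h3
      _ = _ := by push_cast; ring
  have hr1 := hrc (k + 1) (by omega) 0 X hXk
  have hr2 := hrc z hz2 0 (2 * X) hXz
  have hb1 : C * X / Real.log ((k + 1 : ℕ) : ℝ) ≤ C / Real.log (Real.log r) * X := by
    rw [div_mul_eq_mul_div]
    exact div_le_div_of_nonneg_left (by positivity) hll hlk
  have hb2 : (k + 2) * (C * ((2 * X : ℕ) : ℝ) / Real.log z) ≤
      1 / 2 * (X / Real.log (Real.log r)) := by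
    have h1 : (k + 2) * (C * ((2 * X : ℕ) : ℝ) / Real.log z) =
        (2 * (k + 2) * C / Real.log z) * X := by
      push_cast
      ring
    have h2 : 2 * (k + 2) * C / Real.log z ≤ 1 / 2 / Real.log (Real.log r) := by
      rw [div_le_div_iff₀ hlz0 hll]
      linarith
    rw [h1]
    calc (2 * (k + 2) * C / Real.log z) * X ≤ 1 / 2 / Real.log (Real.log r) * X :=
          mul_le_mul_of_nonneg_right h2 hX0
      _ = _ := by ring
  have hb3 : (k + 2) * ((z : ℝ) + 1) ≤ 1 / 2 * (X / Real.log (Real.log r)) := by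
    have h1 : 2 * (k + 2) * (z + 1) * Real.log (Real.log r) ≤ (X : ℝ) := hX1.trans hXr
    have h2 : (k + 2) * ((z : ℝ) + 1) * 2 ≤ X / Real.log (Real.log r) := by
      rw [le_div_iff₀ hll]
      linarith
    linarith
  have hk2 : (0 : ℝ) ≤ k + 2 := by positivity
  have hb4 : (k + 2) * (((Finset.Ioc 0 (0 + 2 * X)).filter (Rough z)).card : ℝ) ≤
      (k + 2) * (C * ((2 * X : ℕ) : ℝ) / Real.log z) := mul_le_mul_of_nonneg_left hr2 hk2
  calc (((Finset.Icc 1 X).filter fun n : ℕ => 0 < mono κ n).card : ℝ)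
      ≤ (((Finset.Ioc 0 (0 + X)).filter (Rough (k + 1))).card : ℝ) +
        (k + 2) * ((((Finset.Ioc 0 (0 + 2 * X)).filter (Rough z)).card : ℝ) + (z + 1)) := hcard
    _ ≤ C / Real.log (Real.log r) * X + X / Real.log (Real.log r) := by linarith
    _ = (C + 1) / Real.log (Real.log r) * X := by ring

end Pool.Agent.Lib.MG
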