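import Pool.Agent.Lib.MP_7b7e48_nt.MG.Basic

/-!
# Z00: the model weight on `ZMod N`
-/

open Finset

namespace Pool.Agent.Lib.MG

/-- normalised indicator of `q ∤ a + W x` for all `q ∈ Q` -/
noncomputable def Lz (Q : Finset ℕ) (a W : ℕ) {N : ℕ} (x : ZMod N) : ℝ :=
  ∏ q ∈ Q, (if q ∣ a + W * x.val then (0 : ℝ) else (1 - 1 / (q : ℝ))⁻¹)

/-- `∑_{q | d} 1/q` -/
noncomputable def Az (Q : Finset ℕ) {N : ℕ} (d : ZMod N) : ℝ :=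
  ∑ q ∈ Q, (if q ∣ d.val then 1 / (q : ℝ) else 0)

end Pool.Agent.Lib.MG
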