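import Pool.Agent.Lib.MP_7b7e48_nt.MG.Z00
import Pool.Agent.Lib.MP_7b7e48_nt.GT.LocalAvg

/-!
# Z01: independence modulo distinct primes dividing `N`

Proof.  `∑ x : ZMod N, φ x.val = ∑ n ∈ range N, φ n` (`Transfer.sum_val` in GT/TransferNat).  Let
`P = ∏ q ∈ Q, q`, `P ∣ N` (distinct primes dividing `N`: `Finset.prod_primes_dvd`), `N = P k`.  The
summand is `P`-periodic, so the sum over `range N` is `k` times the sum over `range P`
(`Finset.sum_range` over blocks: `Finset.sum_range_mul`-type lemma or induction on `k`), which is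
`∏ q ∈ Q, ∑ y ∈ range q, f q y` by `Pool.Agent.Lib.GT.LA.sum_prod_period`.
-/

open Finset

namespace Pool.Agent.Lib.MG

theorem crt_sum_val {N : ℕ} [NeZero N] (g : ℕ → ℝ) :
    ∑ x : ZMod N, g x.val = ∑ n ∈ range N, g n := by
  refine sum_bij (fun x _ => x.val) ?_ ?_ ?_ ?_
  · intro x _
    exact mem_range.2 (ZMod.val_lt x)
  · intro x _ y _ h
    exact ZMod.val_injective N h
  · intro n hn
    exact ⟨(n : ZMod N), mem_univ _, ZMod.val_cast_of_lt (mem_range.1 hn)⟩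
  · intro x _
    rfl

theorem crt_sum_block (P : ℕ) (g : ℕ → ℝ) (hg : ∀ n m, g (P * m + n) = g n) (k : ℕ) :
    ∑ n ∈ range (P * k), g n = k * ∑ n ∈ range P, g n := by
  induction k with
  | zero => simp
  | succ k ih =>
    rw [mul_add, mul_one, sum_range_add, ih]
    rw [sum_congr rfl fun n _ => hg n k]
    push_cast
    ring

theorem crt_sum {N : ℕ} [NeZero N] (Q : Finset ℕ) (hQ : ∀ q ∈ Q, q.Prime ∧ q ∣ N)
    (f : ℕ → ℕ → ℝ) : ∑ x : ZMod N, ∏ q ∈ Q, f q (x.val % q) =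
      (N : ℝ) * ∏ q ∈ Q, ((∑ y ∈ range q, f q y) / q) := by
  have hP : ∀ q ∈ Q, q.Prime := fun q hq => (hQ q hq).1
  obtain ⟨k, hk⟩ : ∏ q ∈ Q, q ∣ N :=
    Finset.prod_primes_dvd N (fun q hq => (hP q hq).prime) fun q hq => (hQ q hq).2
  have h1 := crt_sum_val (N := N) fun n => ∏ q ∈ Q, f q (n % q)
  have h2 : ∑ n ∈ range N, ∏ q ∈ Q, f q (n % q) =
      k * ∏ q ∈ Q, ∑ y ∈ range q, f q y := by
    rw [← Pool.Agent.Lib.GT.LA.sum_prod_period Q hP f]
    conv_lhs => rw [hk]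
    refine crt_sum_block _ _ (fun n m => ?_) k
    refine prod_congr rfl fun q hq => ?_
    obtain ⟨l, hl⟩ := dvd_prod_of_mem (fun q => q) hq
    have h3 : (∏ q ∈ Q, q) = q * l := hl
    rw [h3, mul_assoc, Nat.mul_add_mod]
  have h3 : (∏ q ∈ Q, (q : ℝ)) ≠ 0 := by
    rw [prod_ne_zero_iff]
    intro q hq
    exact_mod_cast (hP q hq).ne_zero
  have h4 : (N : ℝ) = (∏ q ∈ Q, (q : ℝ)) * k := by
    have h5 : (N : ℝ) = ((∏ q ∈ Q, q) * k : ℕ) := by rw [← hk]
    rw [h5]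
    push_cast
    rfl
  rw [prod_div_distrib]
  refine (h1.trans h2).trans ?_
  rw [h4]
  field_simp

end Pool.Agent.Lib.MG
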