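import Pool.Agent.Lib.MP_7b7e48_nt.MG.Z00

/-!
# Z02: the local factor of a correlation

Proof.  Let `s` be the image of the `c i` in `ZMod q`, `ν = |s| ≤ n`.  The product vanishes exactly
for the `y` with `-(a / W) - y ∈ s`, so the sum is `(q - ν) * (1 - 1/q)⁻¹ ^ n`.
Bernoulli: `1 - ν / q ≤ (1 - 1/q) ^ ν`, so the sum is `≤ q * ((1 - 1/q)⁻¹) ^ (n - ν)`.
`(1 - 1/q)⁻¹ = 1 + 1/(q-1) ≤ exp (1/(q-1)) ≤ exp (2/q)`.  Finally `2 (n - ν) ≤` the number of
ordered pairs `i ≠ j` with `c i ≡ c j` (for a class of size `m ≥ 1`: `2 (m - 1) ≤ m (m - 1)`).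
-/

open Finset

namespace Pool.Agent.Lib.MG

namespace Z02Aux

theorem pairs_ge {n : ℕ} {β : Type} [DecidableEq β] (f : Fin n → β) :
    2 * ((n : ℝ) - ((univ.image f).card : ℝ)) ≤
      ∑ i, ∑ j ∈ univ.erase i, if f i = f j then (1 : ℝ) else 0 := by
  set m : β → ℕ := fun b => (univ.filter (fun j => f j = b)).card with hm
  have h1 : ∀ i, ∑ j ∈ univ.erase i, (if f i = f j then (1 : ℝ) else 0) =
      (fun b => (m b : ℝ) - 1) (f i) := by
    intro i
    have h := Finset.add_sum_erase (univ : Finset (Fin n))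
      (fun j => if f i = f j then (1 : ℝ) else 0) (mem_univ i)
    have h2 : ∑ j, (if f i = f j then (1 : ℝ) else 0) = (m (f i) : ℝ) := by
      rw [Finset.sum_boole]
      have h3 : (univ.filter (fun j => f i = f j)) = univ.filter (fun j => f j = f i) := by
        ext j
        simp only [Finset.mem_filter, Finset.mem_univ, true_and]
        exact eq_comm
      rw [h3]
    rw [h2] at h
    simp only [if_true] at h
    show _ = (m (f i) : ℝ) - 1
    linarith
  rw [Finset.sum_congr rfl fun i _ => h1 i, Finset.sum_comp (fun b => (m b : ℝ) - 1) f]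
  have h4 : (n : ℝ) = ∑ b ∈ univ.image f, (m b : ℝ) := by
    have h5 := Finset.card_eq_sum_card_image f (univ : Finset (Fin n))
    rw [Finset.card_univ, Fintype.card_fin] at h5
    exact_mod_cast h5
  have h6 : ((univ.image f).card : ℝ) = ∑ b ∈ univ.image f, (1 : ℝ) := by
    rw [Finset.sum_const, nsmul_eq_mul, mul_one]
  rw [h6]
  nth_rewrite 1 [h4]
  rw [← Finset.sum_sub_distrib, Finset.mul_sum]
  refine Finset.sum_le_sum fun b hb => ?_
  obtain ⟨i, _, hi⟩ := Finset.mem_image.1 hb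
  have h7 : 1 ≤ m b := Finset.card_pos.2 ⟨i, by simp [hi]⟩
  rw [nsmul_eq_mul]
  show 2 * ((m b : ℝ) - 1) ≤ (m b : ℝ) * ((m b : ℝ) - 1)
  rcases Nat.lt_or_ge (m b) 2 with h8 | h8
  · have h9 : m b = 1 := by omega
    rw [h9]
    norm_num
  · have h9 : (2 : ℝ) ≤ m b := by exact_mod_cast h8
    exact mul_le_mul_of_nonneg_right h9 (by linarith)

theorem sum_range_zmod {q : ℕ} [NeZero q] (g : ZMod q → ℝ) :
    ∑ y ∈ range q, g (y : ZMod q) = ∑ y : ZMod q, g y := by
  refine Finset.sum_nbij' (fun y : ℕ => (y : ZMod q)) (fun z : ZMod q => z.val) ?_ ?_ ?_ ?_ ?_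
  · intro y _
    exact mem_univ _
  · intro z _
    exact mem_range.2 (ZMod.val_lt z)
  · intro y hy
    exact ZMod.val_cast_of_lt (mem_range.1 hy)
  · intro z _
    exact ZMod.natCast_zmod_val z
  · intro y _
    rfl

end Z02Aux

theorem local_factor {q : ℕ} (hq : q.Prime) {W a : ℕ} (hW : ¬ q ∣ W) (n : ℕ) (c : Fin n → ℕ) :
    ∑ y ∈ range q, ∏ i, (if q ∣ a + W * (y + c i) then (0 : ℝ) else (1 - 1 / (q : ℝ))⁻¹) ≤
      q * Real.exp (∑ i, ∑ j ∈ univ.erase i, if c i ≡ c j [MOD q] then 1 / (q : ℝ) else 0) := by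
  classical
  have _hfact : Fact q.Prime := ⟨hq⟩
  have hq2 : 2 ≤ q := hq.two_le
  have hqR : (2 : ℝ) ≤ q := by exact_mod_cast hq2
  have hq0 : (0 : ℝ) < q := by linarith
  have hinv : 1 / (q : ℝ) ≤ 1 / 2 := one_div_le_one_div_of_le two_pos hqR
  have hpos : 0 < 1 - 1 / (q : ℝ) := by linarith
  set x : ℝ := (1 - 1 / (q : ℝ))⁻¹ with hx
  have hxpos : 0 < x := inv_pos.2 hpos
  have hWz : (W : ZMod q) ≠ 0 := by
    rw [Ne, ZMod.natCast_eq_zero_iff]
    exact hW
  set f : Fin n → ZMod q := fun i => (c i : ZMod q) with hf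
  set S : Finset (ZMod q) := univ.image f with hS
  have hbad : ∀ (y : ℕ) (i : Fin n), q ∣ a + W * (y + c i) ↔
      f i = -(a : ZMod q) / W - (y : ZMod q) := by
    intro y i
    rw [← ZMod.natCast_eq_zero_iff]
    push_cast
    show _ ↔ (c i : ZMod q) = _
    constructor
    · intro h
      have h2 : (W : ZMod q) * (y + c i) = -(a : ZMod q) := by linear_combination h
      have h3 : ((y : ZMod q) + c i) = -(a : ZMod q) / W := by
        rw [← h2, mul_comm, mul_div_assoc, div_self hWz, mul_one]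
      linear_combination h3
    · intro h
      have h3 : ((y : ZMod q) + c i) = -(a : ZMod q) / W := by rw [h]; ring
      rw [h3, mul_div_assoc', mul_comm, mul_div_assoc, div_self hWz]
      ring
  have hprod : ∀ y : ℕ, ∏ i, (if q ∣ a + W * (y + c i) then (0 : ℝ) else x) =
      (fun t : ZMod q => if -(a : ZMod q) / W - t ∈ S then (0 : ℝ) else x ^ n) (y : ZMod q) := by
    intro y
    show _ = if -(a : ZMod q) / W - (y : ZMod q) ∈ S then (0 : ℝ) else x ^ n
    by_cases h : -(a : ZMod q) / W - (y : ZMod q) ∈ S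
    · rw [if_pos h]
      obtain ⟨i, _, hi⟩ := Finset.mem_image.1 h
      exact Finset.prod_eq_zero (mem_univ i) (if_pos ((hbad y i).2 hi))
    · rw [if_neg h]
      rw [Finset.prod_congr rfl (g := fun _ => x) fun i _ => if_neg ?_]
      · rw [Finset.prod_const, Finset.card_univ, Fintype.card_fin]
      · intro hd
        exact h (Finset.mem_image.2 ⟨i, mem_univ _, (hbad y i).1 hd⟩)
  have hsum : ∑ y ∈ range q, ∏ i, (if q ∣ a + W * (y + c i) then (0 : ℝ) else x) =
      ((q : ℝ) - S.card) * x ^ n := by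
    rw [Finset.sum_congr rfl fun y _ => hprod y, Z02Aux.sum_range_zmod
      (fun t : ZMod q => if -(a : ZMod q) / W - t ∈ S then (0 : ℝ) else x ^ n)]
    have h1 : ∑ t : ZMod q, (if -(a : ZMod q) / W - t ∈ S then (0 : ℝ) else x ^ n) =
        ∑ t : ZMod q, (if t ∈ S then (0 : ℝ) else x ^ n) :=
      Fintype.sum_equiv (Equiv.subLeft (-(a : ZMod q) / W)) _ _ fun t => rfl
    rw [h1]
    have h2 : ∀ t : ZMod q, (if t ∈ S then (0 : ℝ) else x ^ n) =
        x ^ n - (if t ∈ S then x ^ n else 0) := by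
      intro t
      by_cases h : t ∈ S
      · rw [if_pos h, if_pos h, sub_self]
      · rw [if_neg h, if_neg h, sub_zero]
    rw [Finset.sum_congr rfl fun t _ => h2 t, Finset.sum_sub_distrib, Finset.sum_ite_mem,
      Finset.univ_inter, Finset.sum_const, Finset.sum_const, Finset.card_univ, ZMod.card,
      nsmul_eq_mul, nsmul_eq_mul]
    ring
  have hνn : S.card ≤ n := by
    have h := Finset.card_image_le (s := (univ : Finset (Fin n))) (f := f)
    rwa [Finset.card_univ, Fintype.card_fin] at h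
  have hbern : 1 - (S.card : ℝ) / q ≤ (1 - 1 / (q : ℝ)) ^ S.card := by
    have h := one_add_mul_le_pow (a := -(1 / (q : ℝ))) (by linarith) S.card
    have e1 : 1 + (S.card : ℝ) * -(1 / (q : ℝ)) = 1 - (S.card : ℝ) / q := by ring
    have e2 : 1 + -(1 / (q : ℝ)) = 1 - 1 / (q : ℝ) := by ring
    rwa [e1, e2] at h
  have hxexp : x ≤ Real.exp (2 / q) := by
    have h1 : x = 1 + 1 / ((q : ℝ) - 1) := by
      rw [hx]
      have : (q : ℝ) - 1 ≠ 0 := by linarith
      have h0 : (q : ℝ) ≠ 0 := hq0.ne'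
      have h3 : 1 - 1 / (q : ℝ) = ((q : ℝ) - 1) / q := by field_simp
      rw [h3, inv_div]
      field_simp
      ring
    have h2 : 1 / ((q : ℝ) - 1) ≤ 2 / q := by
      rw [div_le_div_iff₀ (by linarith) hq0]
      linarith
    calc x = 1 / ((q : ℝ) - 1) + 1 := by rw [h1]; ring
      _ ≤ 2 / q + 1 := by linarith
      _ ≤ Real.exp (2 / q) := Real.add_one_le_exp _
  rw [hsum]
  have hkey : ((q : ℝ) - S.card) * x ^ n ≤ q * x ^ (n - S.card) := by
    have h1 : (q : ℝ) - S.card = q * (1 - (S.card : ℝ) / q) := by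
      have h0 : (q : ℝ) ≠ 0 := hq0.ne'
      field_simp
    rw [h1, mul_assoc]
    refine mul_le_mul_of_nonneg_left ?_ hq0.le
    calc (1 - (S.card : ℝ) / q) * x ^ n ≤ (1 - 1 / (q : ℝ)) ^ S.card * x ^ n :=
          mul_le_mul_of_nonneg_right hbern (pow_nonneg hxpos.le _)
      _ = (1 - 1 / (q : ℝ)) ^ S.card * (x ^ S.card * x ^ (n - S.card)) := by
          rw [← pow_add, Nat.add_sub_cancel' hνn]
      _ = ((1 - 1 / (q : ℝ)) * x) ^ S.card * x ^ (n - S.card) := by
          rw [mul_pow, mul_assoc]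
      _ = x ^ (n - S.card) := by
          rw [hx, mul_inv_cancel₀ hpos.ne', one_pow, one_mul]
  refine hkey.trans (mul_le_mul_of_nonneg_left ?_ hq0.le)
  have h1 : x ^ (n - S.card) ≤ Real.exp (2 / q * ((n : ℝ) - S.card)) := by
    calc x ^ (n - S.card) ≤ (Real.exp (2 / q)) ^ (n - S.card) :=
          pow_le_pow_left₀ hxpos.le hxexp _
      _ = Real.exp (2 / q * ((n : ℝ) - S.card)) := by
          rw [← Real.exp_nat_mul, Nat.cast_sub hνn]
          congr 1
          ring
  refine h1.trans (Real.exp_le_exp.2 ?_)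
  have h2 := Z02Aux.pairs_ge f
  have h3 : ∑ i, ∑ j ∈ univ.erase i, (if c i ≡ c j [MOD q] then 1 / (q : ℝ) else 0) =
      1 / (q : ℝ) * ∑ i, ∑ j ∈ univ.erase i, (if f i = f j then (1 : ℝ) else 0) := by
    rw [Finset.mul_sum]
    refine Finset.sum_congr rfl fun i _ => ?_
    rw [Finset.mul_sum]
    refine Finset.sum_congr rfl fun j _ => ?_
    by_cases h : c i ≡ c j [MOD q]
    · rw [if_pos h, if_pos ((ZMod.natCast_eq_natCast_iff _ _ _).2 h), mul_one]
    · rw [if_neg h, if_neg (fun h' => h ((ZMod.natCast_eq_natCast_iff _ _ _).1 h')), mul_zero]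
  rw [h3]
  have h4 : 2 / (q : ℝ) * ((n : ℝ) - S.card) = 1 / (q : ℝ) * (2 * ((n : ℝ) - S.card)) := by ring
  rw [h4]
  exact mul_le_mul_of_nonneg_left h2 (by positivity)

end Pool.Agent.Lib.MG
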