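import Pool.Agent.Lib.MP_7b7e48_nt.MG.Z01
import Pool.Agent.Lib.MP_7b7e48_nt.MG.Z02

/-!
# Z03: the weight `Lz` is pseudorandom

`corr`: `Lz (M + c i)` depends only on the residues `(M.val + (c i).val) % q`, `q ∈ Q`
(`ZMod.val_add`, `Nat.mod_mod_of_dvd`), so `∏ i, Lz (M + c i) = ∏ q ∈ Q, f q (M.val % q)` with
`f q y = ∏ i, if q ∣ a + W * (y + (c i).val) then 0 else (1-1/q)⁻¹` (`Finset.prod_comm`); use
`crt_sum` and `local_factor`; `q ∣ (c i - c j).val ↔ (c i).val ≡ (c j).val [MOD q]`; the product of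
the exponentials is the exponential of the sum.
`expo`: `exp (z * Az d) = ∏ q ∈ Q, exp (if q ∣ d.val then z / q else 0)`, `crt_sum`:
`∑ d = N * ∏ q ∈ Q, (1 + (exp (z/q) - 1) / q)`, and `exp u - 1 ≤ 2 u` for `0 ≤ u ≤ 1`
(`u = z / q < 1`), so the product is `≤ exp (∑ 2 z / q ^ 2) ≤ exp 2`, because
`∑_{n > z} 1 / n ^ 2 ≤ 1 / z` (telescoping, `1/n^2 ≤ 1/(n-1) - 1/n`).
-/

open Finset

namespace Pool.Agent.Lib.MG

theorem val_add_modEq {N q : ℕ} [NeZero N] (hq : q ∣ N) (x y : ZMod N) :
    (x + y).val ≡ x.val + y.val [MOD q] := by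
  rw [ZMod.val_add]
  exact Nat.mod_mod_of_dvd _ hq

theorem dvd_val_sub_iff {N q : ℕ} [NeZero N] (hq : q ∣ N) (x y : ZMod N) :
    q ∣ (x - y).val ↔ x.val ≡ y.val [MOD q] := by
  have h1 : x.val ≡ (x - y).val + y.val [MOD q] := by
    have h := val_add_modEq hq (x - y) y
    rwa [sub_add_cancel] at h
  constructor
  · intro h
    have h2 : (x - y).val ≡ 0 [MOD q] := (Nat.modEq_zero_iff_dvd).mpr h
    have h3 : (x - y).val + y.val ≡ 0 + y.val [MOD q] := Nat.ModEq.add_right _ h2
    rw [zero_add] at h3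
    exact h1.trans h3
  · intro h
    have h2 : (x - y).val + y.val ≡ 0 + y.val [MOD q] := by
      rw [zero_add]
      exact h1.symm.trans h
    have h3 : (x - y).val ≡ 0 [MOD q] := Nat.ModEq.add_right_cancel' _ h2
    exact (Nat.modEq_zero_iff_dvd).mp h3

theorem sum_inv_sq_le {Q : Finset ℕ} {z : ℕ} (hz : 1 ≤ z) (hQ : ∀ q ∈ Q, z < q) :
    ∑ q ∈ Q, 1 / (q : ℝ) ^ 2 ≤ 1 / (z : ℝ) := by
  have key : ∀ M : ℕ, z ≤ M →
      ∑ n ∈ Finset.Ioc z M, (1 / ((n : ℝ) - 1) - 1 / (n : ℝ)) = 1 / (z : ℝ) - 1 / (M : ℝ) := by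
    intro M hM
    induction M, hM using Nat.le_induction with
    | base => simp
    | succ M hM ih =>
      rw [Finset.sum_Ioc_succ_top hM, ih]
      push_cast
      rw [add_sub_cancel_right]
      ring
  have hsub : Q ⊆ Finset.Ioc z (max z (Q.sup id)) := by
    intro q hq
    rw [Finset.mem_Ioc]
    refine ⟨hQ q hq, ?_⟩
    exact le_trans (Finset.le_sup (f := id) hq) (le_max_right _ _)
  have hzr : (1 : ℝ) ≤ z := by exact_mod_cast hz
  have hterm : ∀ n : ℕ, z < n → 1 / (n : ℝ) ^ 2 ≤ 1 / ((n : ℝ) - 1) - 1 / (n : ℝ) := by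
    intro n hn
    have h1 : (z : ℝ) < n := by exact_mod_cast hn
    have h2 : (0 : ℝ) < (n : ℝ) - 1 := by linarith
    have h3 : (0 : ℝ) < n := by linarith
    have h4 : 1 / ((n : ℝ) - 1) - 1 / (n : ℝ) = 1 / (((n : ℝ) - 1) * n) := by
      field_simp
      ring
    rw [h4]
    apply one_div_le_one_div_of_le (mul_pos h2 h3)
    nlinarith
  calc ∑ q ∈ Q, 1 / (q : ℝ) ^ 2 ≤ ∑ q ∈ Finset.Ioc z (max z (Q.sup id)), 1 / (q : ℝ) ^ 2 :=
        Finset.sum_le_sum_of_subset_of_nonneg hsub (fun _ _ _ => by positivity)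
    _ ≤ ∑ n ∈ Finset.Ioc z (max z (Q.sup id)), (1 / ((n : ℝ) - 1) - 1 / (n : ℝ)) := by
        apply Finset.sum_le_sum
        intro n hn
        exact hterm n (Finset.mem_Ioc.mp hn).1
    _ = 1 / (z : ℝ) - 1 / ((max z (Q.sup id) : ℕ) : ℝ) := key _ (le_max_left _ _)
    _ ≤ 1 / (z : ℝ) := by
        have : (0 : ℝ) ≤ 1 / ((max z (Q.sup id) : ℕ) : ℝ) := by positivity
        linarith

theorem ps_zmod {N : ℕ} [NeZero N] {Q : Finset ℕ} {z : ℕ} (hz : 1 ≤ z)
    (hQ : ∀ q ∈ Q, q.Prime ∧ z < q ∧ q ∣ N) {a W : ℕ} (hW : ∀ q ∈ Q, ¬ q ∣ W) :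
    PS (z : ℝ) (Lz Q a W (N := N)) (Az Q) := by
  have hQ' : ∀ q ∈ Q, q.Prime ∧ q ∣ N := fun q hq => ⟨(hQ q hq).1, (hQ q hq).2.2⟩
  have hfac : ∀ q ∈ Q, (0 : ℝ) ≤ (1 - 1 / (q : ℝ))⁻¹ := by
    intro q hq
    have h2 : (2 : ℝ) ≤ q := by exact_mod_cast (hQ q hq).1.two_le
    have h3 : 1 / (q : ℝ) ≤ 1 := by
      rw [div_le_one (by linarith)]
      linarith
    exact inv_nonneg.mpr (by linarith)
  have hcard : (Fintype.card (ZMod N) : ℝ) = N := by rw [ZMod.card]
  refine ⟨?_, ?_, ?_, ?_⟩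
  · intro x
    unfold Lz
    apply Finset.prod_nonneg
    intro q hq
    split_ifs
    · exact le_rfl
    · exact hfac q hq
  · intro x
    unfold Az
    apply Finset.sum_nonneg
    intro q _
    split_ifs
    · positivity
    · exact le_rfl
  · intro n c
    rw [hcard]
    have h1 : ∀ M : ZMod N, ∏ i, Lz Q a W (M + c i) = ∏ q ∈ Q, ∏ i : Fin n,
        (if q ∣ a + W * (M.val % q + (c i).val) then (0 : ℝ) else (1 - 1 / (q : ℝ))⁻¹) := by
      intro M
      unfold Lz
      rw [Finset.prod_comm]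
      apply Finset.prod_congr rfl
      intro q hq
      apply Finset.prod_congr rfl
      intro i _
      have h2 : (q ∣ a + W * (M + c i).val) ↔ (q ∣ a + W * (M.val % q + (c i).val)) := by
        have h3 : (M + c i).val ≡ M.val % q + (c i).val [MOD q] :=
          (val_add_modEq (hQ q hq).2.2 M (c i)).trans
            (Nat.ModEq.add_right _ (Nat.mod_modEq _ _).symm)
        have h4 : a + W * (M + c i).val ≡ a + W * (M.val % q + (c i).val) [MOD q] :=
          Nat.ModEq.add_left _ (Nat.ModEq.mul_left _ h3)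
        rw [← Nat.modEq_zero_iff_dvd, ← Nat.modEq_zero_iff_dvd]
        exact ⟨fun h => h4.symm.trans h, fun h => h4.trans h⟩
      by_cases h5 : q ∣ a + W * (M + c i).val
      · rw [if_pos h5, if_pos (h2.mp h5)]
      · rw [if_neg h5, if_neg (fun h => h5 (h2.mpr h))]
    have h2 := crt_sum (N := N) Q hQ' (fun q y => ∏ i : Fin n,
        (if q ∣ a + W * (y + (c i).val) then (0 : ℝ) else (1 - 1 / (q : ℝ))⁻¹))
    calc ∑ M : ZMod N, ∏ i, Lz Q a W (M + c i) = ∑ M : ZMod N, ∏ q ∈ Q, ∏ i : Fin n,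
          (if q ∣ a + W * (M.val % q + (c i).val) then (0 : ℝ) else (1 - 1 / (q : ℝ))⁻¹) :=
          Finset.sum_congr rfl (fun M _ => h1 M)
      _ = (N : ℝ) * ∏ q ∈ Q, ((∑ y ∈ range q, ∏ i : Fin n,
          (if q ∣ a + W * (y + (c i).val) then (0 : ℝ) else (1 - 1 / (q : ℝ))⁻¹)) / q) := h2
      _ ≤ (N : ℝ) * ∏ q ∈ Q, Real.exp (∑ i, ∑ j ∈ univ.erase i,
          if (c i).val ≡ (c j).val [MOD q] then 1 / (q : ℝ) else 0) := by
          apply mul_le_mul_of_nonneg_left _ (Nat.cast_nonneg _)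
          apply Finset.prod_le_prod
          · intro q hq
            apply div_nonneg _ (Nat.cast_nonneg _)
            apply Finset.sum_nonneg
            intro y _
            apply Finset.prod_nonneg
            intro i _
            split_ifs
            · exact le_rfl
            · exact hfac q hq
          · intro q hq
            have hq0 : (0 : ℝ) < q := by exact_mod_cast (hQ q hq).1.pos
            rw [div_le_iff₀ hq0, mul_comm (Real.exp _) (q : ℝ)]
            exact local_factor (hQ q hq).1 (hW q hq) n (fun i => (c i).val)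
      _ = (N : ℝ) * Real.exp (∑ i, ∑ j ∈ univ.erase i, Az Q (c i - c j)) := by
          rw [← Real.exp_sum]
          congr 2
          rw [Finset.sum_comm]
          apply Finset.sum_congr rfl
          intro i _
          rw [Finset.sum_comm]
          apply Finset.sum_congr rfl
          intro j _
          unfold Az
          apply Finset.sum_congr rfl
          intro q hq
          have h3 := dvd_val_sub_iff (hQ q hq).2.2 (c i) (c j)
          by_cases h5 : (c i).val ≡ (c j).val [MOD q]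
          · rw [if_pos h5, if_pos (h3.mpr h5)]
          · rw [if_neg h5, if_neg (fun h => h5 (h3.mp h))]
  · rw [hcard]
    have h1 : ∀ d : ZMod N, Real.exp ((z : ℝ) * Az Q d) =
        ∏ q ∈ Q, Real.exp (if q ∣ d.val % q then (z : ℝ) / q else 0) := by
      intro d
      rw [← Real.exp_sum]
      congr 1
      unfold Az
      rw [Finset.mul_sum]
      apply Finset.sum_congr rfl
      intro q _
      have h2 : q ∣ d.val ↔ q ∣ d.val % q := by
        rw [Nat.dvd_mod_iff (dvd_refl q)]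
      by_cases h3 : q ∣ d.val
      · rw [if_pos h3, if_pos (h2.mp h3)]
        ring
      · rw [if_neg h3, if_neg (fun h => h3 (h2.mpr h)), mul_zero]
    have h2 := crt_sum (N := N) Q hQ'
      (fun q y => Real.exp (if q ∣ y then (z : ℝ) / q else 0))
    have h3 : ∀ q ∈ Q, (∑ y ∈ range q, Real.exp (if q ∣ y then (z : ℝ) / q else 0)) / q ≤
        Real.exp (2 * z * (1 / (q : ℝ) ^ 2)) := by
      intro q hq
      have hqp := (hQ q hq).1
      have hzq := (hQ q hq).2.1
      have hq0 : (0 : ℝ) < q := by exact_mod_cast hqp.pos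
      have hz0 : (0 : ℝ) ≤ z := Nat.cast_nonneg _
      have hzqr : (z : ℝ) ≤ q := by exact_mod_cast hzq.le
      have h4 : ∑ y ∈ range q, Real.exp (if q ∣ y then (z : ℝ) / q else 0) =
          (q : ℝ) + (Real.exp ((z : ℝ) / q) - 1) := by
        have h5 : ∀ y ∈ range q, Real.exp (if q ∣ y then (z : ℝ) / q else 0) =
            1 + (if y = 0 then Real.exp ((z : ℝ) / q) - 1 else 0) := by
          intro y hy
          rw [Finset.mem_range] at hy
          by_cases h6 : y = 0
          · subst h6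
            rw [if_pos (dvd_zero q), if_pos rfl]
            ring
          · rw [if_neg (fun h => absurd (Nat.le_of_dvd (Nat.pos_of_ne_zero h6) h) (by omega)),
              if_neg h6, Real.exp_zero, add_zero]
        rw [Finset.sum_congr rfl h5, Finset.sum_add_distrib, Finset.sum_const, Finset.card_range,
          Finset.sum_ite_eq' (range q) 0, if_pos (Finset.mem_range.mpr hqp.pos), nsmul_eq_mul,
          mul_one]
      have h7 : Real.exp ((z : ℝ) / q) - 1 ≤ 2 * ((z : ℝ) / q) := by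
        have h8 : 0 ≤ (z : ℝ) / q := div_nonneg hz0 hq0.le
        have h9 : (z : ℝ) / q ≤ 1 := by
          rw [div_le_one hq0]
          exact hzqr
        have h10 := Real.abs_exp_sub_one_le (x := (z : ℝ) / q) (by rw [abs_of_nonneg h8]; exact h9)
        rw [abs_of_nonneg h8] at h10
        exact le_trans (le_abs_self _) h10
      rw [h4]
      calc ((q : ℝ) + (Real.exp ((z : ℝ) / q) - 1)) / q ≤ ((q : ℝ) + 2 * ((z : ℝ) / q)) / q := by
            apply div_le_div_of_nonneg_right _ hq0.le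
            linarith
        _ = 2 * z * (1 / (q : ℝ) ^ 2) + 1 := by
            field_simp
            ring
        _ ≤ Real.exp (2 * z * (1 / (q : ℝ) ^ 2)) := Real.add_one_le_exp _
    calc ∑ d : ZMod N, Real.exp ((z : ℝ) * Az Q d) =
          ∑ d : ZMod N, ∏ q ∈ Q, Real.exp (if q ∣ d.val % q then (z : ℝ) / q else 0) :=
          Finset.sum_congr rfl (fun d _ => h1 d)
      _ = (N : ℝ) * ∏ q ∈ Q,
          ((∑ y ∈ range q, Real.exp (if q ∣ y then (z : ℝ) / q else 0)) / q) := h2
      _ ≤ (N : ℝ) * ∏ q ∈ Q, Real.exp (2 * z * (1 / (q : ℝ) ^ 2)) := by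
          apply mul_le_mul_of_nonneg_left _ (Nat.cast_nonneg _)
          apply Finset.prod_le_prod
          · intro q _
            apply div_nonneg _ (Nat.cast_nonneg _)
            exact Finset.sum_nonneg (fun y _ => (Real.exp_pos _).le)
          · exact h3
      _ = (N : ℝ) * Real.exp (2 * z * ∑ q ∈ Q, 1 / (q : ℝ) ^ 2) := by
          rw [← Real.exp_sum, ← Finset.mul_sum]
      _ ≤ (N : ℝ) * Real.exp 2 := by
          apply mul_le_mul_of_nonneg_left _ (Nat.cast_nonneg _)
          apply Real.exp_le_exp.mpr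
          have h5 := sum_inv_sq_le hz (fun q hq => (hQ q hq).2.1)
          have hz0 : (0 : ℝ) < z := by exact_mod_cast hz
          calc 2 * (z : ℝ) * ∑ q ∈ Q, 1 / (q : ℝ) ^ 2 ≤ 2 * z * (1 / z) := by
                apply mul_le_mul_of_nonneg_left h5
                positivity
            _ = 2 := by field_simp

end Pool.Agent.Lib.MG
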