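import Pool.Agent.Lib.MP_7b7e48_nt.MG.B01

/-!
# Z04: Bohr sets of the standard character are intervals

For `k : ℤ`, `‖stdAddChar (k : ZMod N) - 1‖ = 2 |sin (π k / N)|` (`ZMod.stdAddChar_coe`,
`Complex.norm_exp_I_mul_ofReal_sub_one` or a direct computation).  For `|k| ≤ N / 2`:
`4 |k| / N ≤ 2 |sin (π k / N)| ≤ 2 π |k| / N` (Jordan's inequality `Real.mul_le_sin`), and
`k ↦ 2 |sin (π k / N)|` is monotone in `|k| ≤ N / 2` (`Real.sin` monotone on `[0, π/2]`).  Let `H`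
be the largest integer `0 ≤ H ≤ N / 2` with `2 sin (π H / N) ≤ ρ`; `2 H < N` because
`2 sin (π / 2) = 2 > ρ`; `H ≤ ρ N / 4` by the lower bound, `H ≥ ρ N / 8 - 1` because
`2 π k / N ≤ ρ` for `k ≤ ρ N / 8`.  Every `x : ZMod N` is `(k : ZMod N)` for some `|k| ≤ N / 2`
(`ZMod.valMinAbs`).
-/

open Finset

namespace Pool.Agent.Lib.MG

/-- the norm for integers, as a sine -/
theorem norm_std_int {N : ℕ} [NeZero N] (k : ℤ) (hk : 2 * k.natAbs ≤ N) :
    ‖(ZMod.stdAddChar (k : ZMod N) : ℂ) - 1‖ = 2 * Real.sin (Real.pi * (k.natAbs : ℝ) / N) := by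
  have hN : (0 : ℝ) < N := by exact_mod_cast Nat.pos_of_ne_zero (NeZero.ne N)
  rw [ZMod.stdAddChar_coe]
  have e1 : (2 * (Real.pi : ℂ) * Complex.I * (k : ℂ) / (N : ℂ)) =
      Complex.I * ((2 * Real.pi * (k : ℝ) / (N : ℝ) : ℝ) : ℂ) := by
    push_cast
    ring
  rw [e1, Complex.norm_exp_I_mul_ofReal_sub_one]
  have e2 : 2 * Real.pi * (k : ℝ) / (N : ℝ) / 2 = Real.pi * (k : ℝ) / N := by ring
  rw [e2, norm_mul, Real.norm_eq_abs, Real.norm_eq_abs, abs_two]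
  have hk0 : (0 : ℝ) ≤ (k.natAbs : ℝ) := Nat.cast_nonneg _
  have h1 : (0 : ℝ) ≤ Real.pi * (k.natAbs : ℝ) / N :=
    div_nonneg (mul_nonneg Real.pi_pos.le hk0) hN.le
  have h2 : Real.pi * (k.natAbs : ℝ) / N ≤ Real.pi := by
    rw [div_le_iff₀ hN]
    have : (2 : ℝ) * (k.natAbs : ℝ) ≤ N := by exact_mod_cast hk
    exact mul_le_mul_of_nonneg_left (by linarith) Real.pi_pos.le
  have h3 : 0 ≤ Real.sin (Real.pi * (k.natAbs : ℝ) / N) := Real.sin_nonneg_of_nonneg_of_le_pi h1 h2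
  congr 1
  rcases Int.natAbs_eq k with h | h
  · have hc : (k : ℝ) = (k.natAbs : ℝ) := by
      conv_lhs => rw [h]
      simp
    rw [hc, abs_of_nonneg h3]
  · have hc : (k : ℝ) = -(k.natAbs : ℝ) := by
      conv_lhs => rw [h]
      simp
    rw [hc]
    have e3 : Real.pi * -(k.natAbs : ℝ) / N = -(Real.pi * (k.natAbs : ℝ) / N) := by ring
    rw [e3, Real.sin_neg, abs_neg, abs_of_nonneg h3]

theorem bohr_interval {N : ℕ} [NeZero N] {ρ : ℝ} (hρ : 0 ≤ ρ) (hρ1 : ρ ≤ 1) :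
    ∃ H : ℕ, 2 * H < N ∧ (H : ℝ) ≤ ρ * N / 4 ∧ ρ * N / 8 - 1 ≤ (H : ℝ) ∧
      ∀ x : ZMod N, ‖(ZMod.stdAddChar x : ℂ) - 1‖ ≤ ρ ↔ ∃ k : ℤ, |k| ≤ (H : ℤ) ∧ x = (k : ZMod N) := by
  classical
  have hN : (0 : ℝ) < N := by exact_mod_cast Nat.pos_of_ne_zero (NeZero.ne N)
  have hpi := Real.pi_pos
  set P : ℕ → Prop := fun k => 2 * Real.sin (Real.pi * (k : ℝ) / N) ≤ ρ with hP
  set H := Nat.findGreatest P (N / 2) with hH
  have hP0 : P 0 := by
    simp only [hP, Nat.cast_zero, mul_zero, zero_div, Real.sin_zero]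
    exact hρ
  have hPH : P H := Nat.findGreatest_spec (P := P) (Nat.zero_le _) hP0
  have hHN : 2 * H ≤ N := by
    have : H ≤ N / 2 := Nat.findGreatest_le _
    omega
  have hHNr : 2 * (H : ℝ) ≤ N := by exact_mod_cast hHN
  have hx0 : 0 ≤ Real.pi * (H : ℝ) / N := div_nonneg (mul_nonneg hpi.le (Nat.cast_nonneg _)) hN.le
  have hx1 : Real.pi * (H : ℝ) / N ≤ Real.pi / 2 := by
    rw [div_le_iff₀ hN]
    nlinarith [mul_nonneg hpi.le (sub_nonneg.2 hHNr)]
  have hlow : 2 * ((H : ℝ) / N) ≤ Real.sin (Real.pi * (H : ℝ) / N) := by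
    have h := Real.mul_le_sin hx0 hx1
    have e : 2 / Real.pi * (Real.pi * (H : ℝ) / N) = 2 * ((H : ℝ) / N) := by
      field_simp
    rwa [e] at h
  have hle : (H : ℝ) ≤ ρ * N / 4 := by
    have h : 2 * Real.sin (Real.pi * (H : ℝ) / N) ≤ ρ := hPH
    have h2 : 4 * ((H : ℝ) / N) ≤ ρ := by linarith
    have h3 : 4 * ((H : ℝ) / N) * N ≤ ρ * N := mul_le_mul_of_nonneg_right h2 hN.le
    have h4 : 4 * ((H : ℝ) / N) * N = 4 * (H : ℝ) := by
      field_simp
    linarith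
  refine ⟨H, ?_, hle, ?_, ?_⟩
  · have h5 : (H : ℝ) ≤ N / 4 := by
      have : ρ * N ≤ 1 * N := mul_le_mul_of_nonneg_right hρ1 hN.le
      linarith
    have h6 : 2 * (H : ℝ) < N := by linarith
    exact_mod_cast h6
  · set m := ⌊ρ * N / 8⌋₊ with hm
    have hnn : 0 ≤ ρ * N / 8 := by positivity
    have hm1 : (m : ℝ) ≤ ρ * N / 8 := Nat.floor_le hnn
    have hm2 : ρ * N / 8 < m + 1 := Nat.lt_floor_add_one _
    have hm3 : m ≤ N / 2 := by
      have : (m : ℝ) ≤ N / 2 := by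
        have : ρ * N ≤ 1 * N := mul_le_mul_of_nonneg_right hρ1 hN.le
        linarith
      have h7 : (2 : ℝ) * m ≤ N := by linarith
      have h8 : 2 * m ≤ N := by exact_mod_cast h7
      omega
    have hPm : P m := by
      have h9 : Real.sin (Real.pi * (m : ℝ) / N) ≤ Real.pi * (m : ℝ) / N :=
        Real.sin_le (div_nonneg (mul_nonneg hpi.le (Nat.cast_nonneg _)) hN.le)
      have h10 : Real.pi * (m : ℝ) / N ≤ Real.pi * (ρ / 8) := by
        rw [div_le_iff₀ hN]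
        nlinarith [mul_le_mul_of_nonneg_left hm1 hpi.le]
      have h11 : Real.pi * (ρ / 8) ≤ 4 * (ρ / 8) :=
        mul_le_mul_of_nonneg_right Real.pi_le_four (by positivity)
      change 2 * Real.sin (Real.pi * (m : ℝ) / N) ≤ ρ
      linarith
    have h12 : m ≤ H := Nat.le_findGreatest hm3 hPm
    have h13 : (m : ℝ) ≤ H := by exact_mod_cast h12
    linarith
  · intro x
    constructor
    · intro hx
      have h1 : x.valMinAbs.natAbs ≤ N / 2 := ZMod.natAbs_valMinAbs_le x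
      have h2 : 2 * x.valMinAbs.natAbs ≤ N := by omega
      have h3 := norm_std_int (N := N) x.valMinAbs h2
      rw [ZMod.coe_valMinAbs] at h3
      rw [h3] at hx
      have h4 : x.valMinAbs.natAbs ≤ H := Nat.le_findGreatest (P := P) h1 hx
      refine ⟨x.valMinAbs, ?_, (ZMod.coe_valMinAbs x).symm⟩
      rw [Int.abs_eq_natAbs]
      exact_mod_cast h4
    · rintro ⟨k, hk, rfl⟩
      have h4 : k.natAbs ≤ H := by
        rw [Int.abs_eq_natAbs] at hk
        exact_mod_cast hk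
      rw [norm_std_int k (by omega)]
      have h5 : Real.sin (Real.pi * (k.natAbs : ℝ) / N) ≤ Real.sin (Real.pi * (H : ℝ) / N) := by
        refine Real.sin_le_sin_of_le_of_le_pi_div_two ?_ hx1 ?_
        · have : 0 ≤ Real.pi * (k.natAbs : ℝ) / N :=
            div_nonneg (mul_nonneg hpi.le (Nat.cast_nonneg _)) hN.le
          linarith
        · have h6 : (k.natAbs : ℝ) ≤ H := by exact_mod_cast h4
          exact div_le_div_of_nonneg_right (mul_le_mul_of_nonneg_left h6 hpi.le) hN.le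
      have h7 : 2 * Real.sin (Real.pi * (H : ℝ) / N) ≤ ρ := hPH
      linarith

/-- averages over such a Bohr set are averages over an interval -/
theorem ex_interval {N : ℕ} [NeZero N] {ρ : ℝ} {H : ℕ} (hH : 2 * H < N)
    (h : ∀ x : ZMod N, ‖(ZMod.stdAddChar x : ℂ) - 1‖ ≤ ρ ↔
      ∃ k : ℤ, |k| ≤ (H : ℤ) ∧ x = (k : ZMod N)) (f : ZMod N → ℝ) :
    Ex (unif (Bohr {(ZMod.stdAddChar : AddChar (ZMod N) ℂ)} ρ)) f =
      (∑ k ∈ Finset.Icc (-(H : ℤ)) H, f (k : ZMod N)) / (2 * H + 1) := by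
  classical
  have hB : Bohr {(ZMod.stdAddChar : AddChar (ZMod N) ℂ)} ρ =
      (Finset.Icc (-(H : ℤ)) H).image (fun k : ℤ => (k : ZMod N)) := by
    ext x
    rw [mem_bohr, Finset.mem_image]
    constructor
    · intro hx
      obtain ⟨k, hk, rfl⟩ := (h x).1 (hx _ (Finset.mem_singleton_self _))
      exact ⟨k, Finset.mem_Icc.2 (abs_le.1 hk), rfl⟩
    · rintro ⟨k, hk, rfl⟩ ψ hψ
      rw [Finset.mem_singleton.1 hψ]
      exact (h _).2 ⟨k, abs_le.2 (Finset.mem_Icc.1 hk), rfl⟩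
  have hinj : Set.InjOn (fun k : ℤ => (k : ZMod N)) (Finset.Icc (-(H : ℤ)) H : Finset ℤ) := by
    intro a ha b hb hab
    have ha' := Finset.mem_Icc.1 (Finset.mem_coe.1 ha)
    have hb' := Finset.mem_Icc.1 (Finset.mem_coe.1 hb)
    have h1 : (N : ℤ) ∣ b - a := (ZMod.intCast_eq_intCast_iff_dvd_sub a b N).1 hab
    have h2 : b - a = 0 := by
      refine Int.eq_zero_of_abs_lt_dvd h1 ?_
      rw [abs_lt]
      constructor <;> omega
    omega
  have hcard : (Bohr {(ZMod.stdAddChar : AddChar (ZMod N) ℂ)} ρ).card = 2 * H + 1 := by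
    rw [hB, Finset.card_image_of_injOn hinj, Int.card_Icc]
    omega
  unfold Ex unif
  have h1 : ∀ x : ZMod N, (if x ∈ Bohr {(ZMod.stdAddChar : AddChar (ZMod N) ℂ)} ρ then
      ((Bohr {(ZMod.stdAddChar : AddChar (ZMod N) ℂ)} ρ).card : ℝ)⁻¹ else 0) * f x =
      if x ∈ Bohr {(ZMod.stdAddChar : AddChar (ZMod N) ℂ)} ρ then
      ((Bohr {(ZMod.stdAddChar : AddChar (ZMod N) ℂ)} ρ).card : ℝ)⁻¹ * f x else 0 := by
    intro x
    split_ifs
    · rfl
    · rw [zero_mul]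
  rw [Finset.sum_congr rfl (fun x _ => h1 x), Finset.sum_ite_mem, Finset.univ_inter,
    ← Finset.mul_sum, hcard, hB, Finset.sum_image (fun a ha b hb hab => hinj ha hb hab)]
  push_cast
  rw [div_eq_inv_mul]

end Pool.Agent.Lib.MG
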